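import Pool.Agent.BLE.SB

/-!
# BLE / DA: boolean operations and change of coordinates for definable sets
-/

set_option autoImplicit false

namespace Pool.Agent.BLE

open Function

variable {σ : Sig} {M : Type} {S : Str M} {A B : Set M} {I J : Type}

theorem Dfn.mono {X : Set (I → M)} (h : Dfn σ S A X) (hAB : A ⊆ B) : Dfn σ S B X := by
  obtain ⟨φ, ρ, h1, h2⟩ := h
  exact ⟨φ, ρ, fun t ht a ha => hAB (h1 t ht a ha), h2⟩

theorem Dfn.compl {X : Set (I → M)} (h : Dfn σ S A X) : Dfn σ S A Xᶜ := by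
  obtain ⟨φ, ρ, h1, h2⟩ := h
  refine ⟨φ.neg, ρ, fun t ht a ha => h1 t (by rwa [fv_neg] at ht) a ha, fun x => ?_⟩
  rw [sat_neg, Set.mem_compl_iff, h2]

theorem Dfn.inter {X Y : Set (I → M)} (h : Dfn σ S A X) (h' : Dfn σ S A Y) :
    Dfn σ S A (X ∩ Y) := by
  obtain ⟨φ₁, ρ₁, h1, h2⟩ := h
  obtain ⟨φ₂, ρ₂, h3, h4⟩ := h'
  have i1 : Injective (fun t : ℕ => 2 * t) := fun a b hab => by
    have hab' : 2 * a = 2 * b := hab
    omega
  have i2 : Injective (fun t : ℕ => 2 * t + 1) := fun a b hab => by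
    have hab' : 2 * a + 1 = 2 * b + 1 := hab
    omega
  obtain ⟨ρ, hρ⟩ : ∃ ρ : ℕ → I ⊕ M, ρ = fun t => if t % 2 = 0 then ρ₁ (t / 2) else ρ₂ (t / 2) :=
    ⟨_, rfl⟩
  have e1 : ∀ s, ρ (2 * s) = ρ₁ s := by
    intro s
    rw [hρ]
    show (if 2 * s % 2 = 0 then ρ₁ (2 * s / 2) else ρ₂ (2 * s / 2)) = ρ₁ s
    rw [if_pos (by omega), show 2 * s / 2 = s by omega]
  have e2 : ∀ s, ρ (2 * s + 1) = ρ₂ s := by
    intro s
    rw [hρ]
    show (if (2 * s + 1) % 2 = 0 then ρ₁ ((2 * s + 1) / 2) else ρ₂ ((2 * s + 1) / 2)) = ρ₂ s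
    rw [if_neg (by omega), show (2 * s + 1) / 2 = s by omega]
  refine ⟨(φ₁.ren (fun t => 2 * t)).and (φ₂.ren (fun t => 2 * t + 1)), ρ, ?_, fun x => ?_⟩
  · intro t ht a ha
    rw [fv_and, fv_ren i1, fv_ren i2, Finset.mem_union] at ht
    rcases ht with ht | ht
    · obtain ⟨s, hs, rfl⟩ := Finset.mem_image.1 ht
      exact h1 s hs a ((e1 s).symm.trans ha)
    · obtain ⟨s, hs, rfl⟩ := Finset.mem_image.1 ht
      exact h3 s hs a ((e2 s).symm.trans ha)
  · rw [sat_and, sat_ren i1, sat_ren i2, Set.mem_inter_iff, h2, h4]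
    have f1 : ((fun t => Sum.elim x id (ρ t)) ∘ fun t : ℕ => 2 * t) =
        fun t => Sum.elim x id (ρ₁ t) := by
      funext s
      show Sum.elim x id (ρ (2 * s)) = _
      rw [e1]
    have f2 : ((fun t => Sum.elim x id (ρ t)) ∘ fun t : ℕ => 2 * t + 1) =
        fun t => Sum.elim x id (ρ₂ t) := by
      funext s
      show Sum.elim x id (ρ (2 * s + 1)) = _
      rw [e2]
    rw [f1, f2]

theorem Dfn.union {X Y : Set (I → M)} (h : Dfn σ S A X) (h' : Dfn σ S A Y) :
    Dfn σ S A (X ∪ Y) := by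
  have h1 := (h.compl.inter h'.compl).compl
  rwa [Set.compl_inter, compl_compl, compl_compl] at h1

theorem Dfn.univ [Nonempty M] : Dfn σ S A (Set.univ : Set (I → M)) := by
  refine ⟨Fml.top, fun _ => Sum.inr (Classical.arbitrary M), fun t ht => ?_, fun x => ?_⟩
  · rw [fv_top] at ht
    exact absurd ht (Finset.notMem_empty t)
  · exact ⟨fun _ => sat_top, fun _ => Set.mem_univ x⟩

theorem Dfn.comap {X : Set (I → M)} (h : Dfn σ S A X) (f : I → J ⊕ M)
    (hf : ∀ i a, f i = Sum.inr a → a ∈ A) :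
    Dfn σ S A {x : J → M | (fun i => Sum.elim x id (f i)) ∈ X} := by
  obtain ⟨φ, ρ, h1, h2⟩ := h
  refine ⟨φ, fun t => Sum.elim f Sum.inr (ρ t), fun t ht a ha => ?_, fun x => ?_⟩
  · have ha' : Sum.elim f Sum.inr (ρ t) = Sum.inr a := ha
    rcases hρ : ρ t with i | b
    · rw [hρ] at ha'
      exact hf i a ha'
    · rw [hρ] at ha'
      have hb : b = a := Sum.inr.inj ha'
      exact h1 t ht a (by rw [hρ, hb])
  · show (fun i => Sum.elim x id (f i)) ∈ X ↔ Sat σ S (fun t =>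
      Sum.elim x id (Sum.elim f Sum.inr (ρ t))) φ
    rw [h2]
    have e : (fun t => Sum.elim (fun i => Sum.elim x id (f i)) id (ρ t)) =
        fun t => Sum.elim x id (Sum.elim f Sum.inr (ρ t)) := by
      funext t
      rcases ρ t with i | b
      · rfl
      · rfl
    rw [e]

theorem Dfn.reindex {X : Set (I → M)} (h : Dfn σ S A X) (f : I → J) :
    Dfn σ S A {x : J → M | (fun i => x (f i)) ∈ X} := by
  exact h.comap (fun i => Sum.inl (f i)) (fun i a hi => by cases hi)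

theorem Dfn.eq (i j : I ⊕ M) (hi : ∀ a, i = Sum.inr a → a ∈ A) (hj : ∀ a, j = Sum.inr a → a ∈ A) :
    Dfn σ S A {x : I → M | Sum.elim x id i = Sum.elim x id j} := by
  refine ⟨.eq 0 1, fun t => if t = 0 then i else j, fun t ht a ha => ?_, fun x => ?_⟩
  · have ha' : (if t = 0 then i else j) = Sum.inr a := ha
    by_cases h0 : t = 0
    · rw [if_pos h0] at ha'
      exact hi a ha'
    · rw [if_neg h0] at ha'
      exact hj a ha'
  · exact Iff.rfl

theorem Dfn.imp {P Q : (I → M) → Prop} (h : Dfn σ S A {x | P x}) (h' : Dfn σ S A {x | Q x}) :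
    Dfn σ S A {x | P x → Q x} := by
  have h1 := h.compl.union h'
  have e : ({x | P x}ᶜ ∪ {x | Q x} : Set (I → M)) = {x | P x → Q x} := by
    ext x
    simp only [Set.mem_union, Set.mem_compl_iff, Set.mem_ofPred_eq]
    tauto
  rwa [e] at h1

theorem Dfn.iff {P Q : (I → M) → Prop} (h : Dfn σ S A {x | P x}) (h' : Dfn σ S A {x | Q x}) :
    Dfn σ S A {x | P x ↔ Q x} := by
  have h1 := (h.imp h').inter (h'.imp h)
  have e : ({x | P x → Q x} ∩ {x | Q x → P x} : Set (I → M)) = {x | P x ↔ Q x} := by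
    ext x
    simp only [Set.mem_inter_iff, Set.mem_ofPred_eq]
    tauto
  rwa [e] at h1

theorem Df1.mono {X : Set M} (h : Df1 σ S A X) (hAB : A ⊆ B) : Df1 σ S B X := by
  exact Dfn.mono h hAB

theorem Df1.compl {X : Set M} (h : Df1 σ S A X) : Df1 σ S A Xᶜ := by
  exact Dfn.compl h

theorem Df1.inter {X Y : Set M} (h : Df1 σ S A X) (h' : Df1 σ S A Y) : Df1 σ S A (X ∩ Y) := by
  exact Dfn.inter h h'

theorem Df1.union {X Y : Set M} (h : Df1 σ S A X) (h' : Df1 σ S A Y) : Df1 σ S A (X ∪ Y) := by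
  exact Dfn.union h h'

theorem Df1.diff {X Y : Set M} (h : Df1 σ S A X) (h' : Df1 σ S A Y) : Df1 σ S A (X \ Y) := by
  exact h.inter h'.compl

theorem Df1.univ : Df1 σ S A (Set.univ : Set M) := by
  refine ⟨Fml.top, fun _ => Sum.inl (), fun t ht => ?_, fun x => ?_⟩
  · rw [fv_top] at ht
    exact absurd ht (Finset.notMem_empty t)
  · exact ⟨fun _ => sat_top, fun _ => Set.mem_univ _⟩

theorem Df1.empty : Df1 σ S A (∅ : Set M) := by
  have h := (Df1.univ (σ := σ) (S := S) (A := A)).compl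
  rwa [Set.compl_univ] at h

theorem Df1.singleton {a : M} (ha : a ∈ A) : Df1 σ S A {a} := by
  exact Dfn.eq (Sum.inl ()) (Sum.inr a) (fun b hb => by cases hb)
    (fun b hb => by rw [← Sum.inr.inj hb]; exact ha)

theorem Df1.finite {X : Set M} (hX : X.Finite) (hXA : X ⊆ A) : Df1 σ S A X := by
  induction X, hX using Set.Finite.induction_on with
  | empty => exact Df1.empty
  | insert ha _ ih =>
    rw [Set.insert_eq]
    exact (Df1.singleton (hXA (Set.mem_insert _ _))).union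
      (ih fun x hx => hXA (Set.mem_insert_of_mem _ hx))

theorem Df1.sInter {F : Finset (Set M)} (h : ∀ X ∈ F, Df1 σ S A X) :
    Df1 σ S A (⋂₀ (F : Set (Set M))) := by
  classical
  induction F using Finset.induction_on with
  | empty =>
    rw [Finset.coe_empty, Set.sInter_empty]
    exact Df1.univ
  | insert X F _ ih =>
    rw [Finset.coe_insert, Set.sInter_insert]
    exact (h X (Finset.mem_insert_self _ _)).inter
      (ih fun Y hY => h Y (Finset.mem_insert_of_mem hY))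

end Pool.Agent.BLE
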