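import Pool.Agent.BLE.DA

/-!
# BLE / DB: definable sets are closed under quantification over one coordinate
-/

set_option autoImplicit false

namespace Pool.Agent.BLE

open Function

variable {σ : Sig} {M : Type} {S : Str M} {A B : Set M} {I J : Type} [Nonempty M]

/-- the variable to be quantified out for `x_t` -/
private noncomputable def qf (ρ : ℕ → Option I ⊕ M) (m : ℕ) (t : ℕ) : ℕ := by
  classical exact if ρ t = Sum.inl none then t else m + 1

omit [Nonempty M] in
private theorem qf_pos {ρ : ℕ → Option I ⊕ M} {m t : ℕ} (h : ρ t = Sum.inl none) :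
    qf ρ m t = t := by
  classical
  unfold qf
  exact if_pos h

omit [Nonempty M] in
private theorem qf_neg {ρ : ℕ → Option I ⊕ M} {m t : ℕ} (h : ρ t ≠ Sum.inl none) :
    qf ρ m t = m + 1 := by
  classical
  unfold qf
  exact if_neg h

/-- the equation for `x_t` -/
private noncomputable def qg (ρ : ℕ → Option I ⊕ M) (m : ℕ) (t : ℕ) : Fml := by
  classical exact if ρ t = Sum.inl none then .eq t m else .top

omit [Nonempty M] in
private theorem qg_pos {ρ : ℕ → Option I ⊕ M} {m t : ℕ} (h : ρ t = Sum.inl none) :
    qg ρ m t = .eq t m := by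
  classical
  unfold qg
  exact if_pos h

omit [Nonempty M] in
private theorem qg_neg {ρ : ℕ → Option I ⊕ M} {m t : ℕ} (h : ρ t ≠ Sum.inl none) :
    qg ρ m t = .top := by
  classical
  unfold qg
  exact if_neg h

/-- the new parameters -/
private def qr (d : M) : Option I ⊕ M → I ⊕ M
  | .inl (some i) => .inl i
  | .inl none => .inr d
  | .inr a => .inr a

omit [Nonempty M] in
private theorem elim_qr {d a : M} {x : I → M} {p : Option I ⊕ M} (h : p ≠ Sum.inl none) :
    Sum.elim x id (qr d p) = Sum.elim (fun o : Option I => o.elim a x) id p := by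
  rcases p with (_ | i) | b
  · exact absurd rfl h
  · rfl
  · rfl

theorem Dfn.exists {P : M → (I → M) → Prop}
    (h : Dfn σ S A {x : Option I → M | P (x none) (fun i => x (some i))}) :
    Dfn σ S A {x : I → M | ∃ a, P a x} := by
  classical
  obtain ⟨φ, ρ, hρ, hφ⟩ := h
  set m := φ.code with hm
  have hfv : ∀ t ∈ φ.fv, t < m := fun t ht => fv_lt_code φ t ht
  have hP : ∀ (a : M) (x : I → M), P a x ↔
      Sat σ S (fun t => Sum.elim (fun o : Option I => o.elim a x) id (ρ t)) φ := by
    intro a x
    exact hφ (fun o : Option I => o.elim a x)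
  refine ⟨.ex m (.exs m (qf ρ m) (.and (.cj m (qg ρ m)) φ)),
    fun t => qr (Classical.arbitrary M) (ρ t), ?_, ?_⟩
  · intro t ht a hta
    rw [fv_ex, fv_exs, Finset.mem_erase, Finset.mem_sdiff, fv_and, Finset.mem_union, fv_cj] at ht
    obtain ⟨htm, ht1, ht2⟩ := ht
    have ht3 : t ∈ φ.fv := by
      rcases ht1 with h1 | h1
      · exfalso
        rw [Finset.mem_biUnion] at h1
        obtain ⟨s, hs, hts⟩ := h1
        by_cases h2 : ρ s = Sum.inl none
        · rw [qg_pos h2] at hts
          have h3 : t = s ∨ t = m := by
            have : t ∈ ({s, m} : Finset ℕ) := hts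
            rwa [Finset.mem_insert, Finset.mem_singleton] at this
          rcases h3 with rfl | h3
          · exact ht2 (Finset.mem_image.2 ⟨t, hs, qf_pos h2⟩)
          · exact htm h3
        · rw [qg_neg h2, fv_top] at hts
          exact absurd hts (Finset.notMem_empty t)
      · exact h1
    have h4 : ρ t ≠ Sum.inl none := fun h4 =>
      ht2 (Finset.mem_image.2 ⟨t, Finset.mem_range.2 (hfv t ht3), qf_pos h4⟩)
    refine hρ t ht3 a ?_
    have h5 : qr (Classical.arbitrary M) (ρ t) = Sum.inr a := hta
    revert h5 h4
    generalize ρ t = p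
    intro h4 h5
    rcases p with (_ | i) | b
    · exact absurd rfl h4
    · have h6 : (Sum.inl i : I ⊕ M) = Sum.inr a := h5
      cases h6
    · have h6 : (Sum.inr b : I ⊕ M) = Sum.inr a := h5
      exact congrArg Sum.inr (Sum.inr.inj h6)
  · intro x
    show (∃ a, P a x) ↔ _
    rw [sat_ex]
    refine exists_congr fun a => ?_
    rw [hP a x, sat_exs]
    set v : ℕ → M := fun t => Sum.elim x id (qr (Classical.arbitrary M) (ρ t)) with hv
    constructor
    · intro h1
      refine ⟨fun t => if t < m ∧ ρ t = Sum.inl none then a else update v m a t, ?_, ?_⟩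
      · intro i hi
        have h2 : ¬ (i < m ∧ ρ i = Sum.inl none) := fun h2 => hi i h2.1 (qf_pos h2.2)
        exact if_neg h2
      · rw [sat_and, sat_cj]
        constructor
        · intro t ht
          by_cases h2 : ρ t = Sum.inl none
          · rw [qg_pos h2, sat_eq]
            have h3 : ¬ (m < m ∧ ρ m = Sum.inl none) := fun h3 => lt_irrefl _ h3.1
            simp only [if_pos (And.intro ht h2), if_neg h3, update_self]
          · rw [qg_neg h2]
            exact sat_top
        · refine (sat_congr φ fun t ht => ?_).1 h1
          by_cases h2 : ρ t = Sum.inl none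
          · have h3 : (if t < m ∧ ρ t = Sum.inl none then a else update v m a t) = a :=
              if_pos ⟨hfv t ht, h2⟩
            show Sum.elim (fun o : Option I => o.elim a x) id (ρ t) =
              if t < m ∧ ρ t = Sum.inl none then a else update v m a t
            rw [h3, h2]
            rfl
          · have h3 : ¬ (t < m ∧ ρ t = Sum.inl none) := fun h3 => h2 h3.2
            have h4 : t ≠ m := (hfv t ht).ne
            simp only [if_neg h3]
            rw [update_of_ne h4, hv]
            exact (elim_qr h2).symm
    · rintro ⟨w, hw, h1⟩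
      rw [sat_and, sat_cj] at h1
      have hwm : w m = a := by
        rw [hw m, update_self]
        intro t ht e
        by_cases h2 : ρ t = Sum.inl none
        · rw [qf_pos h2] at e
          omega
        · rw [qf_neg h2] at e
          omega
      refine (sat_congr φ fun t ht => ?_).1 h1.2
      by_cases h2 : ρ t = Sum.inl none
      · have h3 := h1.1 t (hfv t ht)
        rw [qg_pos h2, sat_eq] at h3
        rw [h3, hwm, h2]
        rfl
      · rw [hw t, update_of_ne (hfv t ht).ne, hv]
        · exact elim_qr h2
        · intro s hs e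
          by_cases h4 : ρ s = Sum.inl none
          · rw [qf_pos h4] at e
            rw [e] at h4
            exact h2 h4
          · rw [qf_neg h4] at e
            have := hfv t ht
            omega

theorem Dfn.forall {P : M → (I → M) → Prop}
    (h : Dfn σ S A {x : Option I → M | P (x none) (fun i => x (some i))}) :
    Dfn σ S A {x : I → M | ∀ a, P a x} := by
  have h1 : Dfn σ S A {x : Option I → M | ¬ P (x none) (fun i => x (some i))} := h.compl
  have h2 := (Dfn.exists (P := fun a x => ¬ P a x) h1).compl
  have e : {x : I → M | ∃ a, ¬ P a x}ᶜ = {x : I → M | ∀ a, P a x} := by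
    ext x
    show ¬ (∃ a, ¬ P a x) ↔ ∀ a, P a x
    rw [not_exists]
    exact forall_congr' fun a => not_not
  rw [← e]
  exact h2

end Pool.Agent.BLE
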