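import Pool.Agent.BLE.DB

/-!
# BLE / DC: counting; binary relations

Definable sets are closed under counting quantifiers and existential quantification over finite
tuples; definable binary relations `Df2 A R`.
-/

set_option autoImplicit false

namespace Pool.Agent.BLE

open Function

variable {σ : Sig} {M : Type} {S : Str M} {A B : Set M} {I J : Type} [Nonempty M]

private theorem succ_le_encard_iff (k : ℕ) (X : Set M) :
    ((k + 1 : ℕ) : ℕ∞) ≤ X.encard ↔ ∃ a, a ∈ X ∧ (k : ℕ∞) ≤ {b | b ∈ X ∧ b ≠ a}.encard := by
  have key : ∀ a ∈ X, X.encard = {b | b ∈ X ∧ b ≠ a}.encard + 1 := by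
    intro a ha
    have : {b | b ∈ X ∧ b ≠ a} = X \ {a} := by
      ext b; simp
    rw [this, Set.encard_diff_singleton_add_one ha]
  constructor
  · intro h
    have hne : X.Nonempty := by
      rw [Set.nonempty_iff_ne_empty]
      rintro rfl
      simp at h
    obtain ⟨a, ha⟩ := hne
    refine ⟨a, ha, ?_⟩
    rw [key a ha] at h
    push_cast at h
    exact (ENat.add_le_add_iff_right (by simp)).1 h
  · rintro ⟨a, ha, h⟩
    rw [key a ha]
    push_cast
    gcongr

theorem Dfn.count (k : ℕ) {P : M → (I → M) → Prop}
    (h : Dfn σ S A {x : Option I → M | P (x none) (fun i => x (some i))}) :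
    Dfn σ S A {x : I → M | (k : ℕ∞) ≤ {a | P a x}.encard} := by
  induction k generalizing I with
  | zero =>
    have : {x : I → M | ((0 : ℕ) : ℕ∞) ≤ {a | P a x}.encard} = Set.univ := by
      ext; simp
    rw [this]
    exact Dfn.univ
  | succ k ih =>
    have h1 : Dfn σ S A {x : Option (Option I) → M |
        P (x none) (fun i => x (some (some i)))} :=
      h.reindex (fun o : Option I => o.elim none fun i => some (some i))
    have h2 : Dfn σ S A {x : Option (Option I) → M | x none = x (some none)} :=
      Dfn.eq (Sum.inl none) (Sum.inl (some none)) (by simp) (by simp)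
    have h3 := ih (I := Option I) (P := fun b y => P b (fun i => y (some i)) ∧ b ≠ y none)
      (h1.inter h2.compl)
    have h4 := Dfn.exists (P := fun a x => P a x ∧ (k : ℕ∞) ≤ {b | P b x ∧ b ≠ a}.encard)
      (h.inter h3)
    convert h4 using 1
    ext x
    exact succ_le_encard_iff k {a | P a x}

theorem Dfn.count_le (k : ℕ) {P : M → (I → M) → Prop}
    (h : Dfn σ S A {x : Option I → M | P (x none) (fun i => x (some i))}) :
    Dfn σ S A {x : I → M | {a | P a x}.encard ≤ (k : ℕ∞)} := by
  have h1 := (Dfn.count (k + 1) h).compl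
  convert h1 using 1
  ext x
  simp only [Set.mem_setOf_eq, Set.mem_compl_iff, not_le]
  push_cast
  rw [ENat.lt_add_one_iff (by simp)]

theorem Dfn.exTuple [Finite J] {P : (J → M) → (I → M) → Prop}
    (h : Dfn σ S A {x : I ⊕ J → M | P (fun j => x (Sum.inr j)) (fun i => x (Sum.inl i))}) :
    Dfn σ S A {x : I → M | ∃ y, P y x} := by
  suffices H : ∀ (I : Type) (P : (J → M) → (I → M) → Prop),
      Dfn σ S A {x : I ⊕ J → M | P (fun j => x (Sum.inr j)) (fun i => x (Sum.inl i))} →
      Dfn σ S A {x : I → M | ∃ y, P y x} from H I P h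
  clear h P
  refine Finite.induction_empty_option (P := fun J : Type =>
    ∀ (I : Type) (P : (J → M) → (I → M) → Prop),
      Dfn σ S A {x : I ⊕ J → M | P (fun j => x (Sum.inr j)) (fun i => x (Sum.inl i))} →
      Dfn σ S A {x : I → M | ∃ y, P y x}) ?_ ?_ ?_ J
  · intro α β e ih I P h
    have h1 := ih I (fun y x => P (fun b => y (e.symm b)) x) (h.reindex (Sum.map id e.symm))
    convert h1 using 1
    ext x
    constructor
    · rintro ⟨y, hy⟩
      exact ⟨fun a => y (e a), by simpa using hy⟩
    · rintro ⟨y, hy⟩
      exact ⟨_, hy⟩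
  · intro I P h
    have h1 := h.reindex (J := I) (Sum.elim id PEmpty.elim)
    convert h1 using 1
    ext x
    constructor
    · rintro ⟨y, hy⟩
      have : y = fun j => x (Sum.elim id PEmpty.elim (Sum.inr j)) := by
        ext j; exact j.elim
      rw [this] at hy
      exact hy
    · intro hx
      exact ⟨_, hx⟩
  · intro α _ ih I P h
    have h1 := ih (Option I)
      (fun y x => P (fun o => o.elim (x none) y) (fun i => x (some i)))
      (by
        have h2 := h.reindex (J := Option I ⊕ α)
          (Sum.elim (fun i => Sum.inl (some i)) (fun o => o.elim (Sum.inl none) Sum.inr))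
        convert h2 using 1
        ext x
        have : (fun o : Option α => o.elim (x (Sum.inl none)) fun j => x (Sum.inr j)) =
            fun o : Option α => x (o.elim (Sum.inl none) Sum.inr) := by
          ext o
          cases o <;> rfl
        simp only [Set.mem_setOf_eq, Sum.elim_inr, Sum.elim_inl, this])
    have h3 := Dfn.exists (P := fun a x => ∃ y : α → M, P (fun o => o.elim a y) x) h1
    convert h3 using 1
    ext x
    constructor
    · rintro ⟨y, hy⟩
      refine ⟨y none, fun a => y (some a), ?_⟩
      convert hy using 1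
      ext o
      cases o <;> rfl
    · rintro ⟨a, y, hy⟩
      exact ⟨_, hy⟩

/-- the binary relation `R` is definable over `A` -/
def Df2 (σ : Sig) {M : Type} (S : Str M) (A : Set M) (R : M → M → Prop) : Prop :=
  Dfn σ S A {x : Bool → M | R (x true) (x false)}

theorem Df2.swap {R : M → M → Prop} (h : Df2 σ S A R) : Df2 σ S A fun x y => R y x :=
  Dfn.reindex h not

theorem Df2.slice {R : M → M → Prop} (h : Df2 σ S A R) {c : M} (hA : A ⊆ B) (hc : c ∈ B) :
    Df1 σ S B {x | R x c} := by
  have h1 := (Dfn.mono h hA).comap (J := Unit) (fun b => if b then Sum.inl () else Sum.inr c)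
    (by
      intro i a hi
      cases i
      · simp only [Bool.false_eq_true, if_false, Sum.inr.injEq] at hi
        exact hi ▸ hc
      · simp at hi)
  exact h1

theorem Df2.count {R : M → M → Prop} (h : Df2 σ S A R) (k : ℕ) :
    Df1 σ S A {y | (k : ℕ∞) ≤ {x | R x y}.encard} :=
  Dfn.count (I := Unit) k (P := fun a y => R a (y ()))
    (Dfn.reindex h (J := Option Unit) fun b => if b then none else some ())

theorem Df2.count_le {R : M → M → Prop} (h : Df2 σ S A R) (k : ℕ) :
    Df1 σ S A {y | {x | R x y}.encard ≤ (k : ℕ∞)} :=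
  Dfn.count_le (I := Unit) k (P := fun a y => R a (y ()))
    (Dfn.reindex h (J := Option Unit) fun b => if b then none else some ())

theorem Df2.and {R R' : M → M → Prop} (h : Df2 σ S A R) (h' : Df2 σ S A R') :
    Df2 σ S A fun x y => R x y ∧ R' x y :=
  Dfn.inter h h'

theorem Df2.not {R : M → M → Prop} (h : Df2 σ S A R) : Df2 σ S A fun x y => ¬ R x y :=
  Dfn.compl h

theorem Df2.fst {X : Set M} (h : Df1 σ S A X) : Df2 σ S A fun x _ => x ∈ X :=
  Dfn.reindex h fun _ => true

theorem Df2.snd {X : Set M} (h : Df1 σ S A X) : Df2 σ S A fun _ y => y ∈ X :=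
  Dfn.reindex h fun _ => false

/-- a set definable over `A ∪ {c}` is a fibre of a binary relation definable over `A` -/
theorem Df1.pull1 {X : Set M} {c : M} (h : Df1 σ S (insert c A) X) :
    ∃ R : M → M → Prop, Df2 σ S A R ∧ ∀ x, x ∈ X ↔ R x c := by
  classical
  obtain ⟨φ, ρ, hρ, hX⟩ := h
  let ρ' : ℕ → Bool ⊕ M := fun t =>
    Sum.elim (fun _ => Sum.inl true) (fun a => if a = c then Sum.inl false else Sum.inr a) (ρ t)
  refine ⟨fun x y => Sat σ S (fun t => Sum.elim (fun b : Bool => if b then x else y) id (ρ' t)) φ,
    ⟨φ, ρ', ?_, ?_⟩, ?_⟩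
  · intro t ht a ha
    simp only [ρ'] at ha
    rcases hr : ρ t with u | b
    · rw [hr] at ha; simp at ha
    · rw [hr] at ha
      simp only [Sum.elim_inr] at ha
      split_ifs at ha with hbc
      · simp only [Sum.inr.injEq] at ha
        subst ha
        rcases hρ t ht b hr with h1 | h1
        · exact absurd h1 hbc
        · exact h1
  · intro x
    have : (fun b : Bool => if b = true then x true else x false) = x := by
      ext b; cases b <;> rfl
    simp only [Set.mem_setOf_eq, this]
  · intro x
    have h1 := hX (fun _ => x)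
    simp only [Set.mem_setOf_eq] at h1
    rw [h1]
    have : (fun t => Sum.elim (fun _ : Unit => x) id (ρ t)) =
        fun t => Sum.elim (fun b : Bool => if b then x else c) id (ρ' t) := by
      ext t
      simp only [ρ']
      rcases ρ t with u | b
      · simp
      · by_cases hbc : b = c <;> simp [hbc]
    rw [this]

end Pool.Agent.BLE
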