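import Pool.Agent.BLE.Dfn

/-!
# BLE / SE: the Goedel numbering is a bijection

`Fml.code`: residues mod 5 distinguish the constructors (`0` for `bot`, `5 q + c`, `c = 1..5`, for the
others); `Nat.pair`, `Encodable.encode : List ℕ → ℕ` are bijections.
-/

set_option autoImplicit false

namespace Pool.Agent.BLE

open Function

private theorem se_list_surj (n : ℕ) : ∃ l : List ℕ, Encodable.encode l = n :=
  ⟨Denumerable.ofNat (List ℕ) n, Denumerable.encode_ofNat n⟩

theorem code_injective : Injective Fml.code := by
  intro φ
  induction φ with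
  | bot =>
    intro ψ h
    cases ψ <;> simp only [Fml.code] at h <;> first | rfl | omega
  | eq i j =>
    intro ψ h
    cases ψ with
    | eq i' j' =>
      simp only [Fml.code] at h
      have h1 : Nat.pair i j = Nat.pair i' j' := by omega
      obtain ⟨h2, h3⟩ := Nat.pair_eq_pair.1 h1
      rw [h2, h3]
    | bot => simp only [Fml.code] at h; omega
    | rel r l => simp only [Fml.code] at h; omega
    | fn f l j => simp only [Fml.code] at h; omega
    | imp φ ψ => simp only [Fml.code] at h; omega
    | all i φ => simp only [Fml.code] at h; omega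
  | rel r l =>
    intro ψ h
    cases ψ with
    | rel r' l' =>
      simp only [Fml.code] at h
      have h1 : Nat.pair r (Encodable.encode l) = Nat.pair r' (Encodable.encode l') := by omega
      obtain ⟨h2, h3⟩ := Nat.pair_eq_pair.1 h1
      rw [h2, Encodable.encode_injective h3]
    | bot => simp only [Fml.code] at h; omega
    | eq i j => simp only [Fml.code] at h; omega
    | fn f l j => simp only [Fml.code] at h; omega
    | imp φ ψ => simp only [Fml.code] at h; omega
    | all i φ => simp only [Fml.code] at h; omega
  | fn f l j =>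
    intro ψ h
    cases ψ with
    | fn f' l' j' =>
      simp only [Fml.code] at h
      have h1 : Nat.pair f (Nat.pair (Encodable.encode l) j) =
          Nat.pair f' (Nat.pair (Encodable.encode l') j') := by omega
      obtain ⟨h2, h3⟩ := Nat.pair_eq_pair.1 h1
      obtain ⟨h4, h5⟩ := Nat.pair_eq_pair.1 h3
      rw [h2, Encodable.encode_injective h4, h5]
    | bot => simp only [Fml.code] at h; omega
    | eq i j => simp only [Fml.code] at h; omega
    | rel r l => simp only [Fml.code] at h; omega
    | imp φ ψ => simp only [Fml.code] at h; omega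
    | all i φ => simp only [Fml.code] at h; omega
  | imp φ₁ φ₂ ih1 ih2 =>
    intro ψ h
    cases ψ with
    | imp ψ₁ ψ₂ =>
      simp only [Fml.code] at h
      have h1 : Nat.pair φ₁.code φ₂.code = Nat.pair ψ₁.code ψ₂.code := by omega
      obtain ⟨h2, h3⟩ := Nat.pair_eq_pair.1 h1
      rw [ih1 h2, ih2 h3]
    | bot => simp only [Fml.code] at h; omega
    | eq i j => simp only [Fml.code] at h; omega
    | rel r l => simp only [Fml.code] at h; omega
    | fn f l j => simp only [Fml.code] at h; omega
    | all i φ => simp only [Fml.code] at h; omega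
  | all i φ ih =>
    intro ψ h
    cases ψ with
    | all i' φ' =>
      simp only [Fml.code] at h
      have h1 : Nat.pair i φ.code = Nat.pair i' φ'.code := by omega
      obtain ⟨h2, h3⟩ := Nat.pair_eq_pair.1 h1
      rw [h2, ih h3]
    | bot => simp only [Fml.code] at h; omega
    | eq i j => simp only [Fml.code] at h; omega
    | rel r l => simp only [Fml.code] at h; omega
    | fn f l j => simp only [Fml.code] at h; omega
    | imp φ ψ => simp only [Fml.code] at h; omega

theorem code_surjective : Surjective Fml.code := by
  intro n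
  induction n using Nat.strong_induction_on with
  | _ n ih =>
    rcases Nat.eq_zero_or_pos n with h0 | h0
    · exact ⟨.bot, by rw [h0]; rfl⟩
    · obtain ⟨q, hq⟩ : ∃ q, n = 5 * q + 1 ∨ n = 5 * q + 2 ∨ n = 5 * q + 3 ∨ n = 5 * q + 4 ∨
          n = 5 * q + 5 := ⟨(n - 1) / 5, by omega⟩
      have hl := Nat.unpair_left_le q
      have hr := Nat.unpair_right_le q
      have hp := Nat.pair_unpair q
      rcases hq with hq | hq | hq | hq | hq
      · refine ⟨.eq q.unpair.1 q.unpair.2, ?_⟩
        simp only [Fml.code]
        rw [hp, hq]
      · obtain ⟨l, hl'⟩ := se_list_surj q.unpair.2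
        refine ⟨.rel q.unpair.1 l, ?_⟩
        simp only [Fml.code]
        rw [hl', hp, hq]
      · obtain ⟨l, hl'⟩ := se_list_surj q.unpair.2.unpair.1
        refine ⟨.fn q.unpair.1 l q.unpair.2.unpair.2, ?_⟩
        simp only [Fml.code]
        rw [hl', Nat.pair_unpair, hp, hq]
      · obtain ⟨φ, hφ⟩ := ih q.unpair.1 (by omega)
        obtain ⟨ψ, hψ⟩ := ih q.unpair.2 (by omega)
        refine ⟨.imp φ ψ, ?_⟩
        simp only [Fml.code]
        rw [hφ, hψ, hp, hq]
      · obtain ⟨ψ, hψ⟩ := ih q.unpair.2 (by omega)
        refine ⟨.all q.unpair.1 ψ, ?_⟩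
        simp only [Fml.code]
        rw [hψ, hp, hq]

@[simp] theorem code_F (n : ℕ) : (F n).code = n := by
  classical
  unfold F
  rw [dif_pos (code_surjective n)]
  exact (code_surjective n).choose_spec

@[simp] theorem F_code (φ : Fml) : F φ.code = φ :=
  code_injective (code_F φ.code)

instance : Countable Fml := code_injective.countable

end Pool.Agent.BLE
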