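import Pool.Agent.BLE.DA
import Pool.Agent.BLE.SE

/-!
# BLE / DD: parameters: finite support, extraction of a tuple of parameters, countability

* `fin_support`: `A₀ = {a | ∃ t ∈ φ.fv, ρ t = inr a}`.
* `pull`: keep `φ`; `ρ' t = inl (inl i)` if `ρ t = inl i`; if `ρ t = inr b` with `b ∈ A` keep `inr b`;
  if `b ∉ A` but `b = a j` then `ρ' t = inl (inr j)`; otherwise (not a free variable) `inr b`.
* `push`: `Dfn.comap`.
* `pull1`, `push1`: the same for subsets of `M` (coordinates `Option J`, `none` is the variable).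
* `countable_dfn`: `X` is determined by `φ` (`Countable Fml`, module SE) and by the values of `ρ` on
  `t < φ.code`, which may be changed into values in the countable set `I ⊕ A` (plus a default) without
  changing `X`: `Set.Countable` via a surjection from `Fml × List (Option (I ⊕ A))`.
* `mk_df1`: the same with cardinals: `#(Fml × List (Option (Unit ⊕ A))) ≤ max #A ℵ₀`
  (`Cardinal.mk_list_le_max`, `Cardinal.mul_le_max`...).
-/

set_option autoImplicit false

namespace Pool.Agent.BLE

open Function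

variable {σ : Sig} {M : Type} {S : Str M} {A B : Set M} {I J : Type}

theorem Dfn.fin_support {X : Set (I → M)} (h : Dfn σ S A X) :
    ∃ A₀ ⊆ A, A₀.Finite ∧ Dfn σ S A₀ X := by
  obtain ⟨φ, ρ, h1, h2⟩ := h
  refine ⟨{a | ∃ t ∈ φ.fv, ρ t = Sum.inr a}, ?_, ?_, φ, ρ, ?_, h2⟩
  · rintro a ⟨t, ht, hta⟩
    exact h1 t ht a hta
  · have h3 : {a : M | ∃ t ∈ φ.fv, ρ t = Sum.inr a} ⊆
        ⋃ t ∈ (φ.fv : Set ℕ), {a : M | ρ t = Sum.inr a} := by
      rintro a ⟨t, ht, hta⟩
      exact Set.mem_biUnion (x := t) ht hta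
    refine Set.Finite.subset (Set.Finite.biUnion φ.fv.finite_toSet fun t _ => ?_) h3
    refine Set.Subsingleton.finite ?_
    intro a ha b hb
    have ha' : ρ t = Sum.inr a := ha
    have hb' : ρ t = Sum.inr b := hb
    exact Sum.inr_injective (ha'.symm.trans hb')
  · intro t ht a hta
    exact ⟨t, ht, hta⟩

theorem Df1.fin_support {X : Set M} (h : Df1 σ S A X) :
    ∃ A₀ ⊆ A, A₀.Finite ∧ Df1 σ S A₀ X :=
  Dfn.fin_support h

open Classical in
/-- the change of the parameters -/
private noncomputable def ddpull (A : Set M) (a : J → M) : I ⊕ M → (I ⊕ J) ⊕ M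
  | .inl i => .inl (.inl i)
  | .inr b => if b ∈ A then .inr b else
      if h : ∃ j, a j = b then .inl (.inr h.choose) else .inr b

private theorem ddpull_elim (A : Set M) (a : J → M) (x : I → M) (s : I ⊕ M) :
    Sum.elim (Sum.elim x a) id (ddpull A a s) = Sum.elim x id s := by
  classical
  rcases s with i | b
  · rfl
  · simp only [ddpull]
    split_ifs with h1 h2
    · rfl
    · simpa using h2.choose_spec
    · rfl

private theorem ddpull_mem (A : Set M) (a : J → M) (s : I ⊕ M)
    (hs : ∀ b, s = .inr b → b ∈ A ∪ Set.range a) (b : M) (hb : ddpull A a s = .inr b) :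
    b ∈ A := by
  classical
  rcases s with i | c
  · simp [ddpull] at hb
  · simp only [ddpull] at hb
    split_ifs at hb with h1 h2
    · exact (Sum.inr_injective hb) ▸ h1
    · rcases hs c rfl with h3 | ⟨j, hj⟩
      · exact absurd h3 h1
      · exact absurd ⟨j, hj⟩ h2

theorem Dfn.pull {X : Set (I → M)} (a : J → M) (h : Dfn σ S (A ∪ Set.range a) X) :
    ∃ Z : Set (I ⊕ J → M), Dfn σ S A Z ∧ ∀ x, x ∈ X ↔ Sum.elim x a ∈ Z := by
  obtain ⟨φ, ρ, h1, h2⟩ := h
  refine ⟨{z | Sat σ S (fun t => Sum.elim z id (ddpull A a (ρ t))) φ},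
    ⟨φ, fun t => ddpull A a (ρ t), ?_, fun _ => Iff.rfl⟩, ?_⟩
  · intro t ht b hb
    exact ddpull_mem A a (ρ t) (h1 t ht) b hb
  · intro x
    rw [h2 x]
    show _ ↔ Sat σ S (fun t => Sum.elim (Sum.elim x a) id (ddpull A a (ρ t))) φ
    simp only [ddpull_elim]

/-- the change of the parameters (pushing) -/
private def ddpush (a : J → M) : (I ⊕ J) ⊕ M → I ⊕ M
  | .inl (.inl i) => .inl i
  | .inl (.inr j) => .inr (a j)
  | .inr b => .inr b

private theorem ddpush_elim (a : J → M) (x : I → M) (s : (I ⊕ J) ⊕ M) :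
    Sum.elim x id (ddpush a s) = Sum.elim (Sum.elim x a) id s := by
  rcases s with (i | j) | b <;> rfl

private theorem ddpush_mem (a : J → M) (hAB : A ⊆ B) (ha : ∀ j, a j ∈ B) (s : (I ⊕ J) ⊕ M)
    (hs : ∀ b, s = .inr b → b ∈ A) (b : M) (hb : ddpush a s = .inr b) : b ∈ B := by
  rcases s with (i | j) | c
  · simp [ddpush] at hb
  · exact (Sum.inr_injective hb) ▸ ha j
  · exact (Sum.inr_injective hb) ▸ hAB (hs c rfl)

theorem Dfn.push {Z : Set (I ⊕ J → M)} (h : Dfn σ S A Z) (a : J → M) (hAB : A ⊆ B)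
    (ha : ∀ j, a j ∈ B) : Dfn σ S B {x : I → M | Sum.elim x a ∈ Z} := by
  obtain ⟨φ, ρ, h1, h2⟩ := h
  refine ⟨φ, fun t => ddpush a (ρ t), ?_, ?_⟩
  · intro t ht b hb
    exact ddpush_mem a hAB ha (ρ t) (h1 t ht) b hb
  · intro x
    show Sum.elim x a ∈ Z ↔ _
    rw [h2]
    simp only [ddpush_elim]

/-- `Unit ⊕ J` versus `Option J` -/
private def ddo : (Unit ⊕ J) ⊕ M → Option J ⊕ M
  | .inl (.inl _) => .inl none
  | .inl (.inr j) => .inl (some j)
  | .inr b => .inr b

private theorem ddo_elim (a : J → M) (y : M) (s : (Unit ⊕ J) ⊕ M) :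
    Sum.elim (fun o => Option.elim o y a) id (ddo s) =
      Sum.elim (Sum.elim (fun _ : Unit => y) a) id s := by
  rcases s with (i | j) | b <;> rfl

private theorem ddo_mem (s : (Unit ⊕ J) ⊕ M) (b : M) (hb : ddo s = .inr b) : s = .inr b := by
  rcases s with (i | j) | c
  · simp [ddo] at hb
  · simp [ddo] at hb
  · exact congrArg _ (Sum.inr_injective hb)

/-- `Option J` versus `Unit ⊕ J` -/
private def ddo' : Option J ⊕ M → (Unit ⊕ J) ⊕ M
  | .inl none => .inl (.inl ())
  | .inl (some j) => .inl (.inr j)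
  | .inr b => .inr b

private theorem ddo'_elim (a : J → M) (y : M) (s : Option J ⊕ M) :
    Sum.elim (Sum.elim (fun _ : Unit => y) a) id (ddo' s) =
      Sum.elim (fun o => Option.elim o y a) id s := by
  rcases s with (_ | j) | b <;> rfl

private theorem ddo'_mem (s : Option J ⊕ M) (b : M) (hb : ddo' s = .inr b) : s = .inr b := by
  rcases s with (_ | j) | c
  · simp [ddo'] at hb
  · simp [ddo'] at hb
  · exact congrArg _ (Sum.inr_injective hb)

theorem Df1.pull {X : Set M} (a : J → M) (h : Df1 σ S (A ∪ Set.range a) X) :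
    ∃ Z : Set (Option J → M), Dfn σ S A Z ∧ ∀ y, y ∈ X ↔ (fun o => Option.elim o y a) ∈ Z := by
  obtain ⟨Z, ⟨φ, ρ, h1, h2⟩, hZ⟩ := Dfn.pull a h
  refine ⟨{z | Sat σ S (fun t => Sum.elim z id (ddo (ρ t))) φ},
    ⟨φ, fun t => ddo (ρ t), ?_, fun _ => Iff.rfl⟩, ?_⟩
  · intro t ht b hb
    exact h1 t ht b (ddo_mem (ρ t) b hb)
  · intro y
    have h3 := hZ fun _ => y
    rw [h2] at h3
    refine Iff.trans h3 ?_
    show _ ↔ Sat σ S (fun t => Sum.elim (fun o => Option.elim o y a) id (ddo (ρ t))) φ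
    simp only [ddo_elim]

theorem Df1.push {Z : Set (Option J → M)} (h : Dfn σ S A Z) (a : J → M) (hAB : A ⊆ B)
    (ha : ∀ j, a j ∈ B) : Df1 σ S B {y | (fun o => Option.elim o y a) ∈ Z} := by
  obtain ⟨φ, ρ, h1, h2⟩ := h
  have h3 : Dfn σ S A {z : Unit ⊕ J → M | Sat σ S (fun t => Sum.elim z id (ddo' (ρ t))) φ} :=
    ⟨φ, fun t => ddo' (ρ t), fun t ht b hb => h1 t ht b (ddo'_mem (ρ t) b hb), fun _ => Iff.rfl⟩
  have h4 := Dfn.push h3 a hAB ha
  have h5 : {x : Unit → M | Sum.elim x a ∈ {z : Unit ⊕ J → M |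
      Sat σ S (fun t => Sum.elim z id (ddo' (ρ t))) φ}} =
      {x : Unit → M | x () ∈ {y | (fun o => Option.elim o y a) ∈ Z}} := by
    ext x
    have hx : x = fun _ : Unit => x () := by funext u; rfl
    show Sat σ S (fun t => Sum.elim (Sum.elim x a) id (ddo' (ρ t))) φ ↔
      (fun o => Option.elim o (x ()) a) ∈ Z
    rw [h2, hx]
    simp only [ddo'_elim]
  unfold Df1
  rw [← h5]
  exact h4

/-- the substitution coded by a list -/
private def ddr (m0 : M) (l : List (Option (I ⊕ A))) (t : ℕ) : I ⊕ M :=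
  match l.getD t none with
  | none => .inr m0
  | some (.inl i) => .inl i
  | some (.inr a) => .inr a.1

private theorem dd_cover (m0 : M) (X : Set (I → M)) (hX : Dfn σ S A X) :
    ∃ p : Fml × List (Option (I ⊕ A)),
      {x | Sat σ S (fun t => Sum.elim x id (ddr m0 p.2 t)) p.1} = X := by
  classical
  obtain ⟨φ, ρ, h1, h2⟩ := hX
  let f : ℕ → Option (I ⊕ A) := fun t =>
    match ρ t with
    | .inl i => some (.inl i)
    | .inr a => if h : a ∈ A then some (.inr ⟨a, h⟩) else none
  refine ⟨(φ, (List.range φ.code).map f), ?_⟩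
  ext x
  rw [h2 x]
  show Sat σ S (fun t => Sum.elim x id (ddr m0 ((List.range φ.code).map f) t)) φ ↔ _
  refine sat_congr φ fun t ht => ?_
  have htc := fv_lt_code φ t ht
  have h3 : ((List.range φ.code).map f).getD t none = f t := by
    rw [List.getD_eq_getElem _ _ (by simpa using htc)]
    simp
  have h4 : ddr m0 ((List.range φ.code).map f) t = ρ t := by
    unfold ddr
    rw [h3]
    rcases hρ : ρ t with i | a
    · simp only [f, hρ]
    · have ha : a ∈ A := h1 t ht a hρ
      simp only [f, hρ, dif_pos ha]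
  rw [h4]

theorem countable_dfn [Countable I] (hA : A.Countable) :
    {X : Set (I → M) | Dfn σ S A X}.Countable := by
  rcases isEmpty_or_nonempty M with hM | ⟨⟨m0⟩⟩
  · have : Subsingleton (I → M) := inferInstance
    have : Finite (Set (I → M)) := inferInstance
    exact Set.to_countable _
  · have : Countable A := hA.to_subtype
    refine (Set.countable_range fun p : Fml × List (Option (I ⊕ A)) =>
      {x : I → M | Sat σ S (fun t => Sum.elim x id (ddr m0 p.2 t)) p.1}).mono ?_
    intro X hX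
    obtain ⟨p, hp⟩ := dd_cover m0 X hX
    exact ⟨p, hp⟩

theorem mk_df1 : Cardinal.mk {X : Set M | Df1 σ S A X} ≤ max (Cardinal.mk A) Cardinal.aleph0 := by
  rcases isEmpty_or_nonempty M with hM | ⟨⟨m0⟩⟩
  · have : Finite (Set M) := inferInstance
    exact (Cardinal.lt_aleph0_of_finite _).le.trans (le_max_right _ _)
  · have h1 : {X : Set M | Df1 σ S A X} ⊆
        Set.range fun p : Fml × List (Option (Unit ⊕ A)) =>
          {y : M | (fun _ : Unit => y) ∈
            {x : Unit → M | Sat σ S (fun t => Sum.elim x id (ddr m0 p.2 t)) p.1}} := by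
      intro X hX
      obtain ⟨p, hp⟩ := dd_cover m0 _ hX
      refine ⟨p, ?_⟩
      show {y : M | (fun _ : Unit => y) ∈
            {x : Unit → M | Sat σ S (fun t => Sum.elim x id (ddr m0 p.2 t)) p.1}} = X
      rw [hp]
      rfl
    refine (Cardinal.mk_le_mk_of_subset h1).trans (Cardinal.mk_range_le.trans ?_)
    rw [Cardinal.mk_prod, Cardinal.lift_id, Cardinal.lift_id]
    have h2 : Cardinal.mk Fml ≤ Cardinal.aleph0 := Cardinal.mk_le_aleph0
    have h3 : Cardinal.mk (Option (Unit ⊕ A)) ≤ max (Cardinal.mk A) Cardinal.aleph0 := by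
      rw [Cardinal.mk_option, Cardinal.mk_sum, Cardinal.lift_id, Cardinal.lift_id]
      have h4 : Cardinal.mk Unit = 1 := Cardinal.mk_fintype _ |>.trans (by simp)
      rw [h4]
      refine Cardinal.add_le_of_le (le_max_right _ _)
        (Cardinal.add_le_of_le (le_max_right _ _) ?_ (le_max_left _ _)) ?_
      · exact Cardinal.one_le_aleph0.trans (le_max_right _ _)
      · exact Cardinal.one_le_aleph0.trans (le_max_right _ _)
    have h5 : Cardinal.mk (List (Option (Unit ⊕ A))) ≤
        max (Cardinal.mk A) Cardinal.aleph0 :=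
      (Cardinal.mk_list_le_max _).trans (max_le (le_max_right _ _) h3)
    exact Cardinal.mul_le_of_le (le_max_right _ _) (h2.trans (le_max_right _ _)) h5

theorem countable_df1 (hA : A.Countable) : {X : Set M | Df1 σ S A X}.Countable := by
  rw [← Cardinal.le_aleph0_iff_set_countable]
  exact mk_df1.trans (max_le (Cardinal.le_aleph0_iff_set_countable.2 hA) le_rfl)

end Pool.Agent.BLE
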