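import Pool.Agent.BLE.DC
import Pool.Agent.BLE.DD

/-!
# BLE / DE: definable sets and elementary subsets

* `TV.dfn`: induction on the finite type `I` (`Finite.induction_empty_option`; transport along an
  equivalence by `Dfn.reindex`): for `Option I`: `{x | ∃ a, (a,x) ∈ X}` is definable over `N`
  (`Dfn.exists`) and not empty, so it has a point `x₀` in `N`; then `{a | (a,x₀) ∈ X}` is `Df1` over `N`
  (`Df1.push`) and not empty. For the empty type: `X` nonempty, trivial.
* `TV.subset_of_finite`: if `X \ N` were not empty: `X \ (X ∩ N)` is definable over `N`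
  (`Df1.diff`, `Df1.finite`: `X ∩ N` is finite and contained in `N`), nonempty, without a point in `N`.
* `TV.encard`: if `X ∩ N` is finite then `X ⊆ N` by the same argument.
-/

set_option autoImplicit false

namespace Pool.Agent.BLE

open Function

variable {σ : Sig} {M : Type} {S : Str M} {A B N : Set M} {I J : Type}

theorem TV.dfn [Nonempty M] [Finite I] (hN : TV σ S N) {X : Set (I → M)} (h : Dfn σ S N X)
    (hX : X.Nonempty) : ∃ x ∈ X, ∀ i, x i ∈ N := by
  have key : ∀ (I : Type) [Finite I], ∀ X : Set (I → M), Dfn σ S N X → X.Nonempty →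
      ∃ x ∈ X, ∀ i, x i ∈ N := by
    intro I _
    refine Finite.induction_empty_option
      (P := fun I : Type => ∀ X : Set (I → M), Dfn σ S N X → X.Nonempty →
        ∃ x ∈ X, ∀ i, x i ∈ N) ?_ ?_ ?_ I
    · intro α β e ih X hX ⟨x, hx⟩
      have h1 := Dfn.reindex hX e.symm
      obtain ⟨y, hy, hyN⟩ := ih _ h1 ⟨fun a => x (e a), by
        simpa only [Set.mem_setOf_eq, Equiv.apply_symm_apply] using hx⟩
      exact ⟨fun b => y (e.symm b), hy, fun b => hyN _⟩
    · intro X _ ⟨x, hx⟩
      exact ⟨x, hx, fun i => i.elim⟩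
    · intro α _ ih X hX ⟨x, hx⟩
      have h1 : Dfn σ S N {x : Option α → M |
          (fun (a : M) (y : α → M) => (fun o => Option.elim o a y) ∈ X)
            (x none) (fun i => x (some i))} := by
        have h2 : {x : Option α → M |
            (fun (a : M) (y : α → M) => (fun o => Option.elim o a y) ∈ X)
              (x none) (fun i => x (some i))} = X := by
          ext z
          have h3 : (fun o => Option.elim o (z none) fun i => z (some i)) = z := by
            funext o
            cases o <;> rfl
          simp only [Set.mem_setOf_eq, h3]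
        rw [h2]
        exact hX
      have h4 := Dfn.exists (P := fun (a : M) (y : α → M) => (fun o => Option.elim o a y) ∈ X) h1
      obtain ⟨y, ⟨a, ha⟩, hyN⟩ := ih _ h4 ⟨fun i => x (some i), x none, by
        have h3 : (fun o => Option.elim o (x none) fun i => x (some i)) = x := by
          funext o
          cases o <;> rfl
        simp only [h3]
        exact hx⟩
      obtain ⟨b, hb, hbN⟩ := hN _ (Df1.push hX y (le_refl N) hyN) ⟨a, ha⟩
      refine ⟨fun o => Option.elim o b y, hb, fun i => ?_⟩
      cases i with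
      | none => exact hbN
      | some i => exact hyN i
  exact key I X h hX

theorem TV.univ : TV σ S (Set.univ : Set M) := by
  intro X _ hX
  rw [Set.inter_univ]
  exact hX

theorem TV.nonempty [Nonempty M] (hN : TV σ S N) : N.Nonempty := by
  obtain ⟨a, _, ha⟩ := hN Set.univ Df1.univ Set.univ_nonempty
  exact ⟨a, ha⟩

theorem TV.subset_of_finite (hN : TV σ S N) {X : Set M} (h : Df1 σ S N X) (hX : (X ∩ N).Finite) :
    X ⊆ N := by
  have h1 : Df1 σ S N (X \ (X ∩ N)) := Df1.diff h (Df1.finite hX Set.inter_subset_right)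
  intro x hx
  by_contra hxN
  obtain ⟨y, ⟨hy, hy'⟩, hyN⟩ := hN _ h1 ⟨x, hx, fun h' => hxN h'.2⟩
  exact hy' ⟨hy, hyN⟩

theorem TV.infinite_iff (hN : TV σ S N) {X : Set M} (h : Df1 σ S N X) :
    (X ∩ N).Infinite ↔ X.Infinite := by
  constructor
  · exact fun h' => h'.mono Set.inter_subset_left
  · intro h' hfin
    have h1 : X ⊆ N := TV.subset_of_finite hN h hfin
    rw [Set.inter_eq_left.2 h1] at hfin
    exact h' hfin

theorem TV.acl_subset (hN : TV σ S N) (hA : A ⊆ N) : acl σ S A ⊆ N := by
  rintro b ⟨X, hX, hfin, hb⟩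
  exact TV.subset_of_finite hN (hX.mono hA) (hfin.subset Set.inter_subset_left) hb

end Pool.Agent.BLE
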