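import Pool.Agent.BLE.SC
import Pool.Agent.BLE.DA
import Pool.Agent.BLE.SE

/-!
# BLE / DF: links between formulas and definable sets

* `fml_of_dfn`: let `X` be defined by `φ₀`, `ρ₀ : ℕ → I ⊕ M` with parameters in `v '' V`. Let
  `m = φ₀.code` (all free variables are `< m`). Define `r : ℕ → ℕ`: `r t = g i` if `ρ₀ t = inl i`;
  `r t` = some `j ∈ V` with `v j = a` if `ρ₀ t = inr a` and `t ∈ φ₀.fv`; for `t ∉ φ₀.fv` with
  `ρ₀ t = inr a`: if `φ₀.fv` is empty take `φ = φ₀` (then `φ₀` has no free variable and truth does not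
  depend on the assignment, `sat_congr`), otherwise let `r t = r t₀` for a fixed `t₀ ∈ φ₀.fv`. Then
  `φ = subst r m B φ₀` for `B` large; `sat_subst`, `fv_subst` (module SC), `sat_congr`.
* `df1_of_fml`: `ρ t = if t = x then inl () else inr (v t)`.
* `fml_of_df1`: `fml_of_dfn` with `I = Unit`, `g = fun _ => x`, applied to `w = update v x y`.
-/

set_option autoImplicit false

namespace Pool.Agent.BLE

open Function

variable {σ : Sig} {M : Type} {S : Str M} {I : Type}

theorem fml_of_dfn {X : Set (I → M)} (v : ℕ → M) (V : Set ℕ) (g : I → ℕ)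
    (h : Dfn σ S (v '' V) X) :
    ∃ φ : Fml, (∀ t ∈ φ.fv, t ∈ V ∨ t ∈ Set.range g) ∧
      ∀ w : ℕ → M, (∀ t ∈ V, w t = v t) → (Sat σ S w φ ↔ (fun i => w (g i)) ∈ X) := by
  classical
  obtain ⟨φ₀, ρ₀, h1, h2⟩ := h
  have H : ∀ t ∈ φ₀.fv, ∃ s : ℕ, (s ∈ V ∨ s ∈ Set.range g) ∧
      ∀ w : ℕ → M, (∀ u ∈ V, w u = v u) → w s = Sum.elim (fun i => w (g i)) id (ρ₀ t) := by
    intro t ht
    rcases hρ : ρ₀ t with i | a
    · exact ⟨g i, Or.inr ⟨i, rfl⟩, fun w _ => rfl⟩
    · obtain ⟨s, hs, hsa⟩ := h1 t ht a hρ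
      refine ⟨s, Or.inl hs, fun w hw => ?_⟩
      rw [hw s hs, hsa]
      rfl
  by_cases he : φ₀.fv = ∅
  · refine ⟨φ₀, fun t ht => ?_, fun w _ => ?_⟩
    · rw [he] at ht
      exact absurd ht (Finset.notMem_empty t)
    · rw [h2]
      refine sat_congr φ₀ fun i hi => ?_
      rw [he] at hi
      exact absurd hi (Finset.notMem_empty i)
  · obtain ⟨t₀, ht₀⟩ := Finset.nonempty_iff_ne_empty.2 he
    obtain ⟨r, hr1, hr2⟩ : ∃ r : ℕ → ℕ, (∀ t, r t ∈ V ∨ r t ∈ Set.range g) ∧
        ∀ t ∈ φ₀.fv, ∀ w : ℕ → M, (∀ u ∈ V, w u = v u) →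
          w (r t) = Sum.elim (fun i => w (g i)) id (ρ₀ t) := by
      choose! r' hr' using H
      refine ⟨fun t => if t ∈ φ₀.fv then r' t else r' t₀, fun t => ?_, fun t ht w hw => ?_⟩
      · show (if t ∈ φ₀.fv then r' t else r' t₀) ∈ V ∨ (if t ∈ φ₀.fv then r' t else r' t₀) ∈ Set.range g
        by_cases ht : t ∈ φ₀.fv
        · rw [if_pos ht]
          exact (hr' t ht).1
        · rw [if_neg ht]
          exact (hr' t₀ ht₀).1
      · show w (if t ∈ φ₀.fv then r' t else r' t₀) = _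
        rw [if_pos ht]
        exact (hr' t ht).2 w hw
    have hm := fv_lt_code φ₀
    have hB : φ₀.code ≤ φ₀.code + (Finset.range φ₀.code).sup r + 1 := by omega
    have hρ : ∀ t < φ₀.code, r t < φ₀.code + (Finset.range φ₀.code).sup r + 1 := by
      intro t ht
      have : r t ≤ (Finset.range φ₀.code).sup r := Finset.le_sup (Finset.mem_range.2 ht)
      omega
    refine ⟨Fml.subst r φ₀.code (φ₀.code + (Finset.range φ₀.code).sup r + 1) φ₀, fun t ht => ?_,
      fun w hw => ?_⟩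
    · obtain ⟨u, _, hu⟩ := Finset.mem_image.1 (fv_subst r _ _ φ₀ hm hB ht)
      rw [← hu]
      exact hr1 u
    · rw [sat_subst r _ _ φ₀ hm hB hρ w, h2]
      exact sat_congr φ₀ fun i hi => hr2 i hi w hw

theorem df1_of_fml (φ : Fml) (v : ℕ → M) (x : ℕ) :
    Df1 σ S (v '' {t | t ∈ φ.fv ∧ t ≠ x}) {y | Sat σ S (update v x y) φ} := by
  classical
  refine ⟨φ, fun t => if t = x then Sum.inl () else Sum.inr (v t), fun t ht a ha => ?_, fun y => ?_⟩
  · by_cases htx : t = x
    · have h1 : (if t = x then (Sum.inl () : Unit ⊕ M) else Sum.inr (v t)) = Sum.inr a := ha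
      rw [if_pos htx] at h1
      cases h1
    · have h1 : (if t = x then (Sum.inl () : Unit ⊕ M) else Sum.inr (v t)) = Sum.inr a := ha
      rw [if_neg htx] at h1
      exact ⟨t, ⟨ht, htx⟩, Sum.inr.inj h1⟩
  · have h1 : (fun t => Sum.elim y id (if t = x then (Sum.inl () : Unit ⊕ M) else Sum.inr (v t))) =
        update v x (y ()) := by
      funext t
      by_cases htx : t = x
      · subst htx
        rw [if_pos rfl, update_self]
        rfl
      · rw [if_neg htx, update_of_ne htx]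
        rfl
    show Sat σ S (update v x (y ())) φ ↔
      Sat σ S (fun t => Sum.elim y id (if t = x then (Sum.inl () : Unit ⊕ M) else Sum.inr (v t))) φ
    rw [h1]

theorem fml_of_df1 {X : Set M} (v : ℕ → M) (V : Set ℕ) (x : ℕ) (hx : x ∉ V)
    (h : Df1 σ S (v '' V) X) :
    ∃ φ : Fml, (∀ t ∈ φ.fv, t ∈ V ∨ t = x) ∧ ∀ y, y ∈ X ↔ Sat σ S (update v x y) φ := by
  obtain ⟨φ, h1, h2⟩ := fml_of_dfn (I := Unit) v V (fun _ => x) h
  refine ⟨φ, fun t ht => ?_, fun y => ?_⟩
  · rcases h1 t ht with h3 | ⟨_, h3⟩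
    · exact Or.inl h3
    · exact Or.inr h3.symm
  · have h4 : ∀ t ∈ V, update v x y t = v t := by
      intro t ht
      have htx : t ≠ x := by
        rintro rfl
        exact hx ht
      exact update_of_ne htx _ _
    rw [h2 (update v x y) h4]
    show y ∈ X ↔ update v x y x ∈ X
    rw [update_self]

end Pool.Agent.BLE
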