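import Mathlib

/-!
# Project BLE: base definitions

First-order signatures and formulas (variables are natural numbers, unnested atomic formulas),
structures, theories, computable and decidable presentations, saturation.
-/

set_option autoImplicit false

namespace Pool.Agent.BLE

open Function

/-- A countable signature: `rel r = some n` means that the relation symbol `r` is present and
has arity `n`, `rel r = none` that it is absent; the same for the function symbols `fn`
(constants are function symbols of arity `0`). -/
structure Sig where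
  /-- arities of the relation symbols -/
  rel : ℕ → Option ℕ
  /-- arities of the function symbols -/
  fn : ℕ → Option ℕ

/-- The arities of the symbols are computable. -/
def Sig.Effective (σ : Sig) : Prop := Computable σ.rel ∧ Computable σ.fn

/-- First-order formulas with variables `x_0, x_1, ...` and unnested atomic formulas
`x_i = x_j`, `R_r(x_l)` and `f(x_l) = x_j` (`l` a list of indices of variables). -/
inductive Fml where
  | bot : Fml
  | eq (i j : ℕ) : Fml
  | rel (r : ℕ) (l : List ℕ) : Fml
  | fn (f : ℕ) (l : List ℕ) (j : ℕ) : Fml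
  | imp (φ ψ : Fml) : Fml
  | all (i : ℕ) (φ : Fml) : Fml

namespace Fml

/-- the free variables -/
def fv : Fml → Finset ℕ
  | bot => ∅
  | eq i j => {i, j}
  | rel _ l => l.toFinset
  | fn _ l j => insert j l.toFinset
  | imp φ ψ => φ.fv ∪ ψ.fv
  | all i φ => φ.fv.erase i

/-- the Goedel number of a formula -/
def code : Fml → ℕ
  | bot => 0
  | eq i j => 5 * Nat.pair i j + 1
  | rel r l => 5 * Nat.pair r (Encodable.encode l) + 2
  | fn f l j => 5 * Nat.pair f (Nat.pair (Encodable.encode l) j) + 3
  | imp φ ψ => 5 * Nat.pair φ.code ψ.code + 4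
  | all i φ => 5 * Nat.pair i φ.code + 5

end Fml

/-- A structure with universe `M`: all symbols are interpreted; only the interpretations of the
symbols of the signature on lists of the right length matter. -/
structure Str (M : Type) where
  /-- interpretation of the relation symbols -/
  rel : ℕ → List M → Prop
  /-- interpretation of the function symbols -/
  fn : ℕ → List M → M

/-- Truth of the formula in the structure `S` under the assignment `v`. -/
def Sat (σ : Sig) {M : Type} (S : Str M) : (ℕ → M) → Fml → Prop
  | _, .bot => False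
  | v, .eq i j => v i = v j
  | v, .rel r l => σ.rel r = some l.length ∧ S.rel r (l.map v)
  | v, .fn f l j => σ.fn f = some l.length ∧ S.fn f (l.map v) = v j
  | v, .imp φ ψ => Sat σ S v φ → Sat σ S v ψ
  | v, .all i φ => ∀ a : M, Sat σ S (update v i a) φ

/-- `S` is a model of the set `T` of formulas. -/
def Models (σ : Sig) {M : Type} (S : Str M) (T : Set Fml) : Prop :=
  ∀ φ ∈ T, ∀ v : ℕ → M, Sat σ S v φ

/-- `e` is an isomorphism from `S` onto `S'`. -/
def IsIso (σ : Sig) {M M' : Type} (S : Str M) (S' : Str M') (e : M ≃ M') : Prop :=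
  (∀ r n, σ.rel r = some n → ∀ l : List M, l.length = n → (S.rel r l ↔ S'.rel r (l.map e))) ∧
  (∀ f n, σ.fn f = some n → ∀ l : List M, l.length = n → e (S.fn f l) = S'.fn f (l.map e))

/-- The structures are isomorphic. -/
def Isom (σ : Sig) {M M' : Type} (S : Str M) (S' : Str M') : Prop := ∃ e : M ≃ M', IsIso σ S S' e

/-- `T` is a complete first-order theory with infinite models: a set of sentences which has an
infinite model and contains every sentence or its negation. -/
structure CompleteTheory (σ : Sig) (T : Set Fml) : Prop where
  sentences : ∀ φ ∈ T, φ.fv = ∅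
  model : ∃ (M : Type) (S : Str M), Infinite M ∧ Models σ S T
  complete : ∀ φ : Fml, φ.fv = ∅ → φ ∈ T ∨ φ.imp .bot ∈ T

/-- `T` is categorical in the cardinality `κ`. -/
def Categorical (σ : Sig) (T : Set Fml) (κ : Cardinal.{0}) : Prop :=
  ∀ (M M' : Type) (S : Str M) (S' : Str M'), Models σ S T → Models σ S' T →
    Cardinal.mk M = κ → Cardinal.mk M' = κ → Isom σ S S'

/-- `T` is uncountably categorical: categorical in every uncountable cardinality and not
categorical in `ℵ₀`. -/
def UncountablyCategorical (σ : Sig) (T : Set Fml) : Prop :=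
  (∀ κ : Cardinal.{0}, Cardinal.aleph0 < κ → Categorical σ T κ) ∧
    ¬ Categorical σ T Cardinal.aleph0

/-- `T` is decidable: the set of the Goedel numbers of its sentences is computable. -/
def DecidableTheory (T : Set Fml) : Prop := ComputablePred fun n : ℕ => ∃ φ ∈ T, φ.code = n

/-- The structure `S` is (`ω`-)saturated: every set `Γ` of formulas with free variables among
`x_0, ..., x_n`, which for the parameters `h 0, ..., h (n-1)` is finitely satisfiable in the
variable `x_n`, is satisfiable. -/
def OmegaSat (σ : Sig) {M : Type} (S : Str M) : Prop :=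
  ∀ (n : ℕ) (h : ℕ → M) (Γ : Set Fml), (∀ φ ∈ Γ, φ.fv ⊆ Finset.range (n + 1)) →
    (∀ Δ : Finset Fml, (Δ : Set Fml) ⊆ Γ → ∃ a : M, ∀ φ ∈ Δ, Sat σ S (update h n a) φ) →
    ∃ a : M, ∀ φ ∈ Γ, Sat σ S (update h n a) φ

/-- The structure `S` with universe `ℕ` has a computable atomic diagram. -/
def ComputableStr (σ : Sig) (S : Str ℕ) : Prop :=
  (ComputablePred fun p : ℕ × List ℕ => σ.rel p.1 = some p.2.length ∧ S.rel p.1 p.2) ∧
  (∃ g : ℕ × List ℕ → ℕ, Computable g ∧
    ∀ f l, σ.fn f = some l.length → S.fn f l = g (f, l))

/-- The structure `S` with universe `ℕ` has a computable elementary diagram: truth of formulas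
under assignments `x_i ↦ l_i` (`0` beyond the length of the list `l`) is computable. -/
def DecidableStr (σ : Sig) (S : Str ℕ) : Prop :=
  ComputablePred fun p : ℕ × List ℕ =>
    ∃ φ : Fml, φ.code = p.1 ∧ Sat σ S (fun i => p.2.getD i 0) φ

/-- The structures `S`, `S'` with universe `ℕ` are computably isomorphic. -/
def ComputablyIsom (σ : Sig) (S S' : Str ℕ) : Prop :=
  ∃ e : ℕ ≃ ℕ, IsIso σ S S' e ∧ Computable (e : ℕ → ℕ)

end Pool.Agent.BLE
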