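import Pool.Agent.BLE.Syn

/-!
# Project BLE: definable sets with parameters, algebraic closure, elementary subsets, ...
(definitions only)
-/

set_option autoImplicit false

namespace Pool.Agent.BLE

open Function

/-- renaming of all variables (free and bound) by the map `f` (to be used for injective `f`) -/
def Fml.ren (f : ℕ → ℕ) : Fml → Fml
  | .bot => .bot
  | .eq i j => .eq (f i) (f j)
  | .rel r l => .rel r (l.map f)
  | .fn g l j => .fn g (l.map f) (f j)
  | .imp φ ψ => .imp (φ.ren f) (ψ.ren f)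
  | .all i φ => .all (f i) (φ.ren f)

variable (σ : Sig) {M : Type} (S : Str M)

/-- The set `X ⊆ M^I` is definable with parameters in `A`: by a formula each of whose variables
`t` is replaced by the coordinate `i` (if `ρ t = inl i`) or by the parameter `a`
(if `ρ t = inr a`). -/
def Dfn (A : Set M) {I : Type} (X : Set (I → M)) : Prop :=
  ∃ (φ : Fml) (ρ : ℕ → I ⊕ M), (∀ t ∈ φ.fv, ∀ a, ρ t = Sum.inr a → a ∈ A) ∧
    ∀ x : I → M, x ∈ X ↔ Sat σ S (fun t => Sum.elim x id (ρ t)) φ

/-- The subset `X` of `M` is definable with parameters in `A`. -/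
def Df1 (A : Set M) (X : Set M) : Prop := Dfn σ S A {x : Unit → M | x () ∈ X}

/-- `N` is the universe of an elementary substructure (Tarski-Vaught). -/
def TV (N : Set M) : Prop := ∀ X, Df1 σ S N X → X.Nonempty → (X ∩ N).Nonempty

/-- algebraic closure -/
def acl (A : Set M) : Set M := {b | ∃ X, Df1 σ S A X ∧ X.Finite ∧ b ∈ X}

/-- definable closure -/
def dcl (A : Set M) : Set M := {b | Df1 σ S A {b}}

/-- The type of the tuple `x` over `A` is isolated. -/
def Isol (A : Set M) {I : Type} (x : I → M) : Prop :=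
  ∃ X, Dfn σ S A X ∧ x ∈ X ∧ ∀ Z, Dfn σ S A Z → x ∈ Z → X ⊆ Z

/-- All finite tuples of elements of `B` have isolated types over `A`. -/
def AtomicOver (A B : Set M) : Prop :=
  ∀ (n : ℕ) (x : Fin n → M), (∀ i, x i ∈ B) → Isol σ S A x

/-- `D` is strongly minimal in `S`. -/
def SMin (D : Set M) : Prop :=
  D.Infinite ∧ ∀ Z, Df1 σ S Set.univ Z → (D ∩ Z).Finite ∨ (D \ Z).Finite

/-- The finite sequence `e` is algebraically independent over `A`. -/
def Ind (A : Set M) {n : ℕ} (e : Fin n → M) : Prop :=
  ∀ i, e i ∉ acl σ S (A ∪ e '' {j | j < i})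

/-- Over every countable set only countably many types are realized. -/
def FewTypes : Prop :=
  ∀ A : Set M, A.Countable → ∃ C : Set M, C.Countable ∧
    ∀ b, ∃ c ∈ C, ∀ X, Df1 σ S A X → (b ∈ X ↔ c ∈ X)

/-- `aleph_1`-saturation of the elementary substructure `N` (for countably many variables; the
variables in `s` have the fixed values `v₀`). -/
def SatG (N : Set M) : Prop :=
  ∀ (Γ : Set Fml) (s : Set ℕ) (v₀ : ℕ → M), (∀ i, v₀ i ∈ N) →
    (∀ Δ : Finset Fml, (Δ : Set Fml) ⊆ Γ →
      ∃ v : ℕ → M, (∀ i, v i ∈ N) ∧ Set.EqOn v v₀ s ∧ ∀ φ ∈ Δ, Sat σ S v φ) →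
    ∃ v : ℕ → M, (∀ i, v i ∈ N) ∧ Set.EqOn v v₀ s ∧ ∀ φ ∈ Γ, Sat σ S v φ

/-- `ω`-saturation of the elementary substructure `N`. -/
def SatW (N : Set M) : Prop :=
  ∀ A : Set M, A.Finite → A ⊆ N → ∀ 𝒳 : Set (Set M), (∀ X ∈ 𝒳, Df1 σ S A X) →
    (∀ F : Finset (Set M), (F : Set (Set M)) ⊆ 𝒳 → (⋂₀ (F : Set (Set M)) ∩ N).Nonempty) →
    (⋂₀ 𝒳 ∩ N).Nonempty

/-- A monster model: infinite, `aleph_1`-saturated, with few types. -/
structure Monster : Prop where
  inf : Infinite M
  satG : SatG σ S Set.univ
  few : FewTypes σ S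

/-- There are no Vaughtian pairs inside `S`. -/
def NoVP : Prop :=
  ∀ B N : Set M, TV σ S B → TV σ S N → B ⊆ N → ∀ X, Df1 σ S B X → X.Infinite →
    X ∩ N ⊆ B → B = N

/-- a representative of a germ -/
noncomputable def gout {M J : Type} (U : Ultrafilter J) (x : Filter.Germ (U : Filter J) M) :
    J → M :=
  @Quotient.out _ (Filter.germSetoid (U : Filter J) M) x

theorem coe_gout {M J : Type} (U : Ultrafilter J) (x : Filter.Germ (U : Filter J) M) :
    ((gout U x : J → M) : Filter.Germ (U : Filter J) M) = x :=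
  @Quotient.out_eq _ (Filter.germSetoid (U : Filter J) M) x

/-- An ultrapower of `S` (universe: the germs along the ultrafilter `U`). -/
noncomputable def UStr {M J : Type} (U : Ultrafilter J) (S : Str M) :
    Str (Filter.Germ (U : Filter J) M) where
  rel r l := ∀ᶠ j in (U : Filter J), S.rel r (l.map fun x => gout U x j)
  fn f l := ((fun j => S.fn f (l.map fun x => gout U x j) : J → M) :
    Filter.Germ (U : Filter J) M)

/-- the subset of the ultrapower defined by a subset -/
def UN {M J : Type} (U : Ultrafilter J) (N : Set M) : Set (Filter.Germ (U : Filter J) M) :=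
  {x | Filter.Germ.LiftPred (· ∈ N) x}

/-- The substructure with universe `N` (meaningful if `N` is closed under the functions). -/
noncomputable def Sub {M : Type} (S : Str M) (N : Set M) (n₀ : N) : Str N where
  rel r l := S.rel r (l.map Subtype.val)
  fn f l := by
    classical exact if h : S.fn f (l.map Subtype.val) ∈ N then ⟨_, h⟩ else n₀

end Pool.Agent.BLE
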