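import Pool.Agent.BLE.DE

/-!
# BLE / EA: definable closure; expansion by a binary relation

A set definable over `dcl A` is definable over `A`: the finitely many parameters are removed one at
a time. `sigE σ` has the new binary relation symbol `0` and the old relation symbols `r` as `r + 1`;
`up φ` is the formula `φ` in the new signature.
-/

set_option autoImplicit false

namespace Pool.Agent.BLE

open Function

variable {σ : Sig} {M : Type} {S : Str M} {A : Set M}

/-- one parameter of the definable closure can be removed -/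
private theorem remove_one [Nonempty M] {B : Set M} {c : M} (hc : Df1 σ S B {c}) {X : Set M}
    (h : Df1 σ S (insert c B) X) : Df1 σ S B X := by
  obtain ⟨R, hR, hRX⟩ := h.pull1
  have h1 : Dfn σ S B {x : Option Unit → M | x none ∈ ({c} : Set M)} :=
    Dfn.reindex (I := Unit) (J := Option Unit) hc (fun _ => none)
  have h2 : Dfn σ S B {x : Option Unit → M | R (x (some ())) (x none)} :=
    Dfn.reindex (I := Bool) (J := Option Unit) hR (fun b => if b then some () else none)
  have h3 := Dfn.exists (I := Unit) (P := fun a x => a ∈ ({c} : Set M) ∧ R (x ()) a) (h1.inter h2)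
  have h4 : {x : Unit → M | ∃ a, a ∈ ({c} : Set M) ∧ R (x ()) a} = {x : Unit → M | x () ∈ X} := by
    ext x
    constructor
    · rintro ⟨a, ha, hr⟩
      have : a = c := ha
      rw [this] at hr
      exact (hRX _).2 hr
    · intro hx
      exact ⟨c, rfl, (hRX _).1 hx⟩
  rw [h4] at h3
  exact h3

private theorem remove_fin [Nonempty M] {F : Set M} (hF : F.Finite) :
    F ⊆ dcl σ S A → ∀ X : Set M, Df1 σ S (F ∪ A) X → Df1 σ S A X := by
  refine Set.Finite.induction_on F hF ?_ ?_
  · intro _ X hX
    rw [Set.empty_union] at hX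
    exact hX
  · intro c F' _ _ ih hsub X hX
    have hc : Df1 σ S A {c} := hsub (Set.mem_insert c F')
    rw [Set.insert_union] at hX
    exact ih (fun x hx => hsub (Set.mem_insert_of_mem c hx)) X
      (remove_one (hc.mono Set.subset_union_right) hX)

theorem df1_dcl {X : Set M} (h : Df1 σ S (dcl σ S A) X) : Df1 σ S A X := by
  rcases isEmpty_or_nonempty M with hM | hM
  · have : X = ∅ := Set.eq_empty_of_isEmpty X
    rw [this]
    exact Df1.empty
  · obtain ⟨A₀, hA₀, hfin, hX⟩ := h.fin_support
    exact remove_fin hfin hA₀ X (hX.mono Set.subset_union_left)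

theorem subset_dcl : A ⊆ dcl σ S A := by
  intro a ha
  exact Df1.singleton ha

theorem dcl_dcl : dcl σ S (dcl σ S A) = dcl σ S A := by
  refine Set.Subset.antisymm ?_ subset_dcl
  intro b hb
  exact df1_dcl hb

/-- the signature with a new binary relation symbol `0` -/
def sigE (σ : Sig) : Sig where
  rel r := match r with
    | 0 => some 2
    | r + 1 => σ.rel r
  fn := σ.fn

/-- expansion of a structure by a binary relation -/
def strE {M : Type} (S : Str M) (lt : M → M → Prop) : Str M where
  rel r l := match r, l with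
    | 0, [a, b] => lt a b
    | 0, _ => False
    | r + 1, l => S.rel r l
  fn := S.fn

/-- reduct -/
def redE {M : Type} (S' : Str M) : Str M where
  rel r l := S'.rel (r + 1) l
  fn := S'.fn

/-- translation of the formulas into the larger signature -/
def up : Fml → Fml
  | .bot => .bot
  | .eq i j => .eq i j
  | .rel r l => .rel (r + 1) l
  | .fn g l j => .fn g l j
  | .imp φ ψ => .imp (up φ) (up ψ)
  | .all i φ => .all i (up φ)

theorem sat_up (S' : Str M) (v : ℕ → M) (φ : Fml) :
    Sat (sigE σ) S' v (up φ) ↔ Sat σ (redE S') v φ := by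
  induction φ generalizing v with
  | bot => exact Iff.rfl
  | eq i j => exact Iff.rfl
  | rel r l => exact Iff.rfl
  | fn g l j => exact Iff.rfl
  | imp φ ψ ih1 ih2 => exact imp_congr (ih1 v) (ih2 v)
  | all i φ ih => exact forall_congr' fun a => ih (update v i a)

theorem fv_up (φ : Fml) : (up φ).fv = φ.fv := by
  induction φ with
  | bot => rfl
  | eq i j => rfl
  | rel r l => rfl
  | fn g l j => rfl
  | imp φ ψ ih1 ih2 =>
    show (up φ).fv ∪ (up ψ).fv = φ.fv ∪ ψ.fv
    rw [ih1, ih2]
  | all i φ ih =>
    show (up φ).fv.erase i = φ.fv.erase i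
    rw [ih]

theorem df1_up (S' : Str M) {X : Set M} (h : Df1 σ (redE S') A X) : Df1 (sigE σ) S' A X := by
  obtain ⟨φ, ρ, hρ, hφ⟩ := h
  refine ⟨up φ, ρ, ?_, ?_⟩
  · rw [fv_up]
    exact hρ
  · intro x
    rw [hφ x]
    exact (sat_up S' _ φ).symm

theorem tv_up (S' : Str M) {N : Set M} (h : TV (sigE σ) S' N) : TV σ (redE S') N := by
  intro X hX hne
  exact h X (df1_up S' hX) hne

end Pool.Agent.BLE
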