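import Pool.Agent.BLE.SA

/-!
# BLE / EB: iterated ultrafilter quantifiers (instead of Ramsey's theorem)

Let `U = Filter.hyperfilter M` (nonprincipal ultrafilter on the infinite set `M`). Define for a list `L`
of indices `ItL U P L c`: `ItL U P [] c = P c`, `ItL U P (i :: L) c = ∀ᶠ a in U, ItL U P L (update c i a)`.
`G n = {P | ItL U P (List.range n) c₀}` (`c₀` constant; for `P` depending only on the coordinates `< n` it
does not matter). Facts (inductions on the list): (1) `ItL (P ∧ Q) ↔ ItL P ∧ ItL Q`,
`ItL (¬ P) ↔ ¬ ItL P` (`Ultrafilter.eventually_not`); (2) `ItL P L c → ∃ c', P c'` (with `c' = c` outside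
`L`); (3) if `P` does not depend on the coordinate `i` then `i` may be deleted from the list;
(4) for `ρ` strictly increasing on `[0,n)` and `P` depending only on coordinates `< n`:
`ItL (fun c => P (c ∘ ρ)) ((List.range n).map ρ) c ↔ ItL P (List.range n) (c ∘ ρ)`.
`exists_good`, second part: let `L` be the increasing list of all indices `ρ k` (`k < n`) for the
triples in `Δ` (`Finset.sort`); by (3), (4) `ItL (fun c => P (c ∘ ρ)) L c₀` for every `(n, P, ρ) ∈ Δ`
(the list `(List.range n).map ρ` is the sublist of `L` of the indices on which `P (· ∘ ρ)` may depend,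
it is increasing); by (1) the conjunction over `Δ`, by (2) there is `c`. Third part: for almost all `a`
almost all `b` are different from `a`.
-/

set_option autoImplicit false

namespace Pool.Agent.BLE

open Function

/-- Iterated ultrafilter quantifier along a list of indices. -/
private def ItL {M I : Type} [DecidableEq I] (U : Ultrafilter M) (P : (I → M) → Prop) :
    List I → (I → M) → Prop
  | [], c => P c
  | i :: L, c => ∀ᶠ a in (U : Filter M), ItL U P L (update c i a)

private theorem itL_not {M I : Type} [DecidableEq I] (U : Ultrafilter M) (P : (I → M) → Prop) :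
    ∀ (L : List I) (c : I → M), ItL U (fun c => ¬ P c) L c ↔ ¬ ItL U P L c
  | [], c => Iff.rfl
  | i :: L, c => by
    simp only [ItL]
    rw [← Ultrafilter.eventually_not]
    exact Filter.eventually_congr (Filter.Eventually.of_forall fun a => itL_not U P L _)

private theorem itL_exists {M I : Type} [DecidableEq I] (U : Ultrafilter M)
    (P : (I → M) → Prop) : ∀ (L : List I) (c : I → M), ItL U P L c → ∃ c', P c'
  | [], c, h => ⟨c, h⟩
  | i :: L, c, h => by
    simp only [ItL] at h
    obtain ⟨a, ha⟩ := h.exists
    exact itL_exists U P L _ ha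

private theorem itL_all {M I T : Type} [DecidableEq I] (U : Ultrafilter M) (Δ : Finset T)
    (Q : T → (I → M) → Prop) : ∀ (L : List I) (c : I → M), (∀ d ∈ Δ, ItL U (Q d) L c) →
      ItL U (fun c => ∀ d ∈ Δ, Q d c) L c
  | [], c, h => h
  | i :: L, c, h => by
    simp only [ItL] at h ⊢
    have h' : ∀ᶠ a in (U : Filter M), ∀ d ∈ Δ, ItL U (Q d) L (update c i a) :=
      (Filter.eventually_all_finset Δ).2 h
    exact h'.mono fun a ha => itL_all U Δ Q L _ ha

private theorem itL_move {M I : Type} [LinearOrder I] (U : Ultrafilter M) (n : ℕ)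
    (P : (ℕ → M) → Prop) (hP : ∀ c c' : ℕ → M, (∀ k < n, c k = c' k) → (P c ↔ P c'))
    (ρ : ℕ → I) (hρ : StrictMonoOn ρ (Set.Iio n)) :
    ∀ (L : List I) (_ : L.Pairwise (· < ·)) (m : ℕ) (_ : m ≤ n)
      (_ : ∀ k, m ≤ k → k < n → ρ k ∈ L) (_ : ∀ k, k < m → ρ k ∉ L)
      (c : I → M) (c' : ℕ → M) (_ : ∀ k, k < m → c' k = c (ρ k)),
      ItL U P (List.range' m (n - m)) c' ↔ ItL U (fun c => P (c ∘ ρ)) L c := by
  intro L
  induction L with
  | nil =>
    intro _ m hm h1 _ c c' hc
    have hmn : m = n := by
      by_contra hne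
      exact List.not_mem_nil (h1 m le_rfl (lt_of_le_of_ne hm hne))
    subst hmn
    simp only [Nat.sub_self, List.range'_zero, ItL]
    exact hP _ _ hc
  | cons i L ih =>
    intro hL m hm h1 h2 c c' hc
    rw [List.pairwise_cons] at hL
    by_cases hi : m < n ∧ ρ m = i
    · obtain ⟨hmn, hi⟩ := hi
      have hr : List.range' m (n - m) = m :: List.range' (m + 1) (n - (m + 1)) := by
        have : n - m = (n - (m + 1)) + 1 := by omega
        rw [this, List.range'_succ]
      rw [hr]
      simp only [ItL]
      refine Filter.eventually_congr (Filter.Eventually.of_forall fun a => ?_)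
      refine ih hL.2 (m + 1) hmn ?_ ?_ _ _ ?_
      · intro k hk hkn
        have hk1 := h1 k (by omega) hkn
        rcases List.mem_cons.1 hk1 with h | h
        · exfalso
          have := hρ (Set.mem_Iio.2 hmn) (Set.mem_Iio.2 hkn) (show m < k by omega)
          rw [hi, h] at this
          exact lt_irrefl _ this
        · exact h
      · intro k hk hkL
        rcases Nat.lt_succ_iff_lt_or_eq.1 hk with h | h
        · exact h2 k h (List.mem_cons_of_mem _ hkL)
        · subst h
          have := hL.1 _ hkL
          rw [hi] at this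
          exact lt_irrefl _ this
      · intro k hk
        rcases Nat.lt_succ_iff_lt_or_eq.1 hk with h | h
        · have hne : ρ k ≠ i := fun he => h2 k h (by rw [he]; exact List.mem_cons_self)
          rw [update_of_ne (by omega), update_of_ne hne]
          exact hc k h
        · subst h
          rw [hi, update_self, update_self]
    · have hne : ∀ k, k < n → ρ k ≠ i := by
        intro k hk he
        rcases Nat.lt_or_ge k m with h | h
        · exact h2 k h (by rw [he]; exact List.mem_cons_self)
        · have hmn : m < n := lt_of_le_of_lt h hk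
          rcases List.mem_cons.1 (h1 m le_rfl hmn) with h' | h'
          · exact hi ⟨hmn, h'⟩
          · have h3 := hL.1 _ h'
            have h4 : ρ m ≤ ρ k := hρ.monotoneOn (Set.mem_Iio.2 hmn) (Set.mem_Iio.2 hk) h
            rw [he] at h4
            exact absurd h3 (not_lt.2 h4)
      simp only [ItL]
      have key : ∀ a : M, ItL U P (List.range' m (n - m)) c' ↔
          ItL U (fun c => P (c ∘ ρ)) L (update c i a) := by
        intro a
        refine ih hL.2 m hm ?_ ?_ _ _ ?_
        · intro k hk hkn
          rcases List.mem_cons.1 (h1 k hk hkn) with h | h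
          · exact absurd h (hne k hkn)
          · exact h
        · intro k hk hkL
          exact h2 k hk (List.mem_cons_of_mem _ hkL)
        · intro k hk
          rw [update_of_ne (hne k (lt_of_lt_of_le hk hm))]
          exact hc k hk
      constructor
      · intro h
        exact Filter.Eventually.of_forall fun a => (key a).1 h
      · intro h
        obtain ⟨a, ha⟩ := h.exists
        exact (key a).2 ha

theorem exists_good (M : Type) [Infinite M] :
    ∃ G : ℕ → Set ((ℕ → M) → Prop),
      (∀ (n : ℕ) (P : (ℕ → M) → Prop), P ∈ G n ∨ (fun c => ¬ P c) ∈ G n) ∧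
      (∀ (I : Type) [LinearOrder I] (Δ : Finset (ℕ × ((ℕ → M) → Prop) × (ℕ → I))),
        (∀ d ∈ Δ, (∀ c c' : ℕ → M, (∀ k < d.1, c k = c' k) → (d.2.1 c ↔ d.2.1 c')) ∧
          d.2.1 ∈ G d.1 ∧ StrictMonoOn d.2.2 (Set.Iio d.1)) →
        ∃ c : I → M, ∀ d ∈ Δ, d.2.1 (c ∘ d.2.2)) ∧
      (fun c : ℕ → M => c 0 ≠ c 1) ∈ G 2 := by
  classical
  obtain ⟨e⟩ : Nonempty M := inferInstance
  refine ⟨fun n => {P | ItL (Filter.hyperfilter M) P (List.range' 0 n) (fun _ => e)}, ?_, ?_, ?_⟩
  · intro n P
    by_cases h : ItL (Filter.hyperfilter M) P (List.range' 0 n) (fun _ => e)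
    · exact Or.inl h
    · exact Or.inr ((itL_not _ _ _ _).2 h)
  · intro I _ Δ hΔ
    set F : Finset I := Δ.biUnion fun d => (Finset.range d.1).image d.2.2 with hF
    have hmain : ItL (Filter.hyperfilter M) (fun c : I → M => ∀ d ∈ Δ, d.2.1 (c ∘ d.2.2))
        (F.sort (· ≤ ·)) (fun _ => e) := by
      apply itL_all (Filter.hyperfilter M) Δ (fun d (c : I → M) => d.2.1 (c ∘ d.2.2))
      intro d hd
      obtain ⟨h1, h2, h3⟩ := hΔ d hd
      have h4 := (itL_move (Filter.hyperfilter M) d.1 d.2.1 h1 d.2.2 h3 (F.sort (· ≤ ·))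
        (Finset.sortedLT_sort F).pairwise 0 (Nat.zero_le _) ?_ ?_ (fun _ => e) (fun _ => e)
        (fun k hk => rfl)).1 ?_
      · exact h4
      · intro k _ hk
        rw [Finset.mem_sort, hF, Finset.mem_biUnion]
        exact ⟨d, hd, Finset.mem_image_of_mem _ (Finset.mem_range.2 hk)⟩
      · intro k hk
        exact absurd hk (Nat.not_lt_zero _)
      · simpa using h2
    exact itL_exists _ _ _ _ hmain
  · show ItL (Filter.hyperfilter M) (fun c : ℕ → M => c 0 ≠ c 1) (List.range' 0 2) (fun _ => e)
    have hr : List.range' 0 2 = [0, 1] := rfl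
    rw [hr]
    simp only [ItL]
    refine Filter.Eventually.of_forall fun a => ?_
    have hfin : ({a} : Set M)ᶜ ∈ Filter.hyperfilter M :=
      (Set.finite_singleton a).compl_mem_hyperfilter
    filter_upwards [hfin] with b hb
    have : b ≠ a := hb
    simpa [update] using this.symm

end Pool.Agent.BLE
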