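import Pool.Agent.BLE.SB

/-!
# BLE / SC: semantics of the simultaneous substitution `subst`

`subst ρ m B φ = exs m (B + ·) (and (cj m fun t => eq (B+t) (ρ t)) (exs m id (and (cj m fun t =>
eq t (B+t)) φ)))`. By `sat_exs`: there is `w₁` agreeing with `v` outside `[B, B+m)` with
`w₁ (B+t) = w₁ (ρ t) = v (ρ t)` (as `ρ t < B`), and `w₂` agreeing with `w₁` outside `[0,m)` with
`w₂ t = w₂ (B+t) = w₁ (B+t)` (as `m ≤ B + t`), `Sat w₂ φ`. So `w₂ t = v (ρ t)` for `t < m`, and
`sat_congr` (all free variables of `φ` are `< m`) gives the claim. `fv_subst`: by `fv_exs`, `fv_cj`.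
-/

set_option autoImplicit false

namespace Pool.Agent.BLE

open Function

variable {σ : Sig} {M : Type} {S : Str M}

theorem sat_subst (ρ : ℕ → ℕ) (m B : ℕ) (φ : Fml) (hm : ∀ i ∈ φ.fv, i < m) (hB : m ≤ B)
    (hρ : ∀ t < m, ρ t < B) (v : ℕ → M) :
    Sat σ S v (Fml.subst ρ m B φ) ↔ Sat σ S (fun t => v (ρ t)) φ := by
  rw [Fml.subst, sat_exs]
  constructor
  · rintro ⟨w₁, h1, h2⟩
    rw [sat_and, sat_cj, sat_exs] at h2
    obtain ⟨h3, w₂, h4, h5⟩ := h2
    rw [sat_and, sat_cj] at h5
    obtain ⟨h6, h7⟩ := h5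
    refine (sat_congr φ fun i hi => ?_).1 h7
    have him := hm i hi
    have e1 : w₂ i = w₂ (B + i) := (sat_eq _ _).1 (h6 i him)
    have e2 : w₂ (B + i) = w₁ (B + i) := h4 (B + i) fun t ht => by
      show t ≠ B + i
      omega
    have e3 : w₁ (B + i) = w₁ (ρ i) := (sat_eq _ _).1 (h3 i him)
    have e4 : w₁ (ρ i) = v (ρ i) := h1 (ρ i) fun t ht => by
      have := hρ i him
      show B + t ≠ ρ i
      omega
    rw [e1, e2, e3, e4]
  · intro h
    refine ⟨fun i => if B ≤ i ∧ i < B + m then v (ρ (i - B)) else v i, fun i hi => ?_, ?_⟩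
    · show (if B ≤ i ∧ i < B + m then v (ρ (i - B)) else v i) = v i
      rw [if_neg]
      rintro ⟨h1, h2⟩
      exact hi (i - B) (by omega) (show B + (i - B) = i by omega)
    · rw [sat_and, sat_cj, sat_exs]
      refine ⟨fun t ht => ?_, fun i => if i < m then v (ρ i) else
        if B ≤ i ∧ i < B + m then v (ρ (i - B)) else v i, fun i hi => ?_, ?_⟩
      · rw [sat_eq]
        show (if B ≤ B + t ∧ B + t < B + m then v (ρ (B + t - B)) else v (B + t)) =
          (if B ≤ ρ t ∧ ρ t < B + m then v (ρ (ρ t - B)) else v (ρ t))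
        have h1 := hρ t ht
        rw [if_pos ⟨by omega, by omega⟩, if_neg (by omega), Nat.add_sub_cancel_left]
      · show (if i < m then v (ρ i) else
          if B ≤ i ∧ i < B + m then v (ρ (i - B)) else v i) = _
        rw [if_neg]
        intro h1
        exact hi i h1 rfl
      · rw [sat_and, sat_cj]
        refine ⟨fun t ht => ?_, ?_⟩
        · rw [sat_eq]
          show (if t < m then v (ρ t) else
            if B ≤ t ∧ t < B + m then v (ρ (t - B)) else v t) =
            (if B + t < m then v (ρ (B + t)) else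
            if B ≤ B + t ∧ B + t < B + m then v (ρ (B + t - B)) else v (B + t))
          rw [if_pos ht, if_neg (by omega), if_pos ⟨by omega, by omega⟩,
            Nat.add_sub_cancel_left]
        · refine (sat_congr φ fun i hi => ?_).1 h
          show v (ρ i) = if i < m then v (ρ i) else _
          rw [if_pos (hm i hi)]

theorem fv_subst (ρ : ℕ → ℕ) (m B : ℕ) (φ : Fml) (hm : ∀ i ∈ φ.fv, i < m) (hB : m ≤ B) :
    (Fml.subst ρ m B φ).fv ⊆ (Finset.range m).image ρ := by
  intro x hx
  rw [Fml.subst, fv_exs, Finset.mem_sdiff, fv_and, fv_exs, fv_and, fv_cj, fv_cj,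
    Finset.mem_union, Finset.mem_sdiff, Finset.mem_union] at hx
  obtain ⟨h1, h2⟩ := hx
  have h3 : ∀ t < m, B + t ≠ x := fun t ht he =>
    h2 (Finset.mem_image.2 ⟨t, Finset.mem_range.2 ht, he⟩)
  rcases h1 with h1 | ⟨h1, h4⟩
  · obtain ⟨j, hj, hx⟩ := Finset.mem_biUnion.1 h1
    simp only [Fml.fv, Finset.mem_insert, Finset.mem_singleton] at hx
    rcases hx with hx | hx
    · exact absurd hx.symm (h3 j (Finset.mem_range.1 hj))
    · exact Finset.mem_image.2 ⟨j, hj, hx.symm⟩
  · have h5 : ¬ x < m := fun h =>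
      h4 (Finset.mem_image.2 ⟨x, Finset.mem_range.2 h, rfl⟩)
    rcases h1 with h1 | h1
    · obtain ⟨j, hj, hx⟩ := Finset.mem_biUnion.1 h1
      have hj' := Finset.mem_range.1 hj
      simp only [Fml.fv, Finset.mem_insert, Finset.mem_singleton] at hx
      rcases hx with hx | hx
      · exact absurd (hx ▸ hj') h5
      · exact absurd hx.symm (h3 j hj')
    · exact absurd (hm x h1) h5

end Pool.Agent.BLE
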