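import Pool.Agent.BLE.UA

/-!
# BLE / UD: compactness (formulas with variables indexed by an arbitrary type `I`)

A pair `(φ, ρ)`, `ρ : ℕ → I`, is the formula `φ` with `x_t` replaced by the variable `ρ t`; it is
satisfied by `c : I → M` if `Sat S (c ∘ ρ) φ`. Proof by an ultrapower over the finite sets of pairs.
-/

set_option autoImplicit false

namespace Pool.Agent.BLE

open Function

variable {σ : Sig} {M : Type}

theorem compactness [Nonempty M] (S : Str M) (I : Type) (Γ : Set (Fml × (ℕ → I)))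
    (h : ∀ Δ : Finset (Fml × (ℕ → I)), (Δ : Set (Fml × (ℕ → I))) ⊆ Γ →
      ∃ c : I → M, ∀ p ∈ Δ, Sat σ S (c ∘ p.2) p.1) :
    ∃ (J : Type) (U : Ultrafilter J) (c : I → Filter.Germ (U : Filter J) M),
      ∀ p ∈ Γ, Sat σ (UStr U S) (c ∘ p.2) p.1 := by
  classical
  have h1 : ∀ Δ : Finset (Fml × (ℕ → I)), ∃ c : I → M, ∀ p ∈ Δ, p ∈ Γ →
      Sat σ S (c ∘ p.2) p.1 := by
    intro Δ
    obtain ⟨c, hc⟩ := h (Δ.filter fun p => p ∈ Γ) (fun p hp => (Finset.mem_filter.1 hp).2)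
    exact ⟨c, fun p hp hp' => hc p (Finset.mem_filter.2 ⟨hp, hp'⟩)⟩
  choose c hc using h1
  refine ⟨Finset (Fml × (ℕ → I)), Ultrafilter.of Filter.atTop,
    fun i => ((fun Δ => c Δ i : Finset (Fml × (ℕ → I)) → M) : Filter.Germ _ M), ?_⟩
  intro p hp
  refine (los (Ultrafilter.of Filter.atTop) S (fun (i : ℕ) Δ => c Δ (p.2 i)) p.1).2 ?_
  have h2 : ∀ᶠ Δ : Finset (Fml × (ℕ → I)) in Filter.atTop,
      Sat σ S (fun i => c Δ (p.2 i)) p.1 := by
    filter_upwards [Filter.eventually_ge_atTop ({p} : Finset (Fml × (ℕ → I)))] with Δ hΔ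
    exact hc Δ p (hΔ (Finset.mem_singleton_self p)) hp
  exact h2.filter_mono (Ultrafilter.of_le _)

end Pool.Agent.BLE
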