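import Pool.Agent.BLE.EB
import Pool.Agent.BLE.UD
import Pool.Agent.BLE.SC
import Pool.Agent.BLE.SE

/-!
# BLE / EC: existence of indiscernible sequences in ultrapowers

`G` from `exists_good`; `Γ` is the set of the `(φ, ρ)` such that for some `n` all free variables of `φ` are `< n`, `ρ` is strictly
increasing below `n` and `φ` belongs to `G n`. By `compactness` an ultrapower contains `c` satisfying `Γ`; so the truth of `φ`
at `c ∘ ρ` does not depend on `ρ`. The general version follows by the substitution `subst` which numbers the values of `ρ` on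
the free variables of `φ` in increasing order.
-/

set_option autoImplicit false

namespace Pool.Agent.BLE

open Function

variable {σ : Sig} {M : Type}

/-- `c` is an indiscernible sequence: the truth of `φ` at `c ∘ ρ` depends only on the order pattern of
`ρ` on the free variables of `φ` -/
def Indisc (σ : Sig) {M : Type} (S : Str M) {I : Type} [LinearOrder I] (c : I → M) : Prop :=
  Injective c ∧ ∀ (φ : Fml) (ρ ρ' : ℕ → I),
    (∀ i ∈ φ.fv, ∀ j ∈ φ.fv, (ρ i < ρ j ↔ ρ' i < ρ' j)) →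
    (Sat σ S (c ∘ ρ) φ ↔ Sat σ S (c ∘ ρ') φ)

private theorem c_strict {N I : Type} [LinearOrder I] {S : Str N} {c : I → N}
    (hA : ∀ (φ : Fml) (n : ℕ), (∀ i ∈ φ.fv, i < n) → ∀ ρ ρ' : ℕ → I,
      StrictMonoOn ρ (Set.Iio n) → StrictMonoOn ρ' (Set.Iio n) →
      (Sat σ S (c ∘ ρ) φ ↔ Sat σ S (c ∘ ρ') φ))
    (φ : Fml) (ρ ρ' : ℕ → I)
    (h : ∀ i ∈ φ.fv, ∀ j ∈ φ.fv, (ρ i < ρ j ↔ ρ' i < ρ' j)) :
    Sat σ S (c ∘ ρ) φ ↔ Sat σ S (c ∘ ρ') φ := by
  classical
  rcases φ.fv.eq_empty_or_nonempty with hemp | ⟨t0, ht0⟩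
  · apply sat_congr
    intro i hi
    rw [hemp] at hi
    exact absurd hi (Finset.notMem_empty i)
  set A := φ.fv with hAd
  have heq : ∀ i ∈ A, ∀ j ∈ A, ρ i = ρ j → ρ' i = ρ' j := by
    intro i hi j hj hij
    refine le_antisymm (not_lt.1 fun hlt => ?_) (not_lt.1 fun hlt => ?_)
    · exact absurd ((h j hj i hi).2 hlt) (by rw [hij]; exact lt_irrefl _)
    · exact absurd ((h i hi j hj).2 hlt) (by rw [hij]; exact lt_irrefl _)
  set s := A.image ρ with hs
  set k := s.card with hk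
  set f := s.orderEmbOfFin rfl with hf
  have hfm : ∀ j, f j ∈ s := fun j => Finset.orderEmbOfFin_mem s rfl j
  have hfr : ∀ t ∈ A, ∃ j : Fin k, f j = ρ t := by
    intro t ht
    have h1 : ρ t ∈ s := Finset.mem_image_of_mem ρ ht
    have h2 : Set.range f = (s : Set I) := Finset.range_orderEmbOfFin s rfl
    have h3 : ρ t ∈ Set.range f := by
      rw [h2]
      exact h1
    exact h3
  have hr : ∀ t : ℕ, ∃ j : Fin k, t ∈ A → f j = ρ t := by
    intro t
    by_cases ht : t ∈ A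
    · obtain ⟨j, hj⟩ := hfr t ht
      exact ⟨j, fun _ => hj⟩
    · obtain ⟨j, hj⟩ := hfr t0 ht0
      exact ⟨j, fun h => absurd h ht⟩
  choose r hr using hr
  have ht : ∀ j : ℕ, ∃ t, t ∈ A ∧ ∀ hj : j < k, ρ t = f ⟨j, hj⟩ := by
    intro j
    by_cases hj : j < k
    · obtain ⟨t, ht, ht2⟩ := Finset.mem_image.1 (hfm ⟨j, hj⟩)
      exact ⟨t, ht, fun _ => ht2⟩
    · exact ⟨t0, ht0, fun h => absurd h hj⟩
  choose tt htA htt using ht
  have hτ : StrictMonoOn (fun j => ρ (tt j)) (Set.Iio k) := by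
    intro a ha b hb hab
    show ρ (tt a) < ρ (tt b)
    rw [htt a ha, htt b hb]
    exact f.strictMono (Fin.mk_lt_mk.2 hab)
  have hτ' : StrictMonoOn (fun j => ρ' (tt j)) (Set.Iio k) := by
    intro a ha b hb hab
    exact (h _ (htA a) _ (htA b)).1 (hτ ha hb hab)
  have hm : ∀ i ∈ φ.fv, i < φ.code := fv_lt_code φ
  have hB : φ.code ≤ max φ.code k := le_max_left _ _
  have hrB : ∀ t < φ.code, (r t : ℕ) < max φ.code k := fun t _ =>
    (r t).2.trans_le (le_max_right _ _)
  have hfv : ∀ i ∈ (Fml.subst (fun t => (r t : ℕ)) φ.code (max φ.code k) φ).fv, i < k := by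
    intro i hi
    obtain ⟨t, -, rfl⟩ := Finset.mem_image.1
      (fv_subst (fun t => (r t : ℕ)) φ.code (max φ.code k) φ hm hB hi)
    exact (r t).2
  have key := hA _ k hfv _ _ hτ hτ'
  rw [sat_subst _ _ _ _ hm hB hrB, sat_subst _ _ _ _ hm hB hrB] at key
  have e1 : ∀ t ∈ φ.fv, ρ (tt (r t)) = ρ t := by
    intro t ht
    rw [htt _ (r t).2]
    exact hr t ht
  have h1 : Sat σ S (c ∘ ρ) φ ↔
      Sat σ S (fun t => (c ∘ fun j => ρ (tt j)) ((fun t => (r t : ℕ)) t)) φ := by
    apply sat_congr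
    intro t ht
    show c (ρ t) = c (ρ (tt (r t)))
    rw [e1 t ht]
  have h2 : Sat σ S (c ∘ ρ') φ ↔
      Sat σ S (fun t => (c ∘ fun j => ρ' (tt j)) ((fun t => (r t : ℕ)) t)) φ := by
    apply sat_congr
    intro t ht
    show c (ρ' t) = c (ρ' (tt (r t)))
    rw [heq _ (htA _) t ht (e1 t ht)]
  rw [h1, h2]
  exact key

theorem exists_indisc [Infinite M] (S : Str M) (I : Type) [LinearOrder I] :
    ∃ (J : Type) (U : Ultrafilter J) (c : I → Filter.Germ (U : Filter J) M),
      Indisc σ (UStr U S) c := by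
  classical
  obtain ⟨G, hG1, hG2, hG3⟩ := exists_good M
  obtain ⟨J, U, c, hc⟩ := compactness (σ := σ) S I
    {p | ∃ n : ℕ, (∀ i ∈ p.1.fv, i < n) ∧ StrictMonoOn p.2 (Set.Iio n) ∧
      (fun c : ℕ → M => Sat σ S c p.1) ∈ G n} (by
    intro Δ hΔ
    choose n hn1 hn2 hn3 using fun p : Δ => hΔ p.2
    obtain ⟨c, hc⟩ := hG2 I (Finset.univ.image fun p : Δ =>
      (n p, (fun c : ℕ → M => Sat σ S c p.1.1), p.1.2)) (by
        intro d hd
        obtain ⟨p, -, rfl⟩ := Finset.mem_image.1 hd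
        refine ⟨fun c c' hcc => ?_, hn3 p, hn2 p⟩
        exact sat_congr _ fun i hi => hcc i (hn1 p i hi))
    refine ⟨c, fun p hp => ?_⟩
    exact hc _ (Finset.mem_image_of_mem _ (Finset.mem_univ (⟨p, hp⟩ : Δ))))
  refine ⟨J, U, c, ?_, ?_⟩
  · have hlt : ∀ i i' : I, i < i' → c i ≠ c i' := by
      intro i i' hii
      have h1 := hc ((Fml.eq 0 1).neg, fun k => if k = 0 then i else i') ⟨2, ?_, ?_, hG3⟩
      · exact h1
      · intro k hk
        rw [fv_neg] at hk
        simp only [Fml.fv, Finset.mem_insert, Finset.mem_singleton] at hk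
        omega
      · intro a ha b hb hab
        rw [Set.mem_Iio] at ha hb
        have ha0 : a = 0 := by omega
        have hb0 : b ≠ 0 := by omega
        show (if a = 0 then i else i') < (if b = 0 then i else i')
        rw [if_pos ha0, if_neg hb0]
        exact hii
    intro i i' hii
    by_contra hne
    rcases lt_or_gt_of_ne hne with h1 | h1
    · exact hlt i i' h1 hii
    · exact hlt i' i h1 hii.symm
  · refine c_strict fun φ n hn ρ ρ' hρ hρ' => ?_
    rcases hG1 n (fun c => Sat σ S c φ) with h1 | h1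
    · have a1 := hc (φ, ρ) ⟨n, hn, hρ, h1⟩
      have a2 := hc (φ, ρ') ⟨n, hn, hρ', h1⟩
      exact ⟨fun _ => a2, fun _ => a1⟩
    · have hn' : ∀ i ∈ φ.neg.fv, i < n := by
        rw [fv_neg]
        exact hn
      have a1 := hc (φ.neg, ρ) ⟨n, hn', hρ, h1⟩
      have a2 := hc (φ.neg, ρ') ⟨n, hn', hρ', h1⟩
      exact ⟨fun h => absurd h a1, fun h => absurd h a2⟩

end Pool.Agent.BLE
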