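import Pool.Agent.BLE.Dfn

/-!
# BLE / ED: countably many order patterns over a countable subset of a well-ordering

Pure order theory. Code `ρ : Fin n → I` by the function `p(ρ) : Fin n → Option (J × Bool)`:
`p(ρ) k = none` if no element of `J` is `≥ ρ k`, otherwise `some (j, j = ρ k)` with `j` the least
element of `J` which is `≥ ρ k`; together with the order pattern `q(ρ) : Fin n × Fin n → Bool`,
`q(ρ) (k,k') = (ρ k < ρ k')`. Both codes range over countable types. Let `C` contain one `ρ` for every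
value of the code. If `ρ`, `ρ'` have the same code then for `j ∈ J`: `ρ k < j` iff `p(ρ) k = some (j', b)`
with `j' < j`, or `j' = j` and `b = false`; `j < ρ k` iff not (`ρ k < j` or `ρ k = j`).
-/

set_option autoImplicit false

namespace Pool.Agent.BLE

open Function

private theorem exists_code (I : Type) [LinearOrder I] [WellFoundedLT I] (J : Set I) :
    ∃ cd : I → Option (J × Bool), ∀ x y, cd x = cd y →
      ∀ j ∈ J, (x < j ↔ y < j) ∧ (j < x ↔ j < y) := by
  classical
  have hmin : ∀ x : I, (∃ j : J, x ≤ j) →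
      ∃ m : J, x ≤ m ∧ ∀ j ∈ J, x ≤ j → (m : I) ≤ j := by
    intro x hx
    obtain ⟨j0, hj0⟩ := hx
    have hne : {j : I | j ∈ J ∧ x ≤ j}.Nonempty := ⟨j0, j0.2, hj0⟩
    have hwf : WellFounded ((· < ·) : I → I → Prop) := wellFounded_lt
    have h1 := hwf.min_mem _ hne
    refine ⟨⟨hwf.min _ hne, h1.1⟩, h1.2, fun j hj hxj => ?_⟩
    exact not_lt.1 (hwf.not_lt_min {j : I | j ∈ J ∧ x ≤ j} (x := j) ⟨hj, hxj⟩)
  choose mn hmn1 hmn2 using hmin
  refine ⟨fun x => if h : ∃ j : J, x ≤ j then some (mn x h, decide ((mn x h : I) = x)) else none, ?_⟩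
  intro x y hxy j hj
  have key : (x ≤ j ↔ y ≤ j) ∧ (x = j ↔ y = j) := by
    by_cases hx : ∃ j : J, x ≤ j
    · by_cases hy : ∃ j : J, y ≤ j
      · simp only [dif_pos hx, dif_pos hy, Option.some.injEq, Prod.mk.injEq, decide_eq_decide] at hxy
        obtain ⟨h1, h2⟩ := hxy
        have hx1 := hmn1 x hx
        have hx2 := hmn2 x hx
        have hy1 := hmn1 y hy
        have hy2 := hmn2 y hy
        have hle1 : x ≤ j → y ≤ j := fun h => by
          refine hy1.trans ?_
          rw [← h1]
          exact hx2 j hj h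
        have hle2 : y ≤ j → x ≤ j := fun h => by
          refine hx1.trans ?_
          rw [h1]
          exact hy2 j hj h
        refine ⟨⟨hle1, hle2⟩, ?_, ?_⟩
        · intro h
          have h3 : (mn x hx : I) = x := le_antisymm (hx2 x (by rw [h]; exact hj) le_rfl) hx1
          have h4 : (mn y hy : I) = y := h2.1 h3
          rw [← h4, ← h1, h3, h]
        · intro h
          have h3 : (mn y hy : I) = y := le_antisymm (hy2 y (by rw [h]; exact hj) le_rfl) hy1
          have h4 : (mn x hx : I) = x := h2.2 h3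
          rw [← h4, h1, h3, h]
      · simp only [dif_pos hx, dif_neg hy] at hxy
        exact absurd hxy (by simp)
    · by_cases hy : ∃ j : J, y ≤ j
      · simp only [dif_neg hx, dif_pos hy] at hxy
        exact absurd hxy (by simp)
      · have h1 : ¬ x ≤ j := fun h => hx ⟨⟨j, hj⟩, h⟩
        have h2 : ¬ y ≤ j := fun h => hy ⟨⟨j, hj⟩, h⟩
        exact ⟨⟨fun h => absurd h h1, fun h => absurd h h2⟩,
          ⟨fun h => absurd h.le h1, fun h => absurd h.le h2⟩⟩
  refine ⟨?_, ?_⟩
  · rw [lt_iff_le_and_ne, lt_iff_le_and_ne, ne_eq, ne_eq, key.1, key.2]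
  · rw [← not_le, ← not_le, key.1]

theorem exists_patterns (I : Type) [LinearOrder I] [WellFoundedLT I] (J : Set I)
    (hJ : J.Countable) (n : ℕ) :
    ∃ C : Set (Fin n → I), C.Countable ∧ ∀ ρ : Fin n → I, ∃ ρ' ∈ C,
      (∀ k k', ρ k < ρ k' ↔ ρ' k < ρ' k') ∧
      (∀ k, ∀ j ∈ J, (ρ k < j ↔ ρ' k < j) ∧ (j < ρ k ↔ j < ρ' k)) := by
  classical
  have : Countable J := hJ.to_subtype
  obtain ⟨cd, hcd⟩ := exists_code I J
  let F : (Fin n → I) → (Fin n → Option (J × Bool)) × (Fin n → Fin n → Bool) :=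
    fun ρ => (fun k => cd (ρ k), fun k k' => decide (ρ k < ρ k'))
  have : Countable (Set.range F) := inferInstance
  refine ⟨Set.range fun c : Set.range F => c.2.choose, Set.countable_range _, fun ρ => ?_⟩
  have hρ : F ρ ∈ Set.range F := ⟨ρ, rfl⟩
  refine ⟨hρ.choose, ⟨⟨F ρ, hρ⟩, rfl⟩, ?_, ?_⟩
  · intro k k'
    have h1 := congrFun (congrFun (congrArg Prod.snd hρ.choose_spec) k) k'
    simp only [F, decide_eq_decide] at h1
    exact h1.symm
  · intro k
    have h1 := congrFun (congrArg Prod.fst hρ.choose_spec) k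
    exact hcd _ _ h1.symm

end Pool.Agent.BLE
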