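import Pool.Agent.BLE.EA
import Pool.Agent.BLE.EC
import Pool.Agent.BLE.ED
import Pool.Agent.BLE.DF
import Pool.Agent.BLE.DD

/-!
# BLE / EE: few types in the definable closure of a well-ordered indiscernible sequence

Let `H = dcl (range c)`, `A ⊆ H` countable. For every `a ∈ A`, `{a}` is definable over a finite subset of
`range c` (`Df1.fin_support`), so there is a countable `J ⊆ I` with `A ⊆ dcl (c '' J)`; every set
definable over `A` is definable over `c '' J` (`Df1.mono`, `df1_dcl`).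
Every `h ∈ H` is given by a number `n`, `ρ : Fin n → I` and a formula `φ` with free variables `≤ n`:
`{h} = {y | Sat (assignment: x_0 = y, x_(k+1) = c (ρ k) for k < n) φ}` (from `Df1 (range c) {h}` by
`Df1.fin_support` and `fml_of_df1`). For the (countably many) pairs `(n, φ)` and the (countably many)
`ρ' ∈ C_n` of `exists_patterns` let `C` contain the element defined by `(n, φ, ρ')` if there is one. Claim:
if `h` is given by `(n, φ, ρ)` and `ρ' ∈ C_n` has the same pattern over `J` then `(n, φ, ρ')` defines an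
element `h'` with the same type over `c '' J`. Proof: let `X` be definable over `c '' J`; by finite
support and `fml_of_df1` `X = {y | Sat (x_0 = y, x_(k+1) = c (j k)) ψ}` with `j : ℕ → I` having values in
`J` (if `J` is empty: no parameters, then `ψ` has the only free variable `0`). `h ∈ X` iff the sentence
`∃ y (φ(y, c ∘ ρ) ∧ ψ(y, c ∘ j))` is true: rename the variables (`Fml.ren`: `x_0 ↦ x_0`,
`x_(k+1) ↦ x_(2k+1)` in `φ` and `x_(k+1) ↦ x_(2k+2)` in `ψ`) to get a formula `χ` and
`τ, τ' : ℕ → I` (from `ρ`, `j` and from `ρ'`, `j`; arbitrary values elsewhere) with the same order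
pattern on the free variables, so `Sat (c ∘ τ) χ ↔ Sat (c ∘ τ') χ` (`Indisc`). Existence and uniqueness
of the element defined by `(φ, ρ')` is a special case of the same argument
(`atLeast 1`, `atMost 1`, module SD, or `∀ y y' ...`).
-/

set_option autoImplicit false

namespace Pool.Agent.BLE

open Function

variable {σ : Sig} {M : Type} {S : Str M}

private theorem indisc_dfn {I : Type} [LinearOrder I] [Nonempty I] {c : I → M}
    (hc : Indisc σ S c) {K : Type} {Z : Set (K → M)} (hZ : Dfn σ S ∅ Z) (ρ ρ' : K → I)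
    (h : ∀ k k', ρ k < ρ k' ↔ ρ' k < ρ' k') : c ∘ ρ ∈ Z ↔ c ∘ ρ' ∈ Z := by
  obtain ⟨φ, r, hr, hφ⟩ := hZ
  have hr' : ∀ t ∈ φ.fv, ∃ k, r t = Sum.inl k := by
    intro t ht
    cases hrt : r t with
    | inl k => exact ⟨k, rfl⟩
    | inr a => exact absurd (hr t ht a hrt) (Set.notMem_empty a)
  have i₀ : I := Classical.arbitrary I
  have key : ∀ τ : K → I, (c ∘ τ ∈ Z ↔ Sat σ S (c ∘ fun t => Sum.elim τ (fun _ => i₀) (r t)) φ) := by
    intro τ
    rw [hφ]
    apply sat_congr
    intro t ht
    obtain ⟨k, hk⟩ := hr' t ht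
    simp [hk]
  rw [key ρ, key ρ']
  apply hc.2
  intro i hi j hj
  obtain ⟨k, hk⟩ := hr' i hi
  obtain ⟨k', hk'⟩ := hr' j hj
  simp only [hk, hk', Sum.elim_inl]
  exact h k k'

private theorem param {I : Type} {c : I → M} {J : Set I} {A₀ : Set M}
    (hfin : A₀.Finite) (hA : A₀ ⊆ c '' J) :
    ∃ (n : ℕ) (ρ : Fin n → I), (∀ k, ρ k ∈ J) ∧ Set.range (c ∘ ρ) = A₀ := by
  obtain ⟨n, f, hf⟩ := hfin.fin_embedding
  have h1 : ∀ k, ∃ i ∈ J, c i = f k := by
    intro k
    have : f k ∈ A₀ := hf ▸ Set.mem_range_self k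
    exact hA this
  choose ρ hρJ hρ using h1
  refine ⟨n, ρ, hρJ, ?_⟩
  rw [← hf]
  congr 1
  funext k
  exact hρ k

private theorem dfn_w2 [Nonempty M] {K K' : Type} {Z : Set (Option K → M)} {Z' : Set (Option K' → M)}
    (hZ : Dfn σ S ∅ Z) (hZ' : Dfn σ S ∅ Z') :
    Dfn σ S ∅ {x : K ⊕ K' → M | ∃ y, (fun o => Option.elim o y (fun i => x (Sum.inl i))) ∈ Z ∧
      (fun o => Option.elim o y (fun i => x (Sum.inr i))) ∈ Z'} := by
  apply Dfn.exists
  have h1 := Dfn.reindex hZ (fun o : Option K => (Option.map Sum.inl o : Option (K ⊕ K')))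
  have h2 := Dfn.reindex hZ' (fun o : Option K' => (Option.map Sum.inr o : Option (K ⊕ K')))
  have h3 := h1.inter h2
  have e : ({x : Option (K ⊕ K') → M | (fun o => Option.elim o (x none)
      (fun i => x (some (Sum.inl i)))) ∈ Z ∧
      (fun o => Option.elim o (x none) (fun i => x (some (Sum.inr i)))) ∈ Z'}) =
      ({x : Option (K ⊕ K') → M | (fun o : Option K => x (Option.map Sum.inl o)) ∈ Z} ∩
       {x : Option (K ⊕ K') → M | (fun o : Option K' => x (Option.map Sum.inr o)) ∈ Z'}) := by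
    ext x
    have e1 : (fun o : Option K => x (Option.map Sum.inl o)) =
        (fun o => Option.elim o (x none) (fun i => x (some (Sum.inl i)))) := by
      funext o; cases o <;> rfl
    have e2 : (fun o : Option K' => x (Option.map Sum.inr o)) =
        (fun o => Option.elim o (x none) (fun i => x (some (Sum.inr i)))) := by
      funext o; cases o <;> rfl
    simp only [Set.mem_inter_iff, Set.mem_ofPred_eq, e1, e2]
  exact e ▸ h3

private theorem dfn_w1 [Nonempty M] {K : Type} {Z : Set (Option K → M)} (hZ : Dfn σ S ∅ Z) :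
    Dfn σ S ∅ {x : K → M | ∃ y, (fun o => Option.elim o y x) ∈ Z ∧
      ∀ y', (fun o => Option.elim o y' x) ∈ Z → y' = y} := by
  apply Dfn.exists
  have h1 := Dfn.reindex hZ (fun o : Option K => o)
  have h2 : Dfn σ S ∅ {x : Option K → M | ∀ y', (fun o => Option.elim o y' (fun i => x (some i))) ∈ Z →
      y' = x none} := by
    apply Dfn.forall
    apply Dfn.imp
    · have h3 := Dfn.reindex hZ (fun o : Option K => (Option.map some o : Option (Option K)))
      have e : ({x : Option (Option K) → M | (fun o => Option.elim o (x none)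
          (fun i => x (some (some i)))) ∈ Z}) =
          {x : Option (Option K) → M | (fun o : Option K => x (Option.map some o)) ∈ Z} := by
        ext x
        have e1 : (fun o : Option K => x (Option.map some o)) =
            (fun o => Option.elim o (x none) (fun i => x (some (some i)))) := by
          funext o; cases o <;> rfl
        simp only [Set.mem_ofPred_eq, e1]
      exact e ▸ h3
    · exact Dfn.eq (Sum.inl none) (Sum.inl (some none)) (by simp) (by simp)
  have h3 := h1.inter h2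
  have e : ({x : Option K → M | (fun o => Option.elim o (x none) (fun i => x (some i))) ∈ Z ∧
      ∀ y', (fun o => Option.elim o y' (fun i => x (some i))) ∈ Z → y' = x none}) =
      ({x : Option K → M | (fun o : Option K => x o) ∈ Z} ∩
        {x : Option K → M | ∀ y', (fun o => Option.elim o y' (fun i => x (some i))) ∈ Z →
          y' = x none}) := by
    ext x
    have e1 : (fun o : Option K => x o) =
        (fun o => Option.elim o (x none) (fun i => x (some i))) := by
      funext o; cases o <;> rfl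
    change ((fun o => Option.elim o (x none) (fun i => x (some i))) ∈ Z ∧ _) ↔
      ((fun o : Option K => x o) ∈ Z ∧ _)
    rw [← e1]
    exact Iff.rfl
  exact e ▸ h3

theorem few_hull {I : Type} [LinearOrder I] [WellFoundedLT I] [Nonempty I] {c : I → M}
    (hc : Indisc σ S c) (A : Set M) (hA : A.Countable) (hAH : A ⊆ dcl σ S (Set.range c)) :
    ∃ C : Set M, C.Countable ∧ C ⊆ dcl σ S (Set.range c) ∧
      ∀ b ∈ dcl σ S (Set.range c), ∃ c' ∈ C, ∀ X, Df1 σ S A X → (b ∈ X ↔ c' ∈ X) := by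
  classical
  have : Nonempty M := ⟨c (Classical.arbitrary I)⟩
  -- the countable set `J`
  have h1 : ∀ a : A, ∃ A₀ ⊆ Set.range c, A₀.Finite ∧ Df1 σ S A₀ {(a : M)} := fun a =>
    Df1.fin_support (hAH a.2)
  choose A₀ hA₀ hA₀f hA₀d using h1
  have : Countable A := hA.to_subtype
  let J : Set I := ⋃ a : A, c ⁻¹' (A₀ a)
  have hJ : J.Countable := by
    apply Set.countable_iUnion
    intro a
    exact ((hA₀f a).preimage hc.1.injOn).countable
  have hAJ : A ⊆ dcl σ S (c '' J) := by
    intro a ha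
    refine Df1.mono (hA₀d ⟨a, ha⟩) ?_
    intro m hm
    obtain ⟨i, rfl⟩ := hA₀ ⟨a, ha⟩ hm
    exact ⟨i, Set.mem_iUnion.2 ⟨⟨a, ha⟩, hm⟩, rfl⟩
  have hX : ∀ X, Df1 σ S A X → Df1 σ S (c '' J) X := fun X hX => df1_dcl (hX.mono hAJ)
  -- patterns
  have h2 := fun n => exists_patterns I J hJ n
  choose C₀ hC₀ hC₀' using h2
  let E : ∀ n : ℕ, Set (Option (Fin n) → M) → (Fin n → I) → Set M := fun n Z ρ =>
    {h | ∀ y, y ∈ ({h} : Set M) ↔ (fun o => Option.elim o y (c ∘ ρ)) ∈ Z}
  have hE : ∀ n Z ρ, (E n Z ρ).Subsingleton := by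
    intro n Z ρ h hh h' hh'
    have := (hh' h).2 ((hh h).1 rfl)
    exact this
  refine ⟨⋃ n : ℕ, ⋃ Z ∈ {Z : Set (Option (Fin n) → M) | Dfn σ S ∅ Z}, ⋃ ρ ∈ C₀ n, E n Z ρ,
    ?_, ?_, ?_⟩
  · apply Set.countable_iUnion
    intro n
    apply Set.Countable.biUnion (countable_dfn Set.countable_empty)
    intro Z _
    apply Set.Countable.biUnion (hC₀ n)
    intro ρ _
    exact (hE n Z ρ).finite.countable
  · intro h hh
    simp only [Set.mem_iUnion] at hh
    obtain ⟨n, Z, hZ, ρ, hρ, hh⟩ := hh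
    have h3 : Df1 σ S (Set.range c) {y | (fun o => Option.elim o y (c ∘ ρ)) ∈ Z} :=
      Df1.push hZ (c ∘ ρ) (Set.empty_subset _) (fun j => ⟨ρ j, rfl⟩)
    have e : ({h} : Set M) = {y | (fun o => Option.elim o y (c ∘ ρ)) ∈ Z} := by
      ext y; exact hh y
    change Df1 σ S (Set.range c) {h}
    rw [e]
    exact h3
  · intro b hb
    obtain ⟨B₀, hB₀, hB₀f, hB₀d⟩ := Df1.fin_support (show Df1 σ S (Set.range c) {b} from hb)
    obtain ⟨n, ρ, -, hρ⟩ := param (J := Set.univ) hB₀f (by rwa [Set.image_univ])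
    have h3 : Df1 σ S (∅ ∪ Set.range (c ∘ ρ)) {b} := by rwa [Set.empty_union, hρ]
    obtain ⟨Z, hZ, hZb⟩ := Df1.pull (c ∘ ρ) h3
    obtain ⟨ρ', hρ', hpat, hpatJ⟩ := hC₀' n ρ
    have h4 := indisc_dfn hc (dfn_w1 hZ) ρ ρ' hpat
    have h5 : (c ∘ ρ) ∈ {x : Fin n → M | ∃ y, (fun o => Option.elim o y x) ∈ Z ∧
        ∀ y', (fun o => Option.elim o y' x) ∈ Z → y' = y} :=
      ⟨b, (hZb b).1 rfl, fun y' hy' => (hZb y').2 hy'⟩
    obtain ⟨h', hh', huniq⟩ := h4.1 h5
    have hmem : h' ∈ E n Z ρ' := by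
      intro y
      constructor
      · intro hy
        rw [Set.mem_singleton_iff.1 hy]
        exact hh'
      · intro hy
        exact huniq y hy
    refine ⟨h', ?_, ?_⟩
    · simp only [Set.mem_iUnion]
      exact ⟨n, Z, hZ, ρ', hρ', hmem⟩
    · intro X hXA
      obtain ⟨D₀, hD₀, hD₀f, hD₀d⟩ := Df1.fin_support (hX X hXA)
      obtain ⟨k, j, hj, hjD⟩ := param hD₀f hD₀
      have h6 : Df1 σ S (∅ ∪ Set.range (c ∘ j)) X := by rwa [Set.empty_union, hjD]
      obtain ⟨Z', hZ', hZX⟩ := Df1.pull (c ∘ j) h6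
      have h7 := indisc_dfn hc (dfn_w2 hZ hZ') (Sum.elim ρ j) (Sum.elim ρ' j) (by
        rintro (a | a) (b' | b')
        · exact hpat a b'
        · exact (hpatJ a (j b') (hj b')).1
        · exact (hpatJ b' (j a) (hj a)).2
        · exact Iff.rfl)
      have h8 : ∀ (ρ'' : Fin n → I) (b' : M), b' ∈ E n Z ρ'' →
          (b' ∈ X ↔ (c ∘ Sum.elim ρ'' j) ∈ {x : Fin n ⊕ Fin k → M | ∃ y,
            (fun o => Option.elim o y (fun i => x (Sum.inl i))) ∈ Z ∧
            (fun o => Option.elim o y (fun i => x (Sum.inr i))) ∈ Z'}) := by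
        intro ρ'' b' hb'
        constructor
        · intro hbX
          exact ⟨b', (hb' b').1 rfl, (hZX b').1 hbX⟩
        · rintro ⟨y, hy, hy'⟩
          have hyb : y = b' := (hb' y).2 hy
          subst hyb
          exact (hZX y).2 hy'
      rw [h8 ρ b hZb, h8 ρ' h' hmem]
      exact h7

end Pool.Agent.BLE
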