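import Pool.Agent.BLE.SA

/-!
# BLE / UA: Los' theorem

First for the chosen representatives, by induction on the formula; then for all representatives.
-/

set_option autoImplicit false

namespace Pool.Agent.BLE

open Function

variable {σ : Sig} {M J : Type}

private theorem los_aux (U : Ultrafilter J) (S : Str M)
    (v : ℕ → Filter.Germ (U : Filter J) M) (φ : Fml) :
    Sat σ (UStr U S) v φ ↔ ∀ᶠ j in (U : Filter J), Sat σ S (fun i => gout U (v i) j) φ := by
  induction φ generalizing v with
  | bot =>
    constructor
    · intro h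
      exact h.elim
    · intro h
      obtain ⟨j, hj⟩ := h.exists
      exact hj
  | eq i j =>
    show v i = v j ↔ ∀ᶠ k in (U : Filter J), gout U (v i) k = gout U (v j) k
    conv_lhs => rw [← coe_gout U (v i), ← coe_gout U (v j)]
    exact Filter.Germ.coe_eq
  | rel r l =>
    show (σ.rel r = some l.length ∧ ∀ᶠ j in (U : Filter J),
        S.rel r ((l.map v).map fun x => gout U x j)) ↔
      ∀ᶠ j in (U : Filter J), (σ.rel r = some l.length ∧ S.rel r (l.map fun i => gout U (v i) j))
    rw [Filter.eventually_and, Filter.eventually_const]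
    refine and_congr_right fun _ => Filter.eventually_congr (Filter.Eventually.of_forall fun j => ?_)
    rw [List.map_map]
    exact Iff.rfl
  | fn f l i =>
    show (σ.fn f = some l.length ∧ (((fun j => S.fn f ((l.map v).map fun x => gout U x j) : J → M) :
        Filter.Germ (U : Filter J) M)) = v i) ↔
      ∀ᶠ j in (U : Filter J), (σ.fn f = some l.length ∧
        S.fn f (l.map fun i => gout U (v i) j) = gout U (v i) j)
    rw [Filter.eventually_and, Filter.eventually_const]
    refine and_congr_right fun _ => ?_
    conv_lhs => rw [← coe_gout U (v i)]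
    rw [Filter.Germ.coe_eq]
    refine Filter.eventually_congr (Filter.Eventually.of_forall fun j => ?_)
    show S.fn f ((l.map v).map fun x => gout U x j) = gout U (v i) j ↔ _
    rw [List.map_map]
    exact Iff.rfl
  | imp φ ψ ih1 ih2 =>
    show (Sat σ (UStr U S) v φ → Sat σ (UStr U S) v ψ) ↔ ∀ᶠ j in (U : Filter J),
      (Sat σ S (fun i => gout U (v i) j) φ → Sat σ S (fun i => gout U (v i) j) ψ)
    rw [ih1, ih2, Ultrafilter.eventually_imp]
  | all i φ ih =>
    have e : ∀ (x : Filter.Germ (U : Filter J) M) (j : J),
        (fun k => gout U (update v i x k) j) = update (fun k => gout U (v k) j) i (gout U x j) := by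
      intro x j
      funext k
      by_cases hk : k = i
      · rw [hk, update_self, update_self]
      · rw [update_of_ne hk, update_of_ne hk]
    show (∀ x, Sat σ (UStr U S) (update v i x) φ) ↔ ∀ᶠ j in (U : Filter J),
      ∀ a, Sat σ S (update (fun k => gout U (v k) j) i a) φ
    have ih' : ∀ x, Sat σ (UStr U S) (update v i x) φ ↔ ∀ᶠ j in (U : Filter J),
        Sat σ S (update (fun k => gout U (v k) j) i (gout U x j)) φ := by
      intro x
      rw [ih]
      refine Filter.eventually_congr (Filter.Eventually.of_forall fun j => ?_)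
      show Sat σ S (fun k => gout U (update v i x k) j) φ ↔ _
      rw [e x j]
    constructor
    · intro h
      by_contra hcon
      have h1 : ∀ᶠ j in (U : Filter J),
          ¬ ∀ a, Sat σ S (update (fun k => gout U (v k) j) i a) φ :=
        Ultrafilter.eventually_not.2 hcon
      have h2 : ∀ᶠ j in (U : Filter J),
          ∃ a, ¬ Sat σ S (update (fun k => gout U (v k) j) i a) φ :=
        h1.mono fun j hj => not_forall.1 hj
      obtain ⟨j₀, a₀, -⟩ := h2.exists
      have h3 : ∀ j, ∃ a, (∃ b, ¬ Sat σ S (update (fun k => gout U (v k) j) i b) φ) →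
          ¬ Sat σ S (update (fun k => gout U (v k) j) i a) φ := by
        intro j
        by_cases h4 : ∃ b, ¬ Sat σ S (update (fun k => gout U (v k) j) i b) φ
        · obtain ⟨b, hb⟩ := h4
          exact ⟨b, fun _ => hb⟩
        · exact ⟨a₀, fun h5 => absurd h5 h4⟩
      choose a ha using h3
      have h4 := (ih' ((a : J → M) : Filter.Germ (U : Filter J) M)).1 (h _)
      have h5 : gout U ((a : J → M) : Filter.Germ (U : Filter J) M) =ᶠ[(U : Filter J)] a :=
        Filter.Germ.coe_eq.1 (coe_gout U _)
      obtain ⟨j, hj1, hj2, hj3⟩ := (h4.and (h5.and h2)).exists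
      rw [hj2] at hj1
      exact ha j hj3 hj1
    · intro h x
      exact (ih' x).2 (h.mono fun j hj => hj _)

theorem los (U : Ultrafilter J) (S : Str M) (w : ℕ → J → M) (φ : Fml) :
    Sat σ (UStr U S) (fun i => ((w i : J → M) : Filter.Germ (U : Filter J) M)) φ ↔
      ∀ᶠ j in (U : Filter J), Sat σ S (fun i => w i j) φ := by
  rw [los_aux]
  have h1 : ∀ᶠ j in (U : Filter J), ∀ i ∈ φ.fv,
      gout U ((w i : J → M) : Filter.Germ (U : Filter J) M) j = w i j := by
    rw [Filter.eventually_all_finset]
    intro i _
    exact Filter.Germ.coe_eq.1 (coe_gout U _)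
  exact Filter.eventually_congr (h1.mono fun j hj => sat_congr φ hj)

theorem los_out (U : Ultrafilter J) (S : Str M) (v : ℕ → Filter.Germ (U : Filter J) M) (φ : Fml) :
    Sat σ (UStr U S) v φ ↔ ∀ᶠ j in (U : Filter J), Sat σ S (fun i => gout U (v i) j) φ :=
  los_aux U S v φ

theorem los_const (U : Ultrafilter J) (S : Str M) (v : ℕ → M) (φ : Fml) :
    Sat σ (UStr U S) (fun i => ((fun _ => v i : J → M) : Filter.Germ (U : Filter J) M)) φ ↔
      Sat σ S v φ := by
  rw [los U S (fun i _ => v i) φ]
  exact Filter.eventually_const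

theorem los_models (U : Ultrafilter J) (S : Str M) {T : Set Fml} (h : Models σ S T) :
    Models σ (UStr U S) T :=
  fun φ hφ v => (los_out U S v φ).2 (Filter.Eventually.of_forall fun _ => h φ hφ _)

end Pool.Agent.BLE
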