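import Pool.Agent.BLE.EA
import Pool.Agent.BLE.UA

/-!
# BLE / EL: least element principle; definable closures are elementary

`LEP S'`: the relation `0` is total and every nonempty definable (with parameters) set has an element
without smaller elements. It holds for ultrapowers of well-ordered structures (`lep_ultra`), and
implies that definable closures are elementary (`tv_dcl`).
-/

set_option autoImplicit false

namespace Pool.Agent.BLE

open Function

variable {σ : Sig} {M : Type} {S : Str M} {A : Set M}

/-- least element principle for the relation symbol `0` -/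
def LEP (σ : Sig) {M : Type} (S : Str M) : Prop :=
  (∀ a b, a = b ∨ S.rel 0 [a, b] ∨ S.rel 0 [b, a]) ∧
    ∀ X, Df1 σ S Set.univ X → X.Nonempty → ∃ a ∈ X, ∀ b ∈ X, ¬ S.rel 0 [b, a]

theorem lep_ultra {J : Type} (U : Ultrafilter J) (S : Str M) (lt : M → M → Prop)
    [IsWellOrder M lt] : LEP (sigE σ) (UStr U (strE S lt)) := by
  classical
  have hrel : ∀ a b : Filter.Germ (U : Filter J) M, (UStr U (strE S lt)).rel 0 [a, b] ↔
      ∀ᶠ j in (U : Filter J), lt (gout U a j) (gout U b j) := fun a b => Iff.rfl
  have hgo : ∀ w : J → M, ∀ᶠ j in (U : Filter J),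
      gout U ((w : J → M) : Filter.Germ (U : Filter J) M) j = w j := by
    intro w
    exact Filter.Germ.coe_eq.1 (coe_gout U _)
  refine ⟨fun a b => ?_, ?_⟩
  · have h1 : ∀ᶠ j in (U : Filter J), gout U a j = gout U b j ∨
        (lt (gout U a j) (gout U b j) ∨ lt (gout U b j) (gout U a j)) := by
      refine Filter.Eventually.of_forall fun j => ?_
      rcases trichotomous_of lt (gout U a j) (gout U b j) with h | h | h
      · exact Or.inr (Or.inl h)
      · exact Or.inl h
      · exact Or.inr (Or.inr h)
    rcases Ultrafilter.eventually_or.1 h1 with h2 | h2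
    · left
      rw [← coe_gout U a, ← coe_gout U b]
      exact Filter.Germ.coe_eq.2 h2
    · right
      rcases Ultrafilter.eventually_or.1 h2 with h3 | h3
      · exact Or.inl ((hrel a b).2 h3)
      · exact Or.inr ((hrel b a).2 h3)
  · rintro X ⟨φ, ρ, -, hφ⟩ ⟨x₀, hx₀⟩
    obtain ⟨r, hr⟩ : ∃ r : ℕ → M → J → M, r = fun t m j =>
      Sum.elim (fun _ : Unit => m) (fun a => gout U a j) (ρ t) := ⟨_, rfl⟩
    have key : ∀ w : J → M, ((w : J → M) : Filter.Germ (U : Filter J) M) ∈ X ↔
        ∀ᶠ j in (U : Filter J), Sat (sigE σ) (strE S lt) (fun i => r i (w j) j) φ := by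
      intro w
      rw [← los U (strE S lt) (fun i j => r i (w j) j) φ]
      refine (hφ (fun _ => ((w : J → M) : Filter.Germ (U : Filter J) M))).trans ?_
      have e : (fun t => Sum.elim (fun _ : Unit => ((w : J → M) : Filter.Germ (U : Filter J) M))
          id (ρ t)) = fun i => ((fun j => r i (w j) j : J → M) :
            Filter.Germ (U : Filter J) M) := by
        funext i
        rw [hr]
        rcases hi : ρ i with u | a
        · simp only [hi, Sum.elim_inl]
        · simp only [hi, Sum.elim_inr, id]
          exact (coe_gout U a).symm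
      rw [e]
    have key' : ∀ b : Filter.Germ (U : Filter J) M, b ∈ X → ∀ᶠ j in (U : Filter J),
        Sat (sigE σ) (strE S lt) (fun i => r i (gout U b j) j) φ := by
      intro b hb
      rw [← key (gout U b), coe_gout]
      exact hb
    have hwf : WellFounded lt := IsWellFounded.wf
    obtain ⟨Xj, hXj⟩ : ∃ Xj : J → Set M, Xj = fun j =>
      {m | Sat (sigE σ) (strE S lt) (fun i => r i m j) φ} := ⟨_, rfl⟩
    have hex : ∀ j, ∃ y : M, (Xj j).Nonempty → y ∈ Xj j ∧ ∀ z ∈ Xj j, ¬ lt z y := by
      intro j
      by_cases h : (Xj j).Nonempty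
      · exact ⟨hwf.min (Xj j) h, fun _ => ⟨hwf.min_mem (Xj j) h,
          fun z hz => hwf.not_lt_min (Xj j) hz⟩⟩
      · exact ⟨gout U x₀ j, fun h' => absurd h' h⟩
    choose y hy using hex
    have hne : ∀ᶠ j in (U : Filter J), (Xj j).Nonempty := by
      filter_upwards [key' x₀ hx₀] with j hj
      rw [hXj]
      exact ⟨gout U x₀ j, hj⟩
    refine ⟨((y : J → M) : Filter.Germ (U : Filter J) M), (key y).2 ?_, ?_⟩
    · filter_upwards [hne] with j hj
      have h1 := (hy j hj).1
      rw [hXj] at h1
      exact h1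
    · intro b hb hlt
      have h2 := (hrel _ _).1 hlt
      have h3 : ∀ᶠ j in (U : Filter J), False := by
        filter_upwards [hne, h2, hgo y, key' b hb] with j hj hj2 hj3 hj4
        rw [hj3] at hj2
        refine (hy j hj).2 (gout U b j) ?_ hj2
        rw [hXj]
        exact hj4
      exact (h3.exists).elim fun _ h => h

theorem tv_dcl [Nonempty M] (hr : σ.rel 0 = some 2) (h : LEP σ S) : TV σ S (dcl σ S A) := by
  intro X hX hne
  have hXA : Df1 σ S A X := df1_dcl hX
  obtain ⟨a, ha, hmin⟩ := h.2 X (hXA.mono (Set.subset_univ A)) hne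
  refine ⟨a, ha, ?_⟩
  have hset : ({a} : Set M) = X ∩ {y | ∀ b, b ∈ X → ¬ S.rel 0 [b, y]} := by
    ext y
    constructor
    · rintro rfl
      exact ⟨ha, hmin⟩
    · rintro ⟨hyX, hy⟩
      rcases h.1 y a with h1 | h1 | h1
      · exact h1
      · exact (hmin y hyX h1).elim
      · exact (hy a ha h1).elim
  show Df1 σ S A {a}
  rw [hset]
  refine hXA.inter ?_
  show Dfn σ S A {x : Unit → M | ∀ b, b ∈ X → ¬ S.rel 0 [b, x ()]}
  refine Dfn.forall (P := fun b (x : Unit → M) => b ∈ X → ¬ S.rel 0 [b, x ()]) ?_
  refine Dfn.imp ?_ ?_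
  · exact Dfn.reindex (X := {x : Unit → M | x () ∈ X}) hXA (fun _ => none)
  · have h1 : Dfn σ S A {x : Option Unit → M | S.rel 0 [x none, x (some ())]} := by
      refine ⟨.rel 0 [0, 1], fun t => if t = 0 then Sum.inl none else Sum.inl (some ()), ?_, ?_⟩
      · intro t _ b hb
        exfalso
        by_cases ht : t = 0
        · simp [ht] at hb
        · simp [ht] at hb
      · intro x
        simp [hr]
    exact h1.compl

end Pool.Agent.BLE
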