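import Pool.Agent.BLE.DE
import Pool.Agent.BLE.DF

/-!
# BLE / LA: elementary substructures

* `sat_sub`: induction on `φ` generalizing `v`. `fn f l j`: if `σ.fn f = some l.length`, then
  `S.fn f (l.map v) ∈ N`: apply `TV N` to `X = {y | Sat (.fn f l' 0)}` with `l' = l.map (· + 1)` and the
  assignment `y` at `0`, `v t` at `t + 1` (this is `Df1` over `N`, nonempty, equal to `{S.fn f (l.map v)}`).
  `all i φ`: (←) if `¬ Sat S (update v i a) φ` for some `a ∈ M`, the set of these `a` is definable over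
  `N` (`df1_of_fml` for `φ.neg`), so there is such an `a` in `N`. (Use `update` of the coerced
  assignment: `fun k => ((update v i a) k : M) = update (fun k => (v k : M)) i a`.)
* `df1_sub`: for sets definable in `Sub S N n₀` with parameters: take the same `φ`, `ρ`; conversely
  restrict.
* `omegaSat_sub`: given `n`, `h : ℕ → N`, `Γ`: `𝒳 = {{y | Sat S (update (h ·) n y) φ} | φ ∈ Γ}`,
  `A = h '' {t | t < n}` finite; `SatW`; `sat_sub`.
-/

set_option autoImplicit false

namespace Pool.Agent.BLE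

open Function

variable {σ : Sig} {M : Type} {S : Str M} {N : Set M}

private theorem la_upd (v : ℕ → N) (i : ℕ) (a : N) :
    (fun k => ((update v i a k : N) : M)) = update (fun k => (v k : M)) i (a : M) := by
  funext k
  by_cases hk : k = i
  · subst hk
    rw [update_self, update_self]
  · rw [update_of_ne hk, update_of_ne hk]

private theorem la_fn (hN : TV σ S N) (f : ℕ) (l : List ℕ) (v : ℕ → N)
    (h : σ.fn f = some l.length) : S.fn f (l.map fun i => (v i : M)) ∈ N := by
  let w : ℕ → M := fun t => (v (t - 1) : M)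
  have hw : ∀ y : M, ((l.map (· + 1)).map (update w 0 y)) = l.map fun i => (v i : M) := by
    intro y
    rw [List.map_map]
    apply List.map_congr_left
    intro t _
    show update w 0 y (t + 1) = (v t : M)
    rw [update_of_ne (Nat.succ_ne_zero t)]
    show (v (t + 1 - 1) : M) = (v t : M)
    rw [Nat.add_sub_cancel]
  have h1 := df1_of_fml (σ := σ) (S := S) (.fn f (l.map (· + 1)) 0) w 0
  have h2 : Df1 σ S N {y | Sat σ S (update w 0 y) (.fn f (l.map (· + 1)) 0)} := by
    refine h1.mono ?_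
    rintro _ ⟨t, _, rfl⟩
    exact (v (t - 1)).2
  have h3 : ∀ y : M, Sat σ S (update w 0 y) (.fn f (l.map (· + 1)) 0) ↔
      S.fn f (l.map fun i => (v i : M)) = y := by
    intro y
    rw [sat_fn, hw, List.length_map, update_self]
    exact ⟨fun h4 => h4.2, fun h4 => ⟨h, h4⟩⟩
  obtain ⟨y, hy, hyN⟩ := hN _ h2 ⟨_, (h3 _).2 rfl⟩
  rw [(h3 y).1 hy]
  exact hyN

theorem sat_sub (hN : TV σ S N) (n₀ : N) (φ : Fml) (v : ℕ → N) :
    Sat σ (Sub S N n₀) v φ ↔ Sat σ S (fun i => (v i : M)) φ := by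
  induction φ generalizing v with
  | bot => exact Iff.rfl
  | eq i j =>
    rw [sat_eq, sat_eq]
    exact Subtype.ext_iff
  | rel r l =>
    rw [sat_rel, sat_rel]
    show _ ∧ S.rel r ((l.map v).map Subtype.val) ↔ _
    rw [List.map_map]
    exact Iff.rfl
  | fn f l j =>
    rw [sat_fn, sat_fn]
    refine and_congr_right fun hf => ?_
    have hm := la_fn hN f l v hf
    have hl : (l.map v).map Subtype.val = l.map fun i => (v i : M) := by
      rw [List.map_map]
      rfl
    have h1 : (((Sub S N n₀).fn f (l.map v) : N) : M) = S.fn f (l.map fun i => (v i : M)) := by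
      have hm' : S.fn f ((l.map v).map Subtype.val) ∈ N := by
        rw [hl]
        exact hm
      have h2 : (Sub S N n₀).fn f (l.map v) = ⟨S.fn f ((l.map v).map Subtype.val), hm'⟩ :=
        dif_pos hm'
      rw [h2]
      show S.fn f ((l.map v).map Subtype.val) = _
      rw [hl]
    rw [← h1]
    exact Subtype.ext_iff
  | imp φ ψ ih1 ih2 =>
    rw [sat_imp, sat_imp, ih1, ih2]
  | all i φ ih =>
    rw [sat_all, sat_all]
    constructor
    · intro h a
      by_contra hcon
      have h1 := df1_of_fml (σ := σ) (S := S) φ.neg (fun k => (v k : M)) i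
      have h2 : Df1 σ S N {y | Sat σ S (update (fun k => (v k : M)) i y) φ.neg} := by
        refine h1.mono ?_
        rintro _ ⟨t, _, rfl⟩
        exact (v t).2
      obtain ⟨y, hy, hyN⟩ := hN _ h2 ⟨a, hcon⟩
      have h3 := (ih (update v i ⟨y, hyN⟩)).1 (h ⟨y, hyN⟩)
      rw [la_upd] at h3
      exact hy h3
    · intro h a
      rw [ih, la_upd]
      exact h a

theorem models_sub (hN : TV σ S N) (n₀ : N) {T : Set Fml} (hT : ∀ φ ∈ T, φ.fv = ∅)
    (h : Models σ S T) : Models σ (Sub S N n₀) T := by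
  intro φ hφ v
  exact (sat_sub hN n₀ φ v).2 (h φ hφ _)

theorem df1_sub (hN : TV σ S N) (n₀ : N) {A : Set N} {Y : Set N} :
    Df1 σ (Sub S N n₀) A Y ↔
      ∃ X, Df1 σ S (Subtype.val '' A) X ∧ Y = Subtype.val ⁻¹' X := by
  classical
  constructor
  · rintro ⟨φ, ρ, hρ, hφ⟩
    let ρ' : ℕ → Unit ⊕ M := fun t => Sum.map id Subtype.val (ρ t)
    have key : ∀ (y : N), (fun t => ((Sum.elim (fun _ : Unit => y) id (ρ t) : N) : M)) =
        fun t => Sum.elim (fun _ : Unit => (y : M)) id (ρ' t) := by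
      intro y
      funext t
      show _ = Sum.elim (fun _ : Unit => (y : M)) id (Sum.map id Subtype.val (ρ t))
      cases ρ t <;> rfl
    refine ⟨{y | Sat σ S (fun t => Sum.elim (fun _ : Unit => y) id (ρ' t)) φ},
      ⟨φ, ρ', ?_, ?_⟩, ?_⟩
    · intro t ht a ha
      have ha' : Sum.map id Subtype.val (ρ t) = Sum.inr a := ha
      rcases hr : ρ t with u | b
      · rw [hr] at ha'
        cases ha'
      · rw [hr] at ha'
        exact ⟨b, hρ t ht b hr, Sum.inr.inj ha'⟩
    · intro x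
      exact Iff.rfl
    · ext y
      have h1 := hφ fun _ => y
      have h2 : (y ∈ Y ↔ Sat σ (Sub S N n₀) (fun t => Sum.elim (fun _ : Unit => y) id (ρ t)) φ) :=
        h1
      rw [h2, sat_sub hN n₀, key]
      exact Iff.rfl
  · rintro ⟨X, ⟨φ, ρ, hρ, hφ⟩, rfl⟩
    let ρ' : ℕ → Unit ⊕ N := fun t =>
      Sum.elim Sum.inl (fun a => if h : a ∈ N then Sum.inr ⟨a, h⟩ else Sum.inr n₀) (ρ t)
    refine ⟨φ, ρ', ?_, ?_⟩
    · intro t ht a ha
      have ha' : (Sum.elim Sum.inl (fun a => if h : a ∈ N then Sum.inr ⟨a, h⟩ else Sum.inr n₀)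
        (ρ t) : Unit ⊕ N) = Sum.inr a := ha
      rcases hr : ρ t with u | b
      · rw [hr] at ha'
        cases ha'
      · rw [hr] at ha'
        obtain ⟨c, hc, hcb⟩ := hρ t ht b hr
        have hb : b ∈ N := by
          rw [← hcb]
          exact c.2
        have h1 : (if h : b ∈ N then Sum.inr ⟨b, h⟩ else Sum.inr n₀ : Unit ⊕ N) =
            Sum.inr a := ha'
        rw [dif_pos hb] at h1
        have h2 := Sum.inr.inj h1
        have h3 : c = a := by
          rw [← h2]
          exact Subtype.ext hcb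
        rw [← h3]
        exact hc
    · intro x
      rw [sat_sub hN n₀]
      have h1 : (x ∈ {x : Unit → N | x () ∈ Subtype.val ⁻¹' X} ↔
          (fun u => (x u : M)) ∈ {x : Unit → M | x () ∈ X}) := Iff.rfl
      rw [h1, hφ]
      refine sat_congr φ fun t ht => ?_
      show Sum.elim (fun u => (x u : M)) id (ρ t) = ((Sum.elim x id
        (Sum.elim Sum.inl (fun a => if h : a ∈ N then Sum.inr ⟨a, h⟩ else Sum.inr n₀)
        (ρ t) : Unit ⊕ N) : N) : M)
      rcases hr : ρ t with u | b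
      · rfl
      · obtain ⟨c, _, hcb⟩ := hρ t ht b hr
        have hb : b ∈ N := by
          rw [← hcb]
          exact c.2
        show b = ((Sum.elim x id
          (if h : b ∈ N then Sum.inr ⟨b, h⟩ else Sum.inr n₀ : Unit ⊕ N) : N) : M)
        rw [dif_pos hb]
        rfl

theorem omegaSat_sub (hN : TV σ S N) (n₀ : N) (h : SatW σ S N) : OmegaSat σ (Sub S N n₀) := by
  classical
  intro n g Γ hΓ hfin
  have : Nonempty Fml := ⟨.bot⟩
  let 𝒳 : Set (Set M) := {X | ∃ φ ∈ Γ, X = {y | Sat σ S (update (fun k => (g k : M)) n y) φ}}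
  let A : Set M := (fun k => (g k : M)) '' {t | t < n}
  have hA : A.Finite := (Set.finite_lt_nat n).image _
  have hAN : A ⊆ N := by
    rintro _ ⟨t, _, rfl⟩
    exact (g t).2
  have hD : ∀ X ∈ 𝒳, Df1 σ S A X := by
    rintro X ⟨φ, hφ, rfl⟩
    refine (df1_of_fml (σ := σ) (S := S) φ (fun k => (g k : M)) n).mono ?_
    rintro _ ⟨t, ⟨ht, htn⟩, rfl⟩
    refine ⟨t, ?_, rfl⟩
    have h1 := Finset.mem_range.1 (hΓ φ hφ ht)
    show t < n
    omega
  have hF : ∀ F : Finset (Set M), (F : Set (Set M)) ⊆ 𝒳 →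
      (⋂₀ (F : Set (Set M)) ∩ N).Nonempty := by
    intro F hF𝒳
    have h1 : ∀ X ∈ 𝒳, ∃ φ, φ ∈ Γ ∧ X = {y | Sat σ S (update (fun k => (g k : M)) n y) φ} := by
      rintro X ⟨φ, hφ, hX⟩
      exact ⟨φ, hφ, hX⟩
    choose! q hq1 hq2 using h1
    obtain ⟨a, ha⟩ := hfin (F.image q) (by
      intro φ hφ
      obtain ⟨X, hX, rfl⟩ := Finset.mem_image.1 (Finset.mem_coe.1 hφ)
      exact hq1 X (hF𝒳 hX))
    refine ⟨(a : M), ?_, a.2⟩
    intro X hX
    rw [hq2 X (hF𝒳 hX)]
    have h2 := ha (q X) (Finset.mem_image_of_mem q hX)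
    rw [sat_sub hN n₀, la_upd] at h2
    exact h2
  obtain ⟨y, hy, hyN⟩ := h A hA hAN 𝒳 hD hF
  refine ⟨⟨y, hyN⟩, fun φ hφ => ?_⟩
  rw [sat_sub hN n₀, la_upd]
  exact hy _ ⟨φ, hφ, rfl⟩

end Pool.Agent.BLE
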