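import Pool.Agent.BLE.EE
import Pool.Agent.BLE.EL
import Pool.Agent.BLE.LA

/-!
# BLE / EF: Ehrenfeucht-Mostowski models

Every infinite structure has elementarily equivalent structures with few types of all infinite
cardinalities: definable closures of indiscernible sequences in ultrapowers.
-/

set_option autoImplicit false

namespace Pool.Agent.BLE

open Function

variable {σ : Sig} {M : Type}

private theorem redE_strE (S : Str M) (lt : M → M → Prop) : redE (strE S lt) = S := rfl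

theorem exists_em [Infinite M] (S : Str M) (κ : Cardinal.{0}) (hκ : Cardinal.aleph0 ≤ κ) :
    ∃ (H : Type) (S' : Str H), Cardinal.mk H = κ ∧ FewTypes σ S' ∧
      ∀ φ : Fml, φ.fv = ∅ → ∀ (v : ℕ → M) (v' : ℕ → H), Sat σ S v φ ↔ Sat σ S' v' φ := by
  classical
  obtain ⟨I, hI, hlo, hwf, hne⟩ : ∃ (I : Type) (_ : Cardinal.mk I = κ) (_ : LinearOrder I)
      (_ : WellFoundedLT I), Nonempty I := by
    refine ⟨κ.ord.ToType, Cardinal.mk_ord_toType κ, inferInstance, inferInstance, ?_⟩
    rw [← Cardinal.mk_ne_zero_iff, Cardinal.mk_ord_toType]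
    exact (Cardinal.aleph0_pos.trans_le hκ).ne'
  obtain ⟨J, U, c, hc⟩ := exists_indisc (σ := sigE σ)
    (strE S (WellOrderingRel : M → M → Prop)) I
  obtain ⟨S₁, hS₁⟩ : ∃ S₁, S₁ = UStr U (strE S (WellOrderingRel : M → M → Prop)) := ⟨_, rfl⟩
  have hlep : LEP (sigE σ) S₁ := by
    rw [hS₁]
    exact lep_ultra U S WellOrderingRel
  rw [← hS₁] at hc
  obtain ⟨i₀⟩ := hne
  have hne' : Nonempty (Filter.Germ (U : Filter J) M) := ⟨c i₀⟩
  have hneI : Nonempty I := ⟨i₀⟩
  have hT1 : TV (sigE σ) S₁ (dcl (sigE σ) S₁ (Set.range c)) := tv_dcl rfl hlep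
  have hT2 : TV σ (redE S₁) (dcl (sigE σ) S₁ (Set.range c)) := tv_up S₁ hT1
  have hin : ∀ i, c i ∈ dcl (sigE σ) S₁ (Set.range c) := fun i => subset_dcl ⟨i, rfl⟩
  refine ⟨dcl (sigE σ) S₁ (Set.range c), Sub (redE S₁) _ ⟨c i₀, hin i₀⟩, ?_, ?_, ?_⟩
  · apply le_antisymm
    · have h1 : Cardinal.mk (dcl (sigE σ) S₁ (Set.range c)) ≤
          Cardinal.mk {X : Set (Filter.Germ (U : Filter J) M) |
            Df1 (sigE σ) S₁ (Set.range c) X} := by
        refine Cardinal.mk_le_of_injective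
          (f := fun h => ⟨{(h : Filter.Germ (U : Filter J) M)}, h.2⟩) ?_
        intro a b hab
        have h2 := congrArg Subtype.val hab
        exact Subtype.ext (Set.singleton_injective h2)
      have h3 := h1.trans (mk_df1 (σ := sigE σ) (S := S₁) (A := Set.range c))
      have h4 : Cardinal.mk (Set.range c) ≤ κ := by
        rw [← hI]
        exact Cardinal.mk_range_le
      exact h3.trans (max_le h4 hκ)
    · have h1 : Cardinal.mk I ≤ Cardinal.mk (dcl (sigE σ) S₁ (Set.range c)) := by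
        refine Cardinal.mk_le_of_injective (f := fun i => ⟨c i, hin i⟩) ?_
        intro a b hab
        exact hc.1 (congrArg Subtype.val hab)
      rwa [hI] at h1
  · intro A hA
    obtain ⟨C, hC, hCs, hC2⟩ := few_hull hc (Subtype.val '' A) (hA.image _) (by
      rintro _ ⟨a, -, rfl⟩
      exact a.2)
    refine ⟨Subtype.val ⁻¹' C, hC.preimage Subtype.val_injective, fun b => ?_⟩
    obtain ⟨c', hc', h5⟩ := hC2 b b.2
    refine ⟨⟨c', hCs hc'⟩, hc', fun Y hY => ?_⟩
    obtain ⟨X, hX, rfl⟩ := (df1_sub hT2 _).1 hY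
    exact h5 X (df1_up S₁ hX)
  · intro φ hφ v v'
    rw [sat_sub hT2]
    have h1 : Sat σ S v φ ↔ Sat (sigE σ) (strE S (WellOrderingRel : M → M → Prop)) v (up φ) := by
      rw [sat_up, redE_strE]
    rw [h1, ← los_const U, ← hS₁, sat_up]
    apply sat_congr
    intro i hi
    rw [hφ] at hi
    exact absurd hi (Finset.notMem_empty i)

end Pool.Agent.BLE
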