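import Pool.Agent.BLE.Dfn

/-!
# BLE / SA: only the free variables matter; renaming

Inductions on the formula.
-/

set_option autoImplicit false

namespace Pool.Agent.BLE

open Function

variable {σ : Sig} {M : Type} {S : Str M}

theorem sat_congr (φ : Fml) {v w : ℕ → M} (h : ∀ i ∈ φ.fv, v i = w i) :
    Sat σ S v φ ↔ Sat σ S w φ := by
  induction φ generalizing v w with
  | bot => exact Iff.rfl
  | eq i j =>
    rw [sat_eq, sat_eq, h i (Finset.mem_insert_self _ _),
      h j (Finset.mem_insert_of_mem (Finset.mem_singleton_self _))]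
  | rel r l =>
    have h1 : l.map v = l.map w := List.map_congr_left fun i hi => h i (List.mem_toFinset.2 hi)
    rw [sat_rel, sat_rel, h1]
  | fn f l j =>
    have h1 : l.map v = l.map w := List.map_congr_left fun i hi =>
      h i (Finset.mem_insert_of_mem (List.mem_toFinset.2 hi))
    rw [sat_fn, sat_fn, h1, h j (Finset.mem_insert_self _ _)]
  | imp φ ψ ih1 ih2 =>
    rw [sat_imp, sat_imp, ih1 fun i hi => h i (Finset.mem_union_left _ hi),
      ih2 fun i hi => h i (Finset.mem_union_right _ hi)]
  | all i φ ih =>
    rw [sat_all, sat_all]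
    refine forall_congr' fun a => ih fun k hk => ?_
    by_cases hki : k = i
    · rw [hki, update_self, update_self]
    · rw [update_of_ne hki, update_of_ne hki]
      exact h k (Finset.mem_erase.2 ⟨hki, hk⟩)

theorem sat_ren {f : ℕ → ℕ} (hf : Injective f) (φ : Fml) (v : ℕ → M) :
    Sat σ S v (φ.ren f) ↔ Sat σ S (v ∘ f) φ := by
  induction φ generalizing v with
  | bot => exact Iff.rfl
  | eq i j => exact Iff.rfl
  | rel r l =>
    show Sat σ S v (.rel r (l.map f)) ↔ _
    rw [sat_rel, sat_rel, List.length_map, List.map_map]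
  | fn g l j =>
    show Sat σ S v (.fn g (l.map f) (f j)) ↔ _
    rw [sat_fn, sat_fn, List.length_map, List.map_map]
    exact Iff.rfl
  | imp φ ψ ih1 ih2 =>
    show Sat σ S v (.imp (φ.ren f) (ψ.ren f)) ↔ _
    rw [sat_imp, sat_imp, ih1, ih2]
  | all i φ ih =>
    show Sat σ S v (.all (f i) (φ.ren f)) ↔ _
    rw [sat_all, sat_all]
    refine forall_congr' fun a => ?_
    have h1 : (update v (f i) a) ∘ f = update (v ∘ f) i a := by
      funext k
      by_cases hk : k = i
      · rw [hk, update_self]
        exact update_self _ _ _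
      · rw [update_of_ne hk]
        exact update_of_ne (fun h => hk (hf h)) _ _
    rw [ih, h1]

theorem fv_ren {f : ℕ → ℕ} (hf : Injective f) (φ : Fml) : (φ.ren f).fv = φ.fv.image f := by
  induction φ with
  | bot => rfl
  | eq i j =>
    show ({f i, f j} : Finset ℕ) = Finset.image f {i, j}
    rw [Finset.image_insert, Finset.image_singleton]
  | rel r l =>
    show (l.map f).toFinset = l.toFinset.image f
    ext k
    simp only [List.mem_toFinset, List.mem_map, Finset.mem_image]
  | fn g l j =>
    show insert (f j) (l.map f).toFinset = (insert j l.toFinset).image f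
    rw [Finset.image_insert]
    congr 1
    ext k
    simp only [List.mem_toFinset, List.mem_map, Finset.mem_image]
  | imp φ ψ ih1 ih2 =>
    show (φ.ren f).fv ∪ (ψ.ren f).fv = (φ.fv ∪ ψ.fv).image f
    rw [ih1, ih2, Finset.image_union]
  | all i φ ih =>
    show (φ.ren f).fv.erase (f i) = (φ.fv.erase i).image f
    rw [ih, Finset.image_erase hf]

end Pool.Agent.BLE
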