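import Pool.Agent.BLE.SB

/-!
# BLE / SG: universal closure, and quantifying out all variables outside a set
-/

set_option autoImplicit false

namespace Pool.Agent.BLE

open Function

variable {σ : Sig} {M : Type} {S : Str M}

theorem sat_close (φ : Fml) (v : ℕ → M) :
    Sat σ S v (Fml.close φ) ↔ ∀ w : ℕ → M, Sat σ S w φ := by
  unfold Fml.close
  rw [sat_alls]
  constructor
  · intro h w
    have h1 := h (fun i => if i < φ.code then w i else v i) (fun i hi => by
      have h2 : ¬ i < φ.code := fun h3 => hi i h3 rfl
      simp [h2])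
    refine (sat_congr φ fun i hi => ?_).1 h1
    have h2 : i < φ.code := fv_lt_code φ i hi
    simp [h2]
  · intro h w _
    exact h w

theorem fv_close (φ : Fml) : (Fml.close φ).fv = ∅ := by
  unfold Fml.close
  rw [fv_alls]
  ext i
  simp only [Finset.mem_sdiff, Finset.mem_image, Finset.mem_range, id_eq, exists_eq_right,
    not_lt, Finset.notMem_empty, iff_false, not_and, not_le]
  exact fun h => fv_lt_code φ i h

theorem sat_exOut (s : ℕ → Bool) (φ : Fml) (v : ℕ → M) :
    Sat σ S v (Fml.exOut s φ) ↔ ∃ w : ℕ → M, (∀ i, s i = true → w i = v i) ∧ Sat σ S w φ := by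
  unfold Fml.exOut
  rw [sat_exs]
  constructor
  · rintro ⟨w, h1, h2⟩
    refine ⟨fun i => if i < φ.code then w i else v i, fun i hi => ?_, ?_⟩
    · by_cases h3 : i < φ.code
      · simp only [h3, if_true]
        refine h1 i fun t ht h4 => ?_
        by_cases h5 : s t = true
        · rw [if_pos h5] at h4
          omega
        · rw [if_neg h5] at h4
          rw [h4] at h5
          exact h5 hi
      · simp only [h3, if_false]
    · refine (sat_congr φ fun i hi => ?_).1 h2
      have h3 : i < φ.code := fv_lt_code φ i hi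
      simp [h3]
  · rintro ⟨w, h1, h2⟩
    refine ⟨fun i => if i < φ.code then w i else v i, fun i hi => ?_, ?_⟩
    · by_cases h3 : i < φ.code
      · simp only [h3, if_true]
        refine h1 i ?_
        by_contra h4
        exact hi i h3 (by rw [if_neg h4])
      · simp only [h3, if_false]
    · refine (sat_congr φ fun i hi => ?_).1 h2
      have h3 : i < φ.code := fv_lt_code φ i hi
      simp [h3]

theorem fv_exOut (s : ℕ → Bool) (φ : Fml) : ∀ i ∈ (Fml.exOut s φ).fv, i ∈ φ.fv ∧ s i = true := by
  intro i hi
  unfold Fml.exOut at hi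
  rw [fv_exs, Finset.mem_sdiff] at hi
  refine ⟨hi.1, ?_⟩
  by_contra h
  refine hi.2 (Finset.mem_image.2 ⟨i, Finset.mem_range.2 (fv_lt_code φ i hi.1), ?_⟩)
  simp only [h, if_false]

end Pool.Agent.BLE
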