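import Pool.Agent.BLE.XLim
import Pool.Agent.BLE.SG
import Pool.Agent.BLE.SA

/-!
# BLE / XCod: coding

Suppose `f i ≤ t` for all `i < 2n+2`.  At stage `s = 3 t` (`o (s/3) = n + 1`) the formula `hat n χ`,
`χ = F (c (s+1)).unpair.2`, is added and `Av σ J A t n χ` holds.  `Sat v (hat n χ)`, so
`Sat (A j) f (hat n χ)`.  Let `q = ∑ i < 2n+2, f i * (t+1)^i < (t+1)^(2n+2)` with
`q / (t+1)^i % (t+1) = f i` for `i < 2n+2` (prove a lemma: every `f` with values `≤ t` on `i < b` is given by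
the digits of some `q < (t+1)^b`; induction on `b`, e.g. `q_(b+1) = q_b + f b * (t+1)^b` or
`q = f 0 + (t+1) * q'`), so `(dig t (2n+2) q).getD i 0 = f i` for `i < 2n+2`.  All free variables of
`hat n χ` are `< 2n+2` (`fv_exOut`), so `Sat (A j) (dig ..) (hat n χ)` (`sat_congr`): contradiction to `Av`.
-/

set_option autoImplicit false

namespace Pool.Agent.BLE

open Function

variable {σ : Sig} {M : Type} {S : Str M} {ell : ℕ} {θ D : Fml} {J : ℕ → Prop} {A : ℕ → Str ℕ}
  {o : ℕ → ℕ} {L : ℕ → ℕ → Bool} {c : ℕ → ℕ}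

private theorem dig_getD (t b q i : ℕ) (hi : i < b) :
    (dig t b q).getD i 0 = q / (t + 1) ^ i % (t + 1) := by
  unfold dig
  rw [List.getD_eq_getElem?_getD, List.getElem?_map, List.getElem?_range hi]
  rfl

/-- every function on `{0, ..., b-1}` with values `≤ t` is given by digits -/
theorem exists_dig (t b : ℕ) (f : ℕ → ℕ) (hf : ∀ i < b, f i ≤ t) :
    ∃ q < (t + 1) ^ b, ∀ i < b, (dig t b q).getD i 0 = f i := by
  have key : ∃ q < (t + 1) ^ b, ∀ i < b, q / (t + 1) ^ i % (t + 1) = f i := by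
    induction b generalizing f with
    | zero => exact ⟨0, by simp, fun i hi => absurd hi (Nat.not_lt_zero i)⟩
    | succ b ih =>
      obtain ⟨q, hq, hq'⟩ := ih (fun i => f (i + 1)) fun i hi => hf (i + 1) (by omega)
      have h0 : f 0 < t + 1 := Nat.lt_succ_of_le (hf 0 (by omega))
      refine ⟨f 0 + (t + 1) * q, ?_, ?_⟩
      · have h1 : (t + 1) * q + (t + 1) ≤ (t + 1) * (t + 1) ^ b := by
          calc (t + 1) * q + (t + 1) = (t + 1) * (q + 1) := by ring
            _ ≤ (t + 1) * (t + 1) ^ b := Nat.mul_le_mul_left _ hq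
        rw [pow_succ, mul_comm ((t + 1) ^ b) (t + 1)]
        omega
      · intro i hi
        rcases i with _ | i
        · rw [pow_zero, Nat.div_one, Nat.add_mul_mod_self_left, Nat.mod_eq_of_lt h0]
        · have h2 : (f 0 + (t + 1) * q) / (t + 1) ^ (i + 1) = q / (t + 1) ^ i := by
            rw [pow_succ, mul_comm ((t + 1) ^ i) (t + 1), ← Nat.div_div_eq_div_mul,
              Nat.add_mul_div_left _ _ (Nat.succ_pos t), Nat.div_eq_of_lt h0, Nat.zero_add]
          rw [h2]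
          exact hq' i (by omega)
  obtain ⟨q, hq, h⟩ := key
  exact ⟨q, hq, fun i hi => (dig_getD t b q i hi).trans (h i hi)⟩

theorem lim_code (hc : ∀ s, StepR σ S ell θ D J A o L s (c s) (c (s + 1)))
    {v : ℕ → M} (hv : ∀ s, Sat σ S v (F (c s).unpair.1)) {t n : ℕ} (ho : o t = n + 1)
    {j : ℕ} (hj : j ≤ t) (hJ : J j) {f : ℕ → ℕ}
    (hf : ∀ φ : Fml, Sat σ S v φ ↔ Sat σ (A j) f φ) : ∃ i < 2 * n + 2, t < f i := by
  by_contra hcon
  push Not at hcon
  obtain ⟨q, hq, hdig⟩ := exists_dig t (2 * n + 2) f hcon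
  have h4 : (3 * t) / 3 = t := by omega
  have h3 := (hc (3 * t)).2.1 (by omega) (by rw [h4, ho]; omega)
  rw [h4, ho] at h3
  have h5 : n + 1 - 1 = n := by omega
  rw [h5] at h3
  obtain ⟨h6, -, hAv⟩ := h3
  have h7 := hv (3 * t + 1)
  rw [h6, sat_and] at h7
  have h8 := (hf _).1 h7.2
  refine hAv j (by omega) q hq ⟨hJ, ?_⟩
  refine (sat_congr _ ?_).1 h8
  intro i hi
  have h9 := (fv_exOut _ _ i hi).2
  have h10 : i < 2 * n + 2 := by simpa using h9
  exact (hdig i h10).symm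

end Pool.Agent.BLE
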