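import Pool.Agent.BLE.SB

/-!
# BLE / SD: semantics of `atLeast k i φ` and `atMost k i φ`
-/

set_option autoImplicit false

namespace Pool.Agent.BLE

open Function

variable {σ : Sig} {M : Type} {S : Str M}

private theorem le_encard_iff (X : Set M) (k : ℕ) (m0 : M) :
    (k : ℕ∞) ≤ X.encard ↔
      ∃ g : ℕ → M, (∀ j < k, g j ∈ X) ∧ ∀ j < k, ∀ j' < j, g j' ≠ g j := by
  classical
  constructor
  · intro h
    obtain ⟨t, ht, hc⟩ := Set.exists_subset_encard_eq h
    have hfin : t.Finite := Set.finite_of_encard_eq_coe hc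
    have hcard : hfin.toFinset.card = k := by
      have h1 := hfin.encard_eq_coe_toFinset_card
      rw [hc] at h1
      exact_mod_cast h1.symm
    have e : Fin k ≃ hfin.toFinset := (Finset.equivFinOfCardEq hcard).symm
    refine ⟨fun j => if h : j < k then (e ⟨j, h⟩ : M) else m0, fun j hj => ?_, fun j hj j' hj' => ?_⟩
    · simp only [hj, dif_pos]
      exact ht (hfin.mem_toFinset.1 (e ⟨j, hj⟩).2)
    · have hj'' : j' < k := hj'.trans hj
      simp only [hj, hj'', dif_pos]
      intro heq
      have h2 := e.injective (Subtype.ext heq)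
      have h3 : j' = j := congrArg Fin.val h2
      omega
  · rintro ⟨g, hg, hne⟩
    have hinj : Set.InjOn g (Finset.range k : Set ℕ) := by
      intro a ha b hb hab
      have ha' : a < k := Finset.mem_range.1 (Finset.mem_coe.1 ha)
      have hb' : b < k := Finset.mem_range.1 (Finset.mem_coe.1 hb)
      rcases lt_trichotomy a b with h | h | h
      · exact absurd hab (hne b hb' a h)
      · exact h
      · exact absurd hab.symm (hne a ha' b h)
    have h1 : ((Finset.range k).image g).card = k := by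
      rw [Finset.card_image_of_injOn hinj, Finset.card_range]
    have h2 : (((Finset.range k).image g : Finset M) : Set M) ⊆ X := by
      intro a ha
      obtain ⟨j, hj, rfl⟩ := Finset.mem_image.1 (Finset.mem_coe.1 ha)
      exact hg j (Finset.mem_range.1 hj)
    have h3 := Set.encard_le_encard h2
    rw [Set.encard_coe_eq_coe_finsetCard, h1] at h3
    exact h3

theorem sat_atLeast (k i : ℕ) (φ : Fml) (v : ℕ → M) :
    Sat σ S v (Fml.atLeast k i φ) ↔ (k : ℕ∞) ≤ {a | Sat σ S (update v i a) φ}.encard := by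
  rw [le_encard_iff _ k (v 0), Fml.atLeast, sat_exs]
  have key : ∀ w : ℕ → M, (∀ x, (∀ t < k, φ.code + i + 1 + t ≠ x) → w x = v x) →
      ∀ j, (Sat σ S w (Fml.ex i (Fml.and (.eq i (φ.code + i + 1 + j)) φ)) ↔
        Sat σ S (update v i (w (φ.code + i + 1 + j))) φ) := by
    intro w hw j
    have hij : φ.code + i + 1 + j ≠ i := by omega
    have h1 : Sat σ S (update w i (w (φ.code + i + 1 + j))) φ ↔
        Sat σ S (update v i (w (φ.code + i + 1 + j))) φ := by
      refine sat_congr φ fun x hx => ?_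
      by_cases hxi : x = i
      · rw [hxi, update_self, update_self]
      · rw [update_of_ne hxi, update_of_ne hxi]
        have := fv_lt_code φ x hx
        exact hw x fun t _ => by omega
    rw [sat_ex, ← h1]
    constructor
    · rintro ⟨a, ha⟩
      rw [sat_and, sat_eq, update_self, update_of_ne hij] at ha
      rw [← ha.1]
      exact ha.2
    · intro h
      refine ⟨w (φ.code + i + 1 + j), ?_⟩
      rw [sat_and, sat_eq, update_self, update_of_ne hij]
      exact ⟨rfl, h⟩
  constructor
  · rintro ⟨w, hw, hs⟩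
    rw [sat_cj] at hs
    refine ⟨fun j => w (φ.code + i + 1 + j), fun j hj => ?_, fun j hj j' hj' => ?_⟩
    · have h1 := hs j hj
      rw [sat_and, key w hw] at h1
      exact h1.1
    · have h1 := hs j hj
      rw [sat_and, sat_cj] at h1
      have h2 := h1.2 j' hj'
      rw [sat_neg, sat_eq] at h2
      exact h2
  · rintro ⟨g, hg, hne⟩
    obtain ⟨w, hw, hval⟩ : ∃ w : ℕ → M, (∀ x, (∀ t < k, φ.code + i + 1 + t ≠ x) → w x = v x) ∧
        ∀ j < k, w (φ.code + i + 1 + j) = g j := by
      refine ⟨fun x => if φ.code + i + 1 ≤ x ∧ x < φ.code + i + 1 + k then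
        g (x - (φ.code + i + 1)) else v x, fun x hx => ?_, fun j hj => ?_⟩
      · have h1 : ¬ (φ.code + i + 1 ≤ x ∧ x < φ.code + i + 1 + k) := by
          intro h
          exact hx (x - (φ.code + i + 1)) (by omega) (by omega)
        simp only [h1, if_false]
      · have h1 : φ.code + i + 1 ≤ φ.code + i + 1 + j ∧
            φ.code + i + 1 + j < φ.code + i + 1 + k := by omega
        have h2 : φ.code + i + 1 + j - (φ.code + i + 1) = j := by omega
        simp only [h1, and_self, if_true, h2]
    refine ⟨w, hw, ?_⟩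
    rw [sat_cj]
    intro j hj
    rw [sat_and, key w hw, sat_cj]
    refine ⟨?_, fun j' hj' => ?_⟩
    · rw [hval j hj]
      exact hg j hj
    · rw [sat_neg, sat_eq, hval j hj, hval j' (hj'.trans hj)]
      exact hne j hj j' hj'

theorem sat_atMost (k i : ℕ) (φ : Fml) (v : ℕ → M) :
    Sat σ S v (Fml.atMost k i φ) ↔ {a | Sat σ S (update v i a) φ}.encard ≤ (k : ℕ∞) := by
  rw [Fml.atMost, sat_neg, sat_atLeast, not_le]
  have h : (((k + 1 : ℕ) : ℕ∞)) = (k : ℕ∞) + 1 := by push_cast; rfl
  rw [h]
  exact ENat.lt_add_one_iff (ENat.natCast_ne_top k)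

theorem fv_atLeast (k i : ℕ) (φ : Fml) : (Fml.atLeast k i φ).fv ⊆ φ.fv.erase i := by
  intro x hx
  rw [Fml.atLeast, fv_exs, Finset.mem_sdiff, fv_cj, Finset.mem_biUnion] at hx
  obtain ⟨⟨j, hj, hx1⟩, hx2⟩ := hx
  have hj' : j < k := Finset.mem_range.1 hj
  have hnot : ∀ t < k, x ≠ φ.code + i + 1 + t := fun t ht h =>
    hx2 (Finset.mem_image.2 ⟨t, Finset.mem_range.2 ht, h.symm⟩)
  rw [fv_and, Finset.mem_union, fv_ex, fv_and, Finset.mem_erase, Finset.mem_union, fv_cj,
    Finset.mem_biUnion] at hx1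
  rcases hx1 with ⟨h1, h2 | h2⟩ | ⟨j', hj'', h2⟩
  · change x ∈ ({i, φ.code + i + 1 + j} : Finset ℕ) at h2
    rw [Finset.mem_insert, Finset.mem_singleton] at h2
    rcases h2 with h2 | h2
    · exact absurd h2 h1
    · exact absurd h2 (hnot j hj')
  · exact Finset.mem_erase.2 ⟨h1, h2⟩
  · rw [fv_neg] at h2
    change x ∈ ({φ.code + i + 1 + j', φ.code + i + 1 + j} : Finset ℕ) at h2
    rw [Finset.mem_insert, Finset.mem_singleton] at h2
    have hj3 : j' < j := Finset.mem_range.1 hj''
    rcases h2 with h2 | h2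
    · exact absurd h2 (hnot j' (hj3.trans hj'))
    · exact absurd h2 (hnot j hj')

theorem fv_atMost (k i : ℕ) (φ : Fml) : (Fml.atMost k i φ).fv ⊆ φ.fv.erase i := by
  rw [Fml.atMost, fv_neg]
  exact fv_atLeast (k + 1) i φ

end Pool.Agent.BLE
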