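import Pool.Agent.BLE.XLim
import Pool.Agent.BLE.DF
import Pool.Agent.BLE.SD
import Pool.Agent.BLE.DD
import Pool.Agent.BLE.DA

/-!
# BLE / XGen: genericity in the limit

* `lim_th`: `lim_hold` with `χ = θ`.
* `lim_gen`: (i) `v (2n+1) ∈ Dset v`: `lim_hold` with `χ = D.mem (2n+1)` (`sat_mem`).  (ii) Suppose
  `v (2n+1) ∈ acl (par ell v ∪ prev v n)`: it is in a finite set `X` definable over these parameters; by
  `fml_of_df1` with `V = {2j | j < ell} ∪ {2m+1 | m < n}` and the variable `2n+1` there is `ρ` with free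
  variables in `V ∪ {2n+1}` and `y ∈ X ↔ Sat (update v (2n+1) y) ρ`.  Let `k` bound the number of elements
  of `X` and `χ = (ρ.and (atMost k (2n+1) ρ)).neg`.  Every `w` which is good for some `L s` satisfies `χ`:
  `L s n = false`, and if `Sat w ρ` and `Sat w (atMost k (2n+1) ρ)` (`sat_atMost`) then `w (2n+1)` is in the
  finite set `{y | Sat (update w (2n+1) y) ρ}`, definable over `par ell w ∪ prev w n` (`df1_of_fv` with
  `k = n`), against `Good.gen`.  So `Sat v χ` by `lim_hold`; contradiction.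
-/

set_option autoImplicit false

namespace Pool.Agent.BLE

open Function

variable {σ : Sig} {M : Type} {S : Str M} {ell : ℕ} {θ D : Fml} {J : ℕ → Prop} {A : ℕ → Str ℕ}
  {o : ℕ → ℕ} {L : ℕ → ℕ → Bool} {c : ℕ → ℕ}

theorem lim_th (hi : ∀ s, Hp σ S ell θ D (L s) (F (c s).unpair.1))
    (hc : ∀ s, StepR σ S ell θ D J A o L s (c s) (c (s + 1)))
    {v : ℕ → M} (hv : ∀ s, Sat σ S v (F (c s).unpair.1)) : Sat σ S v θ :=
  lim_hold hi hc hv θ 0 fun _ _ _ hw => hw.th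

theorem lim_gen (hi : ∀ s, Hp σ S ell θ D (L s) (F (c s).unpair.1))
    (hc : ∀ s, StepR σ S ell θ D J A o L s (c s) (c (s + 1)))
    {v : ℕ → M} (hv : ∀ s, Sat σ S v (F (c s).unpair.1)) (n : ℕ) (hn : ∀ s, L s n = false) :
    Gen σ S ell D v n := by
  refine ⟨?_, ?_⟩
  · rw [← sat_mem (σ := σ) (S := S) (D := D)]
    refine lim_hold hi hc hv _ 0 fun _ _ w hw => ?_
    rw [sat_mem]
    exact hw.mem n
  · rintro ⟨X, hX, hXf, hxX⟩
    set V : Set ℕ := {i | (∃ j < ell, i = 2 * j) ∨ ∃ m < n, i = 2 * m + 1} with hV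
    have hVimg : v '' V = par ell v ∪ prev v n := by
      ext a
      constructor
      · rintro ⟨i, (⟨j, hj, rfl⟩ | ⟨m, hm, rfl⟩), rfl⟩
        · exact Or.inl ⟨j, hj, rfl⟩
        · exact Or.inr ⟨m, hm, rfl⟩
      · rintro (⟨j, hj, rfl⟩ | ⟨m, hm, rfl⟩)
        · exact ⟨2 * j, Or.inl ⟨j, hj, rfl⟩, rfl⟩
        · exact ⟨2 * m + 1, Or.inr ⟨m, hm, rfl⟩, rfl⟩
    have hxV : 2 * n + 1 ∉ V := by
      rintro (⟨j, hj, h⟩ | ⟨m, hm, h⟩) <;> omega
    rw [← hVimg] at hX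
    obtain ⟨ρ, hfv, hρX⟩ := fml_of_df1 v V (2 * n + 1) hxV hX
    have hset : {y | Sat σ S (update v (2 * n + 1) y) ρ} = X := by
      ext y; exact (hρX y).symm
    obtain ⟨k, hk⟩ : ∃ k : ℕ, X.encard ≤ (k : ℕ∞) := by
      refine ⟨hXf.toFinset.card, ?_⟩
      rw [hXf.encard_eq_coe_toFinset_card]
    have h1 : Sat σ S v (ρ.and (Fml.atMost k (2 * n + 1) ρ)).neg := by
      refine lim_hold hi hc hv _ 0 fun s _ w hw => ?_
      rw [sat_neg, sat_and, sat_atMost]
      rintro ⟨h2, h3⟩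
      refine hw.gen n (hn s) ⟨{y | Sat σ S (update w (2 * n + 1) y) ρ}, ?_, ?_, ?_⟩
      · refine df1_of_fv w ρ fun i hi => ?_
        rcases hfv i hi with (h | ⟨m, hm, h⟩) | h
        · exact Or.inl h
        · exact Or.inr ⟨m, hm.le, h⟩
        · exact Or.inr ⟨n, le_rfl, h⟩
      · exact Set.finite_of_encard_le_coe h3
      · show Sat σ S (update w (2 * n + 1) (w (2 * n + 1))) ρ
        rw [update_eq_self]
        exact h2
    rw [sat_neg, sat_and, sat_atMost, hset] at h1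
    refine h1 ⟨?_, hk⟩
    have h4 := (hρX _).1 hxX
    rwa [update_eq_self] at h4

end Pool.Agent.BLE
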