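import Pool.Agent.BLE.XDefs
import Pool.Agent.DP.Comp

/-!
# BLE / XHalt: the schedule given by the halting problem

Pure computability.  Write `P e = Denumerable.ofNat Nat.Partrec.Code e`.  Put
`o t = k₀ + e + 1` if `t = Nat.pair e t'`, `(evaln t' (P e) e).isSome` and `¬ (evaln t'' (P e) e).isSome` for
all `t'' < t'`, and `o t = 0` otherwise (`Nat.unpair`).  `evaln` is primitive recursive
(`Nat.Partrec.Code.primrec_evaln` / `evaln_prim`), bounded quantifiers: `Pool.Agent.DP.CP.all`.
`L s n = true ↔ ∃ t, 3 t < s ∧ o t = n + 1`: bounded quantifier, `decide` of a computable predicate.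
* `inj`: `o t = o t' ≠ 0`: the same `e`, and the same least number of steps.
* halting: `Nat.Partrec.Code.evaln_complete`: a least `t'` exists; `t = Nat.pair e t' ≥ t'`
  (`Nat.right_le_pair`), `Nat.Partrec.Code.evaln_mono`.
* infinitely many `n` never leave: infinitely many programs diverge on their own number: there is a code
  `d` with `eval d x = Part.none` for all `x` (`Nat.Partrec.Code.exists_code`, `Partrec.none`), the codes
  `comp d (Code.const i)` are pairwise different (`Nat.Partrec.Code.const_inj`) and diverge everywhere; so for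
  every `m` there is one with number `e ≥ m` and `n = k₀ + e`.
-/

set_option autoImplicit false

namespace Pool.Agent.BLE

open Function Pool.Agent.DP Nat.Partrec

private def hsome (t e : ℕ) : Prop :=
  (Code.evaln t (Denumerable.ofNat Code e) e).isSome = true

private theorem hsome_mono {t t' e : ℕ} (h : t ≤ t') (ht : hsome t e) : hsome t' e := by
  obtain ⟨x, hx⟩ := Option.isSome_iff_exists.1 ht
  exact Option.isSome_iff_exists.2 ⟨x, Code.evaln_mono h hx⟩

private theorem hsome_dec : ComputablePred fun p : ℕ × ℕ => hsome p.1 p.2 := by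
  have h1 : Primrec fun p : ℕ × ℕ => ((p.1, Denumerable.ofNat Code p.2), p.2) :=
    Primrec.pair (Primrec.pair Primrec.fst ((Primrec.ofNat Code).comp Primrec.snd)) Primrec.snd
  have h2 : Primrec fun p : ℕ × ℕ => (Code.evaln p.1 (Denumerable.ofNat Code p.2) p.2).isSome :=
    Primrec.option_isSome.comp (Code.primrec_evaln.comp h1)
  exact CP.bool h2.to_comp

private def lst (t : ℕ) : Prop :=
  hsome t.unpair.2 t.unpair.1 ∧ ∀ k < t.unpair.2, ¬ hsome k t.unpair.1

private theorem lst_dec : ComputablePred lst := by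
  refine CP.and ?_ ?_
  · exact CP.comp (f := fun t : ℕ => (t.unpair.2, t.unpair.1)) hsome_dec (by fun_prop)
  · refine CP.all (f := fun t : ℕ => t.unpair.2) (p := fun (t k : ℕ) => ¬ hsome k t.unpair.1)
      (by fun_prop) (CP.not ?_)
    exact CP.comp (f := fun x : ℕ × ℕ => (x.2, x.1.unpair.1)) hsome_dec (by fun_prop)

open Classical in
private noncomputable def sch (k₀ t : ℕ) : ℕ := if lst t then k₀ + t.unpair.1 + 1 else 0

private theorem sch_comp (k₀ : ℕ) : Computable (sch k₀) := by
  classical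
  obtain ⟨b, hb, hb'⟩ := cp_iff.1 lst_dec
  have h : Computable fun t : ℕ => cond (b t) (k₀ + t.unpair.1 + 1) 0 :=
    Computable.cond hb (by fun_prop) (Computable.const 0)
  refine h.of_eq fun t => ?_
  unfold sch
  by_cases hc : lst t
  · rw [if_pos hc, (hb' t).1 hc]
    rfl
  · rw [if_neg hc]
    have : b t = false := by
      rw [← Bool.not_eq_true]
      exact fun h => hc ((hb' t).2 h)
    rw [this]
    rfl

private theorem sch_ne {k₀ t : ℕ} (h : sch k₀ t ≠ 0) : lst t ∧ sch k₀ t = k₀ + t.unpair.1 + 1 := by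
  classical
  unfold sch at h ⊢
  by_cases hc : lst t
  · rw [if_pos hc]
    exact ⟨hc, rfl⟩
  · rw [if_neg hc] at h
    exact absurd rfl h

theorem exists_sched (k₀ : ℕ) :
    ∃ (o : ℕ → ℕ) (L : ℕ → ℕ → Bool), Sched k₀ o L ∧ (∀ m, ∃ n ≥ m, ∀ t, o t ≠ n + 1) ∧
      ∀ e : ℕ, (Nat.Partrec.Code.eval (Denumerable.ofNat Nat.Partrec.Code e) e).Dom →
        ∃ t, o t = k₀ + e + 1 ∧
          (Nat.Partrec.Code.evaln t (Denumerable.ofNat Nat.Partrec.Code e) e).isSome := by
  classical
  have hex : ComputablePred fun p : ℕ × ℕ => ∃ t < p.1, 3 * t < p.1 ∧ sch k₀ t = p.2 + 1 := by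
    refine CP.ex (f := fun p : ℕ × ℕ => p.1)
      (p := fun (p : ℕ × ℕ) (t : ℕ) => 3 * t < p.1 ∧ sch k₀ t = p.2 + 1) Computable.fst ?_
    refine CP.and ?_ ?_
    · exact CP.lt (f := fun x : (ℕ × ℕ) × ℕ => 3 * x.2) (g := fun x => x.1.1)
        ((Primrec.nat_mul.comp (Primrec.const 3) Primrec.snd).to_comp) (by fun_prop)
    · exact CP.eq (f := fun x : (ℕ × ℕ) × ℕ => sch k₀ x.2) (g := fun x => x.1.2 + 1)
        ((sch_comp k₀).comp Computable.snd) (by fun_prop)
  obtain ⟨b, hb, hb'⟩ := cp_iff.1 hex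
  refine ⟨sch k₀, fun s n => b (s, n), ⟨?_, ?_, ?_, sch_comp k₀, hb⟩, ?_, ?_⟩
  · intro s n
    rw [← hb' (s, n)]
    constructor
    · rintro ⟨t, _, h1, h2⟩
      exact ⟨t, h1, h2⟩
    · rintro ⟨t, h1, h2⟩
      exact ⟨t, by show t < s; omega, h1, h2⟩
  · intro t ht
    rw [(sch_ne ht).2]
    omega
  · intro t t' h h0
    obtain ⟨h1, h2⟩ := sch_ne h0
    obtain ⟨h3, h4⟩ := sch_ne (h ▸ h0 : sch k₀ t' ≠ 0)
    have h5 : t.unpair.1 = t'.unpair.1 := by omega
    have h6 : t.unpair.2 = t'.unpair.2 := by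
      rcases lt_trichotomy t.unpair.2 t'.unpair.2 with h7 | h7 | h7
      · exact absurd (h5 ▸ h1.1) (h3.2 _ h7)
      · exact h7
      · exact absurd (h5 ▸ h3.1) (h1.2 _ h7)
    rw [← Nat.pair_unpair t, ← Nat.pair_unpair t', h5, h6]
  · intro m
    obtain ⟨d, hd⟩ := Code.exists_code.1 Nat.Partrec.none
    have hinj : Injective fun i : ℕ => Encodable.encode (Code.comp d (Code.const i)) := by
      intro i j hij
      have h1 := Encodable.encode_injective hij
      injection h1 with _ h2
      exact Code.const_inj h2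
    obtain ⟨_, ⟨i, rfl⟩, hi⟩ := (Set.infinite_range_of_injective hinj).exists_gt m
    have hi' : m < Encodable.encode (Code.comp d (Code.const i)) := hi
    set e := Encodable.encode (Code.comp d (Code.const i)) with he
    refine ⟨k₀ + e, by show m ≤ k₀ + e; omega, fun t ht => ?_⟩
    obtain ⟨h1, h2⟩ := sch_ne (k₀ := k₀) (t := t) (by omega)
    have h3 : t.unpair.1 = e := by omega
    have h4 := h1.1
    rw [h3] at h4
    obtain ⟨x, hx⟩ := Option.isSome_iff_exists.1 h4
    have h5 := Code.evaln_sound hx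
    rw [he, Denumerable.ofNat_encode] at h5
    have h6 : Code.eval (Code.comp d (Code.const i)) e = Part.none := by
      show (Code.eval (Code.const i) e >>= Code.eval d) = Part.none
      rw [Code.eval_const, hd]
      exact Part.bind_some _ _
    rw [← he, h6] at h5
    exact Part.notMem_none _ h5
  · intro e he
    have h1 : ∃ t, hsome t e := by
      obtain ⟨x, hx⟩ := Part.dom_iff_mem.1 he
      obtain ⟨k, hk⟩ := Code.evaln_complete.1 hx
      exact ⟨k, Option.isSome_iff_exists.2 ⟨x, hk⟩⟩
    refine ⟨Nat.pair e (Nat.find h1), ?_, ?_⟩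
    · unfold sch
      have h2 : lst (Nat.pair e (Nat.find h1)) := by
        unfold lst
        rw [Nat.unpair_pair]
        exact ⟨Nat.find_spec h1, fun k hk => Nat.find_min h1 hk⟩
      rw [if_pos h2, Nat.unpair_pair]
    · exact hsome_mono (Nat.right_le_pair _ _) (Nat.find_spec h1)

end Pool.Agent.BLE
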