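import Pool.Agent.BLE.SE
import Pool.Agent.DP.Comp

/-!
# BLE / XCode: computable families of formulas

`CF φ`: the Goedel number of `φ x` is a computable function of `x`. All the operations on formulas
preserve this; everything is registered with `fun_prop`.
-/

set_option autoImplicit false

namespace Pool.Agent.BLE

open Pool.Agent.DP

section

variable {α β : Type} [Primcodable α] [Primcodable β]

@[fun_prop]
theorem Cp.mul {f g : α → ℕ} (hf : Computable f) (hg : Computable g) :
    Computable fun x => f x * g x := (Primrec.nat_mul.to_comp).comp hf hg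

@[fun_prop]
theorem Cp.ite {b : α → Bool} {f g : α → β} (hb : Computable b) (hf : Computable f)
    (hg : Computable g) : Computable fun x => if b x = true then f x else g x := by
  refine (Computable.cond hb hf hg).of_eq fun x => ?_
  cases b x <;> rfl

@[fun_prop]
theorem Cp.encode {f : α → β} (hf : Computable f) : Computable fun x => Encodable.encode (f x) :=
  Computable.encode.comp hf

/-- the formulas `φ x` depend on `x` in a computable way -/
@[fun_prop]
def CF (φ : α → Fml) : Prop := Computable fun x => (φ x).code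

@[fun_prop]
theorem CF.code {φ : α → Fml} (h : CF φ) : Computable fun x => (φ x).code := h

@[fun_prop]
theorem CF.const (φ : Fml) : CF fun _ : α => φ := Computable.const _

@[fun_prop]
theorem CF.comp {φ : β → Fml} {g : α → β} (h : CF φ) (hg : Computable g) :
    CF fun x => φ (g x) := Computable.comp (f := fun y => (φ y).code) h hg

@[fun_prop]
theorem CF.F {a : α → ℕ} (ha : Computable a) : CF fun x => F (a x) := by
  unfold CF
  simpa using ha

@[fun_prop]
theorem CF.eq {i j : α → ℕ} (hi : Computable i) (hj : Computable j) :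
    CF fun x => Fml.eq (i x) (j x) := by
  unfold CF
  simp only [Fml.code]
  fun_prop

@[fun_prop]
theorem CF.rel {r : α → ℕ} {l : α → List ℕ} (hr : Computable r) (hl : Computable l) :
    CF fun x => Fml.rel (r x) (l x) := by
  unfold CF
  simp only [Fml.code]
  fun_prop

@[fun_prop]
theorem CF.fn {r j : α → ℕ} {l : α → List ℕ} (hr : Computable r) (hl : Computable l)
    (hj : Computable j) : CF fun x => Fml.fn (r x) (l x) (j x) := by
  unfold CF
  simp only [Fml.code]
  fun_prop

@[fun_prop]
theorem CF.imp {φ ψ : α → Fml} (hφ : CF φ) (hψ : CF ψ) : CF fun x => (φ x).imp (ψ x) := by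
  unfold CF
  simp only [Fml.code]
  fun_prop

@[fun_prop]
theorem CF.all {i : α → ℕ} {φ : α → Fml} (hi : Computable i) (hφ : CF φ) :
    CF fun x => Fml.all (i x) (φ x) := by
  unfold CF
  simp only [Fml.code]
  fun_prop

@[fun_prop]
theorem CF.neg {φ : α → Fml} (hφ : CF φ) : CF fun x => (φ x).neg := by
  simp only [Fml.neg]
  fun_prop

@[fun_prop]
theorem CF.and {φ ψ : α → Fml} (hφ : CF φ) (hψ : CF ψ) : CF fun x => (φ x).and (ψ x) := by
  simp only [Fml.and]
  fun_prop

@[fun_prop]
theorem CF.or {φ ψ : α → Fml} (hφ : CF φ) (hψ : CF ψ) : CF fun x => (φ x).or (ψ x) := by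
  simp only [Fml.or]
  fun_prop

@[fun_prop]
theorem CF.ex {i : α → ℕ} {φ : α → Fml} (hi : Computable i) (hφ : CF φ) :
    CF fun x => Fml.ex (i x) (φ x) := by
  simp only [Fml.ex]
  fun_prop

@[fun_prop]
theorem CF.exs {m : α → ℕ} {f : α → ℕ → ℕ} {φ : α → Fml} (hm : Computable m)
    (hf : Computable fun p : α × ℕ => f p.1 p.2) (hφ : CF φ) :
    CF fun x => Fml.exs (m x) (f x) (φ x) := by
  have h : Computable fun x => Nat.rec (motive := fun _ => ℕ) (φ x).code
      (fun t c => (Fml.ex (f x t) (Pool.Agent.BLE.F c)).code) (m x) := by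
    refine Computable.nat_rec (f := m) (g := fun x => (φ x).code)
      (h := fun x (p : ℕ × ℕ) => (Fml.ex (f x p.1) (Pool.Agent.BLE.F p.2)).code) hm hφ ?_
    show Computable fun y : α × (ℕ × ℕ) =>
      (Fml.ex (f y.1 y.2.1) (Pool.Agent.BLE.F y.2.2)).code
    have h1 : Computable fun y : α × (ℕ × ℕ) => f y.1 y.2.1 :=
      hf.comp (g := fun y : α × (ℕ × ℕ) => (y.1, y.2.1)) (by fun_prop)
    fun_prop
  refine h.of_eq fun x => ?_
  show _ = (Fml.exs (m x) (f x) (φ x)).code
  generalize m x = k
  induction k with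
  | zero => rfl
  | succ k ih =>
    show (Fml.ex (f x k) (Pool.Agent.BLE.F _)).code = (Fml.ex (f x k) (Fml.exs k (f x) (φ x))).code
    rw [ih, F_code]

@[fun_prop]
theorem CF.alls {m : α → ℕ} {f : α → ℕ → ℕ} {φ : α → Fml} (hm : Computable m)
    (hf : Computable fun p : α × ℕ => f p.1 p.2) (hφ : CF φ) :
    CF fun x => Fml.alls (m x) (f x) (φ x) := by
  have h : Computable fun x => Nat.rec (motive := fun _ => ℕ) (φ x).code
      (fun t c => (Fml.all (f x t) (Pool.Agent.BLE.F c)).code) (m x) := by
    refine Computable.nat_rec (f := m) (g := fun x => (φ x).code)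
      (h := fun x (p : ℕ × ℕ) => (Fml.all (f x p.1) (Pool.Agent.BLE.F p.2)).code) hm hφ ?_
    show Computable fun y : α × (ℕ × ℕ) =>
      (Fml.all (f y.1 y.2.1) (Pool.Agent.BLE.F y.2.2)).code
    have h1 : Computable fun y : α × (ℕ × ℕ) => f y.1 y.2.1 :=
      hf.comp (g := fun y : α × (ℕ × ℕ) => (y.1, y.2.1)) (by fun_prop)
    fun_prop
  refine h.of_eq fun x => ?_
  show _ = (Fml.alls (m x) (f x) (φ x)).code
  generalize m x = k
  induction k with
  | zero => rfl
  | succ k ih =>
    show (Fml.all (f x k) (Pool.Agent.BLE.F _)).code =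
      (Fml.all (f x k) (Fml.alls k (f x) (φ x))).code
    rw [ih, F_code]

@[fun_prop]
theorem CF.cj {m : α → ℕ} {g : α → ℕ → Fml} (hm : Computable m)
    (hg : CF fun p : α × ℕ => g p.1 p.2) : CF fun x => Fml.cj (m x) (g x) := by
  have h : Computable fun x => Nat.rec (motive := fun _ => ℕ) Fml.top.code
      (fun t c => (Fml.and (Pool.Agent.BLE.F c) (g x t)).code) (m x) := by
    refine Computable.nat_rec (f := m) (g := fun _ => Fml.top.code)
      (h := fun x (p : ℕ × ℕ) => (Fml.and (Pool.Agent.BLE.F p.2) (g x p.1)).code) hm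
      (Computable.const _) ?_
    show Computable fun y : α × (ℕ × ℕ) =>
      (Fml.and (Pool.Agent.BLE.F y.2.2) (g y.1 y.2.1)).code
    have h1 : CF fun y : α × (ℕ × ℕ) => g y.1 y.2.1 :=
      CF.comp (g := fun y : α × (ℕ × ℕ) => (y.1, y.2.1)) hg (by fun_prop)
    fun_prop
  refine h.of_eq fun x => ?_
  show _ = (Fml.cj (m x) (g x)).code
  generalize m x = k
  induction k with
  | zero => rfl
  | succ k ih =>
    show (Fml.and (Pool.Agent.BLE.F _) (g x k)).code = (Fml.and (Fml.cj k (g x)) (g x k)).code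
    rw [ih, F_code]

@[fun_prop]
theorem CF.close {φ : α → Fml} (hφ : CF φ) : CF fun x => (φ x).close := by
  simp only [Fml.close]
  exact CF.alls hφ Computable.snd hφ

@[fun_prop]
theorem CF.atLeast {k i : α → ℕ} {φ : α → Fml} (hk : Computable k) (hi : Computable i)
    (hφ : CF φ) : CF fun x => Fml.atLeast (k x) (i x) (φ x) := by
  simp only [Fml.atLeast]
  fun_prop

@[fun_prop]
theorem CF.atMost {k i : α → ℕ} {φ : α → Fml} (hk : Computable k) (hi : Computable i)
    (hφ : CF φ) : CF fun x => Fml.atMost (k x) (i x) (φ x) := by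
  simp only [Fml.atMost]
  fun_prop

@[fun_prop]
theorem CF.subst {ρ : α → ℕ → ℕ} {m B : α → ℕ} {φ : α → Fml}
    (hρ : Computable fun p : α × ℕ => ρ p.1 p.2) (hm : Computable m) (hB : Computable B)
    (hφ : CF φ) : CF fun x => Fml.subst (ρ x) (m x) (B x) (φ x) := by
  simp only [Fml.subst]
  have h1 : CF fun x => Fml.exs (m x) id
      (Fml.and (Fml.cj (m x) fun t => Fml.eq t (B x + t)) (φ x)) :=
    CF.exs (f := fun _ t => t) hm Computable.snd (by fun_prop)
  fun_prop

@[fun_prop]
theorem CF.exOut {s : α → ℕ → Bool} {φ : α → Fml}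
    (hs : Computable fun p : α × ℕ => s p.1 p.2) (hφ : CF φ) :
    CF fun x => Fml.exOut (s x) (φ x) := by
  simp only [Fml.exOut]
  fun_prop

end

end Pool.Agent.BLE
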