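import Pool.Agent.BLE.XMem
import Pool.Agent.BLE.SD
import Pool.Agent.BLE.SG
import Pool.Agent.BLE.XCode
import Pool.Agent.DP.Comp

/-!
# BLE / XQ: the generic quantifiers

`Q n φ` says that more than `k` elements of the strongly minimal set satisfy `φ` (as values of the variable `2n+1`),
where `k` is a computable bound such that `φ` or its negation has at most `k` solutions there.
-/

set_option autoImplicit false

namespace Pool.Agent.BLE

open Function Pool.Agent.DP

variable {σ : Sig} {M : Type} {S : Str M} {T : Set Fml} {ell : ℕ} {θ D : Fml}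

/-- `φ` or its negation has at most `k` solutions in the strongly minimal set -/
private def EE (θ D : Fml) (n : ℕ) (φ : Fml) (k : ℕ) : Fml :=
  θ.imp ((Fml.atMost k (2 * n + 1) ((D.mem (2 * n + 1)).and φ)).or
    (Fml.atMost k (2 * n + 1) ((D.mem (2 * n + 1)).and φ.neg)))

private theorem hx_of {k₀ : ℕ} (hg : GoodData σ S ell θ D k₀) (n : ℕ) :
    2 * n + 1 = 1 ∨ 2 * n + 1 ∉ D.fv := by
  by_cases h : 2 * n + 1 ∈ D.fv
  · rcases hg.fvD _ h with h1 | ⟨j, _, h1⟩
    · exact Or.inl h1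
    · omega
  · exact Or.inr h

private theorem sat_am {k₀ : ℕ} (hg : GoodData σ S ell θ D k₀) (n k : ℕ) (φ : Fml) (v : ℕ → M) :
    Sat σ S v (Fml.atMost k (2 * n + 1) ((D.mem (2 * n + 1)).and φ)) ↔
      {y | y ∈ Dset σ S D v ∧ Sat σ S (update v (2 * n + 1) y) φ}.encard ≤ (k : ℕ∞) := by
  rw [sat_atMost]
  have h : {a | Sat σ S (update v (2 * n + 1) a) ((D.mem (2 * n + 1)).and φ)} =
      {y | y ∈ Dset σ S D v ∧ Sat σ S (update v (2 * n + 1) y) φ} := by
    ext y
    show Sat σ S (update v (2 * n + 1) y) ((D.mem (2 * n + 1)).and φ) ↔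
      y ∈ Dset σ S D v ∧ Sat σ S (update v (2 * n + 1) y) φ
    rw [sat_and, sat_mem_update (hx_of hg n)]
  rw [h]

private theorem sat_EE {k₀ : ℕ} (hg : GoodData σ S ell θ D k₀) (n k : ℕ) (φ : Fml) (v : ℕ → M) :
    Sat σ S v (EE θ D n φ k) ↔ (Sat σ S v θ →
      {y | y ∈ Dset σ S D v ∧ Sat σ S (update v (2 * n + 1) y) φ}.encard ≤ (k : ℕ∞) ∨
      {y | y ∈ Dset σ S D v ∧ ¬ Sat σ S (update v (2 * n + 1) y) φ}.encard ≤ (k : ℕ∞)) := by
  rw [EE, sat_imp, sat_or, sat_am hg, sat_am hg]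
  rfl

private theorem close_mem (hT : CompleteTheory σ T) [Nonempty M] (hS : Models σ S T) (φ : Fml) :
    Fml.close φ ∈ T ↔ ∀ w : ℕ → M, Sat σ S w φ := by
  obtain ⟨m⟩ := ‹Nonempty M›
  constructor
  · intro h
    exact (sat_close φ (fun _ => m)).1 (hS _ h (fun _ => m))
  · intro h
    rcases hT.complete (Fml.close φ) (fv_close φ) with h1 | h1
    · exact h1
    · have h2 := hS _ h1 (fun _ => m)
      exact absurd ((sat_close φ (fun _ => m)).2 h) h2

private theorem CF.mem {α : Type} [Primcodable α] (D : Fml) {x : α → ℕ} (hx : Computable x) :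
    CF fun a => D.mem (x a) := by
  unfold CF
  obtain ⟨b, hb, hb'⟩ := cp_iff.1 (CP.eq hx (Computable.const 1))
  have h : ∀ a, (D.mem (x a)).code =
      if b a = true then D.code else (Fml.ex 1 ((Fml.eq 1 (x a)).and D)).code := by
    intro a
    unfold Fml.mem
    by_cases ha : x a = 1
    · rw [if_pos ha, if_pos ((hb' a).1 ha)]
    · rw [if_neg ha, if_neg (fun h => ha ((hb' a).2 h))]
  simp only [h]
  refine Cp.ite hb (Computable.const _) ?_
  exact CF.code (CF.ex (Computable.const 1) (CF.and (CF.eq (Computable.const 1) hx) (CF.const D)))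

theorem exists_Q (hσ : σ.Effective) (hT : CompleteTheory σ T) (hd : DecidableTheory T)
    [Nonempty M] (hS : Models σ S T) {k₀ : ℕ} (hg : GoodData σ S ell θ D k₀) :
    ∃ Q : ℕ → Fml → Fml, QSpec σ S ell θ D Q ∧ CF (fun p : ℕ × ℕ => Q p.1 (F p.2)) := by
  have hc1 : Computable fun z : (ℕ × ℕ) × ℕ => 2 * z.1.1 + 1 := by fun_prop
  have hCE : CF fun z : (ℕ × ℕ) × ℕ => Fml.close (EE θ D z.1.1 (F z.1.2) z.2) := by
    refine CF.close ?_
    unfold EE
    refine CF.imp (CF.const θ) (CF.or ?_ ?_)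
    · exact CF.atMost (by fun_prop) hc1 (CF.and (CF.mem D hc1) (CF.F (by fun_prop)))
    · exact CF.atMost (by fun_prop) hc1 (CF.and (CF.mem D hc1) (CF.neg (CF.F (by fun_prop))))
  have hp : ComputablePred fun z : (ℕ × ℕ) × ℕ =>
      Fml.close (EE θ D z.1.1 (F z.1.2) z.2) ∈ T := by
    refine CP.of_eq (CP.comp hd (CF.code hCE)) fun z => ?_
    constructor
    · intro h
      exact ⟨_, h, rfl⟩
    · rintro ⟨ψ, hψ, hc⟩
      rw [← code_injective hc]
      exact hψ
  have hex : ∀ a : ℕ × ℕ, ∃ k : ℕ, Fml.close (EE θ D a.1 (F a.2) k) ∈ T := by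
    intro a
    obtain ⟨k, hk⟩ := hg.bd (F a.2) (2 * a.1 + 1) (fun j _ => by omega)
    refine ⟨k, (close_mem hT hS _).2 fun w => (sat_EE hg _ _ _ w).2 fun hw => hk w hw⟩
  obtain ⟨f, hf, hf'⟩ := CP.choose (p := fun (a : ℕ × ℕ) (k : ℕ) =>
    Fml.close (EE θ D a.1 (F a.2) k) ∈ T) hp hex
  have key : ∀ (n : ℕ) (φ : Fml) (v : ℕ → M), Sat σ S v θ →
      {y | y ∈ Dset σ S D v ∧ Sat σ S (update v (2 * n + 1) y) φ}.encard ≤
        (f (n, φ.code) : ℕ∞) ∨
      {y | y ∈ Dset σ S D v ∧ ¬ Sat σ S (update v (2 * n + 1) y) φ}.encard ≤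
        (f (n, φ.code) : ℕ∞) := by
    intro n φ v hv
    have h := (close_mem hT hS _).1 (hf' (n, φ.code)) v
    have h1 := (sat_EE hg _ _ _ v).1 h hv
    simpa only [F_code] using h1
  have hsat : ∀ (n : ℕ) (φ : Fml) (v : ℕ → M),
      Sat σ S v (Fml.atMost (f (n, φ.code)) (2 * n + 1) ((D.mem (2 * n + 1)).and φ)).neg ↔
      ¬ {y | y ∈ Dset σ S D v ∧ Sat σ S (update v (2 * n + 1) y) φ}.encard ≤
        (f (n, φ.code) : ℕ∞) := fun n φ v => by rw [sat_neg, sat_am hg]
  refine ⟨fun n φ => (Fml.atMost (f (n, φ.code)) (2 * n + 1) ((D.mem (2 * n + 1)).and φ)).neg,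
    ⟨?_, ?_, ?_⟩, ?_⟩
  · intro n φ i hi
    rw [fv_neg] at hi
    have h1 := fv_atMost _ _ _ hi
    rw [Finset.mem_erase, fv_and, Finset.mem_union] at h1
    obtain ⟨h2, h3 | h3⟩ := h1
    · rcases fv_mem _ i h3 with h4 | ⟨h4, h5⟩
      · exact absurd h4 h2
      · rcases hg.fvD i h4 with h6 | h6
        · exact absurd h6 h5
        · exact Or.inr h6
    · exact Or.inl ⟨h3, h2⟩
  · intro n φ v hv
    rw [hsat]
    constructor
    · intro h hfin
      have hB := (key n φ v hv).resolve_left h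
      have hBf : {y | y ∈ Dset σ S D v ∧ ¬ Sat σ S (update v (2 * n + 1) y) φ}.Finite :=
        Set.finite_of_encard_le_coe hB
      refine hg.inf v hv ((hfin.union hBf).subset fun y hy => ?_)
      by_cases hφ : Sat σ S (update v (2 * n + 1) y) φ
      · exact Or.inl ⟨hy, hφ⟩
      · exact Or.inr ⟨hy, hφ⟩
    · intro h hle
      exact h (Set.finite_of_encard_le_coe hle)
  · intro n φ v hv h
    rw [hsat] at h
    exact Set.finite_of_encard_le_coe ((key n φ v hv).resolve_left h)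
  · simp only [code_F]
    have hc2 : Computable fun p : ℕ × ℕ => 2 * p.1 + 1 := by fun_prop
    have hc3 : Computable fun p : ℕ × ℕ => f (p.1, p.2) := hf.comp (by fun_prop)
    exact CF.neg (CF.atMost hc3 hc2 (CF.and (CF.mem D hc2) (CF.F (by fun_prop))))

end Pool.Agent.BLE
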