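import Pool.Agent.BLE.XDefs
import Pool.Agent.BLE.XCode
import Pool.Agent.DP.Comp
import Pool.Agent.BLE.SE

/-!
# BLE / XAvC: decidability of the avoidance condition

`Av` is a bounded quantification (`CP.all` twice; `(t+1)^(2n+2)` computable: `Primrec` power, or a bounded
recursion `Computable.nat_rec`) of the predicate given by `hA` at `(j, code (hat n χ), dig t (2n+2) q)`:
`∃ φ, φ.code = (hat n χ).code ∧ ..` is `Sat .. (hat n χ)` by injectivity of `code`.  `dig t b q` is computable
as a list valued function of `t, b, q`: `Primrec.list_map`, `Primrec.list_range`, division and remainder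
(`Primrec.nat_div`, `Primrec.nat_mod`), power.
-/

set_option autoImplicit false

namespace Pool.Agent.BLE

open Function

private theorem prim_pow : Primrec₂ fun a b : ℕ => a ^ b :=
  Primrec₂.unpaired'.1 Nat.Primrec.pow

private theorem prim_dig : Primrec fun p : ℕ × ℕ × ℕ => dig p.1 p.2.1 p.2.2 := by
  refine Primrec.list_map (f := fun p : ℕ × ℕ × ℕ => List.range p.2.1)
    (g := fun (p : ℕ × ℕ × ℕ) (i : ℕ) => p.2.2 / (p.1 + 1) ^ i % (p.1 + 1)) ?_ ?_
  · exact Primrec.list_range.comp (Primrec.fst.comp Primrec.snd)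
  · show Primrec₂ fun (p : ℕ × ℕ × ℕ) (i : ℕ) => p.2.2 / (p.1 + 1) ^ i % (p.1 + 1)
    have h1 : Primrec fun x : (ℕ × ℕ × ℕ) × ℕ => x.1.1 + 1 :=
      Primrec.succ.comp (Primrec.fst.comp Primrec.fst)
    have h2 : Primrec fun x : (ℕ × ℕ × ℕ) × ℕ => (x.1.1 + 1) ^ x.2 :=
      prim_pow.comp h1 Primrec.snd
    have h3 : Primrec fun x : (ℕ × ℕ × ℕ) × ℕ => x.1.2.2 :=
      Primrec.snd.comp (Primrec.snd.comp Primrec.fst)
    exact Primrec.nat_mod.comp (Primrec.nat_div.comp h3 h2) h1

theorem dig_computable {α : Type} [Primcodable α] {t b q : α → ℕ} (ht : Computable t)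
    (hb : Computable b) (hq : Computable q) : Computable fun a => dig (t a) (b a) (q a) :=
  Computable.comp (f := fun p : ℕ × ℕ × ℕ => dig p.1 p.2.1 p.2.2)
    (g := fun a => (t a, b a, q a)) prim_dig.to_comp (ht.pair (hb.pair hq))

theorem cf_hat {α : Type} [Primcodable α] {n : α → ℕ} {χ : α → Fml} (hn : Computable n)
    (hχ : CF χ) : CF fun a => hat (n a) (χ a) := by
  have h1 : ComputablePred fun p : α × ℕ => p.2 < 2 * n p.1 + 2 := by
    have h2 : Computable fun p : α × ℕ => n p.1 := hn.comp Computable.fst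
    exact Pool.Agent.DP.CP.lt Computable.snd (by fun_prop)
  have h3 : Computable fun p : α × ℕ => decide (p.2 < 2 * n p.1 + 2) := by
    obtain ⟨b, hb, hb'⟩ := Pool.Agent.DP.cp_iff.1 h1
    refine hb.of_eq fun i => ?_
    rw [Bool.eq_iff_iff, ← hb' i, decide_eq_true_iff]
  exact CF.exOut (s := fun a i => decide (i < 2 * n a + 2)) h3 hχ

theorem av_dec {σ : Sig} {J : ℕ → Prop} {A : ℕ → Str ℕ} (hA : UDecidable σ J A)
    {α : Type} [Primcodable α] {t n : α → ℕ} {χ : α → Fml} (ht : Computable t)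
    (hn : Computable n) (hχ : CF χ) : ComputablePred fun a => Av σ J A (t a) (n a) (χ a) := by
  have hb : Computable fun a => 2 * n a + 2 := by fun_prop
  have hp : Computable fun a => (t a + 1) ^ (2 * n a + 2) :=
    Computable.comp (f := fun p : ℕ × ℕ => p.1 ^ p.2) (g := fun a => (t a + 1, 2 * n a + 2))
      prim_pow.to_comp (by fun_prop)
  have key : ComputablePred fun x : (α × ℕ) × ℕ =>
      J x.1.2 ∧ Sat σ (A x.1.2) (fun i => (dig (t x.1.1) (2 * n x.1.1 + 2) x.2).getD i 0)
        (hat (n x.1.1) (χ x.1.1)) := by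
    have h1 : Computable fun x : (α × ℕ) × ℕ => dig (t x.1.1) (2 * n x.1.1 + 2) x.2 :=
      dig_computable (ht.comp (Computable.fst.comp Computable.fst))
        (hb.comp (Computable.fst.comp Computable.fst)) Computable.snd
    have h2 : CF fun x : (α × ℕ) × ℕ => hat (n x.1.1) (χ x.1.1) :=
      CF.comp (φ := fun a => hat (n a) (χ a)) (g := fun x : (α × ℕ) × ℕ => x.1.1)
        (cf_hat hn hχ) (Computable.fst.comp Computable.fst)
    have h3 : Computable fun x : (α × ℕ) × ℕ => x.1.2 := Computable.snd.comp Computable.fst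
    refine Pool.Agent.DP.CP.of_eq (Pool.Agent.DP.CP.comp hA
      (h3.pair (Computable.pair h2 h1))) fun x => ?_
    refine and_congr_right fun _ => ?_
    constructor
    · intro h
      exact ⟨_, rfl, h⟩
    · rintro ⟨φ, h, h'⟩
      have h5 : φ = hat (n x.1.1) (χ x.1.1) := code_injective h
      rw [← h5]
      exact h'
  have h4 : ComputablePred fun x : α × ℕ => ∀ q < (t x.1 + 1) ^ (2 * n x.1 + 2),
      ¬ (J x.2 ∧ Sat σ (A x.2) (fun i => (dig (t x.1) (2 * n x.1 + 2) q).getD i 0)
        (hat (n x.1) (χ x.1))) :=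
    Pool.Agent.DP.CP.all (f := fun x : α × ℕ => (t x.1 + 1) ^ (2 * n x.1 + 2))
      (p := fun (x : α × ℕ) (q : ℕ) =>
        ¬ (J x.2 ∧ Sat σ (A x.2) (fun i => (dig (t x.1) (2 * n x.1 + 2) q).getD i 0)
          (hat (n x.1) (χ x.1)))) (hp.comp Computable.fst) (Pool.Agent.DP.CP.not key)
  exact Pool.Agent.DP.CP.all (f := fun a => t a + 1)
    (p := fun (a : α) (j : ℕ) => ∀ q < (t a + 1) ^ (2 * n a + 2),
      ¬ (J j ∧ Sat σ (A j) (fun i => (dig (t a) (2 * n a + 2) q).getD i 0)
        (hat (n a) (χ a)))) (by fun_prop) h4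

end Pool.Agent.BLE
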