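import Pool.Agent.BLE.XHdec
import Pool.Agent.BLE.XAvC

/-!
# BLE / XStepC: the step relation is decidable

Boolean combination (`CP.and`, `CP.imp`, `CP.not`, `CP.eq`) of: `s % 3 = r`, `o (s/3) = 0`, equalities of
formulas (equalities of codes by `code_injective`; codes computable by XCode, `cf_hat` and the code of
`henk`, which is `imp`/`ex`/`and`/`eq` of `F` at computable numbers), `hp_dec`, `av_dec`.
-/

set_option autoImplicit false

namespace Pool.Agent.BLE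

open Function Pool.Agent.DP

variable {σ : Sig} {M : Type} {S : Str M} {T : Set Fml} {ell : ℕ} {θ D : Fml}

theorem feq_dec {α : Type} [Primcodable α] {φ ψ : α → Fml} (hφ : CF φ) (hψ : CF ψ) :
    ComputablePred fun a => φ a = ψ a :=
  CP.of_eq (CP.eq hφ hψ) fun _ => code_injective.eq_iff.symm

theorem cf_henk {α : Type} [Primcodable α] {δ : α → Fml} {t : α → ℕ} (hδ : CF δ)
    (ht : Computable t) : CF fun a => henk ell (δ a) (t a) := by
  simp only [henk]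
  fun_prop

theorem stepR_dec (hσ : σ.Effective) (hT : CompleteTheory σ T) (hd : DecidableTheory T)
    [Nonempty M] (hS : Models σ S T) (hs : SatG σ S Set.univ) {k₀ : ℕ}
    (hg : GoodData σ S ell θ D k₀) (J : ℕ → Prop) (A : ℕ → Str ℕ) (hA : UDecidable σ J A)
    {o : ℕ → ℕ} {L : ℕ → ℕ → Bool} (hsch : Sched k₀ o L) :
    ComputablePred fun p : ℕ × ℕ × ℕ => StepR σ S ell θ D J A o L p.1 p.2.1 p.2.2 := by
  have hs0 : Computable fun p : ℕ × ℕ × ℕ => p.1 := Computable.fst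
  have hs1 : Computable fun p : ℕ × ℕ × ℕ => p.1 + 1 := by fun_prop
  have hdiv : Computable fun p : ℕ × ℕ × ℕ => p.1 / 3 :=
    (Primrec.nat_div.comp Primrec.fst (Primrec.const 3)).to_comp
  have hmod : Computable fun p : ℕ × ℕ × ℕ => p.1 % 3 :=
    (Primrec.nat_mod.comp Primrec.fst (Primrec.const 3)).to_comp
  have ho : Computable fun p : ℕ × ℕ × ℕ => o (p.1 / 3) := hsch.compO.comp hdiv
  have hom : Computable fun p : ℕ × ℕ × ℕ => o (p.1 / 3) - 1 := Cp.sub ho (Cp.const 1)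
  have hF : CF fun p : ℕ × ℕ × ℕ => F p.2.1.unpair.1 := by fun_prop
  have hF' : CF fun p : ℕ × ℕ × ℕ => F p.2.2.unpair.1 := by fun_prop
  have hG' : CF fun p : ℕ × ℕ × ℕ => F p.2.2.unpair.2 := by fun_prop
  have hFs : CF fun p : ℕ × ℕ × ℕ => F (p.1 / 3) := CF.F hdiv
  have m : ∀ r : ℕ, ComputablePred fun p : ℕ × ℕ × ℕ => p.1 % 3 = r := fun r =>
    CP.eq hmod (Computable.const r)
  have ho0 : ComputablePred fun p : ℕ × ℕ × ℕ => o (p.1 / 3) = 0 := CP.eq ho (Computable.const 0)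
  have hhat : CF fun p : ℕ × ℕ × ℕ => hat (o (p.1 / 3) - 1) (F p.2.2.unpair.2) := cf_hat hom hG'
  have hH1 : ComputablePred fun p : ℕ × ℕ × ℕ =>
      Hp σ S ell θ D (L (p.1 + 1)) (F p.2.2.unpair.1) :=
    hp_dec hσ hT hd hS hs hg hsch.compL hs1 hF'
  have hH2 : ComputablePred fun p : ℕ × ℕ × ℕ =>
      Hp σ S ell θ D (L p.1) ((F p.2.1.unpair.1).and (F (p.1 / 3))) :=
    hp_dec hσ hT hd hS hs hg hsch.compL hs0 (CF.and hF hFs)
  have hAv : ComputablePred fun p : ℕ × ℕ × ℕ =>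
      Av σ J A (p.1 / 3) (o (p.1 / 3) - 1) (F p.2.2.unpair.2) := av_dec hA hdiv hom hG'
  have c1 : ComputablePred fun p : ℕ × ℕ × ℕ =>
      (p.1 % 3 = 0 → o (p.1 / 3) = 0 → F p.2.2.unpair.1 = F p.2.1.unpair.1) :=
    CP.imp (m 0) (CP.imp ho0 (feq_dec hF' hF))
  have c2 : ComputablePred fun p : ℕ × ℕ × ℕ =>
      (p.1 % 3 = 0 → o (p.1 / 3) ≠ 0 →
        F p.2.2.unpair.1 = (F p.2.1.unpair.1).and (hat (o (p.1 / 3) - 1) (F p.2.2.unpair.2)) ∧
        Hp σ S ell θ D (L (p.1 + 1)) (F p.2.2.unpair.1) ∧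
        Av σ J A (p.1 / 3) (o (p.1 / 3) - 1) (F p.2.2.unpair.2)) :=
    CP.imp (m 0) (CP.imp (CP.not ho0)
      (CP.and (feq_dec hF' (CF.and hF hhat)) (CP.and hH1 hAv)))
  have c3 : ComputablePred fun p : ℕ × ℕ × ℕ =>
      (p.1 % 3 = 1 → Hp σ S ell θ D (L p.1) ((F p.2.1.unpair.1).and (F (p.1 / 3))) →
        F p.2.2.unpair.1 = (F p.2.1.unpair.1).and (F (p.1 / 3))) :=
    CP.imp (m 1) (CP.imp hH2 (feq_dec hF' (CF.and hF hFs)))
  have c4 : ComputablePred fun p : ℕ × ℕ × ℕ =>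
      (p.1 % 3 = 1 → ¬ Hp σ S ell θ D (L p.1) ((F p.2.1.unpair.1).and (F (p.1 / 3))) →
        F p.2.2.unpair.1 = (F p.2.1.unpair.1).and (F (p.1 / 3)).neg) :=
    CP.imp (m 1) (CP.imp (CP.not hH2) (feq_dec hF' (CF.and hF (CF.neg hFs))))
  have c5 : ComputablePred fun p : ℕ × ℕ × ℕ =>
      (p.1 % 3 = 2 → F p.2.2.unpair.1 =
        (F p.2.1.unpair.1).and (henk ell (F p.2.1.unpair.1) (p.1 / 3))) :=
    CP.imp (m 2) (feq_dec hF' (CF.and hF (cf_henk hF hdiv)))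
  exact CP.and c1 (CP.and c2 (CP.and c3 (CP.and c4 c5)))

end Pool.Agent.BLE
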