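import Pool.Agent.BLE.XLim
import Pool.Agent.BLE.DF
import Pool.Agent.BLE.DD
import Pool.Agent.BLE.DA

/-!
# BLE / XTV: the range of the limit assignment is elementary
-/

set_option autoImplicit false

namespace Pool.Agent.BLE

open Function

variable {σ : Sig} {M : Type} {S : Str M} {ell : ℕ} {θ D : Fml} {J : ℕ → Prop} {A : ℕ → Str ℕ}
  {o : ℕ → ℕ} {L : ℕ → ℕ → Bool} {c : ℕ → ℕ}

theorem lim_tv (hc : ∀ s, StepR σ S ell θ D J A o L s (c s) (c (s + 1)))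
    {v : ℕ → M} (hv : ∀ s, Sat σ S v (F (c s).unpair.1)) : TV σ S (Set.range v) := by
  classical
  intro X hX hne
  obtain ⟨A₀, hA₀, hfin, hX₀⟩ := hX.fin_support
  have hV : ∃ V : Set ℕ, V.Finite ∧ A₀ ⊆ v '' V := by
    choose! g hg using fun a (ha : a ∈ A₀) => hA₀ ha
    refine ⟨g '' A₀, hfin.image g, fun a ha => ⟨g a, ⟨a, ha, rfl⟩, hg a ha⟩⟩
  obtain ⟨V, hVf, hVA⟩ := hV
  obtain ⟨x, hx⟩ := hVf.exists_notMem
  obtain ⟨φ, -, hφ⟩ := fml_of_df1 v V x hx (hX₀.mono hVA)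
  set t := Nat.pair φ.code x with ht
  have h1 : (3 * t + 2) % 3 = 2 := by omega
  have h2 : (3 * t + 2) / 3 = t := by omega
  have h3 := hc (3 * t + 2)
  unfold StepR at h3
  rw [h2] at h3
  have h4 := h3.2.2.2.2 h1
  have h5 := hv (3 * t + 2 + 1)
  rw [h4, sat_and] at h5
  have h6 := h5.2
  unfold henk at h6
  rw [ht, Nat.unpair_pair] at h6
  simp only [F_code] at h6
  rw [sat_imp, sat_ex, sat_ex] at h6
  obtain ⟨y, hy⟩ := hne
  obtain ⟨a, ha⟩ := h6 ⟨y, (hφ y).1 hy⟩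
  rw [sat_and, sat_eq, update_self, update_of_ne (by omega)] at ha
  refine ⟨a, (hφ a).2 ha.2, ?_⟩
  rw [ha.1]
  exact ⟨_, rfl⟩

end Pool.Agent.BLE
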