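import Pool.Agent.BLE.XRun
import Pool.Agent.BLE.XTV
import Pool.Agent.BLE.XGen
import Pool.Agent.BLE.XCod
import Pool.Agent.BLE.XHalt
import Pool.Agent.BLE.XQ
import Pool.Agent.BLE.XStepC

/-!
# BLE / EffMain: the effective construction (assembly)

Put `k₁ = max k₀ ell`: `GoodData σ S ell θ D k₁` (only `alg` changes: `acl_mono`, `prev v k₀ ⊆ prev v k₁`).
`exists_sched k₁`, `exists_run`, `lim_exists`, `lim_th`, `lim_tv`; `lim_gen` for the infinitely many `n` which
never leave (`L s n = false` by `Sched.hL`); decidability of `{t | Sat v (F t)}`: `lim_decide`: it is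
`F (c (3t+2)).unpair.1 = (F (c (3t+1)).unpair.1).and (F t)`, that is, by injectivity of `code`, an equality of
two computable functions of `t` (`XCode`: the code of `and`; `code_F`).  `b e = 2 (k₁ + e) + 2`.  If
program `e` halts let `t` be as in `exists_sched`; if `t < j` take `i = 0`, otherwise `lim_code`;
`Nat.Partrec.Code.evaln_mono`.
-/

set_option autoImplicit false

namespace Pool.Agent.BLE

open Function Pool.Agent.DP

variable {σ : Sig} {M : Type} {S : Str M} {T : Set Fml}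

private theorem goodData_mono [Nonempty M] {ell : ℕ} {θ D : Fml} {k₀ k₁ : ℕ} (h : k₀ ≤ k₁)
    (hg : GoodData σ S ell θ D k₀) : GoodData σ S ell θ D k₁ where
  fvθ := hg.fvθ
  fvD := hg.fvD
  ex := hg.ex
  iso := hg.iso
  inf := hg.inf
  bd := hg.bd
  alg v hv hgen := by
    refine (hg.alg v hv fun n hn => hgen n (lt_of_lt_of_le hn h)).mono ?_
    refine Set.inter_subset_inter_left _ (acl_mono ?_)
    refine Set.union_subset_union_right _ ?_
    rintro a ⟨j, hj, rfl⟩
    exact ⟨j, lt_of_lt_of_le hj h, rfl⟩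

private theorem evaln_some_mono {t t' e : ℕ} (h : t ≤ t')
    (ht : (Nat.Partrec.Code.evaln t (Denumerable.ofNat Nat.Partrec.Code e) e).isSome) :
    (Nat.Partrec.Code.evaln t' (Denumerable.ofNat Nat.Partrec.Code e) e).isSome := by
  obtain ⟨x, hx⟩ := Option.isSome_iff_exists.1 ht
  exact Option.isSome_iff_exists.2 ⟨x, Nat.Partrec.Code.evaln_mono h hx⟩

theorem effective (hσ : σ.Effective) (hT : CompleteTheory σ T) (hd : DecidableTheory T)
    [Infinite M] (hS : Models σ S T) (hs : SatG σ S Set.univ) {ell : ℕ} {θ D : Fml} {k₀ : ℕ}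
    (hg : GoodData σ S ell θ D k₀) (J : ℕ → Prop) (A : ℕ → Str ℕ) (hA : UDecidable σ J A) :
    ∃ (v : ℕ → M) (b : ℕ → ℕ), Computable b ∧ Sat σ S v θ ∧ TV σ S (Set.range v) ∧
      (∀ n, ∃ m ≥ n, Gen σ S ell D v m) ∧ (ComputablePred fun c : ℕ => Sat σ S v (F c)) ∧
      ∀ j : ℕ, J j → ∀ f : ℕ → ℕ, (∀ φ : Fml, Sat σ S v φ ↔ Sat σ (A j) f φ) →
        ∀ e : ℕ, (Nat.Partrec.Code.eval (Denumerable.ofNat Nat.Partrec.Code e) e).Dom →
          ∃ i < b e, (Nat.Partrec.Code.evaln (j + f i)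
            (Denumerable.ofNat Nat.Partrec.Code e) e).isSome := by
  have hM : Nonempty M := inferInstance
  have hg' : GoodData σ S ell θ D (max k₀ ell) := goodData_mono (le_max_left _ _) hg
  obtain ⟨o, L, hsch, hnever, hhalt⟩ := exists_sched (max k₀ ell)
  obtain ⟨c, hcc, hc⟩ := exists_run hσ hT hd hS hs hg'
    ((le_max_right k₀ ell).trans (Nat.le_succ _)) J A hA hsch
  have hi : ∀ s, Hp σ S ell θ D (L s) (F (c s).unpair.1) := fun s => (hc s).1
  have hst : ∀ s, StepR σ S ell θ D J A o L s (c s) (c (s + 1)) := fun s => (hc s).2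
  obtain ⟨v, hv⟩ := lim_exists hs hi hst
  refine ⟨v, fun e => 2 * (max k₀ ell + e) + 2, by fun_prop, lim_th hi hst hv, lim_tv hst hv,
    ?_, ?_, ?_⟩
  · intro n
    obtain ⟨m, hm, hm'⟩ := hnever n
    refine ⟨m, hm, lim_gen hi hst hv m fun s => ?_⟩
    rw [← Bool.not_eq_true, hsch.hL]
    rintro ⟨t, _, ht⟩
    exact hm' t ht
  · have h1 : Computable fun t : ℕ => 3 * t + 2 := by fun_prop
    have h2 : Computable fun t : ℕ => 3 * t + 1 := by fun_prop
    have h3 : Computable fun t : ℕ => (c (3 * t + 2)).unpair.1 :=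
      Cp.fst (Cp.unpair (hcc.comp h1))
    have h4 : Computable fun t : ℕ => (c (3 * t + 1)).unpair.1 :=
      Cp.fst (Cp.unpair (hcc.comp h2))
    have h5 : CF fun t : ℕ => F t := CF.F Computable.id
    refine CP.of_eq (feq_dec (CF.F h3) (CF.and (CF.F h4) h5)) fun t => ?_
    exact (lim_decide hst hv t).1
  · intro j hJ f hf e he
    obtain ⟨t, ht, ht'⟩ := hhalt e he
    rcases Nat.lt_or_ge t j with h | h
    · exact ⟨0, by show 0 < 2 * (max k₀ ell + e) + 2; omega,
        evaln_some_mono (by omega) ht'⟩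
    · obtain ⟨i, hi1, hi2⟩ := lim_code hst hv ht h hJ hf
      exact ⟨i, hi1, evaln_some_mono (by omega) ht'⟩

end Pool.Agent.BLE
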