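import Pool.Agent.BLE.DE

/-!
# BLE / GA: algebraic closure
-/

set_option autoImplicit false

namespace Pool.Agent.BLE

open Function

variable {σ : Sig} {M : Type} {S : Str M} {A B : Set M} [Nonempty M]

theorem acl_mono (h : A ⊆ B) : acl σ S A ⊆ acl σ S B := by
  rintro b ⟨X, h1, h2, h3⟩
  exact ⟨X, h1.mono h, h2, h3⟩

theorem subset_acl : A ⊆ acl σ S A := by
  intro a ha
  exact ⟨{a}, Df1.singleton ha, Set.finite_singleton a, rfl⟩

theorem acl_fin {b : M} (h : b ∈ acl σ S A) : ∃ A₀ ⊆ A, A₀.Finite ∧ b ∈ acl σ S A₀ := by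
  obtain ⟨X, h1, h2, h3⟩ := h
  obtain ⟨A₀, h4, h5, h6⟩ := h1.fin_support
  exact ⟨A₀, h4, h5, X, h6, h2, h3⟩

theorem mem_acl_insert {b c : M} :
    b ∈ acl σ S (insert c B) ↔
      ∃ (R : M → M → Prop) (k : ℕ), Df2 σ S B R ∧ R b c ∧ {x | R x c}.encard ≤ (k : ℕ∞) := by
  constructor
  · rintro ⟨X, h1, h2, h3⟩
    obtain ⟨R, hR, hX⟩ := h1.pull1
    refine ⟨R, X.ncard, hR, (hX b).1 h3, ?_⟩
    have e : {x | R x c} = X := by
      ext x
      exact (hX x).symm
    rw [e, h2.cast_ncard_eq]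
  · rintro ⟨R, k, hR, hb, hk⟩
    exact ⟨{x | R x c}, hR.slice (Set.subset_insert c B) (Set.mem_insert c B),
      Set.finite_of_encard_le_coe hk, hb⟩

theorem acl_trans1 {b c : M} (h : b ∈ acl σ S (insert c A)) (hc : c ∈ acl σ S A) :
    b ∈ acl σ S A := by
  obtain ⟨R, k, hR, hb, hk⟩ := mem_acl_insert.1 h
  obtain ⟨Y, hY1, hY2, hY3⟩ := hc
  refine ⟨{x | ∃ y, y ∈ Y ∧ R x y ∧ {x' | R x' y}.encard ≤ (k : ℕ∞)}, ?_, ?_, c, hY3, hb, hk⟩
  · have h1 : Dfn σ S A {x : Option Unit → M | x none ∈ Y} := Dfn.reindex hY1 (fun _ => none)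
    have h2 : Dfn σ S A {x : Option Unit → M | R (x (some ())) (x none)} :=
      Dfn.reindex hR (fun i => if i then some () else none)
    have h3 : Dfn σ S A {x : Option Unit → M | {x' | R x' (x none)}.encard ≤ (k : ℕ∞)} :=
      Dfn.reindex (hR.count_le k) (fun _ => none)
    have h4 := h1.inter (h2.inter h3)
    exact Dfn.exists (P := fun y x => y ∈ Y ∧ R (x ()) y ∧ {x' | R x' y}.encard ≤ (k : ℕ∞)) h4
  · have h1 : (⋃ y ∈ Y, {x | R x y ∧ {x' | R x' y}.encard ≤ (k : ℕ∞)}).Finite := by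
      refine hY2.biUnion fun y _ => ?_
      by_cases hy : {x' | R x' y}.encard ≤ (k : ℕ∞)
      · exact (Set.finite_of_encard_le_coe hy).subset fun x hx => hx.1
      · have e : {x | R x y ∧ {x' | R x' y}.encard ≤ (k : ℕ∞)} = ∅ := by
          ext x
          exact ⟨fun hx => hy hx.2, fun hx => hx.elim⟩
        rw [e]
        exact Set.finite_empty
    refine h1.subset ?_
    rintro x ⟨y, hy, hx⟩
    exact Set.mem_biUnion hy hx

private theorem ga_fin {A₀ : Set M} (hA₀ : A₀.Finite) : A₀ ⊆ acl σ S B →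
    acl σ S (A₀ ∪ B) ⊆ acl σ S B := by
  induction A₀, hA₀ using Set.Finite.induction_on with
  | empty =>
    intro _
    rw [Set.empty_union]
  | @insert c A₀ _ _ ih =>
    intro h b hb
    rw [Set.insert_union] at hb
    refine ih (fun x hx => h (Set.mem_insert_of_mem _ hx)) (acl_trans1 hb ?_)
    exact acl_mono Set.subset_union_right (h (Set.mem_insert c A₀))

theorem acl_subset_acl (h : A ⊆ acl σ S B) : acl σ S A ⊆ acl σ S B := by
  intro b hb
  obtain ⟨A₀, h1, h2, h3⟩ := acl_fin hb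
  exact ga_fin h2 (h1.trans h) (acl_mono Set.subset_union_left h3)

theorem acl_acl : acl σ S (acl σ S A) = acl σ S A :=
  Set.Subset.antisymm (acl_subset_acl (Set.Subset.refl _)) subset_acl

theorem acl_countable (h : A.Countable) : (acl σ S A).Countable := by
  have h1 : {X : Set M | Df1 σ S A X ∧ X.Finite}.Countable :=
    (countable_df1 h).mono fun X hX => hX.1
  have h2 : (⋃ X ∈ {X : Set M | Df1 σ S A X ∧ X.Finite}, X).Countable :=
    h1.biUnion fun X hX => hX.2.countable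
  refine h2.mono ?_
  rintro b ⟨X, h3, h4, h5⟩
  exact Set.mem_biUnion (show X ∈ {X : Set M | Df1 σ S A X ∧ X.Finite} from ⟨h3, h4⟩) h5

end Pool.Agent.BLE
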