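import Pool.Agent.BLE.TE
import Pool.Agent.BLE.GA

/-!
# BLE / GE: models are atomic over the strongly minimal set; finite loss; claim A

* `atomic_over`: `exists_prime` for `A ∪ (D ∩ N) ⊆ N`: `B` TV, atomic over it; `NoVP` with `X = D`:
  `D ∩ N ⊆ B`, so `B = N`.
* `finite_loss`: let `c : Fin n → M` enumerate `C` (`Set.Finite.fin_param` or `Finset.equivFin`). `c` is
  isolated over `A ∪ (D ∩ N)` by a set `Q` definable over a finite `A₀ ⊆ A ∪ (D ∩ N)`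
  (`Isol.fin_support`); `E = A₀ ∩ (D ∩ N)`. Let `d ∈ acl (A ∪ E ∪ C ∪ B)`: a finite set `X ∋ d`, definable over
  `(A ∪ E ∪ B) ∪ range c`, with at most `k` elements: `X = {y | (y, c) ∈ Z}` with `Z` definable over
  `A ∪ E ∪ B` (`Df1.pull`). The set `{c' | (d, c') ∈ Z ∧ |{y | (y,c') ∈ Z}| ≤ k}` is definable over
  `A ∪ (D ∩ N)` and contains `c`, so it contains `Q`. Then
  `X' = {y | ∀ c' ∈ Q, (y, c') ∈ Z ∧ |{y' | (y',c') ∈ Z}| ≤ k}` is definable over `A ∪ E ∪ B`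
  (`Dfn.exTuple`, complement; `Dfn.count_le`), contains `d`, and is contained in the finite set `X`.
* `claimA`: let `b ∈ D₂ ∩ N`; it is isolated over `E ∪ (D₁ ∩ N)` by a set `Q` (`Isol` for `Unit`-tuples; `Q`
  as a subset of `M`), `Q ⊆ D₂`. If `Q` is infinite then `D₂ \ Q` is finite, so there is
  `a ∈ acl E ∩ D₂ ∩ Q`: `a ∈ Y`, `Y` finite and definable over `E`; as `a ∈ Q ∩ Y`, `b ∈ Y` (otherwise
  `Q ⊆ Yᶜ`), so `Q ⊆ Y`: contradiction. So `Q` is finite and `b ∈ acl (E ∪ (D₁ ∩ N))`.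
-/

set_option autoImplicit false

namespace Pool.Agent.BLE

open Function

variable {σ : Sig} {M : Type} {S : Str M} {A C D D₁ D₂ E N : Set M}

theorem atomic_over (h : Monster σ S) (hv : NoVP σ S) (hN : TV σ S N) (hA : A ⊆ N)
    (hD : Df1 σ S A D) (hi : D.Infinite) : AtomicOver σ S (A ∪ (D ∩ N)) N := by
  obtain ⟨B, hAB, hBN, hB, hat⟩ := exists_prime h
    (Set.union_subset hA Set.inter_subset_right : A ∪ (D ∩ N) ⊆ N) hN
  have h1 : B = N := hv B N hB hN hBN D (hD.mono (Set.subset_union_left.trans hAB)) hi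
    (Set.subset_union_right.trans hAB)
  rw [h1] at hat
  exact hat

theorem finite_loss (h : Monster σ S) (hv : NoVP σ S) (hN : TV σ S N) (hA : A ⊆ N)
    (hD : Df1 σ S A D) (hi : D.Infinite) (hC : C.Finite) (hCN : C ⊆ N) :
    ∃ E ⊆ D ∩ N, E.Finite ∧ ∀ B ⊆ D ∩ N, ∀ d ∈ D ∩ N,
      d ∈ acl σ S (A ∪ E ∪ C ∪ B) → d ∈ acl σ S (A ∪ E ∪ B) := by
  classical
  have := h.inf
  have : Finite C := hC.to_subtype
  have hat := atomic_over h hv hN hA hD hi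
  have hisol : Isol σ S (A ∪ (D ∩ N)) (fun c : C => (c : M)) := hat.tuple _ fun c => hCN c.2
  obtain ⟨A₀, hA₀, hfin, Q, hQ, hcQ, hmin⟩ := hisol.fin_support
  refine ⟨A₀ ∩ (D ∩ N), Set.inter_subset_right, hfin.subset Set.inter_subset_left, ?_⟩
  intro B hB d hd hacl
  have hE : A₀ ∩ (D ∩ N) ⊆ D ∩ N := Set.inter_subset_right
  have hA₀' : A₀ ⊆ A ∪ (A₀ ∩ (D ∩ N)) ∪ B := by
    intro a ha
    rcases hA₀ ha with h1 | h1
    · exact Or.inl (Or.inl h1)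
    · exact Or.inl (Or.inr ⟨ha, h1⟩)
  obtain ⟨E, hEdef⟩ : ∃ E, E = A₀ ∩ (D ∩ N) := ⟨_, rfl⟩
  rw [← hEdef] at hE hA₀' hacl ⊢
  obtain ⟨X, hX, hXfin, hdX⟩ := hacl
  have hX1 : Dfn σ S ((A ∪ E ∪ B) ∪ Set.range fun c : C => (c : M)) {x : Unit → M | x () ∈ X} := by
    refine hX.mono ?_
    rintro a ((h1 | h1) | h1)
    · exact Or.inl (Or.inl h1)
    · exact Or.inr ⟨⟨a, h1⟩, rfl⟩
    · exact Or.inl (Or.inr h1)
  obtain ⟨Z, hZ, hZX⟩ := Dfn.pull _ hX1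
  have hsub : A ∪ E ∪ B ⊆ A ∪ (D ∩ N) :=
    Set.union_subset (Set.union_subset_union_right A hE) (hB.trans Set.subset_union_right)
  have hW : Dfn σ S (A ∪ (D ∩ N)) {c' : C → M | Sum.elim (fun _ : Unit => d) c' ∈ Z} := by
    have h1 := (hZ.mono hsub).comap (Sum.elim (fun _ => Sum.inr d) Sum.inl : Unit ⊕ C → C ⊕ M)
      (by
        rintro (i | i) a hi
        · rw [← Sum.inr.inj hi]
          exact Or.inr hd
        · cases hi)
    refine cast (congrArg (Dfn σ S (A ∪ (D ∩ N))) (Set.ext fun x => ?_)) h1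
    have h2 : (fun i => Sum.elim x id
        ((Sum.elim (fun _ => Sum.inr d) Sum.inl : Unit ⊕ C → C ⊕ M) i)) =
        Sum.elim (fun _ : Unit => d) x := by
      funext i
      rcases i with i | i <;> rfl
    rw [Set.mem_ofPred_eq, Set.mem_ofPred_eq, h2]
  have hQW := hmin _ hW ((hZX fun _ => d).1 hdX)
  have hbad : Dfn σ S (A ∪ E ∪ B) {y : Unit → M | ∃ c' : C → M, c' ∈ Q ∧
      ¬ (Sum.elim y c' ∈ Z)} := by
    refine Dfn.exTuple (P := fun c' y => c' ∈ Q ∧ ¬ (Sum.elim y c' ∈ Z)) ?_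
    have h1 := ((hQ.mono hA₀').reindex (Sum.inr : C → Unit ⊕ C)).inter hZ.compl
    refine cast (congrArg (Dfn σ S (A ∪ E ∪ B)) (Set.ext fun x => ?_)) h1
    have h2 : Sum.elim (fun i => x (Sum.inl i)) (fun j => x (Sum.inr j)) = x := by
      funext i
      rcases i with i | i <;> rfl
    rw [Set.mem_ofPred_eq, h2]
    exact Iff.rfl
  refine ⟨{y | ¬ ∃ c' : C → M, c' ∈ Q ∧ ¬ (Sum.elim (fun _ : Unit => y) c' ∈ Z)}, ?_, ?_, ?_⟩
  · refine cast (congrArg (Dfn σ S (A ∪ E ∪ B)) (Set.ext fun x => ?_)) hbad.compl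
    exact Iff.rfl
  · refine hXfin.subset fun y hy => ?_
    by_contra hyX
    exact hy ⟨_, hcQ, fun h1 => hyX ((hZX fun _ => y).2 h1)⟩
  · rintro ⟨c', hc', hnot⟩
    exact hnot (hQW hc')

theorem claimA (h : Monster σ S) (hv : NoVP σ S) (hN : TV σ S N) (hE : E ⊆ N)
    (hD₁ : Df1 σ S E D₁) (hi₁ : D₁.Infinite) (hD₂ : Df1 σ S E D₂) (hs₂ : SMin σ S D₂)
    (hi : (acl σ S E ∩ D₂).Infinite) : D₂ ∩ N ⊆ acl σ S (E ∪ (D₁ ∩ N)) := by
  have := h.inf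
  have hat := atomic_over h hv hN hE hD₁ hi₁
  rintro b ⟨hbD, hbN⟩
  obtain ⟨X, hX, hbX, hmin⟩ := hat.tuple (fun _ : Unit => b) fun _ => hbN
  obtain ⟨Q, hQdef⟩ : ∃ Q : Set M, Q = {y | (fun _ : Unit => y) ∈ X} := ⟨_, rfl⟩
  have hQX : {x : Unit → M | x () ∈ Q} = X := by
    rw [hQdef]
    rfl
  have hQ : Df1 σ S (E ∪ (D₁ ∩ N)) Q := by
    show Dfn σ S _ _
    rw [hQX]
    exact hX
  have hbQ : b ∈ Q := by
    rw [hQdef]
    exact hbX
  have hminQ : ∀ Y, Df1 σ S (E ∪ (D₁ ∩ N)) Y → b ∈ Y → Q ⊆ Y := by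
    intro Y hY hbY y hy
    rw [hQdef] at hy
    exact hmin _ hY hbY hy
  have hQD : Q ⊆ D₂ := hminQ D₂ (hD₂.mono Set.subset_union_left) hbD
  by_cases hfin : Q.Finite
  · exact ⟨Q, hQ, hfin, hbQ⟩
  · exfalso
    have h1 : (D₂ \ Q).Finite := by
      rcases hs₂.2 Q (hQ.mono (Set.subset_univ _)) with h2 | h2
      · rw [Set.inter_eq_right.2 hQD] at h2
        exact absurd h2 hfin
      · exact h2
    obtain ⟨a, ⟨haE, haD⟩, haQ⟩ := (hi.sdiff h1).nonempty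
    have haQ' : a ∈ Q := by
      by_contra h2
      exact haQ ⟨haD, h2⟩
    obtain ⟨Y, hY, hYfin, haY⟩ := haE
    by_cases hbY : b ∈ Y
    · exact hfin (hYfin.subset (hminQ Y (hY.mono Set.subset_union_left) hbY))
    · exact hminQ Yᶜ (hY.mono Set.subset_union_left).compl hbY haQ' haY

end Pool.Agent.BLE
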