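import Pool.Agent.BLE.DF
import Pool.Agent.BLE.DD
import Pool.Agent.BLE.DE

/-!
# BLE / UE: consequences of `aleph_1`-saturation for definable sets

Countably many definable sets over an `aleph_1`-saturated elementary subset with the finite
intersection property have a common point; infinite definable sets are uncountable.
-/

set_option autoImplicit false

namespace Pool.Agent.BLE

open Function

variable {σ : Sig} {M : Type} {S : Str M} {N : Set M}

theorem sat1 (h : SatG σ S N) (hN : N.Nonempty) (𝒳 : Set (Set M)) (hc : 𝒳.Countable)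
    (hd : ∀ X ∈ 𝒳, Df1 σ S N X)
    (hf : ∀ F : Finset (Set M), (F : Set (Set M)) ⊆ 𝒳 → (⋂₀ (F : Set (Set M)) ∩ N).Nonempty) :
    (⋂₀ 𝒳 ∩ N).Nonempty := by
  classical
  have h1 : ∀ X : Set M, ∃ A₀ : Set M, X ∈ 𝒳 → A₀ ⊆ N ∧ A₀.Finite ∧ Df1 σ S A₀ X := by
    intro X
    by_cases hX : X ∈ 𝒳
    · obtain ⟨A₀, h2, h3, h4⟩ := (hd X hX).fin_support
      exact ⟨A₀, fun _ => ⟨h2, h3, h4⟩⟩
    · exact ⟨∅, fun h2 => absurd h2 hX⟩
  choose A₀ hA₀ using h1
  obtain ⟨n₀, hn₀⟩ := hN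
  have hAc : (insert n₀ (⋃ X ∈ 𝒳, A₀ X)).Countable :=
    (Set.Countable.biUnion hc fun X hX => (hA₀ X hX).2.1.countable).insert _
  obtain ⟨e, he⟩ := hAc.exists_eq_range (Set.insert_nonempty _ _)
  have heN : ∀ t, e t ∈ N := by
    intro t
    have h2 : e t ∈ insert n₀ (⋃ X ∈ 𝒳, A₀ X) := by
      rw [he]
      exact ⟨t, rfl⟩
    rcases h2 with h2 | h2
    · rw [h2]
      exact hn₀
    · rw [Set.mem_iUnion₂] at h2
      obtain ⟨X, hX, h3⟩ := h2
      exact (hA₀ X hX).1 h3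
  obtain ⟨v₀, hv₀⟩ : ∃ v₀ : ℕ → M, v₀ = fun t => e (t - 1) := ⟨_, rfl⟩
  have hv₀N : ∀ t, v₀ t ∈ N := by
    intro t
    rw [hv₀]
    exact heN _
  have hsub : ∀ X ∈ 𝒳, A₀ X ⊆ v₀ '' {t | 1 ≤ t} := by
    intro X hX a ha
    have h2 : a ∈ insert n₀ (⋃ X ∈ 𝒳, A₀ X) := by
      refine Or.inr ?_
      rw [Set.mem_iUnion₂]
      exact ⟨X, hX, ha⟩
    rw [he] at h2
    obtain ⟨t, ht⟩ := h2
    refine ⟨t + 1, Nat.succ_le_succ (Nat.zero_le t), ?_⟩
    rw [hv₀, ← ht]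
    rfl
  have hfml : ∀ X ∈ 𝒳, ∃ φ : Fml, ∀ y, y ∈ X ↔ Sat σ S (update v₀ 0 y) φ := by
    intro X hX
    obtain ⟨φ, -, h3⟩ := fml_of_df1 v₀ {t | 1 ≤ t} 0 (by simp) ((hA₀ X hX).2.2.mono (hsub X hX))
    exact ⟨φ, h3⟩
  have hupd : ∀ y ∈ N, ∀ i, update v₀ 0 y i ∈ N := by
    intro y hy i
    by_cases hi : i = 0
    · rw [hi, update_self]
      exact hy
    · rw [update_of_ne hi]
      exact hv₀N i
  obtain ⟨v, hvN, hve, hvs⟩ := h {φ | ∃ X ∈ 𝒳, ∀ y, y ∈ X ↔ Sat σ S (update v₀ 0 y) φ}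
    {t | 1 ≤ t} v₀ hv₀N (by
      intro Δ hΔ
      have h2 : ∀ φ : Fml, ∃ X : Set M, φ ∈ Δ → X ∈ 𝒳 ∧
          ∀ y, y ∈ X ↔ Sat σ S (update v₀ 0 y) φ := by
        intro φ
        by_cases hφ : φ ∈ Δ
        · obtain ⟨X, h3, h4⟩ := hΔ hφ
          exact ⟨X, fun _ => ⟨h3, h4⟩⟩
        · exact ⟨∅, fun h3 => absurd h3 hφ⟩
      choose Z hZ using h2
      obtain ⟨y, hy1, hy2⟩ := hf (Δ.image Z) (by
        intro X hX
        rw [Finset.mem_coe, Finset.mem_image] at hX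
        obtain ⟨φ, hφ, rfl⟩ := hX
        exact (hZ φ hφ).1)
      refine ⟨update v₀ 0 y, hupd y hy2, ?_, ?_⟩
      · intro i hi
        have hi' : i ≠ 0 := by
          have : 1 ≤ i := hi
          omega
        exact update_of_ne hi' _ _
      · intro φ hφ
        refine ((hZ φ hφ).2 y).1 (hy1 _ ?_)
        rw [Finset.mem_coe]
        exact Finset.mem_image_of_mem Z hφ)
  refine ⟨v 0, ?_, hvN 0⟩
  intro X hX
  obtain ⟨φ, hφ⟩ := hfml X hX
  have h2 := hvs φ ⟨X, hX, hφ⟩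
  have h3 : v = update v₀ 0 (v 0) := by
    funext t
    by_cases ht : t = 0
    · rw [ht, update_self]
    · rw [update_of_ne ht]
      exact hve (show 1 ≤ t by omega)
  rw [h3] at h2
  exact (hφ _).2 h2

private theorem avoid (h : SatG σ S N) {X A : Set M} (hd : Df1 σ S N X)
    (hX : (X ∩ N).Infinite) (hA : A.Countable) (hAN : A ⊆ N) : ∃ y ∈ X ∩ N, y ∉ A := by
  classical
  obtain ⟨n₀, hn₀⟩ := hX.nonempty
  obtain ⟨y, hy1, hy2⟩ := sat1 h ⟨n₀, hn₀.2⟩ (insert X ((fun a : M => ({a}ᶜ : Set M)) '' A))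
    ((hA.image _).insert _) (by
      rintro Z (rfl | ⟨a, ha, rfl⟩)
      · exact hd
      · exact (Df1.singleton (hAN ha)).compl) (by
      intro F hF
      have hfin : {a : M | ({a}ᶜ : Set M) ∈ F}.Finite := by
        have hinj : Set.InjOn (fun a : M => ({a}ᶜ : Set M)) ((fun a : M => ({a}ᶜ : Set M)) ⁻¹'
            (F : Set (Set M))) := by
          intro a _ b _ hab
          exact Set.singleton_injective (compl_injective hab)
        exact F.finite_toSet.preimage hinj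
      obtain ⟨y, hy, hy'⟩ := (hX.sdiff hfin).nonempty
      refine ⟨y, ?_, hy.2⟩
      intro Z hZ
      rcases hF hZ with rfl | ⟨a, ha, rfl⟩
      · exact hy.1
      · intro hya
        apply hy'
        have h2 : y = a := hya
        rw [h2]
        exact hZ)
  refine ⟨y, ⟨hy1 X (Set.mem_insert _ _), hy2⟩, fun hyA => ?_⟩
  exact hy1 _ (Set.mem_insert_of_mem _ (Set.mem_image_of_mem _ hyA)) rfl

theorem exists_not_mem (h : SatG σ S Set.univ) {X A : Set M} (hd : Df1 σ S Set.univ X)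
    (hX : X.Infinite) (hA : A.Countable) : ∃ y ∈ X, y ∉ A := by
  obtain ⟨y, hy, hyA⟩ := avoid h hd (by rwa [Set.inter_univ]) hA (Set.subset_univ A)
  exact ⟨y, hy.1, hyA⟩

theorem not_countable_inter (h : SatG σ S N) {X : Set M} (hd : Df1 σ S N X)
    (hX : (X ∩ N).Infinite) : ¬ (X ∩ N).Countable := by
  intro hc
  obtain ⟨y, hy, hyA⟩ := avoid h hd hX hc Set.inter_subset_right
  exact hyA hy

/-- an `aleph_1`-saturated elementary subset is `ω`-saturated -/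
theorem satW_of_satG (h : SatG σ S N) (hN : N.Nonempty) : SatW σ S N := by
  intro A hA hAN 𝒳 hd hf
  exact sat1 h hN 𝒳 ((countable_df1 hA.countable).mono hd) (fun X hX => (hd X hX).mono hAN) hf

end Pool.Agent.BLE
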