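import Pool.Agent.BLE.GD
import Pool.Agent.BLE.GE
import Pool.Agent.BLE.UE

/-!
# BLE / GF: models of infinite dimension are saturated

* `dim_base`: infinite dimension over `A` implies infinite dimension over `A ∪ C`, `C ⊆ N` finite: let `E`
  be as in `finite_loss`, `k = E.ncard + n`; an independent sequence of length `k` in `D ∩ N` over `A`
  (as a set, `seq_to_set`, `pre_acl` with `G = D`); `base_change` with `F = E`: an independent subset over
  `A ∪ E` of cardinality `≥ n`; shrink and enumerate it (`set_to_seq`): `e i ∉ acl (A ∪ E ∪ {e j | j < i})`,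
  so by `finite_loss` `e i ∉ acl (A ∪ E ∪ C ∪ {e j | j < i})`.
* `satW_of_dim`: let `C ⊆ N` finite, `𝒳` a family over `C` with finite intersections in `N`. By
  `satW_of_satG` for `univ` (or `sat1`) there is `b ∈ ⋂₀ 𝒳`. Let `A' = A ∪ C`. `b` is isolated over `A' ∪ D`
  (`atomic_over` with `N = univ`), with finite support `A₀`; let `F = A₀ ∩ D` (finite); `exists_max_ind`
  (closure `acl (A' ∪ ·)`, `B = ∅`) gives `F' ⊆ F` independent over `A'` with `F ⊆ acl (A' ∪ F')`. Then `b` is
  isolated over `A' ∪ F'`: let `x` enumerate `F`; `x` is isolated over `A' ∪ F'` (each `x i` is algebraic: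
  `Isol.of_acl`, `Isol.trans` repeatedly, or directly: a finite set definable over `A' ∪ F'` contains the
  tuple; a minimal one isolates), `b` is isolated over `A' ∪ F' ∪ range x` (the same isolating set), so
  `Isol.trans`, `Isol.comp`. Let `e : Fin k → M` enumerate `F'`: `Ind A' e`; the isolating set of `b` is
  `{y | (y, e) ∈ Z}` with `Z` definable over `A'` (`Df1.pull`), nonempty, contained in all `X ∈ 𝒳`. By
  `dim_base` there is `e' : Fin k → M` in `D ∩ N` with `Ind A' e'`; by `gen_equiv` `{y | (y, e') ∈ Z}` is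
  nonempty and contained in all `X ∈ 𝒳` (these are properties of `e` definable over `A'`, as `X` is
  definable over `C ⊆ A'`); it is definable over `N`, so it has a point in `N`.
-/

set_option autoImplicit false

namespace Pool.Agent.BLE

open Function

variable {σ : Sig} {M : Type} {S : Str M} {A C D N : Set M}

private theorem gf_enum (X : Finset M) :
    ∃ e : Fin X.card → M, Injective e ∧ Set.range e = (X : Set M) := by
  refine ⟨fun i => (X.equivFin.symm i : M), fun i j hij => ?_, ?_⟩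
  · exact X.equivFin.symm.injective (Subtype.ext hij)
  · ext x
    constructor
    · rintro ⟨i, rfl⟩
      exact (X.equivFin.symm i).2
    · intro hx
      exact ⟨X.equivFin ⟨x, hx⟩, by simp⟩

private theorem gf_ind_mono {cl : Set M → Set M} {G B : Set M} (hp : Pre cl G) {X Y : Set M}
    (hXY : X ⊆ Y) (hY : IndSet cl B Y) : IndSet cl B X := by
  intro x hx hxc
  refine hY x (hXY hx) (hp.mono ?_ hxc)
  exact Set.union_subset_union_right _ (Set.diff_subset_diff_left hXY)

theorem dim_base (h : Monster σ S) (hv : NoVP σ S) (hN : TV σ S N) (hA : A ⊆ N)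
    (hD : Df1 σ S A D) (hs : SMin σ S D) (hC : C.Finite) (hCN : C ⊆ N)
    (hdim : ∀ n, ∃ e : Fin n → M, (∀ i, e i ∈ D ∩ N) ∧ Ind σ S A e) :
    ∀ n, ∃ e : Fin n → M, (∀ i, e i ∈ D ∩ N) ∧ Ind σ S (A ∪ C) e := by
  classical
  intro n
  haveI : Infinite M := h.inf
  obtain ⟨E, hED, hEf, hE⟩ := finite_loss h hv hN hA hD hs.1 hC hCN
  have hp : Pre (fun X => acl σ S (A ∪ X)) D :=
    pre_acl (E := A) fun g hg => ⟨D, hD, hs, hg⟩
  obtain ⟨e, heD, he⟩ := hdim (n + hEf.toFinset.card)
  have he1 : ∀ i, e i ∉ (fun X => acl σ S (A ∪ X)) (∅ ∪ e '' {j | j < i}) := by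
    intro i hi
    rw [Set.empty_union] at hi
    exact he i hi
  obtain ⟨hinj, hind⟩ := seq_to_set hp ∅ e (fun i => (heD i).1) he1
  have hX : ((Finset.univ.image e : Finset M) : Set M) = Set.range e := by
    ext x; simp
  have hcard : (Finset.univ.image e).card = n + hEf.toFinset.card := by
    rw [Finset.card_image_of_injective _ hinj]
    simp
  obtain ⟨X', hX', hind', hle⟩ := base_change hp ∅ (Finset.univ.image e) hEf.toFinset
    (by
      rw [hX]
      rintro x ⟨i, rfl⟩
      exact (heD i).1)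
    (by
      intro x hx
      exact (hED (by simpa using hx)).1)
    (by
      rw [hX]
      exact hind)
  rw [hcard] at hle
  obtain ⟨X'', hX'', hcard''⟩ := Finset.exists_subset_card_eq (show n ≤ X'.card by omega)
  subst hcard''
  obtain ⟨e', hinj', hr⟩ := gf_enum X''
  have hind'' : IndSet (fun X => acl σ S (A ∪ X)) (∅ ∪ (hEf.toFinset : Set M)) (Set.range e') := by
    rw [hr]
    exact gf_ind_mono hp (by exact_mod_cast hX'') hind'
  have hseq := set_to_seq hp _ e' hinj' hind''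
  have hmem : ∀ i, e' i ∈ D ∩ N := by
    intro i
    have h1 : e' i ∈ (X'' : Set M) := by
      rw [← hr]
      exact ⟨i, rfl⟩
    have h2 : e' i ∈ Finset.univ.image e := hX' (hX'' (by exact_mod_cast h1))
    obtain ⟨j, _, hj⟩ := Finset.mem_image.1 h2
    rw [← hj]
    exact heD j
  refine ⟨e', hmem, ?_⟩
  intro i hi
  have h3 : e' i ∈ acl σ S (A ∪ E ∪ C ∪ e' '' {j | j < i}) := by
    refine acl_mono ?_ hi
    intro x hx
    rcases hx with (hx | hx) | hx
    · exact Or.inl (Or.inl (Or.inl hx))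
    · exact Or.inl (Or.inr hx)
    · exact Or.inr hx
  have h4 := hE (e' '' {j | j < i}) (by
    rintro x ⟨j, _, rfl⟩
    exact hmem j) (e' i) (hmem i) h3
  apply hseq i
  refine acl_mono ?_ h4
  intro x hx
  rcases hx with (hx | hx) | hx
  · exact Or.inl hx
  · exact Or.inr (Or.inl (Or.inr (by simpa using hx)))
  · exact Or.inr (Or.inr hx)

private theorem gf_forall [Nonempty M] {I K : Type} [Finite K] {P : K → (I → M) → Prop}
    (h : ∀ k, Dfn σ S A {x | P k x}) : Dfn σ S A {x | ∀ k, P k x} := by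
  classical
  have := Fintype.ofFinite K
  have key : ∀ s : Finset K, Dfn σ S A {x | ∀ k ∈ s, P k x} := by
    intro s
    induction s using Finset.induction_on with
    | empty =>
      have h1 : {x : I → M | ∀ k ∈ (∅ : Finset K), P k x} = Set.univ := by
        ext x; simp
      rw [h1]
      exact Dfn.univ
    | insert a s ha ih =>
      have h1 : {x : I → M | ∀ k ∈ insert a s, P k x} = {x | P a x} ∩ {x | ∀ k ∈ s, P k x} := by
        ext x
        simp only [Set.mem_setOf_eq, Set.mem_inter_iff, Finset.mem_insert, forall_eq_or_imp]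
      rw [h1]
      exact Dfn.inter (h a) ih
  have h2 := key Finset.univ
  have h3 : {x : I → M | ∀ k ∈ (Finset.univ : Finset K), P k x} = {x | ∀ k, P k x} := by
    ext x; simp
  rw [h3] at h2
  exact h2

private theorem gf_finite {I : Type} {x : I → M} {W : Set (I → M)} (hW : Dfn σ S A W)
    (hf : W.Finite) (hx : x ∈ W) : Isol σ S A x := by
  classical
  have hex : ∃ n : ℕ, ∃ X, Dfn σ S A X ∧ X.Finite ∧ x ∈ X ∧ X.ncard = n :=
    ⟨W.ncard, W, hW, hf, hx, rfl⟩
  obtain ⟨Y, hY, hYfin, hxY, hn⟩ := Nat.find_spec hex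
  refine ⟨Y, hY, hxY, fun Z hZ hxZ => ?_⟩
  have h1 : Nat.find hex ≤ (Y ∩ Z).ncard :=
    Nat.find_min' hex ⟨Y ∩ Z, Dfn.inter hY hZ, hYfin.subset Set.inter_subset_left, ⟨hxY, hxZ⟩, rfl⟩
  rw [← hn] at h1
  have h2 : Y ∩ Z = Y := Set.eq_of_subset_of_ncard_le Set.inter_subset_left h1 hYfin
  exact Set.inter_eq_left.1 h2

private theorem gf_acl_tuple [Nonempty M] {I : Type} [Finite I] {x : I → M}
    (hx : ∀ i, x i ∈ acl σ S A) : Isol σ S A x := by
  choose X hX hf hm using hx
  refine gf_finite (W := {z | ∀ i, z i ∈ X i}) ?_ ?_ hm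
  · refine gf_forall (P := fun i (z : I → M) => z i ∈ X i) fun i => ?_
    exact Dfn.reindex (hX i) (fun _ : Unit => i)
  · exact Set.Finite.subset (Set.Finite.pi' hf) fun z hz => hz

theorem isol_basis (h : Monster σ S) (hv : NoVP σ S) (hA : A.Finite) (hD : Df1 σ S A D)
    (hs : SMin σ S D) (b : M) :
    ∃ (k : ℕ) (e : Fin k → M), (∀ i, e i ∈ D) ∧ Ind σ S A e ∧
      Isol σ S (A ∪ Set.range e) (fun _ : Unit => b) := by
  classical
  haveI : Infinite M := h.inf
  have hp : Pre (fun X => acl σ S (A ∪ X)) D :=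
    pre_acl (E := A) fun g hg => ⟨D, hD, hs, hg⟩
  have h1 : Isol σ S (A ∪ (D ∩ Set.univ)) (fun _ : Unit => b) :=
    Isol.comp (atomic_over h hv TV.univ (Set.subset_univ A) hD hs.1 1 (fun _ => b)
      (fun _ => Set.mem_univ _)) (fun _ : Unit => (0 : Fin 1))
  obtain ⟨A₀, hA₀, hA₀f, X, hX, hbX, hmin⟩ := Isol.fin_support h1
  have hFf : (A₀ ∩ D).Finite := hA₀f.subset Set.inter_subset_left
  obtain ⟨F', hF', hind, hspan⟩ := exists_max_ind hp ∅ hFf.toFinset (by
    intro x hx
    have h2 : x ∈ A₀ ∩ D := by simpa using hx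
    exact h2.2)
  have hF'D : ∀ x ∈ F', x ∈ A₀ ∩ D := by
    intro x hx
    have h2 := hF' hx
    simpa using h2
  obtain ⟨e, hinj, hr⟩ := gf_enum F'
  obtain ⟨x, hxinj, hxr⟩ := gf_enum hFf.toFinset
  have hxr' : Set.range x = A₀ ∩ D := by
    rw [hxr]
    simp
  have h3 : Isol σ S (A ∪ Set.range e) x := by
    refine gf_acl_tuple fun i => ?_
    have h4 : x i ∈ ((hFf.toFinset : Finset M) : Set M) := by
      rw [← hxr]
      exact ⟨i, rfl⟩
    have h5 := hspan h4
    simp only [Set.empty_union] at h5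
    rw [hr]
    exact h5
  have hsub : A ∪ Set.range e ∪ Set.range x ⊆ A ∪ (D ∩ Set.univ) := by
    rintro y ((hy | hy) | hy)
    · exact Or.inl hy
    · rw [hr] at hy
      exact Or.inr ⟨(hF'D y (by exact_mod_cast hy)).2, Set.mem_univ _⟩
    · rw [hxr'] at hy
      exact Or.inr ⟨hy.2, Set.mem_univ _⟩
  have h6 : Isol σ S (A ∪ Set.range e ∪ Set.range x) (fun _ : Unit => b) := by
    refine ⟨X, hX.mono ?_, hbX, fun Z hZ hbZ => hmin Z (hZ.mono hsub) hbZ⟩
    intro y hy
    rcases hA₀ hy with h7 | h7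
    · exact Or.inl (Or.inl h7)
    · refine Or.inr ?_
      rw [hxr']
      exact ⟨hy, h7.1⟩
  have h8 := Isol.trans h3 h6
  have h9 := Isol.comp h8 (Sum.inr : Unit → _ ⊕ Unit)
  refine ⟨F'.card, e, fun i => ?_, ?_, h9⟩
  · have h4 : e i ∈ (F' : Set M) := by
      rw [← hr]
      exact ⟨i, rfl⟩
    exact (hF'D (e i) (by exact_mod_cast h4)).2
  · have h10 := set_to_seq hp ∅ e hinj (by
      rw [hr]
      exact hind)
    intro i hi
    apply h10 i
    simp only [Set.empty_union]
    exact hi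

private theorem gf_elim {k : ℕ} (x : Option (Fin k) → M) :
    (fun o => Option.elim o (x none) fun i => x (some i)) = x := by
  funext o
  cases o <;> rfl

theorem satW_of_dim (h : Monster σ S) (hv : NoVP σ S) (hN : TV σ S N) (hA : A ⊆ N)
    (hAf : A.Finite) (hD : Df1 σ S A D) (hs : SMin σ S D)
    (hdim : ∀ n, ∃ e : Fin n → M, (∀ i, e i ∈ D ∩ N) ∧ Ind σ S A e) : SatW σ S N := by
  classical
  haveI : Infinite M := h.inf
  intro C hCf hCN 𝒳 h𝒳 hfin
  have hunivne : (Set.univ : Set M).Nonempty := Set.univ_nonempty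
  obtain ⟨b, hb, _⟩ := satW_of_satG h.satG hunivne C hCf (Set.subset_univ C) 𝒳 h𝒳 (by
    intro F hF
    obtain ⟨y, hy, _⟩ := hfin F hF
    exact ⟨y, hy, Set.mem_univ _⟩)
  have hAC : A ∪ C ⊆ N := Set.union_subset hA hCN
  have hD' : Df1 σ S (A ∪ C) D := hD.mono Set.subset_union_left
  obtain ⟨k, e, heD, hei, Xb, hXb, hbX, hmin⟩ := isol_basis h hv (hAf.union hCf) hD' hs b
  have hY : Df1 σ S (A ∪ C ∪ Set.range e) {y | (fun _ : Unit => y) ∈ Xb} := by
    unfold Df1
    exact hXb
  obtain ⟨Z, hZ, hYZ⟩ := Df1.pull e hY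
  obtain ⟨e', he'DN, he'i⟩ := dim_base h hv hN hA hD hs hCf hCN hdim k
  have key : ∀ W : Set (Fin k → M), Dfn σ S (A ∪ C) W → e ∈ W → e' ∈ W := fun W hW =>
    gen_equiv hD' hs k e e' heD (fun i => (he'DN i).1) hei he'i W hW
  have hZ' : Dfn σ S (A ∪ C) {x : Option (Fin k) → M |
      (fun (y : M) (f : Fin k → M) => (fun o => Option.elim o y f) ∈ Z)
        (x none) (fun i => x (some i))} := by
    have h2 : {x : Option (Fin k) → M |
      (fun (y : M) (f : Fin k → M) => (fun o => Option.elim o y f) ∈ Z)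
        (x none) (fun i => x (some i))} = Z := by
      ext x
      simp only [Set.mem_setOf_eq, gf_elim]
    rw [h2]
    exact hZ
  have h1 : Dfn σ S (A ∪ C) {f : Fin k → M | ∃ y, (fun o => Option.elim o y f) ∈ Z} :=
    Dfn.exists (P := fun (y : M) (f : Fin k → M) => (fun o => Option.elim o y f) ∈ Z) hZ'
  obtain ⟨y₀, hy₀⟩ := key _ h1 ⟨b, (hYZ b).1 hbX⟩
  have hpush : Df1 σ S N {y | (fun o => Option.elim o y e') ∈ Z} :=
    Df1.push hZ e' hAC fun j => (he'DN j).2
  obtain ⟨y, hyZ, hyN⟩ := hN _ hpush ⟨y₀, hy₀⟩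
  refine ⟨y, ?_, hyN⟩
  intro X hX𝒳
  have hXC : Df1 σ S C X := h𝒳 X hX𝒳
  have h3 : Dfn σ S (A ∪ C) {x : Option (Fin k) → M | x none ∈ X} :=
    Dfn.reindex (hXC.mono Set.subset_union_right) (fun _ : Unit => (none : Option (Fin k)))
  have h4 : Dfn σ S (A ∪ C) {f : Fin k → M |
      ∃ y, (fun o => Option.elim o y f) ∈ Z ∧ y ∉ X} := by
    refine Dfn.exists (P := fun (y : M) (f : Fin k → M) =>
      (fun o => Option.elim o y f) ∈ Z ∧ y ∉ X) ?_
    exact Dfn.inter hZ' (Dfn.compl h3)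
  have h5 : e ∈ {f : Fin k → M | ∃ y, (fun o => Option.elim o y f) ∈ Z ∧ y ∉ X}ᶜ := by
    rintro ⟨y, hy, hyX⟩
    have h6 : (fun _ : Unit => y) ∈ Xb := (hYZ y).2 hy
    have h7 := hmin {x : Unit → M | x () ∈ X}
      (hXC.mono (Set.subset_union_right.trans Set.subset_union_left)) (hb X hX𝒳)
    exact hyX (h7 h6)
  have h8 := key _ (Dfn.compl h4) h5
  by_contra hyX
  exact h8 ⟨y, hyZ, hyX⟩

end Pool.Agent.BLE
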