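import Pool.Agent.BLE.SA

/-!
# BLE / SF: invariance of truth under isomorphisms

`ElemMap S S' e`: `e` is an elementary embedding. Isomorphisms preserve truth (`sat_iso`); bijective
elementary embeddings are isomorphisms (`isIso_of_elem`).
-/

set_option autoImplicit false

namespace Pool.Agent.BLE

open Function

variable {σ : Sig} {M M' : Type} {S : Str M} {S' : Str M'}

/-- `e` is an elementary embedding. -/
def ElemMap (σ : Sig) {M M' : Type} (S : Str M) (S' : Str M') (e : M → M') : Prop :=
  ∀ (φ : Fml) (v : ℕ → M), Sat σ S v φ ↔ Sat σ S' (e ∘ v) φ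

theorem sat_iso {e : M ≃ M'} (h : IsIso σ S S' e) (φ : Fml) (v : ℕ → M) :
    Sat σ S v φ ↔ Sat σ S' (e ∘ v) φ := by
  induction φ generalizing v with
  | bot => exact Iff.rfl
  | eq i j => exact e.injective.eq_iff.symm
  | rel r l =>
    rw [sat_rel, sat_rel]
    refine and_congr_right fun hr => ?_
    rw [h.1 r _ hr (l.map v) (List.length_map _), List.map_map]
  | fn f l j =>
    rw [sat_fn, sat_fn]
    refine and_congr_right fun hr => ?_
    have h1 := h.2 f _ hr (l.map v) (List.length_map _)
    rw [List.map_map] at h1
    rw [← h1]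
    exact e.injective.eq_iff.symm
  | imp φ ψ ih1 ih2 =>
    rw [sat_imp, sat_imp, ih1, ih2]
  | all i φ ih =>
    rw [sat_all, sat_all, e.surjective.forall]
    refine forall_congr' fun a => ?_
    rw [ih, comp_update]

private theorem map_getD_range (l : List M) (d : M) :
    (List.range l.length).map (fun i => l.getD i d) = l := by
  refine List.ext_getElem (by simp) fun i h1 h2 => ?_
  rw [List.getElem_map, List.getElem_range, List.getD_eq_getElem _ _ h2]

theorem isIso_of_elem [Nonempty M] {e : M ≃ M'} (h : ElemMap σ S S' e) : IsIso σ S S' e := by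
  obtain ⟨d⟩ := ‹Nonempty M›
  constructor
  · intro r n hr l hl
    subst hl
    have h1 := h (.rel r (List.range l.length)) (fun i => l.getD i d)
    rw [sat_rel, sat_rel, List.length_range, ← List.map_map, map_getD_range] at h1
    exact ⟨fun h2 => (h1.1 ⟨hr, h2⟩).2, fun h2 => (h1.2 ⟨hr, h2⟩).2⟩
  · intro f n hf l hl
    subst hl
    have h1 := h (.fn f (List.range l.length) l.length)
      (fun i => (l ++ [S.fn f l]).getD i d)
    have h2 : (List.range l.length).map (fun i => (l ++ [S.fn f l]).getD i d) = l := by
      refine List.ext_getElem (by simp) fun i h1 h2 => ?_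
      rw [List.getElem_map, List.getElem_range, List.getD_append _ _ _ _ h2,
        List.getD_eq_getElem _ _ h2]
    have h3 : (l ++ [S.fn f l]).getD l.length d = S.fn f l := by
      rw [List.getD_append_right _ _ _ _ le_rfl, Nat.sub_self]
      rfl
    rw [sat_fn, sat_fn, List.length_range, ← List.map_map, h2, comp_apply, h3] at h1
    exact (h1.1 ⟨hf, rfl⟩).2.symm

theorem ElemMap.injective {e : M → M'} (h : ElemMap σ S S' e) : Injective e := by
  intro a b hab
  have h1 := h (.eq 0 1) (fun i => if i = 0 then a else b)
  rw [sat_eq, sat_eq] at h1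
  exact h1.2 (by simpa using hab)

theorem IsIso.symm {e : M ≃ M'} (h : IsIso σ S S' e) : IsIso σ S' S e.symm := by
  have hm : ∀ l : List M', (l.map e.symm).map e = l := by
    intro l
    rw [List.map_map]
    simp
  constructor
  · intro r n hr l hl
    have h1 := h.1 r n hr (l.map e.symm) (by rw [List.length_map, hl])
    rw [hm] at h1
    exact h1.symm
  · intro f n hf l hl
    have h1 := h.2 f n hf (l.map e.symm) (by rw [List.length_map, hl])
    rw [hm] at h1
    rw [← h1, e.symm_apply_apply]

end Pool.Agent.BLE
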