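import Pool.Agent.BLE.UB
import Pool.Agent.BLE.SE

/-!
# BLE / UC: ultrapowers along a nonprincipal ultrafilter on `ℕ` are `aleph_1`-saturated

`satG_ultra`: let `Γ`, `s`, `v₀` (values in `N* = UN U N`) be given, `U = hyperfilter ℕ`.
`Δ_m = {φ ∈ Γ | φ.code < m}` is a finite set (codes are injective, module SE). Fix representatives
`v₀ i = [a i]` with `a i j ∈ N` for ALL `j` (change `gout` where it fails; `N` is nonempty because
`v₀ 0 ∈ N*`). For every `m` the hypothesis gives `v_m`, values in `N*`, equal to `v₀` on `s`, satisfying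
`Δ_m`; choose representatives `b m i j ∈ N` (all `j`) with `v_m i = [b m i]` and `b m i = a i` for
`i ∈ s`. By `los`, `A_m = {j | ∀ φ ∈ Δ_m, Sat S (fun i => b m i j) φ} ∈ U`. For `j : ℕ` let `m(j)` be the
largest `m ≤ j` with `j ∈ A_m` (`A_0` = everything). For every `m₀`: `{j | m₀ ≤ j} ∩ A_{m₀} ∈ U` is
contained in `{j | m₀ ≤ m(j)}`. Put `c i j = b (m(j)) i j`, `v i = [c i]`. Then `v i ∈ N*`, `v = v₀` on
`s` (`c i = a i`), and for `φ ∈ Γ` with `m₀ = φ.code + 1`: for almost all `j`, `m(j) ≥ m₀`, so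
`φ ∈ Δ_{m(j)}` and `j ∈ A_{m(j)}`: `Sat S (fun i => c i j) φ`; `los`.
-/

set_option autoImplicit false

namespace Pool.Agent.BLE

open Function

variable {σ : Sig} {M : Type}

private theorem rep_in (U : Ultrafilter ℕ) (N : Set M) (n₀ : M) (hn : n₀ ∈ N)
    (x : Filter.Germ (U : Filter ℕ) M) (hx : x ∈ UN U N) :
    ∃ f : ℕ → M, ((f : ℕ → M) : Filter.Germ (U : Filter ℕ) M) = x ∧ ∀ j, f j ∈ N := by
  classical
  refine ⟨fun j => if gout U x j ∈ N then gout U x j else n₀, ?_, fun j => ?_⟩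
  · have h1 : ∀ᶠ j in (U : Filter ℕ), gout U x j ∈ N := by
      rw [← mem_UN, coe_gout]; exact hx
    rw [← coe_gout U x, Filter.Germ.coe_eq, coe_gout]
    filter_upwards [h1] with j hj
    exact if_pos hj
  · show (if gout U x j ∈ N then gout U x j else n₀) ∈ N
    split_ifs with h
    · exact h
    · exact hn

theorem satG_ultra (S : Str M) (N : Set M) :
    SatG σ (UStr (Filter.hyperfilter ℕ) S) (UN (Filter.hyperfilter ℕ) N) := by
  classical
  intro Γ s v₀ hv₀ hfin
  obtain ⟨n₀, hn₀⟩ : N.Nonempty := by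
    have h1 : ∀ᶠ j in ((Filter.hyperfilter ℕ : Ultrafilter ℕ) : Filter ℕ),
        gout (Filter.hyperfilter ℕ) (v₀ 0) j ∈ N := by
      rw [← mem_UN, coe_gout]; exact hv₀ 0
    obtain ⟨j, hj⟩ := h1.exists
    exact ⟨_, hj⟩
  choose a ha haN using fun i => rep_in (Filter.hyperfilter ℕ) N n₀ hn₀ (v₀ i) (hv₀ i)
  have step : ∀ m : ℕ, ∃ b : ℕ → ℕ → M, (∀ i j, b i j ∈ N) ∧ (∀ i ∈ s, b i = a i) ∧
      ∀ᶠ j in ((Filter.hyperfilter ℕ : Ultrafilter ℕ) : Filter ℕ),
        ∀ φ ∈ Γ, φ.code < m → Sat σ S (fun i => b i j) φ := by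
    intro m
    have hf : {φ : Fml | φ ∈ Γ ∧ φ.code < m}.Finite := by
      refine ((Set.finite_Iio m).preimage (code_injective.injOn)).subset ?_
      rintro φ ⟨-, hφ⟩
      exact hφ
    obtain ⟨v, hvN, hvs, hvS⟩ := hfin hf.toFinset (by
      intro φ hφ
      rw [Set.Finite.coe_toFinset] at hφ
      exact hφ.1)
    choose f hf1 hf2 using fun i => rep_in (Filter.hyperfilter ℕ) N n₀ hn₀ (v i) (hvN i)
    refine ⟨fun i => if i ∈ s then a i else f i, fun i j => ?_, fun i hi => if_pos hi, ?_⟩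
    · show (if i ∈ s then a i else f i) j ∈ N
      split_ifs
      · exact haN i j
      · exact hf2 i j
    · have hv : v = fun i => (((fun i => if i ∈ s then a i else f i) i : ℕ → M) :
          Filter.Germ ((Filter.hyperfilter ℕ : Ultrafilter ℕ) : Filter ℕ) M) := by
        funext i
        show v i = (((if i ∈ s then a i else f i) : ℕ → M) :
          Filter.Germ ((Filter.hyperfilter ℕ : Ultrafilter ℕ) : Filter ℕ) M)
        split_ifs with hi
        · rw [hvs hi, ha]
        · rw [hf1]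
      have h2 : ∀ᶠ j in ((Filter.hyperfilter ℕ : Ultrafilter ℕ) : Filter ℕ),
          ∀ φ ∈ hf.toFinset, Sat σ S (fun i => (fun i => if i ∈ s then a i else f i) i j) φ := by
        rw [Filter.eventually_all_finset]
        intro φ hφ
        rw [← los]
        rw [← hv]
        exact hvS φ hφ
      filter_upwards [h2] with j hj φ hφ hm
      exact hj φ (by rw [Set.Finite.mem_toFinset]; exact ⟨hφ, hm⟩)
  choose b hbN hbs hbS using step
  let P : ℕ → ℕ → Prop := fun j m => ∀ φ ∈ Γ, φ.code < m → Sat σ S (fun i => b m i j) φ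
  have hP0 : ∀ j, P j 0 := fun j φ _ h => absurd h (Nat.not_lt_zero _)
  let mj : ℕ → ℕ := fun j => Nat.findGreatest (P j) j
  have hmj : ∀ j, P j (mj j) := fun j => Nat.findGreatest_spec (P := P j) (Nat.zero_le j) (hP0 j)
  refine ⟨fun i => ((fun j => b (mj j) i j : ℕ → M) :
    Filter.Germ ((Filter.hyperfilter ℕ : Ultrafilter ℕ) : Filter ℕ) M), fun i => ?_, ?_, ?_⟩
  · rw [mem_UN]
    exact Filter.Eventually.of_forall fun j => hbN _ _ _
  · intro i hi
    show ((fun j => b (mj j) i j : ℕ → M) :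
      Filter.Germ ((Filter.hyperfilter ℕ : Ultrafilter ℕ) : Filter ℕ) M) = v₀ i
    have : (fun j => b (mj j) i j) = a i := by
      funext j
      rw [hbs _ i hi]
    rw [this, ha]
  · intro φ hφ
    rw [los]
    have h1 : ∀ᶠ j in ((Filter.hyperfilter ℕ : Ultrafilter ℕ) : Filter ℕ), φ.code + 1 ≤ j :=
      (Filter.eventually_ge_atTop (φ.code + 1)).filter_mono Nat.hyperfilter_le_atTop
    filter_upwards [h1, hbS (φ.code + 1)] with j hj1 hj2
    have h3 : φ.code + 1 ≤ mj j := Nat.le_findGreatest (P := P j) hj1 hj2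
    exact hmj j φ hφ (by omega)

end Pool.Agent.BLE
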