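import Pool.Agent.BLE.EF
import Pool.Agent.BLE.UC
import Pool.Agent.BLE.UE
import Pool.Agent.BLE.SF

/-!
# BLE / TA: every ultrapower of a model is a monster model

Let `S` be an infinite model of `T`, `S* = UStr (hyperfilter ℕ) S` with universe `M*`. `SatG S* univ` by
`satG_ultra` with `N = univ` (`UN_univ`); `M*` is infinite (constants) and uncountable
(`not_countable_inter` with `X = N = univ`). Let `κ = #M*`; `exists_em` gives a model `S'` of `T` (of size
`κ`; `T` consists of sentences; models agree on sentences with `S`) with `FewTypes`. `T` is categorical in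
`κ`: `S' ≅ S*`, and `FewTypes` is transported along an isomorphism: `Df1` is invariant:
`few_of_isom`: if `e : M ≃ M'` is an isomorphism then `X ↦ e '' X` maps `Df1 A` onto `Df1 (e '' A)`
(same formula, `ρ` composed with `e`; `sat_iso`).
-/

set_option autoImplicit false

namespace Pool.Agent.BLE

open Function

variable {σ : Sig} {T : Set Fml} {M : Type}

theorem df1_iso {M' : Type} {S : Str M} {S' : Str M'} {e : M ≃ M'} (h : IsIso σ S S' e) {A X : Set M}
    (hX : Df1 σ S A X) : Df1 σ S' (e '' A) (e '' X) := by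
  obtain ⟨φ, ρ, hρ, hx⟩ := hX
  refine ⟨φ, fun t => Sum.map id e (ρ t), ?_, ?_⟩
  · intro t ht a ha
    change Sum.map id e (ρ t) = Sum.inr a at ha
    rcases hr : ρ t with u | b
    · rw [hr] at ha
      simp at ha
    · rw [hr] at ha
      simp only [Sum.map_inr, Sum.inr.injEq] at ha
      exact ⟨b, hρ t ht b hr, ha⟩
  · intro x
    have h1 : x () ∈ e '' X ↔ e.symm (x ()) ∈ X := by
      constructor
      · rintro ⟨y, hy, hyx⟩
        rw [← hyx, Equiv.symm_apply_apply]
        exact hy
      · intro hy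
        exact ⟨_, hy, Equiv.apply_symm_apply _ _⟩
    have h2 := hx (fun _ => e.symm (x ()))
    have h3 := sat_iso h φ (fun t => Sum.elim (fun _ : Unit => e.symm (x ())) id (ρ t))
    have h4 : (e ∘ fun t => Sum.elim (fun _ : Unit => e.symm (x ())) id (ρ t)) =
        fun t => Sum.elim x id (Sum.map id e (ρ t)) := by
      funext t
      rcases hr : ρ t with u | b
      · simp [hr]
      · simp [hr]
    rw [h4] at h3
    exact h1.trans (h2.trans h3)

theorem few_of_isom {M' : Type} {S : Str M} {S' : Str M'} (h : Isom σ S S')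
    (hf : FewTypes σ S) : FewTypes σ S' := by
  obtain ⟨e, he⟩ := h
  intro A' hA'
  obtain ⟨C, hC, hb⟩ := hf (e.symm '' A') (hA'.image _)
  refine ⟨e '' C, hC.image _, fun b' => ?_⟩
  obtain ⟨c, hc, hcX⟩ := hb (e.symm b')
  refine ⟨e c, ⟨c, hc, rfl⟩, fun X' hX' => ?_⟩
  have h1 := hcX _ (df1_iso he.symm hX')
  have h2 : ∀ z, z ∈ e.symm '' X' ↔ e z ∈ X' := by
    intro z
    constructor
    · rintro ⟨y, hy, rfl⟩
      rw [Equiv.apply_symm_apply]
      exact hy
    · intro hz
      exact ⟨_, hz, Equiv.symm_apply_apply _ _⟩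
  rw [h2, h2, Equiv.apply_symm_apply] at h1
  exact h1

theorem monster_ultra (hT : CompleteTheory σ T)
    (hc : ∀ κ : Cardinal.{0}, Cardinal.aleph0 < κ → Categorical σ T κ) [Infinite M] (S : Str M)
    (hS : Models σ S T) : Monster σ (UStr (Filter.hyperfilter ℕ) S) := by
  have hsat : SatG σ (UStr (Filter.hyperfilter ℕ) S) Set.univ := by
    have h1 := satG_ultra (σ := σ) S (Set.univ : Set M)
    rw [UN_univ] at h1
    exact h1
  have hinf : (Set.univ : Set (Filter.Germ (Filter.hyperfilter ℕ : Filter ℕ) M)).Infinite := by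
    have h1 := UN_infinite (Filter.hyperfilter ℕ) (Set.infinite_univ : (Set.univ : Set M).Infinite)
    rw [UN_univ] at h1
    exact h1
  have hunc := not_countable_inter hsat (X := Set.univ) Df1.univ (by
    rw [Set.univ_inter]
    exact hinf)
  rw [Set.univ_inter] at hunc
  have hκ : Cardinal.aleph0 < Cardinal.mk (Filter.Germ (Filter.hyperfilter ℕ : Filter ℕ) M) := by
    rw [← not_le, Cardinal.mk_le_aleph0_iff]
    intro h1
    exact hunc (Set.countable_univ_iff.2 h1)
  obtain ⟨H, S', hH, hfew, hsen⟩ := exists_em (σ := σ) S _ hκ.le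
  have hS' : Models σ S' T := by
    intro φ hφ v'
    exact (hsen φ (hT.sentences φ hφ) (fun _ => Classical.arbitrary M) v').1 (hS φ hφ _)
  exact ⟨Set.infinite_univ_iff.1 hinf, hsat,
    few_of_isom (hc _ hκ _ _ S' _ hS' (los_models _ S hS) hH rfl) hfew⟩

end Pool.Agent.BLE
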