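import Pool.Agent.BLE.UA
import Pool.Agent.BLE.DF

/-!
# BLE / UB: subsets of ultrapowers
-/

set_option autoImplicit false

namespace Pool.Agent.BLE

open Function

variable {σ : Sig} {M J : Type}

theorem mem_UN (U : Ultrafilter J) (N : Set M) (f : J → M) :
    ((f : J → M) : Filter.Germ (U : Filter J) M) ∈ UN U N ↔ ∀ᶠ j in (U : Filter J), f j ∈ N := by
  exact Filter.Germ.liftPred_coe

private theorem ub_los (U : Ultrafilter J) (S : Str M) (φ : Fml)
    (ρ : ℕ → Unit ⊕ Filter.Germ (U : Filter J) M) (z : J → M) (g : ℕ → J → M)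
    (hg : ∀ t a, ρ t = Sum.inr a → ((g t : J → M) : Filter.Germ (U : Filter J) M) = a)
    (hg' : ∀ t, ρ t = Sum.inl () → g t = z) :
    Sat σ (UStr U S)
        (fun t => Sum.elim (fun _ => ((z : J → M) : Filter.Germ (U : Filter J) M)) id (ρ t)) φ ↔
      ∀ᶠ j in (U : Filter J), Sat σ S (fun t => g t j) φ := by
  have e : (fun t => Sum.elim (fun _ => ((z : J → M) : Filter.Germ (U : Filter J) M)) id (ρ t)) =
      fun t => ((g t : J → M) : Filter.Germ (U : Filter J) M) := by
    funext t
    rcases hρ : ρ t with i | a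
    · rw [hg' t hρ]
      rfl
    · rw [hg t a hρ]
      rfl
  rw [e]
  exact los U S g φ

theorem tv_UN (U : Ultrafilter J) (S : Str M) {N : Set M} (hN : TV σ S N) :
    TV σ (UStr U S) (UN U N) := by
  rintro X ⟨φ, ρ, h1, h2⟩ ⟨y, hy⟩
  have key : ∀ z : J → M, ((z : J → M) : Filter.Germ (U : Filter J) M) ∈ X ↔
      ∀ᶠ j in (U : Filter J),
        Sat σ S (fun t => Sum.elim (fun _ => z j) (fun a => gout U a j) (ρ t)) φ := by
    intro z
    refine (h2 (fun _ => ((z : J → M) : Filter.Germ (U : Filter J) M))).trans ?_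
    refine ub_los U S φ ρ z (fun t j => Sum.elim (fun _ => z j) (fun a => gout U a j) (ρ t))
      (fun t a ha => ?_) (fun t ht => ?_)
    · have e : (fun j => Sum.elim (fun _ => z j) (fun a => gout U a j) (ρ t)) = gout U a := by
        funext j
        rw [ha]
        rfl
      exact (congrArg (fun f : J → M => (f : Filter.Germ (U : Filter J) M)) e).trans
        (coe_gout U a)
    · funext j
      rw [ht]
      rfl
  have hN' : ∀ᶠ j in (U : Filter J), ∀ t ∈ φ.fv, ∀ a, ρ t = Sum.inr a → gout U a j ∈ N := by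
    rw [Filter.eventually_all_finset]
    intro t ht
    rcases hρ : ρ t with i | b
    · exact Filter.Eventually.of_forall fun j a ha => by cases ha
    · have hb := h1 t ht b hρ
      rw [← coe_gout U b, mem_UN] at hb
      exact hb.mono fun j hj a ha => by rw [← Sum.inr.inj ha]; exact hj
  rw [← coe_gout U y, key] at hy
  have hz : ∀ j, ∃ z, (Sat σ S (fun t => Sum.elim (fun _ => gout U y j) (fun a => gout U a j) (ρ t)) φ ∧
      ∀ t ∈ φ.fv, ∀ a, ρ t = Sum.inr a → gout U a j ∈ N) →
      (z ∈ N ∧ Sat σ S (fun t => Sum.elim (fun _ => z) (fun a => gout U a j) (ρ t)) φ) := by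
    intro j
    by_cases hj : (Sat σ S (fun t => Sum.elim (fun _ => gout U y j) (fun a => gout U a j) (ρ t)) φ ∧
      ∀ t ∈ φ.fv, ∀ a, ρ t = Sum.inr a → gout U a j ∈ N)
    · obtain ⟨z, hz, hzN⟩ := hN
        {z | Sat σ S (fun t => Sum.elim (fun _ => z) (fun a => gout U a j) (ρ t)) φ}
        ⟨φ, fun t => Sum.map id (fun a => gout U a j) (ρ t), fun t ht a ha => by
          have ha' : Sum.map id (fun a => gout U a j) (ρ t) = Sum.inr a := ha
          rcases hρ : ρ t with i | b
          · rw [hρ] at ha'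
            cases ha'
          · rw [hρ] at ha'
            rw [← Sum.inr.inj ha']
            exact hj.2 t ht b hρ, fun x => by
          have e : (fun t => Sum.elim x id (Sum.map id (fun a => gout U a j) (ρ t))) =
              fun t => Sum.elim (fun _ => x ()) (fun a => gout U a j) (ρ t) := by
            funext t
            rcases ρ t with i | b
            · rfl
            · rfl
          show Sat σ S (fun t => Sum.elim (fun _ => x ()) (fun a => gout U a j) (ρ t)) φ ↔
            Sat σ S (fun t => Sum.elim x id (Sum.map id (fun a => gout U a j) (ρ t))) φ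
          rw [e]⟩ ⟨gout U y j, hj.1⟩
      exact ⟨z, fun _ => ⟨hzN, hz⟩⟩
    · exact ⟨gout U y j, fun h => absurd h hj⟩
  choose z hz using hz
  have hz' : ∀ᶠ j in (U : Filter J), z j ∈ N ∧
      Sat σ S (fun t => Sum.elim (fun _ => z j) (fun a => gout U a j) (ρ t)) φ :=
    (hy.and hN').mono fun j hj => hz j hj
  exact ⟨((z : J → M) : Filter.Germ (U : Filter J) M), (key z).2 (hz'.mono fun j hj => hj.2),
    (mem_UN U N z).2 (hz'.mono fun j hj => hj.1)⟩

theorem df1_UN (U : Ultrafilter J) (S : Str M) {A X : Set M} (h : Df1 σ S A X) :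
    Df1 σ (UStr U S) ((fun a : M => ((fun _ => a : J → M) : Filter.Germ (U : Filter J) M)) '' A)
      (UN U X) := by
  obtain ⟨φ, ρ, h1, h2⟩ := h
  refine ⟨φ, fun t => Sum.map id
    (fun a : M => ((fun _ => a : J → M) : Filter.Germ (U : Filter J) M)) (ρ t),
    fun t ht a ha => ?_, fun y => ?_⟩
  · have ha' : Sum.map id (fun a : M => ((fun _ => a : J → M) : Filter.Germ (U : Filter J) M))
      (ρ t) = Sum.inr a := ha
    rcases hρ : ρ t with i | b
    · rw [hρ] at ha'
      cases ha'
    · rw [hρ] at ha'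
      rw [← Sum.inr.inj ha']
      exact ⟨b, h1 t ht b hρ, rfl⟩
  · obtain ⟨z, hz⟩ : ∃ z : J → M, ((z : J → M) : Filter.Germ (U : Filter J) M) = y () :=
      ⟨gout U (y ()), coe_gout U (y ())⟩
    have hy : y = fun _ => ((z : J → M) : Filter.Germ (U : Filter J) M) := by
      funext i
      exact hz.symm
    subst hy
    show ((z : J → M) : Filter.Germ (U : Filter J) M) ∈ UN U X ↔ _
    rw [mem_UN]
    refine Iff.trans ?_ (ub_los U S φ _ z (fun t j => Sum.elim (fun _ => z j) id (ρ t))
      (fun t a ha => ?_) (fun t ht => ?_)).symm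
    · refine Filter.eventually_congr (Filter.Eventually.of_forall fun j => ?_)
      exact h2 (fun _ => z j)
    · rcases hρ : ρ t with i | b
      · rw [hρ] at ha
        cases ha
      · rw [hρ] at ha
        exact Sum.inr.inj ha
    · rcases hρ : ρ t with i | b
      · funext j
        rfl
      · rw [hρ] at ht
        cases ht

theorem UN_mono (U : Ultrafilter J) {A B : Set M} (h : A ⊆ B) : UN U A ⊆ UN U B := by
  intro x hx
  rw [← coe_gout U x, mem_UN] at hx ⊢
  exact hx.mono fun j hj => h hj

theorem UN_inter (U : Ultrafilter J) (A B : Set M) : UN U (A ∩ B) = UN U A ∩ UN U B := by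
  ext x
  rw [Set.mem_inter_iff, ← coe_gout U x, mem_UN, mem_UN, mem_UN, ← Filter.eventually_and]
  exact Iff.rfl

theorem UN_univ (U : Ultrafilter J) : UN U (Set.univ : Set M) = Set.univ := by
  ext x
  rw [← coe_gout U x, mem_UN]
  exact ⟨fun _ => Set.mem_univ _, fun _ => Filter.Eventually.of_forall fun j => Set.mem_univ _⟩

theorem UN_ne (U : Ultrafilter J) {A B : Set M} (h : A ≠ B) : UN U A ≠ UN U B := by
  intro he
  apply h
  ext a
  have h1 : ∀ C : Set M, ((fun _ => a : J → M) : Filter.Germ (U : Filter J) M) ∈ UN U C ↔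
      a ∈ C := by
    intro C
    rw [mem_UN]
    exact Filter.eventually_const
  rw [← h1 A, ← h1 B, he]

theorem UN_infinite (U : Ultrafilter J) {A : Set M} (h : A.Infinite) : (UN U A).Infinite := by
  have hinj : Injective (fun a : M => ((fun _ => a : J → M) : Filter.Germ (U : Filter J) M)) := by
    intro a b hab
    have h1 : ∀ᶠ _ in (U : Filter J), a = b := Filter.Germ.coe_eq.1 hab
    exact Filter.eventually_const.1 h1
  refine (h.image hinj.injOn).mono ?_
  rintro _ ⟨a, ha, rfl⟩
  exact (mem_UN U A _).2 (Filter.Eventually.of_forall fun _ => ha)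

theorem const_mem_UN (U : Ultrafilter J) {A : Set M} {a : M} (h : a ∈ A) :
    ((fun _ => a : J → M) : Filter.Germ (U : Filter J) M) ∈ UN U A := by
  exact (mem_UN U A _).2 (Filter.Eventually.of_forall fun _ => h)

end Pool.Agent.BLE
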