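import Pool.Agent.BLE.LB
import Pool.Agent.BLE.DE
import Pool.Agent.BLE.DD

/-!
# BLE / LC: Loewenheim-Skolem with additional closure conditions

A set which is closed under a choice of one point of every nonempty set definable over finitely many
of its elements is an elementary subset; unions of chains of elementary (saturated) subsets.
-/

set_option autoImplicit false

namespace Pool.Agent.BLE

open Function

variable {σ : Sig} {M : Type} {S : Str M}

/-- one point of every nonempty set which is definable over the elements of `l` -/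
private theorem exists_wit [Nonempty M] (l : List M) : ∃ W : Set M,
    Cardinal.mk W ≤ Cardinal.aleph0 ∧
      ∀ X : Set M, Df1 σ S {x | x ∈ l} X → X.Nonempty → (X ∩ W).Nonempty := by
  classical
  have hc : {X : Set M | Df1 σ S {x | x ∈ l} X}.Countable :=
    countable_df1 (List.finite_toSet l).countable
  refine ⟨(fun X : Set M => if h : X.Nonempty then h.some else Classical.arbitrary M) ''
    {X : Set M | Df1 σ S {x | x ∈ l} X}, ?_, ?_⟩
  · exact Cardinal.mk_le_aleph0_iff.2 (hc.image _).to_subtype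
  · intro X hX hne
    refine ⟨hne.some, hne.some_mem, X, hX, ?_⟩
    exact dif_pos hne

private theorem fin_chain {C : Set (Set M)} (hC : IsChain (· ⊆ ·) C) (hne : C.Nonempty)
    {A : Set M} (hA : A.Finite) : A ⊆ ⋃₀ C → ∃ N ∈ C, A ⊆ N := by
  induction A, hA using Set.Finite.induction_on with
  | empty =>
    intro _
    obtain ⟨N, hN⟩ := hne
    exact ⟨N, hN, Set.empty_subset N⟩
  | @insert a s _ _ ih =>
    intro h
    obtain ⟨N, hN, hs⟩ := ih ((Set.subset_insert a s).trans h)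
    obtain ⟨N', hN', ha⟩ := h (Set.mem_insert a s)
    rcases hC.total hN hN' with h1 | h1
    · exact ⟨N', hN', Set.insert_subset ha (hs.trans h1)⟩
    · exact ⟨N, hN, Set.insert_subset (h1 ha) hs⟩

theorem exists_tv [Nonempty M] (κ : Cardinal.{0}) (hκ : Cardinal.aleph0 ≤ κ)
    (E : List M → Set M) (hE : ∀ l, Cardinal.mk (E l) ≤ κ) (A : Set M)
    (hA : Cardinal.mk A ≤ κ) :
    ∃ N : Set M, TV σ S N ∧ A ⊆ N ∧ Cardinal.mk N ≤ κ ∧
      ∀ l : List M, (∀ x ∈ l, x ∈ N) → E l ⊆ N := by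
  choose W hW1 hW2 using fun l : List M => exists_wit (σ := σ) (S := S) l
  obtain ⟨N, hAN, hN, hcl⟩ := closing_off κ hκ (fun l => E l ∪ W l) (fun l =>
    (Cardinal.mk_union_le _ _).trans
      (Cardinal.add_le_of_le hκ (hE l) ((hW1 l).trans hκ))) A hA
  refine ⟨N, ?_, hAN, hN, fun l hl => Set.subset_union_left.trans (hcl l hl)⟩
  intro X hX hne
  obtain ⟨A₀, hA₀, hfin, hX₀⟩ := hX.fin_support
  have hl : {x : M | x ∈ hfin.toFinset.toList} = A₀ := by
    ext x
    rw [Set.mem_setOf_eq, Finset.mem_toList, Set.Finite.mem_toFinset]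
  obtain ⟨x, hxX, hxW⟩ := hW2 hfin.toFinset.toList X (by rw [hl]; exact hX₀) hne
  refine ⟨x, hxX, hcl hfin.toFinset.toList ?_ (Or.inr hxW)⟩
  intro y hy
  apply hA₀
  rw [← hl]
  exact hy

theorem tv_sUnion (C : Set (Set M)) (hC : IsChain (· ⊆ ·) C) (hne : C.Nonempty)
    (h : ∀ N ∈ C, TV σ S N) : TV σ S (⋃₀ C) := by
  intro X hX hXne
  obtain ⟨A₀, hA₀, hfin, hX₀⟩ := hX.fin_support
  obtain ⟨N, hN, hAN⟩ := fin_chain hC hne hfin hA₀
  obtain ⟨x, hx, hxN⟩ := h N hN X (hX₀.mono hAN) hXne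
  exact ⟨x, hx, N, hN, hxN⟩

theorem satW_sUnion (C : Set (Set M)) (hC : IsChain (· ⊆ ·) C) (hne : C.Nonempty)
    (h : ∀ N ∈ C, TV σ S N ∧ SatW σ S N) : SatW σ S (⋃₀ C) := by
  intro A hA hAC 𝒳 h𝒳 hF
  obtain ⟨N, hN, hAN⟩ := fin_chain hC hne hA hAC
  obtain ⟨x, hx, hxN⟩ := (h N hN).2 A hA hAN 𝒳 h𝒳 (by
    intro F hF𝒳
    obtain ⟨y, hy, -⟩ := hF F hF𝒳
    exact (h N hN).1 _ ((Df1.sInter fun X hX => h𝒳 X (hF𝒳 hX)).mono hAN) ⟨y, hy⟩)
  exact ⟨x, hx, N, hN, hxN⟩

end Pool.Agent.BLE
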