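import Pool.Agent.BLE.DF
import Pool.Agent.BLE.DE
import Pool.Agent.BLE.SG

/-!
# BLE / VB: assignments with the same type

`v : ℕ → M`, `v' : ℕ → M'` satisfy the same formulas.
* `tv_of_type`: let `X'` be nonempty, `Df1` over `range v'`; with finite support and `fml_of_df1` (choose
  a finite set `V` of indices for the parameters and `x` outside of `V`):
  `X' = {y | Sat (update v' x y) φ}` with `φ.fv ⊆ V ∪ {x}`. `Sat v' (ex x φ)`, so `Sat v (ex x φ)`, so
  `{y | Sat (update v x y) φ}` is nonempty and definable over `range v` (`df1_of_fml`), so it contains some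
  `v k`: `Sat (update v x (v k)) φ`. `subst_one`: `Sat (update v x (v k)) φ ↔ Sat v (subst ρ m B φ)` with
  `ρ = update id x k` (module SC); so `v' k ∈ X'`.
* `satW_of_type`: let `A' ⊆ range v'` be finite, `𝒳'` a family with the finite intersection property in
  `range v'`; `V`, `x` as above for all of `A'`; `𝒳` = the sets `{y | Sat (update v x y) φ}` for
  the formulas `φ` (free variables in `V ∪ {x}`) defining members of `𝒳'`; `v' k ∈ X' ↔ v k ∈ X`.
* `exists_join`: `Γ = {φ | Sat (join v w) φ}`, `s` = even numbers, `v₀ = join v' v'`. A finite `Δ ⊆ Γ` is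
  satisfiable: `exOut (even) (conjunction of Δ)` (module SG) is true at `join v w`; it has only even free
  variables, so it is a formula about `v`; renaming `x_(2t) ↦ x_t` (`subst` or `sat_congr` for the
  assignments `fun t => v (t/2)`: same type for the assignments `v ∘ f`, `v' ∘ f`: `type_comp`).
* `type_comp`: same type of `v`, `v'` implies the same type of `v ∘ f`, `v' ∘ f` (`sat_subst`).
-/

set_option autoImplicit false

namespace Pool.Agent.BLE

open Function

variable {σ : Sig} {M M' : Type} {S : Str M} {S' : Str M'} {v : ℕ → M} {v' : ℕ → M'}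

/-- interleaving of two sequences -/
def join {M : Type} (v w : ℕ → M) : ℕ → M := fun t => if t % 2 = 0 then v (t / 2) else w (t / 2)

theorem subst_one (φ : Fml) (x k : ℕ) :
    ∃ ψ : Fml, ∀ (N : Type) (S₁ : Str N) (w : ℕ → N),
      Sat σ S₁ w ψ ↔ Sat σ S₁ (update w x (w k)) φ := by
  refine ⟨Fml.subst (update id x k) φ.code (φ.code + k + 1) φ, fun N S₁ w => ?_⟩
  rw [sat_subst (update id x k) φ.code (φ.code + k + 1) φ (fv_lt_code φ) (by omega)]
  · have : (fun t => w ((update id x k : ℕ → ℕ) t)) = update w x (w k) := by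
      funext t
      by_cases ht : t = x
      · subst ht
        rw [update_self, update_self]
      · rw [update_of_ne ht, update_of_ne ht, id]
    rw [this]
  · intro t ht
    by_cases htx : t = x
    · subst htx
      rw [update_self]
      omega
    · rw [update_of_ne htx, id]
      omega

theorem type_comp (h : ∀ φ : Fml, Sat σ S v φ ↔ Sat σ S' v' φ) (f : ℕ → ℕ) (φ : Fml) :
    Sat σ S (v ∘ f) φ ↔ Sat σ S' (v' ∘ f) φ := by
  have hB : ∀ t < φ.code, f t < φ.code + ∑ i ∈ Finset.range φ.code, (f i + 1) := by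
    intro t ht
    have := Finset.single_le_sum (f := fun i => f i + 1) (fun i _ => Nat.zero_le _)
      (Finset.mem_range.2 ht)
    omega
  have h1 := h (Fml.subst f φ.code (φ.code + ∑ i ∈ Finset.range φ.code, (f i + 1)) φ)
  rw [sat_subst f φ.code _ φ (fv_lt_code φ) (by omega) hB,
    sat_subst f φ.code _ φ (fv_lt_code φ) (by omega) hB] at h1
  exact h1

private theorem vb_fin {A : Set M'} (hA : A.Finite) (hs : A ⊆ Set.range v') :
    ∃ V : Set ℕ, V.Finite ∧ v' '' V = A := by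
  refine ⟨(fun a => Function.invFun v' a) '' A, hA.image _, ?_⟩
  ext a
  simp only [Set.mem_image, exists_exists_and_eq_and]
  constructor
  · rintro ⟨b, hb, rfl⟩
    rw [Function.invFun_eq (hs hb)]
    exact hb
  · intro ha
    exact ⟨a, ha, Function.invFun_eq (hs ha)⟩

private theorem vb_move (h : ∀ φ : Fml, Sat σ S v φ ↔ Sat σ S' v' φ) (φ : Fml) (x k : ℕ) :
    Sat σ S (update v x (v k)) φ ↔ Sat σ S' (update v' x (v' k)) φ := by
  obtain ⟨ψ, hψ⟩ := subst_one (σ := σ) φ x k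
  rw [← hψ M S v, ← hψ M' S' v']
  exact h ψ

theorem tv_of_type (h : ∀ φ : Fml, Sat σ S v φ ↔ Sat σ S' v' φ) (hv : TV σ S (Set.range v)) :
    TV σ S' (Set.range v') := by
  intro X' hX' hne
  obtain ⟨A₀, hA₀, hfin, hdf⟩ := hX'.fin_support
  obtain ⟨V, hV, hVA⟩ := vb_fin hfin hA₀
  obtain ⟨x, hx⟩ := hV.exists_notMem
  rw [← hVA] at hdf
  obtain ⟨φ, -, hφ⟩ := fml_of_df1 v' V x hx hdf
  obtain ⟨y, hy⟩ := hne
  have h1 : Sat σ S' v' (Fml.ex x φ) := (sat_ex x φ).2 ⟨y, (hφ y).1 hy⟩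
  have h2 := (sat_ex x φ).1 ((h _).2 h1)
  have h3 : Df1 σ S (Set.range v) {y | Sat σ S (update v x y) φ} :=
    (df1_of_fml φ v x).mono (Set.image_subset_range _ _)
  obtain ⟨_, hk, ⟨k, rfl⟩⟩ := hv _ h3 h2
  exact ⟨v' k, (hφ _).2 ((vb_move h φ x k).1 hk), ⟨k, rfl⟩⟩

theorem satW_of_type (h : ∀ φ : Fml, Sat σ S v φ ↔ Sat σ S' v' φ)
    (hv : SatW σ S (Set.range v)) : SatW σ S' (Set.range v') := by
  classical
  intro A' hA' hA'v 𝒳' h𝒳' hfip
  obtain ⟨V, hV, hVA⟩ := vb_fin hA' hA'v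
  obtain ⟨x, hx⟩ := hV.exists_notMem
  obtain ⟨Φ, hΦ⟩ : ∃ Φ : Set Fml, Φ = {φ | (∀ t ∈ φ.fv, t ∈ V ∨ t = x) ∧
    {y | Sat σ S' (update v' x y) φ} ∈ 𝒳'} := ⟨_, rfl⟩
  obtain ⟨𝒳, h𝒳⟩ : ∃ 𝒳 : Set (Set M), 𝒳 = (fun φ => {y | Sat σ S (update v x y) φ}) '' Φ :=
    ⟨_, rfl⟩
  have hdf : ∀ X ∈ 𝒳, Df1 σ S (v '' V) X := by
    intro X hX
    rw [h𝒳, hΦ] at hX
    obtain ⟨φ, hφ, rfl⟩ := hX
    refine (df1_of_fml φ v x).mono (Set.image_mono ?_)
    rintro t ⟨ht, htx⟩
    rcases hφ.1 t ht with h1 | h1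
    · exact h1
    · exact absurd h1 htx
  have hF : ∀ F : Finset (Set M), (F : Set (Set M)) ⊆ 𝒳 →
      (⋂₀ (F : Set (Set M)) ∩ Set.range v).Nonempty := by
    intro F hF
    have h1 : ∀ X ∈ F, ∃ φ ∈ Φ, {y | Sat σ S (update v x y) φ} = X := by
      intro X hX
      have := hF hX
      rw [h𝒳] at this
      exact this
    haveI : Nonempty Fml := ⟨.bot⟩
    choose! φ hφ1 hφ2 using h1
    obtain ⟨_, hk, ⟨k, rfl⟩⟩ :=
      hfip (F.image fun X => {y | Sat σ S' (update v' x y) (φ X)}) (by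
        intro X hX
        rw [Finset.mem_coe, Finset.mem_image] at hX
        obtain ⟨Y, hY, rfl⟩ := hX
        have := hφ1 Y hY
        rw [hΦ] at this
        exact this.2)
    refine ⟨v k, ?_, ⟨k, rfl⟩⟩
    intro X hX
    rw [← hφ2 X hX]
    refine (vb_move h (φ X) x k).2 ?_
    have h2 : {y | Sat σ S' (update v' x y) (φ X)} ∈
        ((F.image fun X => {y | Sat σ S' (update v' x y) (φ X)} : Finset (Set M')) :
          Set (Set M')) := by
      rw [Finset.mem_coe]
      exact Finset.mem_image_of_mem _ hX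
    exact hk _ h2
  obtain ⟨_, hk, ⟨k, rfl⟩⟩ := hv (v '' V) (hV.image v) (Set.image_subset_range _ _) 𝒳 hdf hF
  refine ⟨v' k, ?_, ⟨k, rfl⟩⟩
  intro X' hX'
  have h1 := h𝒳' X' hX'
  rw [← hVA] at h1
  obtain ⟨φ, hφ1, hφ2⟩ := fml_of_df1 v' V x hx h1
  have h2 : {y | Sat σ S' (update v' x y) φ} = X' := by
    ext y
    exact (hφ2 y).symm
  have h3 : φ ∈ Φ := by
    rw [hΦ]
    exact ⟨hφ1, by rw [h2]; exact hX'⟩
  have h4 : {y | Sat σ S (update v x y) φ} ∈ 𝒳 := by
    rw [h𝒳]
    exact ⟨φ, h3, rfl⟩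
  exact (hφ2 _).2 ((vb_move h φ x k).1 (hk _ h4))

private theorem vb_cj (Δ : Finset Fml) : ∃ χ : Fml, ∀ u : ℕ → M,
    Sat σ S u χ ↔ ∀ φ ∈ Δ, Sat σ S u φ := by
  refine ⟨Fml.cj Δ.toList.length fun j => Δ.toList.getD j .top, fun u => ?_⟩
  rw [sat_cj]
  constructor
  · intro h φ hφ
    obtain ⟨j, hj, e⟩ := List.mem_iff_getElem.1 (Finset.mem_toList.2 hφ)
    have := h j hj
    rw [List.getD_eq_getElem _ _ hj, e] at this
    exact this
  · intro h j hj
    rw [List.getD_eq_getElem _ _ hj]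
    exact h _ (Finset.mem_toList.1 (List.getElem_mem hj))

theorem exists_join {v' : ℕ → M} (hs : SatG σ S Set.univ)
    (h : ∀ φ : Fml, Sat σ S v φ ↔ Sat σ S v' φ) (w : ℕ → M) :
    ∃ w' : ℕ → M, ∀ φ : Fml, Sat σ S (join v w) φ ↔ Sat σ S (join v' w') φ := by
  have hjj : ∀ z : ℕ → M, join z z = z ∘ fun t => t / 2 := by
    intro z
    funext t
    simp only [join, ite_self, Function.comp]
  obtain ⟨u, -, hu1, hu2⟩ := hs {φ | Sat σ S (join v w) φ} {i | decide (i % 2 = 0) = true}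
    (join v' v') (fun i => Set.mem_univ _) (by
      intro Δ hΔ
      obtain ⟨χ, hχ⟩ := vb_cj (σ := σ) (S := S) Δ
      have h1 : Sat σ S (join v w) (Fml.exOut (fun i => decide (i % 2 = 0)) χ) := by
        rw [sat_exOut]
        exact ⟨join v w, fun i _ => rfl, (hχ _).2 fun φ hφ => hΔ hφ⟩
      have h2 : Sat σ S (v ∘ fun t => t / 2) (Fml.exOut (fun i => decide (i % 2 = 0)) χ) := by
        refine (sat_congr _ ?_).1 h1
        intro i hi
        have h3 : i % 2 = 0 := by simpa using (fv_exOut _ χ i hi).2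
        simp only [join, h3, if_true, Function.comp]
      have h4 := (type_comp h _ _).1 h2
      rw [← hjj, sat_exOut] at h4
      obtain ⟨u, hu, hu'⟩ := h4
      exact ⟨u, fun i => Set.mem_univ _, fun i hi => hu i hi, (hχ u).1 hu'⟩)
  have hju : join v' (fun t => u (2 * t + 1)) = u := by
    funext t
    by_cases ht : t % 2 = 0
    · have h1 := hu1 (show t ∈ {i | decide (i % 2 = 0) = true} by simpa using ht)
      rw [h1]
      simp only [join, ht, if_true]
    · simp only [join, ht, if_false]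
      congr 1
      omega
  refine ⟨fun t => u (2 * t + 1), fun φ => ?_⟩
  rw [hju]
  constructor
  · exact fun h1 => hu2 φ h1
  · intro h1
    by_contra h2
    exact (hu2 φ.neg ((sat_neg φ).2 h2)) h1

end Pool.Agent.BLE
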