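import Pool.Agent.BLE.VA
import Pool.Agent.BLE.VB
import Pool.Agent.BLE.LA
import Pool.Agent.BLE.LC

/-!
# BLE / VD: an uncountable elementary subset in which `X` is countable

Zorn (`zorn_subset_nonempty`) for `𝓕 = {N | TV N ∧ SatW N ∧ B₁ ⊆ N ∧ X ∩ N ⊆ B₁}` (contains `B₁`;
`tv_sUnion`, `satW_sUnion`). Let `N` be maximal and suppose it is countable. Let `c₀ .. c_(n₀-1) ∈ B₁`
be the parameters of `X` (`Df1.fin_support`). `Sub S B₁`, `Sub S N` are `ω`-saturated (`omegaSat_sub`),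
countable, and the tuple `c` has the same type in both (`sat_sub`: both are elementary subsets of `S`):
`backforth` gives (after composing with the inclusions) `v, v' : ℕ → M` with `range v = B₁`,
`range v' = N`, the same type in `S`, `v i = v' i = c i` for `i < n₀`. Let `w` enumerate `N₁`, and `w'` be as
in `exists_join`. `N'' = range (join v' w') = N ∪ range w'`: TV and SatW by `tv_of_type`, `satW_of_type`
from `range (join v w) = N₁` (`B₁ ⊆ N₁`). `X ∩ N'' ⊆ N`: let `w' j ∈ X`; `X` is defined by a formula with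
parameters `c i = v i = v' i`, so `w j ∈ X ∩ N₁ ⊆ B₁`, `w j = v k` for some `k`, hence (formula `eq`)
`w' j = v' k ∈ N`; so `X ∩ N'' ⊆ X ∩ N ⊆ B₁` and `N'' ∈ 𝓕`. By maximality `N'' = N`; but there is
`w j ∉ B₁`, and then `w' j ≠ v' k` for all `k`: contradiction. (`X` as a formula: `fml_of_df1` for the
assignment `join v v'`... or with `V` = the even indices `2 i`, `i < n₀`, of `join v w` and an `x` outside.)
-/

set_option autoImplicit false

namespace Pool.Agent.BLE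

open Function

variable {σ : Sig} {M : Type} {S : Str M}

private theorem vd_fin_enum {B A : Set M} (hA : A.Finite) (hAB : A ⊆ B) (b₀ : B) :
    ∃ (n : ℕ) (c : ℕ → B), ∀ a ∈ A, ∃ i < n, (c i : M) = a := by
  classical
  have := hA.to_subtype
  obtain ⟨n, ⟨e⟩⟩ := Finite.exists_equiv_fin A
  refine ⟨n, fun i => if hi : i < n then ⟨(e.symm ⟨i, hi⟩ : A), hAB (e.symm ⟨i, hi⟩).2⟩ else b₀,
    fun a ha => ⟨(e ⟨a, ha⟩ : Fin n), (e ⟨a, ha⟩).2, ?_⟩⟩
  show ((if hi : ((e ⟨a, ha⟩ : Fin n) : ℕ) < n then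
    (⟨(e.symm ⟨(e ⟨a, ha⟩ : Fin n), hi⟩ : A), hAB (e.symm ⟨(e ⟨a, ha⟩ : Fin n), hi⟩).2⟩ : B)
    else b₀ : B) : M) = a
  rw [dif_pos (e ⟨a, ha⟩).2]
  show ((e.symm (e ⟨a, ha⟩) : A) : M) = a
  rw [Equiv.symm_apply_apply]

private theorem vd_even (v w : ℕ → M) (k : ℕ) : join v w (2 * k) = v k := by
  have h1 : (2 * k) % 2 = 0 := by omega
  have h2 : 2 * k / 2 = k := by omega
  show (if (2 * k) % 2 = 0 then v (2 * k / 2) else w (2 * k / 2)) = v k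
  rw [if_pos h1, h2]

private theorem vd_odd (v w : ℕ → M) (k : ℕ) : join v w (2 * k + 1) = w k := by
  have h1 : ¬ (2 * k + 1) % 2 = 0 := by omega
  have h2 : (2 * k + 1) / 2 = k := by omega
  show (if (2 * k + 1) % 2 = 0 then v ((2 * k + 1) / 2) else w ((2 * k + 1) / 2)) = w k
  rw [if_neg h1, h2]

private theorem vd_range (v w : ℕ → M) : Set.range (join v w) = Set.range v ∪ Set.range w := by
  ext y
  constructor
  · rintro ⟨t, rfl⟩
    rcases Nat.even_or_odd' t with ⟨k, rfl | rfl⟩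
    · rw [vd_even]
      exact Or.inl ⟨k, rfl⟩
    · rw [vd_odd]
      exact Or.inr ⟨k, rfl⟩
  · rintro (⟨k, rfl⟩ | ⟨k, rfl⟩)
    · exact ⟨2 * k, vd_even v w k⟩
    · exact ⟨2 * k + 1, vd_odd v w k⟩

private theorem vd_step (h : Monster σ S) {B₁ N₁ X N : Set M} (hB : TV σ S B₁)
    (hN₁ : TV σ S N₁) (hsB : SatW σ S B₁) (hsN : SatW σ S N₁) (hBN : B₁ ⊆ N₁) (hne : B₁ ≠ N₁)
    (hc : N₁.Countable) (hX : Df1 σ S B₁ X) (hXN : X ∩ N₁ ⊆ B₁)
    (hN : TV σ S N) (hs : SatW σ S N) (hBN' : B₁ ⊆ N) (hcN : N.Countable) :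
    ∃ N' : Set M, TV σ S N' ∧ SatW σ S N' ∧ N ⊆ N' ∧ X ∩ N' ⊆ N ∧ ¬ N' ⊆ N := by
  classical
  have : Infinite M := h.inf
  obtain ⟨A₀, hA₀, hfin, hX₀⟩ := hX.fin_support
  obtain ⟨b₀, hb₀⟩ := TV.nonempty hB
  obtain ⟨n₀, c, hcA⟩ := vd_fin_enum hfin hA₀ ⟨b₀, hb₀⟩
  have cB : Countable B₁ := (hc.mono hBN).to_subtype
  have cN : Countable N := hcN.to_subtype
  have neB : Nonempty B₁ := ⟨⟨b₀, hb₀⟩⟩
  have neN : Nonempty N := ⟨⟨b₀, hBN' hb₀⟩⟩
  obtain ⟨a, b, ha, hb, hab, hφ⟩ := backforth (omegaSat_sub hB ⟨b₀, hb₀⟩ hsB)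
    (omegaSat_sub hN ⟨b₀, hBN' hb₀⟩ hs) n₀ c (fun i => ⟨c i, hBN' (c i).2⟩) (by
      intro φ _
      rw [sat_sub hB, sat_sub hN])
  have hv : ∀ φ : Fml, Sat σ S (fun i => (a i : M)) φ ↔ Sat σ S (fun i => (b i : M)) φ := by
    intro φ
    rw [← sat_sub hB ⟨b₀, hb₀⟩, hφ φ, sat_sub hN]
  obtain ⟨w, hw⟩ := hc.exists_eq_range ⟨b₀, hBN hb₀⟩
  obtain ⟨w', hw'⟩ := exists_join h.satG hv w
  have hrv : Set.range (fun i => (a i : M)) = B₁ := by
    ext y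
    constructor
    · rintro ⟨i, rfl⟩
      exact (a i).2
    · intro hy
      obtain ⟨i, hi⟩ := ha ⟨y, hy⟩
      exact ⟨i, congrArg Subtype.val hi⟩
  have hrv' : Set.range (fun i => (b i : M)) = N := by
    ext y
    constructor
    · rintro ⟨i, rfl⟩
      exact (b i).2
    · intro hy
      obtain ⟨i, hi⟩ := hb ⟨y, hy⟩
      exact ⟨i, congrArg Subtype.val hi⟩
  have hr : Set.range (join (fun i => (a i : M)) w) = N₁ := by
    rw [vd_range, hrv, ← hw]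
    exact Set.union_eq_right.2 hBN
  have heq : ∀ j k : ℕ, w j = (a k : M) ↔ w' j = (b k : M) := by
    intro j k
    have h1 := hw' (.eq (2 * j + 1) (2 * k))
    rw [sat_eq, sat_eq, vd_odd, vd_odd, vd_even, vd_even] at h1
    exact h1
  have hmem : ∀ j : ℕ, w j ∈ X ↔ w' j ∈ X := by
    intro j
    have hD : Df1 σ S (join (fun i => (a i : M)) w '' {t | ∃ i < n₀, t = 2 * i}) X := by
      refine hX₀.mono ?_
      intro y hy
      obtain ⟨i, hi, rfl⟩ := hcA y hy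
      refine ⟨2 * i, ⟨i, hi, rfl⟩, ?_⟩
      rw [vd_even, (hab i hi).1]
    obtain ⟨φ, -, h2⟩ := fml_of_dfn (I := Unit) (join (fun i => (a i : M)) w)
      {t | ∃ i < n₀, t = 2 * i} (fun _ => 2 * j + 1) hD
    have h3 := h2 (join (fun i => (a i : M)) w) (fun t _ => rfl)
    have h4 := h2 (join (fun i => (b i : M)) w') (by
      rintro t ⟨i, hi, rfl⟩
      rw [vd_even, vd_even, (hab i hi).1, (hab i hi).2])
    have h5 : (Sat σ S (join (fun i => (a i : M)) w) φ ↔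
        join (fun i => (a i : M)) w (2 * j + 1) ∈ X) := h3
    have h6 : (Sat σ S (join (fun i => (b i : M)) w') φ ↔
        join (fun i => (b i : M)) w' (2 * j + 1) ∈ X) := h4
    rw [vd_odd] at h5 h6
    rw [← h5, ← h6]
    exact hw' φ
  refine ⟨Set.range (join (fun i => (b i : M)) w'), ?_, ?_, ?_, ?_, ?_⟩
  · exact tv_of_type hw' (by rw [hr]; exact hN₁)
  · exact satW_of_type hw' (by rw [hr]; exact hsN)
  · rw [vd_range, hrv']
    exact Set.subset_union_left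
  · rw [vd_range, hrv']
    rintro y ⟨hyX, hy | ⟨j, rfl⟩⟩
    · exact hy
    · have h1 : w j ∈ B₁ := hXN ⟨(hmem j).2 hyX, by rw [hw]; exact ⟨j, rfl⟩⟩
      rw [← hrv] at h1
      obtain ⟨k, hk⟩ := h1
      have h2 := (heq j k).1 hk.symm
      rw [h2]
      exact (b k).2
  · intro hsub
    apply hne
    apply Set.Subset.antisymm hBN
    intro y hy
    rw [hw] at hy
    obtain ⟨j, rfl⟩ := hy
    have h1 : w' j ∈ N := hsub (by rw [vd_range]; exact Or.inr ⟨j, rfl⟩)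
    rw [← hrv'] at h1
    obtain ⟨k, hk⟩ := h1
    have h2 := (heq j k).2 hk.symm
    rw [h2]
    exact (a k).2

theorem exists_uncountable (h : Monster σ S) {B₁ N₁ X : Set M} (hB : TV σ S B₁)
    (hN : TV σ S N₁) (hsB : SatW σ S B₁) (hsN : SatW σ S N₁) (hBN : B₁ ⊆ N₁) (hne : B₁ ≠ N₁)
    (hc : N₁.Countable) (hX : Df1 σ S B₁ X) (hXN : X ∩ N₁ ⊆ B₁) :
    ∃ N : Set M, TV σ S N ∧ B₁ ⊆ N ∧ ¬ N.Countable ∧ X ∩ N ⊆ B₁ := by
  obtain ⟨N, hBN', hmax⟩ := zorn_subset_nonempty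
    {N | TV σ S N ∧ SatW σ S N ∧ B₁ ⊆ N ∧ X ∩ N ⊆ B₁} (by
      intro C hC hchain hCne
      refine ⟨⋃₀ C, ⟨tv_sUnion C hchain hCne fun N hN => (hC hN).1,
        satW_sUnion C hchain hCne fun N hN => ⟨(hC hN).1, (hC hN).2.1⟩, ?_, ?_⟩,
        fun s hs => Set.subset_sUnion_of_mem hs⟩
      · obtain ⟨N, hN⟩ := hCne
        exact (hC hN).2.2.1.trans (Set.subset_sUnion_of_mem hN)
      · rintro y ⟨hyX, N, hN, hyN⟩
        exact (hC hN).2.2.2 ⟨hyX, hyN⟩) B₁ ⟨hB, hsB, subset_rfl, Set.inter_subset_right⟩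
  obtain ⟨hN1, hN2, hN3, hN4⟩ := hmax.prop
  refine ⟨N, hN1, hN3, fun hcN => ?_, hN4⟩
  obtain ⟨N', h1, h2, h3, h4, h5⟩ := vd_step h hB hN hsB hsN hBN hne hc hX hXN hN1 hN2 hN3 hcN
  exact h5 (hmax.le_of_ge ⟨h1, h2, hN3.trans h3, fun y hy => hN4 ⟨hy.1, h4 hy⟩⟩ h3)

end Pool.Agent.BLE
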