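import Pool.Agent.BLE.LC
import Pool.Agent.BLE.UE

/-!
# BLE / VE: an elementary subset of given cardinality in which all infinite definable sets are uncountable
-/

set_option autoImplicit false

namespace Pool.Agent.BLE

open Function

variable {σ : Sig} {M : Type} {S : Str M}

theorem exists_big (h : Monster σ S) (κ : Cardinal.{0}) (hκ : Cardinal.aleph0 < κ)
    (hM : κ ≤ Cardinal.mk M) :
    ∃ N : Set M, TV σ S N ∧ Cardinal.mk N = κ ∧
      ∀ X, Df1 σ S N X → X.Infinite → ¬ (X ∩ N).Countable := by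
  classical
  have := h.inf
  have : Nonempty M := inferInstance
  have h1κ : Cardinal.aleph 1 ≤ κ := by
    rw [← Cardinal.succ_aleph0]
    exact Order.succ_le_of_lt hκ
  have hY : ∀ X : Set M, ∃ Y : Set M, Cardinal.mk Y ≤ Cardinal.aleph 1 ∧
      (Df1 σ S Set.univ X → X.Infinite → Y ⊆ X ∧ Cardinal.mk Y = Cardinal.aleph 1) := by
    intro X
    by_cases hX : Df1 σ S Set.univ X ∧ X.Infinite
    · have hnc := not_countable_inter h.satG hX.1 (by rw [Set.inter_univ]; exact hX.2)
      rw [Set.inter_univ] at hnc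
      have h2 : Cardinal.aleph 1 ≤ Cardinal.mk X := by
        rw [← Cardinal.succ_aleph0]
        refine Order.succ_le_of_lt ?_
        by_contra hcon
        exact hnc (Cardinal.le_aleph0_iff_set_countable.1 (not_lt.1 hcon))
      obtain ⟨Y, hY1, hY2⟩ := Cardinal.le_mk_iff_exists_subset.1 h2
      exact ⟨Y, hY2.le, fun _ _ => ⟨hY1, hY2⟩⟩
    · refine ⟨∅, ?_, fun h2 h3 => absurd ⟨h2, h3⟩ hX⟩
      rw [Cardinal.mk_eq_zero]
      exact zero_le
  choose Y hY1 hY2 using hY
  obtain ⟨A, hA⟩ := Cardinal.le_mk_iff_exists_set.1 hM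
  obtain ⟨N, hTV, hAN, hN, hcl⟩ := exists_tv (σ := σ) (S := S) κ hκ.le
    (fun l : List M => ⋃ X : {X : Set M | Df1 σ S {x | x ∈ l} X}, Y X) (fun l => by
      refine (Cardinal.mk_iUnion_le _).trans ?_
      have h2 : Cardinal.mk {X : Set M | Df1 σ S {x | x ∈ l} X} ≤ Cardinal.aleph0 :=
        Cardinal.mk_le_aleph0_iff.2 (countable_df1 (List.finite_toSet l).countable).to_subtype
      have h3 : (⨆ X : {X : Set M | Df1 σ S {x | x ∈ l} X}, Cardinal.mk (Y X)) ≤
          Cardinal.aleph 1 := ciSup_le' fun X => hY1 X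
      refine (mul_le_mul' h2 h3).trans ?_
      rw [Cardinal.aleph0_mul_aleph]
      exact h1κ) A hA.le
  refine ⟨N, hTV, le_antisymm hN ?_, ?_⟩
  · rw [← hA]
    exact Cardinal.mk_le_mk_of_subset hAN
  · intro X hX hinf hc
    obtain ⟨A₀, hA₀, hfin, hX₀⟩ := hX.fin_support
    have hl : {x : M | x ∈ hfin.toFinset.toList} = A₀ := by
      ext x
      simp
    have h2 := hcl hfin.toFinset.toList (by
      intro y hy
      apply hA₀
      rw [← hl]
      exact hy)
    obtain ⟨h3, h4⟩ := hY2 X (hX₀.mono (Set.subset_univ _)) hinf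
    have h5 : Y X ⊆ N := by
      refine subset_trans ?_ h2
      exact Set.subset_iUnion (fun X : {X : Set M | Df1 σ S {x | x ∈ hfin.toFinset.toList} X} =>
        Y X) ⟨X, by rw [Set.mem_ofPred_eq, hl]; exact hX₀⟩
    have h6 : (Y X).Countable := hc.mono (Set.subset_inter h3 h5)
    have h7 := Cardinal.le_aleph0_iff_set_countable.2 h6
    rw [h4] at h7
    exact absurd h7 (not_le.2 Cardinal.aleph0_lt_aleph_one)

end Pool.Agent.BLE
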