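import Pool.Agent.BLE.VC
import Pool.Agent.BLE.VD
import Pool.Agent.BLE.VE
import Pool.Agent.BLE.TA
import Pool.Agent.BLE.UC
import Pool.Agent.BLE.UB

/-!
# BLE / VF: no Vaughtian pairs

A Vaughtian pair in `S` gives one in an ultrapower, then an uncountable elementary subset with a
countable infinite definable set; an elementary subset of the same cardinality without such a set
contradicts categoricity.
-/

set_option autoImplicit false

namespace Pool.Agent.BLE

open Function

variable {σ : Sig} {T : Set Fml} {M : Type}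

/-- an uncountable elementary subset in which an infinite definable set is countable contradicts
categoricity -/
private theorem vf_contra (hT : CompleteTheory σ T)
    (hc : ∀ κ : Cardinal.{0}, Cardinal.aleph0 < κ → Categorical σ T κ) {S : Str M}
    (hS : Models σ S T) (hMon : Monster σ S) {N X : Set M} (hN : TV σ S N) (hNc : ¬ N.Countable)
    (hX : Df1 σ S N X) (hXi : X.Infinite) (hXN : (X ∩ N).Countable) : False := by
  have hκ : Cardinal.aleph0 < Cardinal.mk N := by
    rw [← not_le]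
    intro h
    exact hNc (Cardinal.le_aleph0_iff_set_countable.1 h)
  obtain ⟨N₄, hN₄, hκ₄, hbig⟩ := exists_big hMon (Cardinal.mk N) hκ (Cardinal.mk_set_le N)
  have := hMon.inf
  have : Nonempty M := inferInstance
  obtain ⟨a, ha⟩ := hN.nonempty
  obtain ⟨b, hb⟩ := hN₄.nonempty
  obtain ⟨e, he⟩ := hc (Cardinal.mk N) hκ N N₄ (Sub S N ⟨a, ha⟩) (Sub S N₄ ⟨b, hb⟩)
    (models_sub hN ⟨a, ha⟩ hT.sentences hS) (models_sub hN₄ ⟨b, hb⟩ hT.sentences hS) rfl hκ₄
  have hY : Df1 σ (Sub S N ⟨a, ha⟩) Set.univ (Subtype.val ⁻¹' X : Set N) := by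
    refine (df1_sub hN ⟨a, ha⟩).2 ⟨X, hX.mono ?_, rfl⟩
    intro x hx
    exact ⟨⟨x, hx⟩, Set.mem_univ _, rfl⟩
  obtain ⟨X₄, hX₄, hX₄e⟩ := (df1_sub hN₄ ⟨b, hb⟩).1 (df1_iso he hY)
  have hval : (Subtype.val '' (Subtype.val ⁻¹' X : Set N) : Set M) = X ∩ N := by
    rw [Subtype.image_preimage_coe, Set.inter_comm]
  have hval₄ : (Subtype.val '' (Subtype.val ⁻¹' X₄ : Set N₄) : Set M) = X₄ ∩ N₄ := by
    rw [Subtype.image_preimage_coe, Set.inter_comm]
  have hYc : (Subtype.val ⁻¹' X : Set N).Countable := by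
    apply Set.countable_of_injective_of_countable_image (f := (Subtype.val : N → M))
      Subtype.val_injective.injOn
    rw [hval]
    exact hXN
  have hYi : (Subtype.val ⁻¹' X : Set N).Infinite := by
    intro hfin
    have h1 : (X ∩ N).Finite := by
      rw [← hval]
      exact hfin.image _
    exact ((hN.infinite_iff hX).2 hXi) h1
  have h4c : (X₄ ∩ N₄).Countable := by
    rw [← hval₄, ← hX₄e]
    exact (hYc.image _).image _
  have h4i : (X₄ ∩ N₄).Infinite := by
    rw [← hval₄, ← hX₄e]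
    exact (hYi.image e.injective.injOn).image Subtype.val_injective.injOn
  refine hbig X₄ (hX₄.mono ?_) (h4i.mono Set.inter_subset_left) h4c
  rintro _ ⟨y, -, rfl⟩
  exact y.2

theorem noVP (hT : CompleteTheory σ T)
    (hc : ∀ κ : Cardinal.{0}, Cardinal.aleph0 < κ → Categorical σ T κ) [Infinite M] (S : Str M)
    (hS : Models σ S T) : NoVP σ S := by
  intro B N hB hN hBN X hX hXi hXN
  by_contra hne
  have hMon := monster_ultra hT hc S hS
  have := hMon.inf
  have : Nonempty (Filter.Germ (Filter.hyperfilter ℕ : Filter ℕ) M) := inferInstance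
  have hB' := tv_UN (Filter.hyperfilter ℕ) S hB
  have hN' := tv_UN (Filter.hyperfilter ℕ) S hN
  have hX' : Df1 σ (UStr (Filter.hyperfilter ℕ) S) (UN (Filter.hyperfilter ℕ) B)
      (UN (Filter.hyperfilter ℕ) X) := by
    refine (df1_UN (Filter.hyperfilter ℕ) S hX).mono ?_
    rintro _ ⟨a, ha, rfl⟩
    exact const_mem_UN _ ha
  have hXi' := UN_infinite (Filter.hyperfilter ℕ) hXi
  have hXN' : UN (Filter.hyperfilter ℕ) X ∩ UN (Filter.hyperfilter ℕ) N ⊆
      UN (Filter.hyperfilter ℕ) B := by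
    rw [← UN_inter]
    exact UN_mono _ hXN
  obtain ⟨B₁, N₁, hB₁, hN₁, hsB₁, hsN₁, hBN₁, hne₁, hcN₁, hX₁, hXN₁⟩ :=
    countable_pair hMon hB' hN' (satW_of_satG (satG_ultra S B) hB'.nonempty)
      (satW_of_satG (satG_ultra S N) hN'.nonempty) (UN_mono _ hBN)
      (UN_ne _ hne) hX' hXN'
  obtain ⟨N₃, hN₃, hB₁N₃, hN₃c, hXN₃⟩ :=
    exists_uncountable hMon hB₁ hN₁ hsB₁ hsN₁ hBN₁ hne₁ hcN₁ hX₁ hXN₁
  exact vf_contra hT hc (los_models _ S hS) hMon hN₃ hN₃c (hX₁.mono hB₁N₃) hXi'
    ((hcN₁.mono hBN₁).mono hXN₃)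

end Pool.Agent.BLE
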