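import Pool.Agent.BLE.GI
import Pool.Agent.BLE.GF
import Pool.Agent.BLE.VF

/-!
# BLE / GK: `range v` is saturated if infinitely many `d_n` are generic
-/

set_option autoImplicit false

namespace Pool.Agent.BLE

open Function

variable {σ : Sig} {M : Type} {S : Str M} {T : Set Fml} {ell : ℕ} {θ D : Fml}

theorem satW_range (hM : Monster σ S) (hV : NoVP σ S) (h : GoodPre σ S ell θ D) (v : ℕ → M)
    (hv : Sat σ S v θ) (ht : TV σ S (Set.range v)) (hg : ∀ n, ∃ m ≥ n, Gen σ S ell D v m) :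
    SatW σ S (Set.range v) := by
  have := hM.inf
  have : Nonempty M := ⟨v 0⟩
  have hA : par ell v ⊆ Set.range v := by
    rintro a ⟨j, -, rfl⟩
    exact ⟨_, rfl⟩
  have hAf : (par ell v).Finite := by
    refine ((Finset.range ell).finite_toSet.image fun j => v (2 * j)).subset ?_
    rintro a ⟨j, hj, rfl⟩
    exact ⟨j, by simpa using hj, rfl⟩
  refine satW_of_dim hM hV ht hA hAf (h.df1 v) (h.smin v hv) fun n => ?_
  choose g hg1 hg2 using hg
  let p : ℕ → ℕ := fun n => Nat.rec (g 0) (fun _ r => g (r + 1)) n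
  have hp0 : p 0 = g 0 := rfl
  have hps : ∀ n, p (n + 1) = g (p n + 1) := fun n => rfl
  have hmono : StrictMono p := strictMono_nat_of_lt_succ fun n => by
    rw [hps]
    have := hg1 (p n + 1)
    omega
  have hgen : ∀ n, Gen σ S ell D v (p n) := by
    intro n
    cases n with
    | zero => rw [hp0]; exact hg2 0
    | succ n => rw [hps]; exact hg2 _
  refine ⟨fun i => v (2 * p i + 1), fun i => ⟨(hgen i).1, ⟨_, rfl⟩⟩, fun i hi => ?_⟩
  refine (hgen i).2 (acl_mono ?_ hi)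
  refine Set.union_subset_union_right _ ?_
  rintro a ⟨j, hj, rfl⟩
  exact ⟨p j, hmono hj, rfl⟩

theorem omega_of_elem {R : Str ℕ} {u : ℕ → M} (hu : ElemMap σ R S u) (hN : SatW σ S (Set.range u)) :
    OmegaSat σ R := by
  intro n h Γ hΓ hfin
  have hup : ∀ (a : ℕ) (φ : Fml), Sat σ R (update h n a) φ ↔
      Sat σ S (update (u ∘ h) n (u a)) φ := by
    intro a φ
    rw [hu φ (update h n a)]
    have : u ∘ update h n a = update (u ∘ h) n (u a) := by
      funext k
      by_cases hk : k = n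
      · subst hk; simp
      · simp [hk]
    rw [this]
  have hres := hN ((u ∘ h) '' {t | t < n})
    ((Set.finite_lt_nat n).image _)
    (by rintro a ⟨t, -, rfl⟩; exact ⟨_, rfl⟩)
    ((fun φ : Fml => {y | Sat σ S (update (u ∘ h) n y) φ}) '' Γ)
    (by
      rintro X ⟨φ, hφ, rfl⟩
      refine (df1_of_fml φ (u ∘ h) n).mono ?_
      rintro a ⟨t, ⟨ht1, ht2⟩, rfl⟩
      have := Finset.mem_range.1 (hΓ φ hφ ht1)
      exact ⟨t, by simp only [Set.mem_setOf_eq]; omega, rfl⟩)
    (by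
      classical
      intro F hF
      have : ∃ Δ : Finset Fml, (Δ : Set Fml) ⊆ Γ ∧
          F = Δ.image (fun φ : Fml => {y | Sat σ S (update (u ∘ h) n y) φ}) := by
        obtain ⟨Δ, hΔ, hΔ'⟩ := Finset.subset_set_image_iff.1 hF
        exact ⟨Δ, hΔ, hΔ'.symm⟩
      obtain ⟨Δ, hΔ, rfl⟩ := this
      obtain ⟨a, ha⟩ := hfin Δ hΔ
      refine ⟨u a, ?_, ⟨a, rfl⟩⟩
      intro X hX
      simp only [Finset.coe_image, Set.mem_image, Finset.mem_coe] at hX
      obtain ⟨φ, hφ, rfl⟩ := hX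
      exact (hup a φ).1 (ha φ hφ))
  obtain ⟨y, hy, ⟨a, rfl⟩⟩ := hres
  refine ⟨a, fun φ hφ => (hup a φ).2 ?_⟩
  exact hy _ ⟨φ, hφ, rfl⟩

theorem models_of_elem {R : Str ℕ} {u : ℕ → M} (hu : ElemMap σ R S u) (hS : Models σ S T) :
    Models σ R T := by
  intro φ hφ v
  exact (hu φ v).2 (hS φ hφ _)

end Pool.Agent.BLE
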