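import Pool.Agent.DP.Comp

/-!
# BLE / PrA: computable enumeration of the classes of a decidable equivalence relation

`First i`: `i` is the least element of its class (decidable). `idx n` is the `n`-th such element, found by search
with the computable function `Nat.count First`; `pos n` is the index of the class of `n`, found by search.
-/

set_option autoImplicit false

namespace Pool.Agent.BLE

open Pool.Agent.DP

private theorem count_computable (P : ℕ → Prop) [DecidablePred P] (hP : ComputablePred P) :
    Computable fun i : ℕ => Nat.count P i := by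
  obtain ⟨g, hg, hg'⟩ := cp_iff.1 hP
  have h0 : Computable₂ fun (_ : ℕ) (q : ℕ × ℕ) => bif g q.1 then q.2 + 1 else q.2 :=
    Computable.cond (hg.comp (Computable.fst.comp Computable.snd))
      (Computable.succ.comp (Computable.snd.comp Computable.snd)) (Computable.snd.comp Computable.snd)
  have h1 : Computable fun a : ℕ => Nat.rec (motive := fun _ => ℕ) 0
      (fun y IH => bif g y then IH + 1 else IH) a :=
    Computable.nat_rec Computable.id (Computable.const 0) h0
  refine h1.of_eq fun n => ?_
  induction n with
  | zero => rfl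
  | succ n ih =>
    rw [Nat.count_succ, ← ih]
    have h2 := hg' n
    cases h : g n with
    | true =>
      rw [h] at h2
      simp only [h, cond_true]
      rw [if_pos (h2.2 rfl)]
    | false =>
      rw [h] at h2
      simp only [h, cond_false]
      rw [if_neg (fun hp => absurd (h2.1 hp) (by decide)), add_zero]

theorem exists_numbering (E : ℕ → ℕ → Prop) (hE : ComputablePred fun p : ℕ × ℕ => E p.1 p.2)
    (heq : Equivalence E) (hinf : ∀ n, ∃ i ≥ n, ∀ k < i, ¬ E k i) :
    ∃ idx pos : ℕ → ℕ, Computable idx ∧ Computable pos ∧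
      (∀ m n, m ≠ n → ¬ E (idx m) (idx n)) ∧ ∀ n, E (idx (pos n)) n := by
  classical
  set P : ℕ → Prop := fun i => ∀ k < i, ¬ E k i with hP
  have hPc : ComputablePred P := by
    refine CP.all (p := fun i k => ¬ E k i) Computable.id (CP.not ?_)
    exact CP.comp (p := fun q : ℕ × ℕ => E q.1 q.2) (f := fun x : ℕ × ℕ => (x.2, x.1)) hE
      (Computable.snd.pair Computable.fst)
  have hcnt := count_computable P hPc
  have hPinf : (Set.ofPred P).Infinite := by
    rw [Set.infinite_iff_exists_gt]
    intro n
    obtain ⟨i, hi, hPi⟩ := hinf (n + 1)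
    exact ⟨i, hPi, hi⟩
  obtain ⟨idx, hidx, hidx'⟩ := CP.choose (p := fun n i => P i ∧ Nat.count P i = n)
    (CP.and (CP.comp hPc Computable.snd) (CP.eq (hcnt.comp Computable.snd) Computable.fst))
    (fun n => ⟨Nat.nth P n, Nat.nth_mem_of_infinite hPinf n, Nat.count_nth_of_infinite hPinf n⟩)
  have hex : ∀ n, ∃ k, E (idx k) n := by
    intro n
    have h1 : ∃ j, E j n := ⟨n, heq.refl n⟩
    have h2 : P (Nat.find h1) := by
      intro k hk hE'
      exact Nat.find_min h1 hk (heq.trans hE' (Nat.find_spec h1))
    refine ⟨Nat.count P (Nat.find h1), ?_⟩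
    have h3 := hidx' (Nat.count P (Nat.find h1))
    rw [Nat.count_injective h3.1 h2 h3.2]
    exact Nat.find_spec h1
  obtain ⟨pos, hpos, hpos'⟩ := CP.choose (p := fun n k => E (idx k) n)
    (CP.comp (p := fun q : ℕ × ℕ => E q.1 q.2) (f := fun x : ℕ × ℕ => (idx x.2, x.1)) hE
      ((hidx.comp Computable.snd).pair Computable.fst)) hex
  refine ⟨idx, pos, hidx, hpos, ?_, hpos'⟩
  intro m n hmn hE'
  rcases lt_trichotomy (idx m) (idx n) with h | h | h
  · exact (hidx' n).1 _ h hE'
  · apply hmn
    rw [← (hidx' m).2, ← (hidx' n).2, h]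
  · exact (hidx' m).1 _ h (heq.symm hE')

end Pool.Agent.BLE
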