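import Pool.Agent.BLE.UE
import Pool.Agent.BLE.LA
import Pool.Agent.BLE.SF

/-!
# BLE / PrB: the structure on ℕ along an injective enumeration of an elementary subset

The structure `Sub S (range u)` of LA.lean is transported along the bijection `ℕ ≃ range u`.
-/

set_option autoImplicit false

namespace Pool.Agent.BLE

open Function

variable {σ : Sig} {M : Type} {S : Str M}

theorem exists_pullback {u : ℕ → M} (hu : Injective u) (htv : TV σ S (Set.range u)) :
    ∃ R : Str ℕ, ElemMap σ R S u := by
  let e : ℕ ≃ Set.range u := Equiv.ofInjective u hu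
  let n₀ : Set.range u := ⟨u 0, 0, rfl⟩
  let R : Str ℕ :=
    { rel := fun r l => (Sub S (Set.range u) n₀).rel r (l.map e)
      fn := fun f l => e.symm ((Sub S (Set.range u) n₀).fn f (l.map e)) }
  have hiso : IsIso σ R (Sub S (Set.range u) n₀) e := by
    constructor
    · intro r n _ l _
      exact Iff.rfl
    · intro f n _ l _
      exact e.apply_symm_apply _
  refine ⟨R, fun φ v => ?_⟩
  rw [sat_iso hiso, sat_sub htv]
  exact Iff.rfl

end Pool.Agent.BLE
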