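import Pool.Agent.BLE.XCode
import Pool.Agent.BLE.SC
import Pool.Agent.BLE.SF

/-!
# BLE / PrC: decidable and computable structures

`decidableStr_of`: truth in the structure on `ℕ` is truth in `S` of formulas obtained by simultaneous
substitution. `computableStr_of`: a decidable structure is computable.
-/

set_option autoImplicit false

namespace Pool.Agent.BLE

open Function Pool.Agent.DP

variable {σ : Sig} {M : Type} {S : Str M}

private theorem pc_bound (f : ℕ → ℕ) (c m : ℕ) :
    c ≤ Nat.rec (motive := fun _ => ℕ) c (fun t b => b + (f t + 1)) m ∧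
      ∀ t < m, f t < Nat.rec (motive := fun _ => ℕ) c (fun t b => b + (f t + 1)) m := by
  induction m with
  | zero => exact ⟨le_rfl, fun t ht => absurd ht (Nat.not_lt_zero t)⟩
  | succ m ih =>
    refine ⟨ih.1.trans (Nat.le_add_right _ _), fun t ht => ?_⟩
    show f t < Nat.rec (motive := fun _ => ℕ) c (fun t b => b + (f t + 1)) m + (f m + 1)
    rcases Nat.lt_succ_iff_lt_or_eq.1 ht with h | rfl
    · have := ih.2 t h
      omega
    · omega

private theorem pc_getD : Computable fun p : List ℕ × ℕ => p.1.getD p.2 0 :=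
  (Primrec.list_getD 0).to_comp

private theorem pc_map_getD_range {N : Type} (l : List N) (d : N) :
    (List.range l.length).map (fun i => l.getD i d) = l := by
  refine List.ext_getElem (by simp) fun i h1 h2 => ?_
  rw [List.getElem_map, List.getElem_range, List.getD_eq_getElem _ _ h2]

theorem decidableStr_of {R : Str ℕ} {v u : ℕ → M} {idx : ℕ → ℕ} (hu : ∀ n, u n = v (idx n))
    (hidx : Computable idx) (hR : ElemMap σ R S u)
    (hc : ComputablePred fun c : ℕ => Sat σ S v (F c)) : DecidableStr σ R := by
  let ρ : ℕ × List ℕ → ℕ → ℕ := fun p t => idx (p.2.getD t 0)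
  let B : ℕ × List ℕ → ℕ := fun p =>
    Nat.rec (motive := fun _ => ℕ) p.1 (fun t b => b + (ρ p t + 1)) p.1
  have hρ : Computable fun q : (ℕ × List ℕ) × ℕ => ρ q.1 q.2 := by
    have h1 : Computable fun q : (ℕ × List ℕ) × ℕ => (q.1.2, q.2) :=
      Computable.pair (Computable.snd.comp Computable.fst) Computable.snd
    have h2 : Computable fun q : (ℕ × List ℕ) × ℕ => q.1.2.getD q.2 0 :=
      Computable.comp (f := fun p : List ℕ × ℕ => p.1.getD p.2 0)
        (g := fun q : (ℕ × List ℕ) × ℕ => (q.1.2, q.2)) pc_getD h1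
    exact Computable.comp (f := idx) (g := fun q : (ℕ × List ℕ) × ℕ => q.1.2.getD q.2 0) hidx h2
  have hB : Computable B := by
    refine Computable.nat_rec (f := fun p : ℕ × List ℕ => p.1) (g := fun p : ℕ × List ℕ => p.1)
      (h := fun (p : ℕ × List ℕ) (q : ℕ × ℕ) => q.2 + (ρ p q.1 + 1)) Computable.fst Computable.fst ?_
    show Computable fun y : (ℕ × List ℕ) × (ℕ × ℕ) => y.2.2 + (ρ y.1 y.2.1 + 1)
    have h1 : Computable fun y : (ℕ × List ℕ) × (ℕ × ℕ) => ρ y.1 y.2.1 :=
      hρ.comp (g := fun y : (ℕ × List ℕ) × (ℕ × ℕ) => (y.1, y.2.1)) (by fun_prop)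
    fun_prop
  have hC : CF fun p : ℕ × List ℕ => Fml.subst (ρ p) p.1 (B p) (F p.1) := by
    have h1 : Computable fun p : ℕ × List ℕ => p.1 := Computable.fst
    exact CF.subst hρ h1 hB (CF.F h1)
  refine CP.of_eq (CP.comp hc hC) fun p => ?_
  obtain ⟨h1, h2⟩ := pc_bound (ρ p) p.1 p.1
  have h3 : Sat σ S v (Fml.subst (ρ p) p.1 (B p) (F p.1)) ↔
      Sat σ S (fun t => v (ρ p t)) (F p.1) := by
    refine sat_subst (ρ p) p.1 (B p) (F p.1) (fun i hi => ?_) h1 h2 v
    have h4 := fv_lt_code (F p.1) i hi
    rwa [code_F] at h4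
  have h5 : (u ∘ fun i => p.2.getD i 0) = fun t => v (ρ p t) := by
    funext t
    exact hu _
  rw [F_code, h3, ← h5, ← hR]
  constructor
  · rintro ⟨φ, h6, h7⟩
    rw [← h6, F_code]
    exact h7
  · intro h6
    exact ⟨F p.1, code_F _, h6⟩

theorem computableStr_of (hσ : σ.Effective) {R : Str ℕ} (h : DecidableStr σ R) :
    ComputableStr σ R := by
  have hD : ComputablePred fun p : ℕ × List ℕ => Sat σ R (fun i => p.2.getD i 0) (F p.1) := by
    refine CP.of_eq h fun p => ?_
    constructor
    · intro h6
      exact ⟨F p.1, code_F _, h6⟩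
    · rintro ⟨φ, h6, h7⟩
      rw [← h6, F_code]
      exact h7
  have hlen : Computable fun l : List ℕ => l.length := Computable.list_length
  have hrange : Computable fun n : ℕ => List.range n := Primrec.list_range.to_comp
  constructor
  · have h1 : Computable fun p : ℕ × List ℕ => ((Fml.rel p.1 (List.range p.2.length)).code, p.2) := by
      have h2 : Computable fun p : ℕ × List ℕ => List.range p.2.length :=
        hrange.comp (hlen.comp Computable.snd)
      have h3 : Computable fun p : ℕ × List ℕ => p.1 := Computable.fst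
      have h4 : CF fun p : ℕ × List ℕ => Fml.rel p.1 (List.range p.2.length) := CF.rel h3 h2
      exact Computable.pair h4 Computable.snd
    refine CP.of_eq (CP.comp hD h1) fun p => ?_
    show _ ↔ Sat σ R (fun i => p.2.getD i 0) (F (Fml.rel p.1 (List.range p.2.length)).code)
    rw [F_code, sat_rel, List.length_range, pc_map_getD_range]
  · have hfn : ComputablePred fun p : ℕ × List ℕ => σ.fn p.1 = some p.2.length := by
      have h2 : PrimrecPred fun q : Option ℕ × Option ℕ => q.1 = q.2 := Primrec.eq
      have h3 : ComputablePred fun q : Option ℕ × Option ℕ => q.1 = q.2 := by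
        obtain ⟨inst, h4⟩ := h2
        exact ⟨inst, h4.to_comp⟩
      have h5 : Computable fun p : ℕ × List ℕ => (σ.fn p.1, some p.2.length) :=
        Computable.pair (hσ.2.comp Computable.fst)
          (Computable.option_some.comp (hlen.comp Computable.snd))
      exact CP.comp h3 h5
    have hQ : ComputablePred fun x : (ℕ × List ℕ) × ℕ =>
        σ.fn x.1.1 = some x.1.2.length → Sat σ R (fun i => (x.1.2 ++ [x.2]).getD i 0)
          (.fn x.1.1 (List.range x.1.2.length) x.1.2.length) := by
      refine CP.imp (CP.comp hfn Computable.fst) ?_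
      have h2 : Computable fun x : (ℕ × List ℕ) × ℕ => List.range x.1.2.length :=
        hrange.comp (hlen.comp (Computable.snd.comp Computable.fst))
      have h3 : Computable fun x : (ℕ × List ℕ) × ℕ => x.1.1 :=
        Computable.fst.comp Computable.fst
      have h3' : Computable fun x : (ℕ × List ℕ) × ℕ => x.1.2.length :=
        hlen.comp (Computable.snd.comp Computable.fst)
      have h4 : CF fun x : (ℕ × List ℕ) × ℕ =>
          Fml.fn x.1.1 (List.range x.1.2.length) x.1.2.length := CF.fn h3 h2 h3'
      have h5 : Computable fun x : (ℕ × List ℕ) × ℕ => x.1.2 ++ [x.2] :=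
        Computable.list_concat.comp (Computable.snd.comp Computable.fst) Computable.snd
      refine CP.of_eq (CP.comp hD (Computable.pair h4 h5)) fun x => ?_
      show _ ↔ Sat σ R (fun i => (x.1.2 ++ [x.2]).getD i 0)
        (F (Fml.fn x.1.1 (List.range x.1.2.length) x.1.2.length).code)
      rw [F_code]
    have key : ∀ (f : ℕ) (l : List ℕ) (y : ℕ), Sat σ R (fun i => (l ++ [y]).getD i 0)
        (.fn f (List.range l.length) l.length) ↔ σ.fn f = some l.length ∧ R.fn f l = y := by
      intro f l y
      have h2 : (List.range l.length).map (fun i => (l ++ [y]).getD i 0) = l := by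
        refine List.ext_getElem (by simp) fun i h1 h2 => ?_
        rw [List.getElem_map, List.getElem_range, List.getD_append _ _ _ _ h2,
          List.getD_eq_getElem _ _ h2]
      have h3 : (l ++ [y]).getD l.length 0 = y := by
        rw [List.getD_append_right _ _ _ _ le_rfl, Nat.sub_self]
        rfl
      rw [sat_fn, List.length_range, h2, h3]
    obtain ⟨g, hg, hg'⟩ := CP.choose (p := fun (x : ℕ × List ℕ) (y : ℕ) =>
      σ.fn x.1 = some x.2.length → Sat σ R (fun i => (x.2 ++ [y]).getD i 0)
          (.fn x.1 (List.range x.2.length) x.2.length)) hQ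
      (fun x => ⟨R.fn x.1 x.2, fun hx => (key _ _ _).2 ⟨hx, rfl⟩⟩)
    refine ⟨g, hg, fun f l hf => ?_⟩
    exact ((key _ _ _).1 (hg' (f, l) hf)).2

end Pool.Agent.BLE
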