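import Pool.Agent.BLE.Int
import Pool.Agent.BLE.PrA
import Pool.Agent.BLE.PrB
import Pool.Agent.BLE.PrC

/-!
# BLE / PresMain: from a numbering with computable diagram to a presentation with universe `ℕ`
-/

set_option autoImplicit false

namespace Pool.Agent.BLE

open Function

variable {σ : Sig} {M : Type} {S : Str M}

theorem present (hσ : σ.Effective) (v : ℕ → M) (hv : TV σ S (Set.range v))
    (hi : (Set.range v).Infinite) (hc : ComputablePred fun c : ℕ => Sat σ S v (F c)) :
    ∃ (R : Str ℕ) (u : ℕ → M) (pos : ℕ → ℕ), Injective u ∧ Set.range u = Set.range v ∧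
      Computable pos ∧ (∀ n, u (pos n) = v n) ∧ ElemMap σ R S u ∧ DecidableStr σ R ∧
      ComputableStr σ R := by
  have hE : ComputablePred fun p : ℕ × ℕ => v p.1 = v p.2 := by
    have h1 : Computable fun p : ℕ × ℕ => (Fml.eq p.1 p.2).code := by fun_prop
    refine (Pool.Agent.DP.CP.comp hc h1).of_eq fun p => ?_
    simp only [F_code, sat_eq]
  obtain ⟨idx, pos, hidx, hpos, hinj, hposE⟩ := exists_numbering (fun i j => v i = v j) hE
    ⟨fun _ => rfl, fun h => h.symm, fun h h' => h.trans h'⟩ (by
      intro n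
      have h1 : (v '' Set.Iio n).Finite := (Set.finite_Iio n).image v
      obtain ⟨y, ⟨i, rfl⟩, hi'⟩ := hi.exists_notMem_finite h1
      classical
      have hex : ∃ i, v i ∉ v '' Set.Iio n := ⟨i, hi'⟩
      refine ⟨Nat.find hex, ?_, ?_⟩
      · by_contra hlt
        exact Nat.find_spec hex ⟨_, not_le.1 hlt, rfl⟩
      · intro k hk hkE
        have h2 := Nat.find_min hex hk
        rw [not_not] at h2
        rw [hkE] at h2
        exact Nat.find_spec hex h2)
  have hu : Injective fun n => v (idx n) := by
    intro m n hmn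
    by_contra hne
    exact hinj m n hne hmn
  have hr : Set.range (fun n => v (idx n)) = Set.range v := by
    apply Set.Subset.antisymm
    · rintro _ ⟨n, rfl⟩
      exact ⟨idx n, rfl⟩
    · rintro _ ⟨n, rfl⟩
      exact ⟨pos n, hposE n⟩
  obtain ⟨R, hR⟩ := exists_pullback (σ := σ) (S := S) hu (by rw [hr]; exact hv)
  have hD : DecidableStr σ R := decidableStr_of (v := v) (u := fun n => v (idx n)) (idx := idx) (fun _ => rfl) hidx hR hc
  exact ⟨R, _, pos, hu, hr, hpos, hposE, hR, hD, computableStr_of hσ hD⟩

end Pool.Agent.BLE
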