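import Pool.Agent.BLE.GJ
import Pool.Agent.BLE.GK
import Pool.Agent.BLE.EffMain
import Pool.Agent.BLE.PresMain

/-!
# BLE / FA: assembly of the avoidance theorem
-/

set_option autoImplicit false

namespace Pool.Agent.BLE

open Function

variable {σ : Sig} {T : Set Fml}

theorem exists_avoiding (hσ : σ.Effective) (hT : CompleteTheory σ T)
    (hu : UncountablyCategorical σ T) (hd : DecidableTheory T) (J : ℕ → Prop) (A : ℕ → Str ℕ)
    (hA : UDecidable σ J A) :
    ∃ (R : Str ℕ) (b pos : ℕ → ℕ), Computable b ∧ Computable pos ∧ Models σ R T ∧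
      OmegaSat σ R ∧ DecidableStr σ R ∧ ComputableStr σ R ∧
      ∀ j : ℕ, J j → ∀ e : ℕ → ℕ, ElemMap σ R (A j) e →
        ∀ n : ℕ, (Nat.Partrec.Code.eval (Denumerable.ofNat Nat.Partrec.Code n) n).Dom →
          ∃ i < b n, (Nat.Partrec.Code.evaln (j + e (pos i))
            (Denumerable.ofNat Nat.Partrec.Code n) n).isSome := by
  obtain ⟨M₀, S₀, hinf, hS₀⟩ := hT.model
  have hS := los_models (σ := σ) (T := T) (Filter.hyperfilter ℕ) S₀ hS₀
  have hM := monster_ultra hT hu.1 S₀ hS₀
  have hi : Infinite (Filter.Germ ((Filter.hyperfilter ℕ : Ultrafilter ℕ) : Filter ℕ) M₀) := hM.inf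
  obtain ⟨ell, θ, D, k₀, hg⟩ := exists_goodData hT hu hS hM
  obtain ⟨v, b, hb, hvθ, htv, hgen, hcomp, hav⟩ :=
    effective hσ hT hd hS hM.satG hg J A hA
  have hV := noVP hT hu.1 _ hS
  have hsat := satW_range hM hV hg.toGoodPre v hvθ htv hgen
  have hinfr : (Set.range v).Infinite := by
    have := (TV.infinite_iff htv (Df1.univ (σ := σ) (A := Set.range v))).2 Set.infinite_univ
    simpa using this
  obtain ⟨R, u, pos, hu1, hur, hpos, hup, hue, hdec, hcs⟩ := present hσ v htv hinfr hcomp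
  refine ⟨R, b, pos, hb, hpos, models_of_elem hue hS, omega_of_elem hue (hur ▸ hsat), hdec, hcs,
    fun j hj e he n hn => ?_⟩
  refine hav j hj (fun i => e (pos i)) (fun φ => ?_) n hn
  have h1 : v = u ∘ pos := funext fun n => (hup n).symm
  rw [h1, ← hue φ pos]
  exact he φ pos

theorem unique_sat (hT : CompleteTheory σ T) {M M' : Type} [Countable M] [Countable M']
    [Nonempty M] [Nonempty M'] {S : Str M} {S' : Str M'} (hS : Models σ S T)
    (hS' : Models σ S' T) (h : OmegaSat σ S) (h' : OmegaSat σ S') : Isom σ S S' := by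
  refine isom_of_omegaSat h h' fun φ hφ v v' => ?_
  rcases hT.complete φ hφ with h | h
  · exact ⟨fun _ => hS' φ h v', fun _ => hS φ h v⟩
  · have h1 := hS _ h v
    have h2 := hS' _ h v'
    simp only [sat_imp, sat_bot] at h1 h2
    exact ⟨fun h => (h1 h).elim, fun h => (h2 h).elim⟩

end Pool.Agent.BLE
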