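import Pool.Agent.BLE.Int

/-!
# BLE / FB: computing the halting set from a bound (pure computability, relative to an oracle)
-/

set_option autoImplicit false

namespace Pool.Agent.BLE

open Function

private theorem tcomp {O : Set (ℕ →. ℕ)} {f g : ℕ → ℕ}
    (hf : Nat.RecursiveIn O ((f : ℕ → ℕ) : ℕ →. ℕ)) (hg : Nat.RecursiveIn O ((g : ℕ → ℕ) : ℕ →. ℕ)) :
    Nat.RecursiveIn O ((fun n => f (g n) : ℕ → ℕ) : ℕ →. ℕ) := by
  refine (Nat.RecursiveIn.comp hf hg).of_eq fun n => ?_
  simp [PFun.coe_val]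

private theorem tpair {O : Set (ℕ →. ℕ)} {f g : ℕ → ℕ}
    (hf : Nat.RecursiveIn O ((f : ℕ → ℕ) : ℕ →. ℕ)) (hg : Nat.RecursiveIn O ((g : ℕ → ℕ) : ℕ →. ℕ)) :
    Nat.RecursiveIn O ((fun n => Nat.pair (f n) (g n) : ℕ → ℕ) : ℕ →. ℕ) := by
  refine (Nat.RecursiveIn.pair hf hg).of_eq fun n => ?_
  simp [PFun.coe_val, Seq.seq]

private theorem tcpt {O : Set (ℕ →. ℕ)} {f : ℕ → ℕ} (hf : Computable f) :
    Nat.RecursiveIn O ((f : ℕ → ℕ) : ℕ →. ℕ) := by
  have h := (hf.computableIn (O := O)).recursiveIn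
  rw [RecursiveIn.iff_nat] at h
  exact h

private theorem tprec {O : Set (ℕ →. ℕ)} {f g : ℕ → ℕ}
    (hf : Nat.RecursiveIn O ((f : ℕ → ℕ) : ℕ →. ℕ)) (hg : Nat.RecursiveIn O ((g : ℕ → ℕ) : ℕ →. ℕ)) :
    Nat.RecursiveIn O ((fun p => Nat.rec (f p.unpair.1)
      (fun y r => g (Nat.pair p.unpair.1 (Nat.pair y r))) p.unpair.2 : ℕ → ℕ) : ℕ →. ℕ) := by
  refine (Nat.RecursiveIn.prec hf hg).of_eq fun p => ?_
  obtain ⟨a, n, hp⟩ : ∃ a n, p = Nat.pair a n := ⟨p.unpair.1, p.unpair.2, by simp⟩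
  subst hp
  simp only [Nat.unpair_pair, PFun.coe_val]
  induction n with
  | zero => rfl
  | succ n ih =>
      simp only [ih]
      simp

private theorem trec {h b pos : ℕ → ℕ} (hb : Computable b) (hpos : Computable pos) :
    Nat.RecursiveIn {((h : ℕ → ℕ) : ℕ →. ℕ)}
      ((fun n => Nat.rec 0 (fun i r => max r (h (pos i))) (b n) : ℕ → ℕ) : ℕ →. ℕ) := by
  set O : Set (ℕ →. ℕ) := {((h : ℕ → ℕ) : ℕ →. ℕ)} with hO
  have hh : Nat.RecursiveIn O ((h : ℕ → ℕ) : ℕ →. ℕ) := Nat.RecursiveIn.oracle _ rfl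
  have hmax : Computable fun m : ℕ => max m.unpair.1 m.unpair.2 :=
    (Primrec.nat_max.comp (Primrec.fst.comp Primrec.unpair) (Primrec.snd.comp Primrec.unpair)).to_comp
  have h1 : Computable fun m : ℕ => m.unpair.2.unpair.2 :=
    (Primrec.snd.comp (Primrec.unpair.comp (Primrec.snd.comp Primrec.unpair))).to_comp
  have h2 : Computable fun m : ℕ => pos m.unpair.2.unpair.1 :=
    hpos.comp (Primrec.fst.comp (Primrec.unpair.comp (Primrec.snd.comp Primrec.unpair))).to_comp
  have h3 := tcomp hh (tcpt (O := O) h2)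
  have h4 := tcomp (tcpt (O := O) hmax) (tpair (tcpt (O := O) h1) h3)
  have h5 := tprec (tcpt (O := O) (Computable.const 0)) h4
  have h6 : Computable fun n : ℕ => Nat.pair 0 (b n) :=
    (Primrec₂.natPair.to_comp).comp (Computable.const 0) hb
  have h7 := tcomp h5 (tcpt (O := O) h6)
  have e : (fun n => Nat.rec 0 (fun i r => max r (h (pos i))) (b n) : ℕ → ℕ) =
      (fun n => (fun p : ℕ => (Nat.rec 0
      (fun y r => (fun n : ℕ => (fun m : ℕ => max m.unpair.1 m.unpair.2)
        ((fun n : ℕ => Nat.pair ((fun m : ℕ => m.unpair.2.unpair.2) n)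
          ((fun n : ℕ => h ((fun m : ℕ => pos m.unpair.2.unpair.1) n)) n)) n))
          (Nat.pair p.unpair.1 (Nat.pair y r))) p.unpair.2 : ℕ)) ((fun n : ℕ => Nat.pair 0 (b n)) n)) := by
    funext n
    simp only [Nat.unpair_pair]
  rw [e]
  exact h7

private theorem le_rec (g : ℕ → ℕ) : ∀ n i, i < n →
    g i ≤ Nat.rec (motive := fun _ => ℕ) 0 (fun i r => max r (g i)) n
  | 0, i, h => absurd h (Nat.not_lt_zero i)
  | n + 1, i, h => by
      show g i ≤ max (Nat.rec (motive := fun _ => ℕ) 0 (fun i r => max r (g i)) n) (g n)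
      rcases Nat.lt_succ_iff_lt_or_eq.mp h with h | rfl
      · exact le_max_of_le_left (le_rec g n i h)
      · exact le_max_right _ _

private theorem cF (j : ℕ) : Computable fun p : ℕ =>
    if ((Nat.Partrec.Code.evaln (j + p.unpair.2) (Denumerable.ofNat Nat.Partrec.Code p.unpair.1)
      p.unpair.1).isSome = true) then 1 else 0 := by
  have h1 : Primrec fun p : ℕ => Nat.Partrec.Code.evaln (j + p.unpair.2)
      (Denumerable.ofNat Nat.Partrec.Code p.unpair.1) p.unpair.1 := by
    have h2 : Primrec fun p : ℕ => ((j + p.unpair.2,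
        Denumerable.ofNat Nat.Partrec.Code p.unpair.1), p.unpair.1) :=
      Primrec.pair (Primrec.pair (Primrec.nat_add.comp (Primrec.const j)
        (Primrec.snd.comp Primrec.unpair)) ((Primrec.ofNat _).comp (Primrec.fst.comp Primrec.unpair)))
        (Primrec.fst.comp Primrec.unpair)
    exact Nat.Partrec.Code.primrec_evaln.comp h2
  have h3 : Primrec fun p : ℕ => (Nat.Partrec.Code.evaln (j + p.unpair.2)
      (Denumerable.ofNat Nat.Partrec.Code p.unpair.1) p.unpair.1).isSome :=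
    Primrec.option_isSome.comp h1
  have h4 : PrimrecPred fun p : ℕ => (Nat.Partrec.Code.evaln (j + p.unpair.2)
      (Denumerable.ofNat Nat.Partrec.Code p.unpair.1) p.unpair.1).isSome = true :=
    (Primrec.eq.comp h3 (Primrec.const true))
  exact (Primrec.ite h4 (Primrec.const 1) (Primrec.const 0)).to_comp

theorem rec_max (h b pos : ℕ → ℕ) (hb : Computable b) (hpos : Computable pos) :
    TuringReducible
      ((fun n => Nat.rec 0 (fun i r => max r (h (pos i))) (b n) : ℕ → ℕ) : ℕ →. ℕ)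
      ((h : ℕ → ℕ) : ℕ →. ℕ) := by

  exact RecursiveIn.iff_nat.2 (trec hb hpos)

theorem computesHalt_of (h b pos : ℕ → ℕ) (j : ℕ) (hb : Computable b) (hpos : Computable pos)
    (hh : ∀ n : ℕ, (Nat.Partrec.Code.eval (Denumerable.ofNat Nat.Partrec.Code n) n).Dom →
      ∃ i < b n, (Nat.Partrec.Code.evaln (j + h (pos i))
        (Denumerable.ofNat Nat.Partrec.Code n) n).isSome) : ComputesHalt h := by

  have h1 := trec (h := h) hb hpos
  have h2 := tcomp (tcpt (O := {((h : ℕ → ℕ) : ℕ →. ℕ)}) (cF j))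
    (tpair (tcpt (O := {((h : ℕ → ℕ) : ℕ →. ℕ)}) Computable.id) h1)
  refine RecursiveIn.iff_nat.2 ?_
  refine h2.of_eq fun n => ?_
  simp only [PFun.coe_val, id, Nat.unpair_pair]
  refine congrArg Part.some ?_
  unfold haltFn
  by_cases hd : (Nat.Partrec.Code.eval (Denumerable.ofNat Nat.Partrec.Code n) n).Dom
  · rw [if_pos hd, if_pos]
    obtain ⟨i, hi, hs⟩ := hh n hd
    obtain ⟨x, hx⟩ := Option.isSome_iff_exists.1 hs
    have h3 : j + h (pos i) ≤ j + Nat.rec (motive := fun _ => ℕ) 0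
        (fun i r => max r (h (pos i))) (b n) :=
      Nat.add_le_add_left (le_rec (fun i => h (pos i)) (b n) i hi) j
    exact Option.isSome_iff_exists.2 ⟨x, Nat.Partrec.Code.evaln_mono h3 hx⟩
  · rw [if_neg hd, if_neg]
    intro hs
    obtain ⟨x, hx⟩ := Option.isSome_iff_exists.1 hs
    exact hd (Part.dom_iff_mem.2 ⟨x, Nat.Partrec.Code.evaln_sound hx⟩)

theorem not_computable_of {h : ℕ → ℕ} (hh : ComputesHalt h) : ¬ Computable h := by

  intro hc
  have h1 : Partrec ((haltFn : ℕ → ℕ) : ℕ →. ℕ) := by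
    refine RecursiveIn.partrec_of_oracle ?_ hh
    intro g hg
    rw [Set.mem_singleton_iff.1 hg]
    exact hc
  have h2 : Computable haltFn := h1
  apply ComputablePred.halting_problem 0
  have h3 : Computable fun c : Nat.Partrec.Code =>
      haltFn (Encodable.encode (Nat.Partrec.Code.comp c (Nat.Partrec.Code.const 0))) :=
    h2.comp (Computable.encode.comp
      ((Nat.Partrec.Code.primrec₂_comp.comp Primrec.id (Primrec.const _)).to_comp))
  have h4 : ∀ c : Nat.Partrec.Code,
      haltFn (Encodable.encode (Nat.Partrec.Code.comp c (Nat.Partrec.Code.const 0))) = 1 ↔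
        (Nat.Partrec.Code.eval c 0).Dom := by
    intro c
    have h5 : Nat.Partrec.Code.eval (Nat.Partrec.Code.comp c (Nat.Partrec.Code.const 0))
        (Encodable.encode (Nat.Partrec.Code.comp c (Nat.Partrec.Code.const 0))) =
          Nat.Partrec.Code.eval c 0 := by
      simp [Nat.Partrec.Code.eval]
    unfold haltFn
    rw [Denumerable.ofNat_encode, h5]
    by_cases hd : (Nat.Partrec.Code.eval c 0).Dom
    · simp [hd]
    · simp [hd]
  have h6 : ComputablePred fun c : Nat.Partrec.Code =>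
      haltFn (Encodable.encode (Nat.Partrec.Code.comp c (Nat.Partrec.Code.const 0))) = 1 := by
    refine ⟨fun c => inferInstance, ?_⟩
    have h7 : Computable fun m : ℕ => decide (m = 1) :=
      ((Primrec.eq.comp Primrec.id (Primrec.const 1)).decide).to_comp
    exact h7.comp h3
  exact h6.of_eq fun c => h4 c

/-- the inverse of a permutation of `ℕ` is recursive in it -/
theorem computesHalt_symm {e : ℕ ≃ ℕ} (hh : ComputesHalt e.symm) : ComputesHalt e := by

  refine TuringReducible.trans hh ?_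
  refine RecursiveIn.iff_nat.2 ?_
  set O : Set (ℕ →. ℕ) := {((e : ℕ → ℕ) : ℕ →. ℕ)} with hO
  have h1 : Nat.RecursiveIn O (((fun n => e n : ℕ → ℕ)) : ℕ →. ℕ) :=
    Nat.RecursiveIn.oracle _ rfl
  have h2 : Computable fun m : ℕ => m.unpair.2 := (Primrec.snd.comp Primrec.unpair).to_comp
  have h3 : Computable fun m : ℕ => m.unpair.1 := (Primrec.fst.comp Primrec.unpair).to_comp
  have h4 : Computable fun m : ℕ => if m.unpair.1 = m.unpair.2 then 0 else 1 :=
    (Primrec.ite (Primrec.eq.comp (Primrec.fst.comp Primrec.unpair)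
      (Primrec.snd.comp Primrec.unpair)) (Primrec.const 0) (Primrec.const 1)).to_comp
  have h5 := tcomp (tcpt (O := O) h4) (tpair (tcomp h1 (tcpt (O := O) h2)) (tcpt (O := O) h3))
  refine (Nat.RecursiveIn.rfind h5).of_eq fun n => ?_
  simp only [PFun.coe_val, Nat.unpair_pair, Part.map_eq_map, Part.map_some]
  refine Part.eq_some_iff.2 ?_
  refine Nat.mem_rfind.2 ⟨?_, ?_⟩
  · simp
  · intro m hm
    have h6 : e m ≠ n := by
      intro h
      rw [← h, Equiv.symm_apply_apply] at hm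
      exact lt_irrefl _ hm
    simp [h6]

end Pool.Agent.BLE
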