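import Pool.Agent.BLE.SC
import Pool.Agent.BLE.SF

/-!
# BLE / VA: back and forth

Countable `ω`-saturated structures with the same theory are isomorphic: `backforth` enumerates both of them
with the same type (starting with two given tuples of the same type), `isom_of_enum` turns such
enumerations into an isomorphism.
-/

set_option autoImplicit false

namespace Pool.Agent.BLE

open Function

variable {σ : Sig} {M M' : Type} {S : Str M} {S' : Str M'}

/-- one step of the construction -/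
private theorem step_right (h' : OmegaSat σ S') {k : ℕ} {v : ℕ → M} {w : ℕ → M'}
    (h : ∀ φ : Fml, (∀ i ∈ φ.fv, i < k) → (Sat σ S v φ ↔ Sat σ S' w φ)) (x : M) :
    ∃ y : M', ∀ φ : Fml, (∀ i ∈ φ.fv, i < k + 1) →
      (Sat σ S (update v k x) φ ↔ Sat σ S' (update w k y) φ) := by
  obtain ⟨y, hy⟩ := h' k w {φ | φ.fv ⊆ Finset.range (k + 1) ∧ Sat σ S (update v k x) φ} (fun φ hφ => hφ.1) (by
    intro Δ hΔ
    have hfv : ∀ i ∈ (Fml.ex k (Fml.cj Δ.toList.length fun j => Δ.toList.getD j .top)).fv, i < k := by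
      intro i hi
      rw [fv_ex, fv_cj, Finset.mem_erase, Finset.mem_biUnion] at hi
      obtain ⟨hik, j, hj, hi⟩ := hi
      rw [Finset.mem_range] at hj
      rw [List.getD_eq_getElem _ _ hj] at hi
      have hm : Δ.toList[j] ∈ Δ := Finset.mem_toList.1 (List.getElem_mem hj)
      have := Finset.mem_range.1 ((hΔ hm).1 hi)
      omega
    have h1 : Sat σ S v (Fml.ex k (Fml.cj Δ.toList.length fun j => Δ.toList.getD j .top)) := by
      rw [sat_ex]
      refine ⟨x, ?_⟩
      rw [sat_cj]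
      intro j hj
      rw [List.getD_eq_getElem _ _ hj]
      exact (hΔ (Finset.mem_toList.1 (List.getElem_mem hj))).2
    have h2 := (h _ hfv).1 h1
    rw [sat_ex] at h2
    obtain ⟨y, hy⟩ := h2
    rw [sat_cj] at hy
    refine ⟨y, fun φ hφ => ?_⟩
    obtain ⟨j, hj, e⟩ := List.mem_iff_getElem.1 (Finset.mem_toList.2 hφ)
    have := hy j hj
    rw [List.getD_eq_getElem _ _ hj, e] at this
    exact this)
  refine ⟨y, fun φ hφ => ?_⟩
  have hsub : φ.fv ⊆ Finset.range (k + 1) := fun i hi => Finset.mem_range.2 (hφ i hi)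
  by_cases hs : Sat σ S (update v k x) φ
  · exact ⟨fun _ => hy φ ⟨hsub, hs⟩, fun _ => hs⟩
  · refine ⟨fun h => absurd h hs, fun h => ?_⟩
    have := hy φ.neg ⟨by rw [fv_neg]; exact hsub, hs⟩
    exact absurd h this

theorem backforth [Countable M] [Countable M'] [Nonempty M] [Nonempty M'] (h : OmegaSat σ S)
    (h' : OmegaSat σ S') (n₀ : ℕ) (a₀ : ℕ → M) (b₀ : ℕ → M')
    (h₀ : ∀ φ : Fml, (∀ i ∈ φ.fv, i < n₀) → (Sat σ S a₀ φ ↔ Sat σ S' b₀ φ)) :
    ∃ (a : ℕ → M) (b : ℕ → M'), Surjective a ∧ Surjective b ∧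
      (∀ i < n₀, a i = a₀ i ∧ b i = b₀ i) ∧ ∀ φ : Fml, Sat σ S a φ ↔ Sat σ S' b φ := by
  obtain ⟨eM, heM⟩ := exists_surjective_nat M
  obtain ⟨eM', heM'⟩ := exists_surjective_nat M'
  have step : ∀ (m : ℕ) (p : (ℕ → M) × (ℕ → M')),
      (∀ φ : Fml, (∀ i ∈ φ.fv, i < n₀ + m) → (Sat σ S p.1 φ ↔ Sat σ S' p.2 φ)) →
      ∃ q : (ℕ → M) × (ℕ → M'),
        (∀ φ : Fml, (∀ i ∈ φ.fv, i < n₀ + (m + 1)) → (Sat σ S q.1 φ ↔ Sat σ S' q.2 φ)) ∧
        (∀ i, i ≠ n₀ + m → q.1 i = p.1 i ∧ q.2 i = p.2 i) ∧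
        (∀ t, m = 2 * t → q.1 (n₀ + m) = eM t) ∧ (∀ t, m = 2 * t + 1 → q.2 (n₀ + m) = eM' t) := by
    intro m p hp
    rcases Nat.even_or_odd' m with ⟨t, ht | ht⟩
    · obtain ⟨y, hy⟩ := step_right h' hp (eM t)
      refine ⟨(update p.1 (n₀ + m) (eM t), update p.2 (n₀ + m) y), hy, fun i hi => ?_, fun t' ht' => ?_,
        fun t' ht' => ?_⟩
      · exact ⟨update_of_ne hi _ _, update_of_ne hi _ _⟩
      · have : t' = t := by omega
        subst this
        exact update_self _ _ _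
      · omega
    · obtain ⟨x, hx⟩ := step_right h (fun φ hφ => (hp φ hφ).symm) (eM' t)
      refine ⟨(update p.1 (n₀ + m) x, update p.2 (n₀ + m) (eM' t)), fun φ hφ => (hx φ hφ).symm,
        fun i hi => ?_, fun t' ht' => ?_, fun t' ht' => ?_⟩
      · exact ⟨update_of_ne hi _ _, update_of_ne hi _ _⟩
      · omega
      · have : t' = t := by omega
        subst this
        exact update_self _ _ _
  choose! f hf using step
  let st : ℕ → (ℕ → M) × (ℕ → M') := fun m => Nat.rec (a₀, b₀) (fun m p => f m p) m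
  have st0 : st 0 = (a₀, b₀) := rfl
  have stS : ∀ m, st (m + 1) = f m (st m) := fun m => rfl
  have hst : ∀ m, ∀ φ : Fml, (∀ i ∈ φ.fv, i < n₀ + m) → (Sat σ S (st m).1 φ ↔ Sat σ S' (st m).2 φ) := by
    intro m
    induction m with
    | zero => exact h₀
    | succ m ih =>
      rw [stS]
      exact (hf m (st m) ih).1
  have stab1 : ∀ m i, i ≠ n₀ + m → (st (m + 1)).1 i = (st m).1 i ∧ (st (m + 1)).2 i = (st m).2 i := by
    intro m i hi
    rw [stS]
    exact (hf m (st m) (hst m)).2.1 i hi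
  have stab : ∀ m i, i < n₀ + m → ∀ r, (st (m + r)).1 i = (st m).1 i ∧ (st (m + r)).2 i = (st m).2 i := by
    intro m i hi r
    induction r with
    | zero => exact ⟨rfl, rfl⟩
    | succ r ih =>
      have := stab1 (m + r) i (by omega)
      exact ⟨this.1.trans ih.1, this.2.trans ih.2⟩
  have hdiag : ∀ m i, i < n₀ + m → (st (i + 1)).1 i = (st m).1 i ∧ (st (i + 1)).2 i = (st m).2 i := by
    intro m i hi
    rcases le_total m (i + 1) with hm | hm
    · obtain ⟨r, hr⟩ := Nat.exists_eq_add_of_le hm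
      rw [hr]
      exact stab m i hi r
    · obtain ⟨r, rfl⟩ := Nat.exists_eq_add_of_le hm
      have := stab (i + 1) i (by omega) r
      exact ⟨this.1.symm, this.2.symm⟩
  refine ⟨fun i => (st (i + 1)).1 i, fun i => (st (i + 1)).2 i, ?_, ?_, ?_, ?_⟩
  · intro x
    obtain ⟨t, rfl⟩ := heM x
    refine ⟨n₀ + 2 * t, ?_⟩
    show (st (n₀ + 2 * t + 1)).1 (n₀ + 2 * t) = eM t
    rw [(hdiag (2 * t + 1) (n₀ + 2 * t) (by omega)).1, stS]
    exact (hf (2 * t) (st (2 * t)) (hst _)).2.2.1 t rfl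
  · intro y
    obtain ⟨t, rfl⟩ := heM' y
    refine ⟨n₀ + (2 * t + 1), ?_⟩
    show (st (n₀ + (2 * t + 1) + 1)).2 (n₀ + (2 * t + 1)) = eM' t
    rw [(hdiag (2 * t + 1 + 1) (n₀ + (2 * t + 1)) (by omega)).2, stS]
    exact (hf (2 * t + 1) (st (2 * t + 1)) (hst _)).2.2.2 t rfl
  · intro i hi
    have := hdiag 0 i (by omega)
    rw [st0] at this
    exact this
  · intro φ
    have hN : ∀ i ∈ φ.fv, i < n₀ + φ.code := fun i hi => by
      have := fv_lt_code φ i hi
      omega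
    rw [sat_congr φ (fun i hi => (hdiag φ.code i (hN i hi)).1), hst φ.code φ hN]
    exact (sat_congr φ (fun i hi => (hdiag φ.code i (hN i hi)).2)).symm

theorem isom_of_enum {a : ℕ → M} {b : ℕ → M'} (ha : Surjective a) (hb : Surjective b)
    (h : ∀ φ : Fml, Sat σ S a φ ↔ Sat σ S' b φ) : Isom σ S S' := by
  have hab : ∀ i j, a i = a j ↔ b i = b j := fun i j => h (.eq i j)
  have hra := surjInv_eq ha
  have he : ∀ i, b (surjInv ha (a i)) = b i := fun i => (hab _ _).1 (hra (a i))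
  have hbij : Bijective fun x => b (surjInv ha x) := by
    constructor
    · intro x y hxy
      have := (hab (surjInv ha x) (surjInv ha y)).2 hxy
      rwa [hra, hra] at this
    · intro y
      obtain ⟨i, rfl⟩ := hb y
      exact ⟨a i, he i⟩
  have hmap : ∀ l : List M, (l.map (surjInv ha)).map a = l := by
    intro l
    rw [List.map_map]
    conv_rhs => rw [← List.map_id l]
    exact List.map_congr_left fun x _ => hra x
  have hmap' : ∀ l : List M, (l.map (surjInv ha)).map b = l.map (Equiv.ofBijective _ hbij) := by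
    intro l
    rw [List.map_map]
    rfl
  refine ⟨Equiv.ofBijective _ hbij, fun r n hr l hl => ?_, fun f n hf l hl => ?_⟩
  · have h1 := h (.rel r (l.map (surjInv ha)))
    rw [sat_rel, sat_rel, hmap, hmap', List.length_map, hl] at h1
    exact ⟨fun h2 => (h1.1 ⟨hr, h2⟩).2, fun h2 => (h1.2 ⟨hr, h2⟩).2⟩
  · have h1 := h (.fn f (l.map (surjInv ha)) (surjInv ha (S.fn f l)))
    rw [sat_fn, sat_fn, hmap, hmap', List.length_map, hl, hra] at h1
    exact (h1.1 ⟨hf, rfl⟩).2.symm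

/-- uniqueness of the countable saturated model -/
theorem isom_of_omegaSat [Countable M] [Countable M'] [Nonempty M] [Nonempty M']
    (h : OmegaSat σ S) (h' : OmegaSat σ S')
    (h₀ : ∀ φ : Fml, φ.fv = ∅ → ∀ (v : ℕ → M) (v' : ℕ → M'), Sat σ S v φ ↔ Sat σ S' v' φ) :
    Isom σ S S' := by
  obtain ⟨x⟩ := ‹Nonempty M›
  obtain ⟨y⟩ := ‹Nonempty M'›
  obtain ⟨a, b, ha, hb, -, hab⟩ := backforth h h' 0 (fun _ => x) (fun _ => y) (fun φ hφ =>
    h₀ φ (Finset.eq_empty_of_forall_notMem fun i hi => absurd (hφ i hi) (Nat.not_lt_zero i)) _ _)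
  exact isom_of_enum ha hb hab

end Pool.Agent.BLE
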