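import Pool.Agent.BLE.JC
import Pool.Agent.BLE.VA

/-!
# BLE / JD: two decidable presentations of the countable saturated model are isomorphic by a map
recursive in the halting set

A state is a code of two lists of the same length and of the same type; the back and forth construction
(`nx`, `iter_states`) is recursive in the halting set, because equality of types is a `Π₁` predicate.
-/

set_option autoImplicit false

namespace Pool.Agent.BLE

open Function

variable {σ : Sig}

/-- decoding of a state -/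
private def dc (s : ℕ) : List ℕ × List ℕ := Denumerable.ofNat (List ℕ × List ℕ) s

private theorem dc_encode (p : List ℕ × List ℕ) : dc (Encodable.encode p) = p :=
  Denumerable.ofNat_encode p

private theorem encode_dc {s : ℕ} {p : List ℕ × List ℕ} (h : dc s = p) : s = Encodable.encode p := by
  rw [← h]
  exact (Denumerable.encode_ofNat (α := List ℕ × List ℕ) s).symm

private theorem dc_prim : Primrec dc := Primrec.ofNat (List ℕ × List ℕ)

/-- the next state: `w` codes the number of the step, the state, and the new element -/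
private def nx (w : ℕ) : ℕ :=
  Encodable.encode (if w.unpair.1.unpair.1 % 2 = 0 then
    ((dc w.unpair.1.unpair.2).1 ++ [w.unpair.1.unpair.1 / 2], (dc w.unpair.1.unpair.2).2 ++ [w.unpair.2])
    else ((dc w.unpair.1.unpair.2).1 ++ [w.unpair.2], (dc w.unpair.1.unpair.2).2 ++ [w.unpair.1.unpair.1 / 2]))

private theorem nx_prim : Primrec nx := by
  have hn : Primrec fun w : ℕ => w.unpair.1.unpair.1 :=
    Primrec.fst.comp (Primrec.unpair.comp (Primrec.fst.comp Primrec.unpair))
  have hs : Primrec fun w : ℕ => dc w.unpair.1.unpair.2 :=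
    dc_prim.comp (Primrec.snd.comp (Primrec.unpair.comp (Primrec.fst.comp Primrec.unpair)))
  have hx : Primrec fun w : ℕ => w.unpair.2 := Primrec.snd.comp Primrec.unpair
  have hh : Primrec fun w : ℕ => w.unpair.1.unpair.1 / 2 := Primrec.nat_div.comp hn (Primrec.const 2)
  have hm : Primrec fun w : ℕ => w.unpair.1.unpair.1 % 2 := Primrec.nat_mod.comp hn (Primrec.const 2)
  have h1 : Primrec fun w : ℕ => ((dc w.unpair.1.unpair.2).1 ++ [w.unpair.1.unpair.1 / 2],
      (dc w.unpair.1.unpair.2).2 ++ [w.unpair.2]) :=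
    Primrec.pair (Primrec.list_concat.comp (Primrec.fst.comp hs) hh)
      (Primrec.list_concat.comp (Primrec.snd.comp hs) hx)
  have h2 : Primrec fun w : ℕ => ((dc w.unpair.1.unpair.2).1 ++ [w.unpair.2],
      (dc w.unpair.1.unpair.2).2 ++ [w.unpair.1.unpair.1 / 2]) :=
    Primrec.pair (Primrec.list_concat.comp (Primrec.fst.comp hs) hx)
      (Primrec.list_concat.comp (Primrec.snd.comp hs) hh)
  exact Primrec.encode.comp (Primrec.ite (Primrec.eq.comp hm (Primrec.const 0)) h1 h2)

/-- `0` if the two lists have the same positive length -/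
private def lenok (s : ℕ) : ℕ := if (dc s).1.length = (dc s).2.length ∧ 0 < (dc s).1.length then 0 else 1

private theorem lenok_prim : Primrec lenok :=
  Primrec.ite ((Primrec.eq.comp (Primrec.list_length.comp (Primrec.fst.comp dc_prim))
    (Primrec.list_length.comp (Primrec.snd.comp dc_prim))).and
    (Primrec.nat_lt.comp (Primrec.const 0) (Primrec.list_length.comp (Primrec.fst.comp dc_prim))))
    (Primrec.const 0) (Primrec.const 1)

attribute [local irreducible] dc nx lenok

/-- valid states -/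
private structure Vd (σ : Sig) (R R' : Str ℕ) (n : ℕ) (p : List ℕ × List ℕ) : Prop where
  l1 : p.1.length = n + 1
  l2 : p.2.length = n + 1
  ty : STy σ R R' p.1 p.2

/-- the sequence of states -/
private theorem iter_states {R R' : Str ℕ} (hR : DecidableStr σ R) (hR' : DecidableStr σ R')
    (h : OmegaSat σ R) (h' : OmegaSat σ R')
    (h₀ : ∀ φ : Fml, φ.fv = ∅ → ∀ v v' : ℕ → ℕ, Sat σ R v φ ↔ Sat σ R' v' φ) :
    ∃ st : ℕ → ℕ, Rc haltFn st ∧ (∀ n, Vd σ R R' n (dc (st n))) ∧
      ∀ n, ∃ x, st (n + 1) = nx (Nat.pair (Nat.pair n (st n)) x) := by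
  classical
  obtain ⟨P, hP, hPs⟩ := sty_pi hR hR'
  obtain ⟨b₀, hb₀⟩ := sty_start h' h₀ 0
  have ht := pi_halt hP
  set t : ℕ → ℕ := fun a => if ∀ n, P a n then 0 else 1 with htd
  have ht0 : ∀ l l', t (Encodable.encode (l, l')) = 0 ↔ STy σ R R' l l' := by
    intro l l'
    rw [hPs]
    simp only [htd]
    split_ifs with hc
    · simp only [true_iff]; exact hc
    · simp only [one_ne_zero, false_iff]; exact hc
  have ht0' : ∀ l l', STy σ R R' l l' → t (Encodable.encode (l, l')) = 0 := fun l l' => (ht0 l l').2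
  -- the test
  have hv : Rc haltFn (fun s => t s + lenok s) :=
    (Rc.of_computable (f := fun m => m.unpair.1 + m.unpair.2)
      (Primrec.nat_add.comp (Primrec.fst.comp Primrec.unpair) (Primrec.snd.comp Primrec.unpair)).to_comp).comp
      (ht.pair (Rc.of_computable lenok_prim.to_comp)) |> fun e => by
        simpa using e
  obtain ⟨p, hpe, hp⟩ : ∃ p : ℕ → ℕ, (∀ a x, p (Nat.pair a x) = t (nx (Nat.pair a x)) *
      (1 - (t a.unpair.2 + lenok a.unpair.2))) ∧ Rc haltFn p := by
    refine ⟨fun w => t (nx w) * (1 - (t w.unpair.1.unpair.2 + lenok w.unpair.1.unpair.2)), fun a x => by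
      simp only [Nat.unpair_pair], ?_⟩
    have h1 : Rc haltFn (fun w => t (nx w)) := ht.comp (Rc.of_computable nx_prim.to_comp)
    have h2 : Rc haltFn (fun w : ℕ => t w.unpair.1.unpair.2 + lenok w.unpair.1.unpair.2) :=
      hv.comp (Rc.of_computable (f := fun w : ℕ => w.unpair.1.unpair.2)
        (Primrec.snd.comp (Primrec.unpair.comp (Primrec.fst.comp Primrec.unpair))).to_comp)
    have h3 := (Rc.of_computable (g := haltFn) (f := fun m => m.unpair.1 * (1 - m.unpair.2))
      (Primrec.nat_mul.comp (Primrec.fst.comp Primrec.unpair)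
        (Primrec.nat_sub.comp (Primrec.const 1) (Primrec.snd.comp Primrec.unpair))).to_comp).comp (h1.pair h2)
    simpa using h3
  have hex : ∀ a, ∃ x, p (Nat.pair a x) = 0 := by
    intro a
    by_cases hva : t a.unpair.2 + lenok a.unpair.2 = 0
    · obtain ⟨hta, hla⟩ := Nat.add_eq_zero_iff.1 hva
      have hd : ∃ p : List ℕ × List ℕ, dc a.unpair.2 = p := ⟨_, rfl⟩
      obtain ⟨⟨l, l'⟩, hd⟩ := hd
      rw [lenok, hd] at hla
      have hlen : l.length = l'.length ∧ 0 < l.length := by
        by_contra hc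
        rw [if_neg hc] at hla
        exact one_ne_zero hla
      have hl : l ≠ [] := List.ne_nil_of_length_pos hlen.2
      have hl' : l' ≠ [] := List.ne_nil_of_length_pos (hlen.1 ▸ hlen.2)
      have hcode : a.unpair.2 = Encodable.encode (l, l') := encode_dc hd
      have hst : STy σ R R' l l' := by
        rw [hcode] at hta
        exact (ht0 l l').1 hta
      rcases Nat.mod_two_eq_zero_or_one a.unpair.1 with hm | hm
      · obtain ⟨b, hb⟩ := sty_extend h' hl hlen.1 hst (a.unpair.1 / 2)
        refine ⟨b, ?_⟩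
        rw [hpe]
        have : nx (Nat.pair a b) = Encodable.encode (l ++ [a.unpair.1 / 2], l' ++ [b]) := by
          rw [nx]
          simp only [Nat.unpair_pair]
          rw [if_pos hm, hd]
        rw [this, ht0' _ _ hb, zero_mul]
      · obtain ⟨b, hb⟩ := sty_extend h hl' hlen.1.symm hst.symm (a.unpair.1 / 2)
        refine ⟨b, ?_⟩
        rw [hpe]
        have : nx (Nat.pair a b) = Encodable.encode (l ++ [b], l' ++ [a.unpair.1 / 2]) := by
          rw [nx]
          simp only [Nat.unpair_pair]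
          rw [if_neg (by omega), hd]
        rw [this, ht0' _ _ hb.symm, zero_mul]
    · refine ⟨0, ?_⟩
      rw [hpe]
      have : 1 - (t a.unpair.2 + lenok a.unpair.2) = 0 := by omega
      rw [this, mul_zero]
  obtain ⟨F, hF, hFs⟩ : ∃ F : ℕ → ℕ, Rc haltFn F ∧
      ∀ a, t (nx (Nat.pair a (F a))) * (1 - (t a.unpair.2 + lenok a.unpair.2)) = 0 :=
    ⟨fun a => Nat.find (hex a), Rc.find hp hex, fun a => (hpe _ _).symm.trans (Nat.find_spec (hex a))⟩
  have hG : Rc haltFn (fun a => nx (Nat.pair a (F a))) :=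
    (Rc.of_computable nx_prim.to_comp).comp ((Rc.of_computable Computable.id).pair hF)
  obtain ⟨st, hst, hst0, hstS⟩ : ∃ st : ℕ → ℕ, Rc haltFn st ∧ st 0 = Encodable.encode (([0] : List ℕ), [b₀]) ∧
      ∀ n, st (n + 1) = nx (Nat.pair (Nat.pair n (st n)) (F (Nat.pair n (st n)))) :=
    ⟨fun n => Nat.rec (Encodable.encode (([0] : List ℕ), [b₀]))
      (fun i r => nx (Nat.pair (Nat.pair i r) (F (Nat.pair i r)))) n, Rc.iter hG _, rfl, fun n => rfl⟩
  refine ⟨st, hst, ?_, fun n => ⟨_, hstS n⟩⟩
  intro n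
  induction n with
  | zero =>
    rw [hst0, dc_encode]
    exact ⟨rfl, rfl, hb₀⟩
  | succ n ih =>
    rw [hstS]
    generalize st n = s at *
    have h5 := hFs (Nat.pair n s)
    rw [Nat.unpair_pair] at h5
    simp only at h5
    have hd : ∃ p : List ℕ × List ℕ, dc s = p := ⟨_, rfl⟩
    obtain ⟨⟨l, l'⟩, hd⟩ := hd
    rw [hd] at ih
    have hl : l ≠ [] := List.ne_nil_of_length_pos (by rw [ih.l1]; exact Nat.succ_pos n)
    have hcode : s = Encodable.encode (l, l') := encode_dc hd
    have hts : t s = 0 := by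
      rw [hcode]; exact ht0' _ _ ih.ty
    have hls : lenok s = 0 := by
      rw [lenok, hd, if_pos]
      exact ⟨by rw [ih.l1, ih.l2], by rw [ih.l1]; exact Nat.succ_pos n⟩
    rw [hts, hls] at h5
    simp only [Nat.add_zero, Nat.sub_zero, mul_one] at h5
    rcases Nat.mod_two_eq_zero_or_one n with hm | hm
    · have e : nx (Nat.pair (Nat.pair n s) (F (Nat.pair n s))) =
          Encodable.encode (l ++ [n / 2], l' ++ [F (Nat.pair n s)]) := by
        rw [nx]
        simp only [Nat.unpair_pair]
        rw [if_pos hm, hd]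
      rw [e] at h5 ⊢
      rw [dc_encode]
      exact ⟨by simp [ih.l1], by simp [ih.l2], (ht0 _ _).1 h5⟩
    · have e : nx (Nat.pair (Nat.pair n s) (F (Nat.pair n s))) =
          Encodable.encode (l ++ [F (Nat.pair n s)], l' ++ [n / 2]) := by
        rw [nx]
        simp only [Nat.unpair_pair]
        rw [if_neg (by omega), hd]
      rw [e] at h5 ⊢
      rw [dc_encode]
      exact ⟨by simp [ih.l1], by simp [ih.l2], (ht0 _ _).1 h5⟩

theorem iso_halt {R R' : Str ℕ} (hR : DecidableStr σ R) (hR' : DecidableStr σ R')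
    (h : OmegaSat σ R) (h' : OmegaSat σ R')
    (h₀ : ∀ φ : Fml, φ.fv = ∅ → ∀ v v' : ℕ → ℕ, Sat σ R v φ ↔ Sat σ R' v' φ) :
    ∃ e : ℕ ≃ ℕ, IsIso σ R R' e ∧ Rc haltFn e := by
  obtain ⟨st, hst, hv, hstep⟩ := iter_states hR hR' h h' h₀
  -- the two sequences
  have hS : ∀ n, ∃ x, dc (st (n + 1)) = if n % 2 = 0 then ((dc (st n)).1 ++ [n / 2], (dc (st n)).2 ++ [x])
      else ((dc (st n)).1 ++ [x], (dc (st n)).2 ++ [n / 2]) := by
    intro n
    obtain ⟨x, hx⟩ := hstep n
    refine ⟨x, ?_⟩
    rw [hx, nx, dc_encode]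
    simp only [Nat.unpair_pair]
  have hpre : ∀ n i, i < n + 1 → (dc (st (n + 1))).1.getD i 0 = (dc (st n)).1.getD i 0 ∧
      (dc (st (n + 1))).2.getD i 0 = (dc (st n)).2.getD i 0 := by
    intro n i hi
    obtain ⟨x, hx⟩ := hS n
    have l1 := (hv n).l1
    have l2 := (hv n).l2
    rw [hx]
    split_ifs with hm
    · exact ⟨List.getD_append _ _ _ _ (by omega), List.getD_append _ _ _ _ (by omega)⟩
    · exact ⟨List.getD_append _ _ _ _ (by omega), List.getD_append _ _ _ _ (by omega)⟩
  set a : ℕ → ℕ := fun i => (dc (st i)).1.getD i 0 with had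
  set b : ℕ → ℕ := fun i => (dc (st i)).2.getD i 0 with hbd
  have hab' : ∀ i r, (dc (st (i + r))).1.getD i 0 = a i ∧ (dc (st (i + r))).2.getD i 0 = b i := by
    intro i r
    induction r with
    | zero => exact ⟨rfl, rfl⟩
    | succ r ih =>
      have := hpre (i + r) i (by omega)
      exact ⟨this.1.trans ih.1, this.2.trans ih.2⟩
  have haO : ∀ k, a (2 * k + 1) = k := by
    intro k
    obtain ⟨x, hx⟩ := hS (2 * k)
    have l1 := (hv (2 * k)).l1
    show (dc (st (2 * k + 1))).1.getD (2 * k + 1) 0 = k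
    rw [hx, if_pos (by omega)]
    show ((dc (st (2 * k))).1 ++ [2 * k / 2]).getD (2 * k + 1) 0 = k
    rw [List.getD_append_right _ _ _ _ (by omega), l1]
    simp
  have hbE : ∀ k, b (2 * k + 1 + 1) = k := by
    intro k
    obtain ⟨x, hx⟩ := hS (2 * k + 1)
    have l2 := (hv (2 * k + 1)).l2
    show (dc (st (2 * k + 1 + 1))).2.getD (2 * k + 1 + 1) 0 = k
    rw [hx, if_neg (by omega)]
    show ((dc (st (2 * k + 1))).2 ++ [(2 * k + 1) / 2]).getD (2 * k + 1 + 1) 0 = k
    rw [List.getD_append_right _ _ _ _ (by omega), l2]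
    simp
    omega
  have hgetD : ∀ (l : List ℕ) (i d : ℕ), i < l.length → l.getD i d = l.getD i 0 := by
    intro l i d hi
    rw [List.getD_eq_getElem _ _ hi, List.getD_eq_getElem _ _ hi]
  have hall : ∀ φ : Fml, Sat σ R a φ ↔ Sat σ R' b φ := by
    intro φ
    have hc := hv φ.code
    have e1 : ∀ i ∈ φ.fv, a i = (dc (st φ.code)).1.getD i ((dc (st φ.code)).1.headD 0) := by
      intro i hi
      have hlt := fv_lt_code φ i hi
      obtain ⟨r, hr⟩ := Nat.exists_eq_add_of_le hlt.le
      rw [hgetD _ _ _ (by rw [hc.l1]; omega), hr]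
      exact (hab' i r).1.symm
    have e2 : ∀ i ∈ φ.fv, b i = (dc (st φ.code)).2.getD i ((dc (st φ.code)).2.headD 0) := by
      intro i hi
      have hlt := fv_lt_code φ i hi
      obtain ⟨r, hr⟩ := Nat.exists_eq_add_of_le hlt.le
      rw [hgetD _ _ _ (by rw [hc.l2]; omega), hr]
      exact (hab' i r).2.symm
    rw [sat_congr φ e1, sat_congr φ e2]
    exact hc.ty φ
  have hab : ∀ i j, a i = a j ↔ b i = b j := fun i j => hall (.eq i j)
  have he : ∀ i, b (2 * a i + 1) = b i := fun i => (hab _ _).1 (haO (a i))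
  have hbij : Bijective fun x => b (2 * x + 1) := by
    constructor
    · intro x y hxy
      have := (hab (2 * x + 1) (2 * y + 1)).2 hxy
      rwa [haO, haO] at this
    · intro y
      exact ⟨a (2 * y + 1 + 1), (he _).trans (hbE y)⟩
  have hmap : ∀ l : List ℕ, (l.map fun x => 2 * x + 1).map a = l := by
    intro l
    rw [List.map_map]
    conv_rhs => rw [← List.map_id l]
    exact List.map_congr_left fun x _ => haO x
  have hmap' : ∀ l : List ℕ, (l.map fun x => 2 * x + 1).map b = l.map (Equiv.ofBijective _ hbij) := by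
    intro l
    rw [List.map_map]
    rfl
  refine ⟨Equiv.ofBijective _ hbij, ⟨fun r n hr l hl => ?_, fun f n hf l hl => ?_⟩, ?_⟩
  · have h1 := hall (.rel r (l.map fun x => 2 * x + 1))
    rw [sat_rel, sat_rel, hmap, hmap', List.length_map, hl] at h1
    exact ⟨fun h2 => (h1.1 ⟨hr, h2⟩).2, fun h2 => (h1.2 ⟨hr, h2⟩).2⟩
  · have h1 := hall (.fn f (l.map fun x => 2 * x + 1) (2 * R.fn f l + 1))
    rw [sat_fn, sat_fn, hmap, hmap', List.length_map, hl, haO] at h1
    exact (h1.1 ⟨hf, rfl⟩).2.symm
  · have h2 : Primrec fun x : ℕ => 2 * x + 1 :=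
      Primrec.succ.comp (Primrec.nat_mul.comp (Primrec.const 2) Primrec.id)
    have h3 : Primrec fun m : ℕ => (dc m.unpair.1).2.getD m.unpair.2 0 :=
      (Primrec.list_getD 0).comp (Primrec.snd.comp (dc_prim.comp (Primrec.fst.comp Primrec.unpair)))
        (Primrec.snd.comp Primrec.unpair)
    have h4 := (Rc.of_computable (g := haltFn) h3.to_comp).comp
      ((hst.comp (Rc.of_computable h2.to_comp)).pair (Rc.of_computable h2.to_comp))
    simp only [Nat.unpair_pair] at h4
    exact h4

end Pool.Agent.BLE
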