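import Pool.Agent.BLE.FA
import Pool.Agent.BLE.FB
import Pool.Agent.BLE.JD
import Pool.Agent.DP.Comp

/-!
# BLE / FC: the final theorem
-/

set_option autoImplicit false

namespace Pool.Agent.BLE

open Function

variable {σ : Sig} {T : Set Fml}

/-- models of a complete theory satisfy the same sentences -/
theorem same_sentences (hT : CompleteTheory σ T) {M M' : Type} {S : Str M} {S' : Str M'}
    (hS : Models σ S T) (hS' : Models σ S' T) (φ : Fml) (hφ : φ.fv = ∅) (v : ℕ → M)
    (v' : ℕ → M') : Sat σ S v φ ↔ Sat σ S' v' φ := by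
  rcases hT.complete φ hφ with h | h
  · exact ⟨fun _ => hS' φ h v', fun _ => hS φ h v⟩
  · have h1 := hS _ h v
    have h2 := hS' _ h v'
    simp only [sat_imp, sat_bot] at h1 h2
    exact ⟨fun h => (h1 h).elim, fun h => (h2 h).elim⟩

/-- the requirements on the presentations -/
structure Pres (σ : Sig) (T : Set Fml) (R : Str ℕ) : Prop where
  models : Models σ R T
  sat : OmegaSat σ R
  comp : ComputableStr σ R
  dec : DecidableStr σ R

/-- `R` avoids `R'`: every bound of an elementary map `R → R'` computes the halting set -/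
def Avoids (σ : Sig) (R R' : Str ℕ) : Prop :=
  ∀ e : ℕ → ℕ, ElemMap σ R R' e → ∀ h : ℕ → ℕ, (∀ x, e x ≤ h x) → ComputesHalt h

theorem exists_avoids (hσ : σ.Effective) (hT : CompleteTheory σ T)
    (hu : UncountablyCategorical σ T) (hd : DecidableTheory T) (J : ℕ → Prop) (A : ℕ → Str ℕ)
    (hA : UDecidable σ J A) : ∃ R : Str ℕ, Pres σ T R ∧ ∀ j, J j → Avoids σ R (A j) := by
  obtain ⟨R, b, pos, hb, hpos, hm, hs, hdec, hcomp, hav⟩ :=
    exists_avoiding hσ hT hu hd J A hA
  refine ⟨R, ⟨hm, hs, hcomp, hdec⟩, fun j hj e he h hle => ?_⟩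
  refine computesHalt_of h b pos j hb hpos fun n hn => ?_
  obtain ⟨i, hi, h1⟩ := hav j hj e he n hn
  refine ⟨i, hi, ?_⟩
  obtain ⟨x, hx⟩ := Option.isSome_iff_exists.1 h1
  exact Option.isSome_iff_exists.2 ⟨x, Nat.Partrec.Code.evaln_mono
    (Nat.add_le_add_left (hle _) j) hx⟩

/-- finitely many decidable structures are uniformly decidable -/
theorem uDecidable_list (A : ℕ → Str ℕ) (n : ℕ) (h : ∀ j < n, DecidableStr σ (A j)) :
    UDecidable σ (fun j => j < n) A := by
  induction n with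
  | zero =>
    exact DP.CP.of_eq (DP.CP.const False) fun p => by simp
  | succ n ih =>
    have h1 := ih fun j hj => h j (by omega)
    have h2 : ComputablePred fun p : ℕ × ℕ × List ℕ =>
        ∃ φ : Fml, φ.code = p.2.1 ∧ Sat σ (A n) (fun i => p.2.2.getD i 0) φ :=
      DP.CP.comp (p := fun q : ℕ × List ℕ => ∃ φ : Fml, φ.code = q.1 ∧
        Sat σ (A n) (fun i => q.2.getD i 0) φ) (h n (by omega)) Computable.snd
    have h3 : ComputablePred fun p : ℕ × ℕ × List ℕ => p.1 = n :=
      DP.CP.eq Computable.fst (Computable.const n)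
    refine DP.CP.of_eq (DP.CP.or h1 (DP.CP.and h3 h2)) fun p => ?_
    constructor
    · rintro ⟨hp, hq⟩
      rcases Nat.lt_succ_iff_lt_or_eq.1 hp with hp | hp
      · exact Or.inl ⟨hp, hq⟩
      · subst hp
        exact Or.inr ⟨rfl, hq⟩
    · rintro (⟨hp, hq⟩ | ⟨hp, hq⟩)
      · exact ⟨by omega, hq⟩
      · rw [hp]
        exact ⟨by omega, hq⟩

/-- an infinite sequence of presentations, each of which avoids all the previous ones -/
theorem exists_sequence (hσ : σ.Effective) (hT : CompleteTheory σ T)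
    (hu : UncountablyCategorical σ T) (hd : DecidableTheory T) :
    ∃ R : ℕ → Str ℕ, (∀ n, Pres σ T (R n)) ∧ ∀ m n, m < n → Avoids σ (R n) (R m) := by
  classical
  have step : ∀ l : List (Str ℕ), ∃ R : Str ℕ, (∀ R' ∈ l, DecidableStr σ R') →
      Pres σ T R ∧ ∀ R' ∈ l, Avoids σ R R' := by
    intro l
    by_cases hl : ∀ R' ∈ l, DecidableStr σ R'
    · have R₀ : Str ℕ := ⟨fun _ _ => False, fun _ _ => 0⟩
      obtain ⟨R, hR, hav⟩ := exists_avoids hσ hT hu hd (fun j => j < l.length)
        (fun j => l.getD j R₀) (uDecidable_list _ _ fun j hj => by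
          rw [List.getD_eq_getElem _ _ hj]
          exact hl _ (List.getElem_mem hj))
      refine ⟨R, fun _ => ⟨hR, fun R' hR' => ?_⟩⟩
      obtain ⟨j, hj, rfl⟩ := List.getElem_of_mem hR'
      have := hav j hj
      rwa [List.getD_eq_getElem _ _ hj] at this
    · exact ⟨⟨fun _ _ => False, fun _ _ => 0⟩, fun h => absurd h hl⟩
  choose G hG using step
  let L : ℕ → List (Str ℕ) := fun n => Nat.rec [] (fun _ l => G l :: l) n
  have hL0 : L 0 = [] := rfl
  have hLs : ∀ n, L (n + 1) = G (L n) :: L n := fun n => rfl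
  have hdec : ∀ n, ∀ R' ∈ L n, DecidableStr σ R' := by
    intro n
    induction n with
    | zero => simp [hL0]
    | succ n ih =>
      intro R' hR'
      rw [hLs, List.mem_cons] at hR'
      rcases hR' with rfl | hR'
      · exact (hG (L n) ih).1.dec
      · exact ih R' hR'
  refine ⟨fun n => G (L n), fun n => (hG (L n) (hdec n)).1, fun m n hmn => ?_⟩
  refine (hG (L n) (hdec n)).2 _ ?_
  induction n with
  | zero => omega
  | succ n ih =>
    rw [hLs, List.mem_cons]
    rcases Nat.lt_succ_iff_lt_or_eq.1 hmn with h | h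
    · exact Or.inr (ih h)
    · exact Or.inl (by rw [h])

theorem elem_of_iso {R R' : Str ℕ} {e : ℕ ≃ ℕ} (h : IsIso σ R R' e) : ElemMap σ R R' e :=
  fun φ v => sat_iso h φ v

theorem main_theorem (σ : Sig) (hσ : σ.Effective) (T : Set Fml) (hT : CompleteTheory σ T)
    (hu : UncountablyCategorical σ T) (hd : DecidableTheory T) :
    (∀ (M M' : Type) [Countable M] [Countable M'] [Nonempty M] [Nonempty M'] (S : Str M)
      (S' : Str M'), Models σ S T → Models σ S' T → OmegaSat σ S → OmegaSat σ S' →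
      Isom σ S S') ∧
    (∀ (J : ℕ → Prop) (A : ℕ → Str ℕ), UDecidable σ J A →
      ∃ R : Str ℕ, Pres σ T R ∧ ∀ j, J j → Avoids σ R (A j)) ∧
    (∃ R : ℕ → Str ℕ, (∀ n, Pres σ T (R n)) ∧ (∀ m n, m < n → Avoids σ (R n) (R m)) ∧
      (∀ m n, m ≠ n → (∀ e : ℕ ≃ ℕ, IsIso σ (R m) (R n) e → ComputesHalt e) ∧
        ¬ ComputablyIsom σ (R m) (R n))) ∧
    (∀ R R' : Str ℕ, Pres σ T R → Pres σ T R' →
      ∃ e : ℕ ≃ ℕ, IsIso σ R R' e ∧ Rc haltFn e) := by
  refine ⟨fun M M' _ _ _ _ S S' hS hS' h h' => unique_sat hT hS hS' h h',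
    fun J A hA => exists_avoids hσ hT hu hd J A hA, ?_, ?_⟩
  · obtain ⟨R, hR, hav⟩ := exists_sequence hσ hT hu hd
    have key : ∀ m n, m ≠ n → ∀ e : ℕ ≃ ℕ, IsIso σ (R m) (R n) e → ComputesHalt e := by
      intro m n hmn e he
      rcases Nat.lt_or_gt_of_ne hmn with h | h
      · refine computesHalt_symm ?_
        exact hav m n h e.symm (elem_of_iso he.symm) e.symm fun x => le_rfl
      · exact hav n m h e (elem_of_iso he) e fun x => le_rfl
    refine ⟨R, hR, hav, fun m n hmn => ⟨key m n hmn, ?_⟩⟩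
    rintro ⟨e, he, hc⟩
    exact not_computable_of (key m n hmn e he) hc
  · intro R R' hR hR'
    exact iso_halt hR.dec hR'.dec hR.sat hR'.sat
      fun φ hφ v v' => same_sentences hT hR.models hR'.models φ hφ v v'

end Pool.Agent.BLE
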