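import Pool.Agent.BLE.GA

/-!
# BLE / GB: exchange in strongly minimal sets
-/

set_option autoImplicit false

namespace Pool.Agent.BLE

open Function

variable {σ : Sig} {M : Type} {S : Str M} {B D : Set M} [Nonempty M]

theorem exchange (hD : Df1 σ S B D) (hs : SMin σ S D) {b c : M} (hc : c ∈ D)
    (h1 : b ∈ acl σ S (insert c B)) (h2 : b ∉ acl σ S B) : c ∈ acl σ S (insert b B) := by
  classical
  by_contra hcn
  obtain ⟨R, k, hR, hbc, hk⟩ := mem_acl_insert.1 h1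
  have hT : Df2 σ S B fun x y => y ∈ D ∧ R x y ∧ y ∈ {y | {x' | R x' y}.encard ≤ (k : ℕ∞)} :=
    (Df2.snd hD).and (hR.and (Df2.snd (hR.count_le k)))
  have hT' : Df2 σ S B fun x y => y ∈ D ∧
      ¬ (y ∈ D ∧ R x y ∧ y ∈ {y | {x' | R x' y}.encard ≤ (k : ℕ∞)}) :=
    (Df2.snd hD).and hT.not
  have hY : Df1 σ S (insert b B)
      {y | y ∈ D ∧ R b y ∧ y ∈ {y | {x' | R x' y}.encard ≤ (k : ℕ∞)}} :=
    hT.swap.slice (Set.subset_insert b B) (Set.mem_insert b B)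
  have hYinf : {y | y ∈ D ∧ R b y ∧ y ∈ {y | {x' | R x' y}.encard ≤ (k : ℕ∞)}}.Infinite :=
    fun hfin => hcn ⟨_, hY, hfin, hc, hbc, hk⟩
  have hfin : (D \ {y | y ∈ D ∧ R b y ∧
      y ∈ {y | {x' | R x' y}.encard ≤ (k : ℕ∞)}}).Finite := by
    refine (hs.2 _ (hY.mono (Set.subset_univ _))).resolve_left fun h3 => hYinf (h3.subset ?_)
    exact fun y hy => ⟨hy.1, hy⟩
  obtain ⟨l, hl⟩ : ∃ l : ℕ, (D \ {y | y ∈ D ∧ R b y ∧
      y ∈ {y | {x' | R x' y}.encard ≤ (k : ℕ∞)}}).encard ≤ (l : ℕ∞) :=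
    ⟨_, hfin.encard_eq_coe_toFinset_card.le⟩
  have hW : Df1 σ S B {x | {y | y ∈ D ∧
      ¬ (y ∈ D ∧ R x y ∧ y ∈ {y | {x' | R x' y}.encard ≤ (k : ℕ∞)})}.encard ≤ (l : ℕ∞)} :=
    hT'.swap.count_le l
  have hWinf : {x | {y | y ∈ D ∧
      ¬ (y ∈ D ∧ R x y ∧ y ∈ {y | {x' | R x' y}.encard ≤ (k : ℕ∞)})}.encard ≤
        (l : ℕ∞)}.Infinite := fun h3 => h2 ⟨_, hW, h3, hl⟩
  obtain ⟨t, ht, htc⟩ := hWinf.exists_subset_card_eq (k + 1)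
  have hUfin : (⋃ x ∈ t, {y | y ∈ D ∧
      ¬ (y ∈ D ∧ R x y ∧ y ∈ {y | {x' | R x' y}.encard ≤ (k : ℕ∞)})}).Finite := by
    refine Set.Finite.biUnion t.finite_toSet fun x hx => ?_
    have h3 := ht hx
    exact Set.finite_of_encard_le_coe h3
  obtain ⟨y, hyD, hyU⟩ := hs.1.exists_notMem_finite hUfin
  have hy : ∀ x ∈ t, R x y ∧ {x' | R x' y}.encard ≤ (k : ℕ∞) := by
    intro x hx
    by_contra h3
    apply hyU
    refine Set.mem_biUnion (Finset.mem_coe.2 hx) ⟨hyD, fun h4 => h3 ⟨h4.2.1, h4.2.2⟩⟩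
  obtain ⟨x₀, hx₀⟩ : t.Nonempty := Finset.card_pos.1 (by omega)
  have h4 : (t : Set M).encard ≤ (k : ℕ∞) :=
    (Set.encard_le_encard fun x hx => (hy x hx).1).trans (hy x₀ hx₀).2
  rw [Set.encard_coe_eq_coe_finsetCard, htc] at h4
  have h5 : k + 1 ≤ k := by exact_mod_cast h4
  omega

end Pool.Agent.BLE
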