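import Pool.Agent.BLE.Dfn

/-!
# BLE / GC: Steinitz (pure combinatorics)

`cl` is a closure operator with exchange for elements of `G`.
* `gc_insert`: an independent set together with an element outside of its closure is independent.
* `gc_one`: after adding one element to the base all but at most one of the elements of an
  independent set remain independent; `base_change` is the iteration, and `steinitz` follows.
* `exists_max_ind`: an independent subset with the maximal number of elements.
* `seq_to_set`, `set_to_seq`: induction with `gc_insert`, monotonicity.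
-/

set_option autoImplicit false

namespace Pool.Agent.BLE

open Function

variable {M : Type}

/-- closure operator with exchange on `G` -/
structure Pre (cl : Set M → Set M) (G : Set M) : Prop where
  mono : ∀ {A B : Set M}, A ⊆ B → cl A ⊆ cl B
  sub : ∀ A, A ⊆ cl A
  idem : ∀ A, cl (cl A) ⊆ cl A
  ex : ∀ (B : Set M) (b c : M), b ∈ G → c ∈ G → b ∈ cl (insert c B) → b ∉ cl B →
    c ∈ cl (insert b B)

/-- the set `X` is independent over `B` -/
def IndSet (cl : Set M → Set M) (B X : Set M) : Prop := ∀ x ∈ X, x ∉ cl (B ∪ (X \ {x}))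

private theorem gc_trans {cl : Set M → Set M} {G : Set M} (h : Pre cl G) {A B : Set M}
    (hAB : A ⊆ cl B) : cl A ⊆ cl B := (h.mono hAB).trans (h.idem B)

private theorem gc_insert {cl : Set M → Set M} {G : Set M} (h : Pre cl G) {B X : Set M} {x : M}
    (hX : X ⊆ G) (hx : x ∈ G) (hi : IndSet cl B X) (hn : x ∉ cl (B ∪ X)) :
    IndSet cl B (insert x X) := by
  intro z hz hcl
  by_cases hzx : z = x
  · subst hzx
    apply hn
    refine h.mono (Set.union_subset_union_right B ?_) hcl
    rintro w ⟨hw1, hw2⟩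
    rcases hw1 with hw1 | hw1
    · exact absurd hw1 hw2
    · exact hw1
  · have hzX : z ∈ X := hz.resolve_left hzx
    have h1 : z ∈ cl (insert x (B ∪ (X \ {z}))) := by
      refine h.mono ?_ hcl
      rintro w (hw | ⟨hw1 | hw1, hw2⟩)
      · exact Or.inr (Or.inl hw)
      · exact Or.inl hw1
      · exact Or.inr (Or.inr ⟨hw1, hw2⟩)
    have h2 := h.ex (B ∪ (X \ {z})) z x (hX hzX) hx h1 (hi z hzX)
    apply hn
    refine h.mono ?_ h2
    rintro w (hw | hw | hw)
    · exact Or.inr (by rw [hw]; exact hzX)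
    · exact Or.inl hw
    · exact Or.inr hw.1

open Classical in
private theorem gc_one {cl : Set M → Set M} {G : Set M} (h : Pre cl G) (B : Set M) (X : Finset M)
    {y : M} (hX : (X : Set M) ⊆ G) (hy : y ∈ G) (hi : IndSet cl B X) :
    ∃ X' ⊆ X, IndSet cl (insert y B) X' ∧ X.card ≤ X'.card + 1 := by
  -- the main exchange step
  have step : ∀ X' : Finset M, X' ⊆ X → ∀ x ∈ X', x ∈ cl (insert y B ∪ ((X' : Set M) \ {x})) →
      y ∈ cl (B ∪ (X' : Set M)) := by
    intro X' hX' x hx hcl
    have h1 : x ∈ cl (insert y (B ∪ ((X' : Set M) \ {x}))) := by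
      refine h.mono ?_ hcl
      rw [Set.insert_union]
    have h2 : x ∉ cl (B ∪ ((X' : Set M) \ {x})) := by
      intro h3
      refine hi x (hX' hx) (h.mono (Set.union_subset_union_right B ?_) h3)
      exact Set.sdiff_subset_sdiff_left (Finset.coe_subset.2 hX')
    have h3 := h.ex _ x y (hX (hX' hx)) hy h1 h2
    refine h.mono ?_ h3
    rintro w (hw | hw | hw)
    · exact Or.inr (by rw [hw]; exact hx)
    · exact Or.inl hw
    · exact Or.inr hw.1
  by_cases hyX : y ∈ cl (B ∪ (X : Set M))
  · obtain ⟨X₀, hX₀, hmin⟩ := Finset.exists_min_image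
      (X.powerset.filter fun Z : Finset M => y ∈ cl (B ∪ (Z : Set M))) Finset.card
      ⟨X, Finset.mem_filter.2 ⟨Finset.mem_powerset.2 (Finset.Subset.refl X), hyX⟩⟩
    have hX₀X : X₀ ⊆ X := Finset.mem_powerset.1 (Finset.mem_filter.1 hX₀).1
    have hyX₀ : y ∈ cl (B ∪ (X₀ : Set M)) := (Finset.mem_filter.1 hX₀).2
    rcases X₀.eq_empty_or_nonempty with h0 | ⟨x₀, hx₀⟩
    · refine ⟨X, Finset.Subset.refl X, fun x hx hcl => ?_, Nat.le_succ _⟩
      have hyB : y ∈ cl B := by
        rw [h0, Finset.coe_empty, Set.union_empty] at hyX₀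
        exact hyX₀
      refine hi x hx (gc_trans h ?_ hcl)
      rintro w ((hw | hw) | hw)
      · rw [hw]
        exact h.mono Set.subset_union_left hyB
      · exact h.sub _ (Or.inl hw)
      · exact h.sub _ (Or.inr hw)
    · have hn : y ∉ cl (B ∪ ((X₀.erase x₀ : Finset M) : Set M)) := by
        intro h3
        have h4 := hmin (X₀.erase x₀) (Finset.mem_filter.2 ⟨Finset.mem_powerset.2
          ((Finset.erase_subset _ _).trans hX₀X), h3⟩)
        have h5 := Finset.card_erase_lt_of_mem hx₀
        omega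
      have h1 : y ∈ cl (insert x₀ (B ∪ ((X₀.erase x₀ : Finset M) : Set M))) := by
        refine h.mono ?_ hyX₀
        rintro w (hw | hw)
        · exact Or.inr (Or.inl hw)
        · by_cases hwx : w = x₀
          · exact Or.inl hwx
          · exact Or.inr (Or.inr (Finset.mem_coe.2 (Finset.mem_erase.2 ⟨hwx, hw⟩)))
      have h2 := h.ex _ y x₀ hy (hX (hX₀X hx₀)) h1 hn
      refine ⟨X.erase x₀, Finset.erase_subset _ _, fun x hx hcl => ?_, ?_⟩
      · have h3 := step (X.erase x₀) (Finset.erase_subset _ _) x hx hcl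
        refine hi x₀ (hX₀X hx₀) ?_
        have h4 : ((X.erase x₀ : Finset M) : Set M) = (X : Set M) \ {x₀} := Finset.coe_erase _ _
        rw [← h4]
        refine gc_trans h ?_ h2
        rintro w (hw | hw | hw)
        · rw [hw]
          exact h3
        · exact h.sub _ (Or.inl hw)
        · exact h.sub _ (Or.inr (Finset.coe_subset.2 (Finset.erase_subset_erase _ hX₀X) hw))
      · rw [Finset.card_erase_of_mem (hX₀X hx₀)]
        omega
  · exact ⟨X, Finset.Subset.refl X, fun x hx hcl => hyX (step X (Finset.Subset.refl X) x hx hcl),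
      Nat.le_succ _⟩

open Classical in
private theorem gc_bc {cl : Set M → Set M} {G : Set M} (h : Pre cl G) (F : Finset M) :
    ∀ (B : Set M) (X : Finset M), (X : Set M) ⊆ G → (F : Set M) ⊆ G → IndSet cl B X →
    ∃ X' ⊆ X, IndSet cl (B ∪ F) X' ∧ X.card ≤ X'.card + F.card := by
  induction F using Finset.induction_on with
  | empty =>
    intro B X _ _ hi
    refine ⟨X, Finset.Subset.refl X, ?_, Nat.le_add_right _ _⟩
    rw [Finset.coe_empty, Set.union_empty]
    exact hi
  | insert y F hyF ih =>
    intro B X hX hF hi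
    obtain ⟨X₁, hX₁, hi₁, hc₁⟩ := gc_one h B X hX
      (hF (Finset.mem_coe.2 (Finset.mem_insert_self y F))) hi
    obtain ⟨X', hX', hi', hc'⟩ := ih (insert y B) X₁ ((Finset.coe_subset.2 hX₁).trans hX)
      ((Finset.coe_subset.2 (Finset.subset_insert y F)).trans hF) hi₁
    refine ⟨X', hX'.trans hX₁, ?_, ?_⟩
    · have h1 : B ∪ ((insert y F : Finset M) : Set M) = insert y B ∪ (F : Set M) := by
        rw [Finset.coe_insert, Set.union_insert, Set.insert_union]
      rw [h1]
      exact hi'
    · rw [Finset.card_insert_of_notMem hyF]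
      omega

open Classical in
theorem steinitz {cl : Set M → Set M} {G : Set M} (h : Pre cl G) (B : Set M) (X Y : Finset M)
    (hX : (X : Set M) ⊆ G) (hY : (Y : Set M) ⊆ G) (hi : IndSet cl B X)
    (hs : (X : Set M) ⊆ cl (B ∪ Y)) : X.card ≤ Y.card := by
  obtain ⟨X', hX', hi', hc⟩ := gc_bc h Y B X hX hY hi
  have h0 : X' = ∅ := by
    rw [Finset.eq_empty_iff_forall_notMem]
    intro x hx
    exact hi' x hx (h.mono Set.subset_union_left (hs (hX' hx)))
  rw [h0, Finset.card_empty, zero_add] at hc
  exact hc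

open Classical in
theorem exists_max_ind {cl : Set M → Set M} {G : Set M} (h : Pre cl G) (B : Set M)
    (X : Finset M) (hX : (X : Set M) ⊆ G) :
    ∃ X' ⊆ X, IndSet cl B X' ∧ (X : Set M) ⊆ cl (B ∪ X') := by
  obtain ⟨X', hX', hmax⟩ := Finset.exists_max_image
    (X.powerset.filter fun Z : Finset M => IndSet cl B (Z : Set M)) Finset.card
    ⟨∅, Finset.mem_filter.2 ⟨Finset.empty_mem_powerset X, fun x hx => by
      rw [Finset.coe_empty] at hx
      exact absurd hx (Set.notMem_empty x)⟩⟩
  have hX'X : X' ⊆ X := Finset.mem_powerset.1 (Finset.mem_filter.1 hX').1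
  have hi : IndSet cl B (X' : Set M) := (Finset.mem_filter.1 hX').2
  refine ⟨X', hX'X, hi, fun x hx => ?_⟩
  by_contra hn
  have hxX' : x ∉ X' := fun h1 => hn (h.sub _ (Or.inr h1))
  have h1 : IndSet cl B ((insert x X' : Finset M) : Set M) := by
    rw [Finset.coe_insert]
    exact gc_insert h ((Finset.coe_subset.2 hX'X).trans hX) (hX hx) hi hn
  have h2 := hmax (insert x X') (Finset.mem_filter.2 ⟨Finset.mem_powerset.2
    (Finset.insert_subset hx hX'X), h1⟩)
  rw [Finset.card_insert_of_notMem hxX'] at h2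
  omega

open Classical in
theorem base_change {cl : Set M → Set M} {G : Set M} (h : Pre cl G) (B : Set M) (X F : Finset M)
    (hX : (X : Set M) ⊆ G) (hF : (F : Set M) ⊆ G) (hi : IndSet cl B X) :
    ∃ X' ⊆ X, IndSet cl (B ∪ F) X' ∧ X.card ≤ X'.card + F.card := by
  exact gc_bc h F B X hX hF hi

theorem seq_to_set {cl : Set M → Set M} {G : Set M} (h : Pre cl G) (B : Set M) {n : ℕ}
    (e : Fin n → M) (he : ∀ i, e i ∈ G) (hi : ∀ i, e i ∉ cl (B ∪ e '' {j | j < i})) :
    Injective e ∧ IndSet cl B (Set.range e) := by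
  constructor
  · have key : ∀ i j : Fin n, i < j → e i ≠ e j := by
      intro i j hij heq
      exact hi j (h.sub _ (Or.inr ⟨i, hij, heq⟩))
    intro i j heq
    rcases lt_trichotomy i j with h1 | h1 | h1
    · exact absurd heq (key i j h1)
    · exact h1
    · exact absurd heq.symm (key j i h1)
  · induction n with
    | zero =>
      rintro x ⟨i, _⟩
      exact i.elim0
    | succ n ih =>
      have h1 : Set.range e = insert (e (Fin.last n)) (Set.range fun i : Fin n => e i.castSucc) := by
        ext x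
        constructor
        · rintro ⟨i, rfl⟩
          refine Fin.lastCases ?_ (fun i => ?_) i
          · exact Or.inl rfl
          · exact Or.inr ⟨i, rfl⟩
        · rintro (rfl | ⟨i, rfl⟩)
          · exact ⟨_, rfl⟩
          · exact ⟨_, rfl⟩
      rw [h1]
      refine gc_insert h ?_ (he _) (ih (fun i => e i.castSucc) (fun i => he _) ?_) ?_
      · rintro _ ⟨i, rfl⟩
        exact he _
      · intro i hcl
        refine hi i.castSucc (h.mono (Set.union_subset_union_right B ?_) hcl)
        rintro _ ⟨j, hj, rfl⟩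
        exact ⟨j.castSucc, Fin.castSucc_lt_castSucc_iff.2 hj, rfl⟩
      · intro hcl
        refine hi (Fin.last n) (h.mono (Set.union_subset_union_right B ?_) hcl)
        rintro _ ⟨j, rfl⟩
        exact ⟨j.castSucc, Fin.castSucc_lt_last j, rfl⟩

theorem set_to_seq {cl : Set M → Set M} {G : Set M} (h : Pre cl G) (B : Set M) {n : ℕ}
    (e : Fin n → M) (he : Injective e) (hi : IndSet cl B (Set.range e)) :
    ∀ i, e i ∉ cl (B ∪ e '' {j | j < i}) := by
  intro i hcl
  refine hi (e i) ⟨i, rfl⟩ (h.mono (Set.union_subset_union_right B ?_) hcl)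
  rintro _ ⟨j, hj, rfl⟩
  exact ⟨⟨j, rfl⟩, fun h1 => absurd (he h1) (ne_of_lt hj)⟩

end Pool.Agent.BLE
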