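import Pool.Agent.BLE.GB
import Pool.Agent.BLE.GC
import Pool.Agent.BLE.DC
import Pool.Agent.BLE.DD

/-!
# BLE / GD: independent tuples in a strongly minimal set have the same type

Algebraic closure over a fixed base is a closure operator with exchange on strongly minimal sets
(`pre_acl`); independent tuples of the same length of a strongly minimal set have the same type over the
base (`gen_equiv`, induction on the length: the fibres over the first `n` coordinates are finite or cofinite,
with a uniform bound).
-/

set_option autoImplicit false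

namespace Pool.Agent.BLE

open Function

variable {σ : Sig} {M : Type} {S : Str M} {A D E G : Set M} [Nonempty M]

theorem pre_acl (hG : ∀ g ∈ G, ∃ D, Df1 σ S E D ∧ SMin σ S D ∧ g ∈ D) :
    Pre (fun A => acl σ S (E ∪ A)) G where
  mono := fun h => acl_mono (Set.union_subset_union_right E h)
  sub := fun A => Set.subset_union_right.trans subset_acl
  idem := fun A => acl_subset_acl
    (Set.union_subset (Set.subset_union_left.trans subset_acl) subset_rfl)
  ex := by
    intro B b c _ hc h1 h2
    obtain ⟨D, hD, hs, hcD⟩ := hG c hc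
    have h3 : b ∈ acl σ S (insert c (E ∪ B)) := by
      rw [← Set.union_insert]
      exact h1
    have h4 := exchange (hD.mono Set.subset_union_left) hs hcD h3 h2
    show c ∈ acl σ S (E ∪ insert b B)
    rw [Set.union_insert]
    exact h4

/-- the points of `D` outside the fibre of `Z` -/
private theorem gd_fib (hD : Df1 σ S A D) {n : ℕ} {Z : Set (Fin (n + 1) → M)} (hZ : Dfn σ S A Z) :
    Dfn σ S A {x : Option (Fin n) → M |
      (fun (y : M) (x : Fin n → M) => y ∈ D ∧ (Fin.snoc x y : Fin (n + 1) → M) ∉ Z)
        (x none) (fun i => x (some i))} := by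
  have h1 : Dfn σ S A {x : Option (Fin n) → M | x none ∈ D} :=
    Dfn.reindex hD (J := Option (Fin n)) fun _ => none
  have h2 : Dfn σ S A {x : Option (Fin n) → M |
      (Fin.snoc (fun i => x (some i)) (x none) : Fin (n + 1) → M) ∈ Z} := by
    have h3 := hZ.reindex (J := Option (Fin n))
      (Fin.snoc (fun i : Fin n => some i) none : Fin (n + 1) → Option (Fin n))
    convert h3 using 1
    ext x
    have h4 : (fun i => x ((Fin.snoc (fun i : Fin n => some i) none : Fin (n + 1) →
        Option (Fin n)) i)) = (Fin.snoc (fun i => x (some i)) (x none) : Fin (n + 1) → M) := by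
      funext i
      refine Fin.lastCases ?_ (fun j => ?_) i
      · simp
      · simp
    simp only [Set.mem_ofPred_eq]
    rw [h4]
  exact h1.inter h2.compl

private theorem gd_init {n : ℕ} {e : Fin (n + 1) → M} (hi : Ind σ S A e) :
    Ind σ S A (Fin.init e) := by
  intro i hmem
  refine hi i.castSucc (acl_mono (Set.union_subset_union_right A ?_) hmem)
  rintro _ ⟨j, hj, rfl⟩
  exact ⟨j.castSucc, hj, rfl⟩

private theorem gd_last {n : ℕ} {e : Fin (n + 1) → M} (hi : Ind σ S A e) :
    e (Fin.last n) ∉ acl σ S (A ∪ Set.range (Fin.init e : Fin n → M)) := by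
  intro hmem
  refine hi (Fin.last n) (acl_mono (Set.union_subset_union_right A ?_) hmem)
  rintro _ ⟨j, rfl⟩
  exact ⟨j.castSucc, Fin.castSucc_lt_last j, rfl⟩

theorem gen_equiv (hD : Df1 σ S A D) (hs : SMin σ S D) (n : ℕ) (e e' : Fin n → M)
    (he : ∀ i, e i ∈ D) (he' : ∀ i, e' i ∈ D) (hi : Ind σ S A e) (hi' : Ind σ S A e')
    (Z : Set (Fin n → M)) (hZ : Dfn σ S A Z) : e ∈ Z → e' ∈ Z := by
  induction n with
  | zero =>
    intro h
    have : e' = e := Subsingleton.elim _ _
    rwa [this]
  | succ n ih =>
    intro h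
    have hfib := gd_fib hD hZ
    have hfib' := gd_fib hD hZ.compl
    -- slices
    have hsl := fun x : Fin n → M => Df1.push hfib x (B := A ∪ Set.range x)
      Set.subset_union_left (fun j => Set.mem_union_right A (Set.mem_range_self j))
    have hsl' := fun x : Fin n → M => Df1.push hfib' x (B := A ∪ Set.range x)
      Set.subset_union_left (fun j => Set.mem_union_right A (Set.mem_range_self j))
    have hcofin : (D \ {y | (Fin.snoc (Fin.init e : Fin n → M) y : Fin (n + 1) → M) ∈ Z}).Finite := by
      have hZ1 : Df1 σ S Set.univ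
          {y | (Fin.snoc (Fin.init e : Fin n → M) y : Fin (n + 1) → M) ∈ Z} := by
        have h3 := Dfn.comap (J := Unit) (hZ.mono (Set.subset_univ A))
          (Fin.snoc (fun i : Fin n => (Sum.inr (Fin.init e i) : Unit ⊕ M)) (Sum.inl ()) :
            Fin (n + 1) → Unit ⊕ M) (fun i a _ => Set.mem_univ a)
        unfold Df1
        convert h3 using 1
        ext x
        have h4 : (fun i => Sum.elim x id
            ((Fin.snoc (fun i : Fin n => (Sum.inr (Fin.init e i) : Unit ⊕ M)) (Sum.inl ()) :
              Fin (n + 1) → Unit ⊕ M) i)) =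
            (Fin.snoc (Fin.init e : Fin n → M) (x ()) : Fin (n + 1) → M) := by
          funext i
          refine Fin.lastCases ?_ (fun j => ?_) i
          · simp
          · simp
        simp only [Set.mem_ofPred_eq]
        rw [h4]
      refine (hs.2 _ hZ1).resolve_left fun hfin => ?_
      refine gd_last hi ⟨_, hsl' (Fin.init e), hfin.subset ?_, ?_⟩
      · rintro y ⟨hy1, hy2⟩
        exact ⟨hy1, not_not.mp hy2⟩
      · refine ⟨he _, not_not.mpr ?_⟩
        show (Fin.snoc (Fin.init e : Fin n → M) (e (Fin.last n)) : Fin (n + 1) → M) ∈ Z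
        rw [Fin.snoc_init_self]
        exact h
    obtain ⟨l, hl⟩ : ∃ l : ℕ,
        (D \ {y | (Fin.snoc (Fin.init e : Fin n → M) y : Fin (n + 1) → M) ∈ Z}).encard ≤ (l : ℕ∞) :=
      ⟨_, hcofin.encard_eq_coe_toFinset_card.le⟩
    have hcount := Dfn.count_le (I := Fin n) l
      (P := fun (y : M) (x : Fin n → M) => y ∈ D ∧ (Fin.snoc x y : Fin (n + 1) → M) ∉ Z) hfib
    have h1 := ih (Fin.init e) (Fin.init e') (fun i => he _) (fun i => he' _) (gd_init hi)
      (gd_init hi') _ hcount hl
    have h2 : {y | y ∈ D ∧ (Fin.snoc (Fin.init e' : Fin n → M) y : Fin (n + 1) → M) ∉ Z}.Finite :=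
      Set.finite_of_encard_le_coe h1
    by_contra hc
    refine gd_last hi' ⟨_, hsl (Fin.init e'), h2, he' _, ?_⟩
    show (Fin.snoc (Fin.init e' : Fin n → M) (e' (Fin.last n)) : Fin (n + 1) → M) ∉ Z
    rw [Fin.snoc_init_self]
    exact hc

end Pool.Agent.BLE
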