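import Pool.Agent.BLE.UE

/-!
# BLE / TB: no binary trees of definable sets; isolated types are dense; minimal sets

`no_tree`: every `X s` has finitely many parameters (`Df1.fin_support`), so there is a countable set `A`
over which all `X s` are definable. Every branch `β : ℕ → Bool` (let `β|n : List Bool`, the reversed list
of the first `n` values) gives a decreasing sequence of nonempty sets `X (β|n)`, so by `sat1` (`N = univ`)
a point `b_β` in all of them. For `β ≠ β'` there is `n` such that `b_β`, `b_β'` are separated by the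
disjoint sets `X (true :: s)`, `X (false :: s)`. `FewTypes` gives a countable set `C` and `c_β ∈ C` with the
type of `b_β` over `A`; `β ↦ c_β` is injective, so `ℕ → Bool` would be countable: contradiction
(`Cardinal.mk_... ` or `not_countable`: e.g. `Cardinal.cantor`, `Set.countable_coe_iff`,
`Cardinal.mk_le_aleph0_iff`).
`exists_atom`: otherwise every nonempty `Y ⊆ X` definable over `A` contains two disjoint nonempty subsets
definable over `A` (`Y ∩ Z`, `Y \ Z`): build a tree by recursion on the list (subtype of nonempty definable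
subsets). `exists_minimal`: the same with the property `(Y ∩ N).Infinite`.
-/

set_option autoImplicit false

namespace Pool.Agent.BLE

open Function

variable {σ : Sig} {M : Type} {S : Str M}

private def tb_path (β : ℕ → Bool) : ℕ → List Bool
  | 0 => []
  | n + 1 => β n :: tb_path β n

private theorem tb_anti (X : List Bool → Set M) (hs : ∀ s b, X (b :: s) ⊆ X s) (β : ℕ → Bool) :
    ∀ m n, m ≤ n → X (tb_path β n) ⊆ X (tb_path β m) := by
  intro m n h
  induction h with
  | refl => exact subset_rfl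
  | step _ ih => exact (hs _ _).trans ih

private theorem tb_sep (X : List Bool → Set M)
    (hj : ∀ s, Disjoint (X (true :: s)) (X (false :: s))) (β β' : ℕ → Bool) (hne : β ≠ β')
    (c : M) (h1 : ∀ n, c ∈ X (tb_path β n)) (h2 : ∀ n, c ∈ X (tb_path β' n)) : False := by
  have hex : ∃ n, β n ≠ β' n := by
    by_contra h
    push Not at h
    exact hne (funext h)
  classical
  have hmin : ∀ m, m < Nat.find hex → ¬ β m ≠ β' m := fun m hm => Nat.find_min hex hm
  have hspec := Nat.find_spec hex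
  have hp : ∀ k, k ≤ Nat.find hex → tb_path β k = tb_path β' k := by
    intro k
    induction k with
    | zero => intro _; rfl
    | succ k ih =>
      intro hk
      have h3 : β k = β' k := by
        by_contra h4
        exact hmin k (Nat.lt_of_succ_le hk) h4
      change β k :: tb_path β k = β' k :: tb_path β' k
      rw [h3, ih (Nat.le_of_succ_le hk)]
  have e1 := h1 (Nat.find hex + 1)
  have e2 := h2 (Nat.find hex + 1)
  change c ∈ X (β (Nat.find hex) :: tb_path β (Nat.find hex)) at e1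
  change c ∈ X (β' (Nat.find hex) :: tb_path β' (Nat.find hex)) at e2
  rw [← hp _ le_rfl] at e2
  rcases hb : β (Nat.find hex) with _ | _
  · rcases hb' : β' (Nat.find hex) with _ | _
    · exact hspec (hb.trans hb'.symm)
    · rw [hb] at e1
      rw [hb'] at e2
      exact Set.disjoint_left.1 (hj _) e2 e1
  · rcases hb' : β' (Nat.find hex) with _ | _
    · rw [hb] at e1
      rw [hb'] at e2
      exact Set.disjoint_left.1 (hj _) e1 e2
    · exact hspec (hb.trans hb'.symm)

theorem no_tree (h : Monster σ S) (X : List Bool → Set M) (hd : ∀ s, Df1 σ S Set.univ (X s))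
    (hn : ∀ s, (X s).Nonempty) (hs : ∀ s b, X (b :: s) ⊆ X s)
    (hj : ∀ s, Disjoint (X (true :: s)) (X (false :: s))) : False := by
  classical
  have hinf : Infinite M := h.inf
  choose A₀ hA₀ hfin hdf using fun s => (hd s).fin_support
  have hAc : (⋃ s, A₀ s).Countable := Set.countable_iUnion fun s => (hfin s).countable
  obtain ⟨C, hC, hCt⟩ := h.few (⋃ s, A₀ s) hAc
  have key : ∀ β : ℕ → Bool, ∃ c ∈ C, ∀ n, c ∈ X (tb_path β n) := by
    intro β
    have h1 : (⋂₀ (Set.range fun n => X (tb_path β n)) ∩ Set.univ).Nonempty := by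
      refine sat1 h.satG Set.univ_nonempty _ (Set.countable_range _) ?_ ?_
      · rintro Y ⟨n, rfl⟩
        exact hd _
      · intro F hF
        have hF' : ∀ Y ∈ F, ∃ n, X (tb_path β n) = Y := fun Y hY => hF hY
        choose! m hm using hF'
        obtain ⟨y, hy⟩ := hn (tb_path β (F.sup m))
        refine ⟨y, Set.mem_sInter.2 fun Y hY => ?_, Set.mem_univ _⟩
        rw [← hm Y hY]
        exact tb_anti X hs β _ _ (Finset.le_sup hY) hy
    obtain ⟨b, hb, -⟩ := h1
    obtain ⟨c, hc, hbc⟩ := hCt b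
    refine ⟨c, hc, fun n => ?_⟩
    have h2 : Df1 σ S (⋃ s, A₀ s) (X (tb_path β n)) :=
      (hdf (tb_path β n)).mono (Set.subset_iUnion A₀ _)
    exact (hbc _ h2).1 (Set.mem_sInter.1 hb _ ⟨n, rfl⟩)
  choose c hcC hcX using key
  have hinj : Injective (fun β => (⟨c β, hcC β⟩ : C)) := by
    intro β β' he
    by_contra hne
    have he' : c β = c β' := congrArg Subtype.val he
    exact tb_sep X hj β β' hne (c β) (hcX β) (by rw [he']; exact hcX β')
  have : Countable C := hC.to_subtype
  have hct : Countable (ℕ → Bool) := hinj.countable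
  obtain ⟨f, hf⟩ := exists_surjective_nat (ℕ → Bool)
  obtain ⟨n, hn'⟩ := hf (fun n => !(f n n))
  have h3 := congrFun hn' n
  cases hfn : f n n
  · rw [hfn] at h3
    exact absurd h3 (by decide)
  · rw [hfn] at h3
    exact absurd h3 (by decide)

private theorem tb_split (h : Monster σ S) (P : Set M → Prop)
    (hP : ∀ Y, P Y → Df1 σ S Set.univ Y ∧ Y.Nonempty) (X : Set M) (hX : P X)
    (hsp : ∀ Y, P Y → ∃ Z, P (Y ∩ Z) ∧ P (Y \ Z)) : False := by
  classical
  choose! Z hZ1 hZ2 using hsp
  let step : Bool → {Y : Set M // P Y} → {Y : Set M // P Y} := fun b Y =>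
    if b = true then ⟨Y.1 ∩ Z Y.1, hZ1 Y.1 Y.2⟩ else ⟨Y.1 \ Z Y.1, hZ2 Y.1 Y.2⟩
  let T : List Bool → {Y : Set M // P Y} := fun s => s.foldr step ⟨X, hX⟩
  have hT : ∀ b s, T (b :: s) = step b (T s) := fun b s => rfl
  refine no_tree h (fun s => (T s).1) (fun s => (hP _ (T s).2).1) (fun s => (hP _ (T s).2).2)
    ?_ ?_
  · intro s b
    rw [hT]
    cases b
    · exact Set.sdiff_subset
    · exact Set.inter_subset_left
  · intro s
    rw [hT, hT]
    refine Set.disjoint_left.2 fun y h1 h2 => ?_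
    exact h2.2 h1.2

theorem exists_atom (h : Monster σ S) (A X : Set M) (hX : Df1 σ S A X) (hn : X.Nonempty) :
    ∃ Y ⊆ X, Df1 σ S A Y ∧ Y.Nonempty ∧ ∀ Z, Df1 σ S A Z → Y ⊆ Z ∨ Disjoint Y Z := by
  by_contra hno
  push Not at hno
  refine tb_split h (fun Y => Y ⊆ X ∧ Df1 σ S A Y ∧ Y.Nonempty)
    (fun Y hY => ⟨hY.2.1.mono (Set.subset_univ _), hY.2.2⟩) X ⟨subset_rfl, hX, hn⟩ ?_
  rintro Y ⟨hYX, hYA, hYn⟩
  obtain ⟨Z, hZ, hZ1, hZ2⟩ := hno Y hYX hYA hYn
  refine ⟨Z, ⟨Set.inter_subset_left.trans hYX, hYA.inter hZ, Set.not_disjoint_iff_nonempty_inter.1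
    hZ2⟩, ⟨Set.sdiff_subset.trans hYX, hYA.diff hZ, Set.sdiff_nonempty.2 hZ1⟩⟩

theorem exists_minimal (h : Monster σ S) (N X : Set M) (hX : Df1 σ S N X)
    (hi : (X ∩ N).Infinite) :
    ∃ Y ⊆ X, Df1 σ S N Y ∧ (Y ∩ N).Infinite ∧
      ∀ Z, Df1 σ S N Z → (Y ∩ Z ∩ N).Finite ∨ ((Y \ Z) ∩ N).Finite := by
  by_contra hno
  push Not at hno
  refine tb_split h (fun Y => Y ⊆ X ∧ Df1 σ S N Y ∧ (Y ∩ N).Infinite)
    (fun Y hY => ⟨hY.2.1.mono (Set.subset_univ _), hY.2.2.nonempty.mono Set.inter_subset_left⟩)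
    X ⟨subset_rfl, hX, hi⟩ ?_
  rintro Y ⟨hYX, hYN, hYi⟩
  obtain ⟨Z, hZ, hZ1, hZ2⟩ := hno Y hYX hYN hYi
  exact ⟨Z, ⟨Set.inter_subset_left.trans hYX, hYN.inter hZ, hZ1⟩,
    ⟨Set.sdiff_subset.trans hYX, hYN.diff hZ, hZ2⟩⟩

end Pool.Agent.BLE
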