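import Pool.Agent.BLE.TC

/-!
# BLE / TD: atomic sets

* `atomicOver_iff`: every tuple `I → M`, `I` finite, of elements of `B` is isolated over `A`
  (`Isol.comp` along an equivalence with `Fin n`).
* `insert`: let `b` be isolated over `B` by a set definable over a finite `B₀ ⊆ B`
  (`Isol.fin_support`). A finite tuple of elements of `insert b B`: enlarge it: let `x` be a finite tuple
  enumerating `B₀` and the elements `≠ b` of the tuple (all in `B`): `Isol A x`; `b` is isolated over
  `A ∪ range x`: by the same set `X` (definable over `B₀ ⊆ range x`): for `Z ∋ b` definable over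
  `A ∪ range x ⊆ B` (as `A ⊆ B`) `X ⊆ Z`. `Isol.trans`: `Sum.elim x b` is isolated over `A`;
  the given tuple is `Sum.elim x b ∘ f` (`Isol.comp`).
* `sUnion`: a finite tuple in the union of a chain lies in a member.
* `trans_fin`: `C` atomic over `A` for finite extension: if `AtomicOver A B`, `x` a finite tuple of `B`
  then `AtomicOver (A ∪ range x) B`: by `Isol.split`.
-/

set_option autoImplicit false

namespace Pool.Agent.BLE

open Function

variable {σ : Sig} {M : Type} {S : Str M} {A B : Set M} {I J : Type} [Nonempty M]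

theorem AtomicOver.tuple (h : AtomicOver σ S A B) [Finite I] (x : I → M) (hx : ∀ i, x i ∈ B) :
    Isol σ S A x := by
  obtain ⟨n, ⟨φ⟩⟩ := Finite.exists_equiv_fin I
  have h1 := (h n (x ∘ φ.symm) fun i => hx _).comp (φ : I → Fin n)
  have h2 : (x ∘ φ.symm) ∘ φ = x := by
    funext i
    simp
  rwa [h2] at h1

theorem AtomicOver.self : AtomicOver σ S A A :=
  fun _ _ hx => Isol.of_mem hx

theorem AtomicOver.insert (hAB : A ⊆ B) (h : AtomicOver σ S A B) {b : M}
    (hb : Isol σ S B (fun _ : Unit => b)) : AtomicOver σ S A (insert b B) := by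
  classical
  intro n x hx
  obtain ⟨B₀, hB₀, hfin, X, hX, hbX, hmin⟩ := hb.fin_support
  have : Finite B₀ := hfin.to_subtype
  obtain ⟨y, hy⟩ : ∃ y : B₀ ⊕ {i : Fin n // x i ∈ B} → M,
      y = Sum.elim Subtype.val fun i => x i.1 := ⟨_, rfl⟩
  have hyB : ∀ i, y i ∈ B := by
    rintro (i | i)
    · rw [hy]
      exact hB₀ i.2
    · rw [hy]
      exact i.2
  have h1 : Isol σ S A y := h.tuple y hyB
  have h2 : Isol σ S (A ∪ Set.range y) (fun _ : Unit => b) := by
    refine ⟨X, hX.mono ?_, hbX, fun Z hZ hbZ => hmin Z (hZ.mono ?_) hbZ⟩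
    · intro a ha
      exact Or.inr ⟨Sum.inl ⟨a, ha⟩, by rw [hy]; rfl⟩
    · rintro a (ha | ⟨i, rfl⟩)
      · exact hAB ha
      · exact hyB i
  have h3 := (h1.trans h2).comp (fun i : Fin n =>
    if hi : x i ∈ B then (Sum.inl (Sum.inr ⟨i, hi⟩) : (B₀ ⊕ {i : Fin n // x i ∈ B}) ⊕ Unit)
    else Sum.inr ())
  refine cast (congrArg (Isol σ S A) (funext fun i => ?_)) h3
  show Sum.elim y (fun _ : Unit => b) (if hi : x i ∈ B then
    (Sum.inl (Sum.inr ⟨i, hi⟩) : (B₀ ⊕ {i : Fin n // x i ∈ B}) ⊕ Unit) else Sum.inr ()) = x i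
  by_cases hi : x i ∈ B
  · rw [dif_pos hi, Sum.elim_inl, hy, Sum.elim_inr]
  · rw [dif_neg hi, Sum.elim_inr]
    rcases hx i with h4 | h4
    · exact h4.symm
    · exact absurd h4 hi

theorem AtomicOver.sUnion (C : Set (Set M)) (hC : IsChain (· ⊆ ·) C) (hne : C.Nonempty)
    (h : ∀ B ∈ C, AtomicOver σ S A B) : AtomicOver σ S A (⋃₀ C) := by
  classical
  intro n x hx
  have key : ∀ F : Finset (Fin n), ∃ B ∈ C, ∀ i ∈ F, x i ∈ B := by
    intro F
    induction F using Finset.induction_on with
    | empty =>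
      obtain ⟨B, hB⟩ := hne
      exact ⟨B, hB, fun i hi => absurd hi (Finset.notMem_empty i)⟩
    | insert a F _ ih =>
      obtain ⟨B, hB, hBF⟩ := ih
      obtain ⟨B', hB', haB'⟩ := hx a
      rcases hC.total hB hB' with h1 | h1
      · refine ⟨B', hB', fun i hi => ?_⟩
        rcases Finset.mem_insert.1 hi with rfl | hi
        · exact haB'
        · exact h1 (hBF i hi)
      · refine ⟨B, hB, fun i hi => ?_⟩
        rcases Finset.mem_insert.1 hi with rfl | hi
        · exact h1 haB'
        · exact hBF i hi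
  obtain ⟨B, hB, hBx⟩ := key Finset.univ
  exact h B hB n x fun i => hBx i (Finset.mem_univ i)

theorem AtomicOver.adjoin [Finite I] (h : AtomicOver σ S A B) (x : I → M) (hx : ∀ i, x i ∈ B) :
    AtomicOver σ S (A ∪ Set.range x) B := by
  intro n y hy
  refine (h.tuple (Sum.elim x y) ?_).split
  rintro (i | i)
  · exact hx i
  · exact hy i

end Pool.Agent.BLE
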