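import Pool.Agent.BLE.TB
import Pool.Agent.BLE.TD

/-!
# BLE / TE: atomic elementary subsets

Zorn (`zorn_subset_nonempty` or `zorn_subset`) for the family of all `B` with `A ⊆ B ⊆ N` and
`AtomicOver A B` (contains `A`: `AtomicOver.self`; chains: `AtomicOver.sUnion`). A maximal `B` is TV: let
`X` be definable over `B`, nonempty; `exists_atom` gives an atom `Y ⊆ X` over `B`, nonempty; as `Y` is
definable over `B ⊆ N` and `N` is TV there is `b ∈ Y ∩ N`; `b` is isolated over `B` (`Isol.one`), so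
`AtomicOver A (insert b B)` (`AtomicOver.insert`) and `b ∈ B` by maximality.
-/

set_option autoImplicit false

namespace Pool.Agent.BLE

open Function

variable {σ : Sig} {M : Type} {S : Str M}

theorem exists_prime (h : Monster σ S) {A N : Set M} (hAN : A ⊆ N) (hN : TV σ S N) :
    ∃ B, A ⊆ B ∧ B ⊆ N ∧ TV σ S B ∧ AtomicOver σ S A B := by
  have := h.inf
  obtain ⟨B, hAB, hmax⟩ := zorn_subset_nonempty
    {B : Set M | A ⊆ B ∧ B ⊆ N ∧ AtomicOver σ S A B} (by
      intro c hc hchain hne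
      refine ⟨⋃₀ c, ⟨?_, ?_, AtomicOver.sUnion c hchain hne fun B hB => (hc hB).2.2⟩,
        fun s hs => Set.subset_sUnion_of_mem hs⟩
      · obtain ⟨B, hB⟩ := hne
        exact (hc hB).1.trans (Set.subset_sUnion_of_mem hB)
      · exact Set.sUnion_subset fun B hB => (hc hB).2.1) A
    ⟨subset_rfl, hAN, AtomicOver.self⟩
  refine ⟨B, hAB, hmax.prop.2.1, ?_, hmax.prop.2.2⟩
  intro X hX hne
  obtain ⟨Y, hYX, hY, hYne, hat⟩ := exists_atom h B X hX hne
  obtain ⟨b, hbY, hbN⟩ := hN Y (hY.mono hmax.prop.2.1) hYne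
  have hins : AtomicOver σ S A (insert b B) :=
    AtomicOver.insert hAB hmax.prop.2.2 (Isol.one hY hbY hat)
  have hmem : insert b B ∈ {B : Set M | A ⊆ B ∧ B ⊆ N ∧ AtomicOver σ S A B} :=
    ⟨hAB.trans (Set.subset_insert b B), Set.insert_subset hbN hmax.prop.2.1, hins⟩
  have hle : insert b B ⊆ B := hmax.le_of_ge hmem (Set.subset_insert b B)
  exact ⟨b, hYX hbY, hle (Set.mem_insert b B)⟩

end Pool.Agent.BLE
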