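import Pool.Agent.BLE.GP
import Pool.Agent.BLE.TE
import Pool.Agent.BLE.TB
import Pool.Agent.BLE.LA
import Pool.Agent.BLE.SD
import Pool.Agent.BLE.SG
import Pool.Agent.BLE.DF

/-!
# BLE / GH: a strongly minimal formula over an isolated tuple

In an atomic elementary subset there is a minimal definable set `Y`; its parameters form an isolated
tuple; elimination of `∃ infinitely many` gives uniform strong minimality.
-/

set_option autoImplicit false

namespace Pool.Agent.BLE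

open Function

variable {σ : Sig} {M : Type} {S : Str M}

/-- the strongly minimal formula with the variable `x` -/
private noncomputable def Dvar (D : Fml) (x : ℕ) : Fml :=
  if x = 1 then D else .ex 1 (.and (.eq 1 x) D)

private theorem sat_Dvar {ell : ℕ} {D : Fml} (hD : ∀ i ∈ D.fv, i = 1 ∨ ∃ j < ell, i = 2 * j) {x : ℕ}
    (hx : ∀ j < ell, x ≠ 2 * j) (v : ℕ → M) (y : M) :
    Sat σ S (update v x y) (Dvar D x) ↔ y ∈ Dset σ S D v := by
  unfold Dvar
  by_cases h1 : x = 1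
  · subst h1
    rw [if_pos rfl]
    exact Iff.rfl
  · rw [if_neg h1, sat_ex]
    have key : ∀ b, Sat σ S (update (update v x y) 1 b) D ↔ Sat σ S (update v 1 b) D := by
      intro b
      refine sat_congr D fun i hi => ?_
      rcases hD i hi with rfl | ⟨j, hj, rfl⟩
      · rw [update_self, update_self]
      · rw [update_of_ne (by omega), update_of_ne (hx j hj).symm, update_of_ne (by omega)]
    constructor
    · rintro ⟨b, hb⟩
      rw [sat_and, sat_eq, update_self, update_of_ne h1, update_self, key] at hb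
      obtain ⟨rfl, hb⟩ := hb
      exact hb
    · intro h
      refine ⟨y, ?_⟩
      rw [sat_and, sat_eq, update_self, update_of_ne h1, update_self, key]
      exact ⟨rfl, h⟩

private theorem fv_Dvar {ell : ℕ} {D : Fml} (hD : ∀ i ∈ D.fv, i = 1 ∨ ∃ j < ell, i = 2 * j) {x : ℕ} :
    ∀ i ∈ (Dvar D x).fv, i = x ∨ ∃ j < ell, i = 2 * j := by
  intro i hi
  unfold Dvar at hi
  by_cases h1 : x = 1
  · subst h1
    rw [if_pos rfl] at hi
    exact hD i hi
  · rw [if_neg h1] at hi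
    simp only [Fml.ex, Fml.and, Fml.neg, Fml.fv, Finset.mem_union, Finset.mem_erase, Finset.mem_insert,
      Finset.mem_singleton, Finset.notMem_empty, or_false] at hi
    obtain ⟨h2, h3 | h3⟩ := hi
    · rcases h3 with h3 | h3
      · exact absurd h3 h2
      · exact Or.inl h3
    · rcases hD i h3 with h4 | h4
      · exact absurd h4 h2
      · exact Or.inr h4

private theorem infinite_of_all {X : Set M} (h : ∀ L : ℕ, (L : ℕ∞) ≤ X.encard) : X.Infinite := by
  intro hfin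
  have h1 := hfin.encard_eq_coe_toFinset_card
  have h2 := h (hfin.toFinset.card + 1)
  rw [h1] at h2
  have h3 : hfin.toFinset.card + 1 ≤ hfin.toFinset.card := by exact_mod_cast h2
  omega

theorem exists_goodPre (hM : Monster σ S)
    (helim : ∀ (φ : Fml) (x : ℕ), ∃ k : ℕ, ∀ v : ℕ → M,
      {y | Sat σ S (update v x y) φ}.encard ≤ (k : ℕ∞) ∨ {y | Sat σ S (update v x y) φ}.Infinite) :
    ∃ (ell : ℕ) (θ D : Fml), GoodPre σ S ell θ D := by
  classical
  have hinf : Infinite M := hM.inf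
  obtain ⟨B₀, -, -, hTV, hAt⟩ := exists_prime hM (A := ∅) (N := Set.univ) (Set.empty_subset _) TV.univ
  have hB₀inf : (Set.univ ∩ B₀).Infinite := (TV.infinite_iff hTV Df1.univ).2 Set.infinite_univ
  obtain ⟨Y, -, hY, hYinf, hmin⟩ := exists_minimal hM B₀ Set.univ Df1.univ hB₀inf
  obtain ⟨A₀, hA₀, hfin, hYA⟩ := Df1.fin_support hY
  obtain ⟨ell, f, hf⟩ := hfin.fin_embedding
  obtain ⟨b₀, hb₀⟩ := hTV.nonempty
  have hfB : ∀ i, f i ∈ B₀ := fun i => hA₀ (hf ▸ Set.mem_range_self i)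
  obtain ⟨Q, hQ, haQ, hQmin⟩ := hAt ell f hfB
  obtain ⟨v₀, hv₀⟩ : ∃ v₀ : ℕ → M, v₀ = fun t => if h : t / 2 < ell then f ⟨t / 2, h⟩ else b₀ := ⟨_, rfl⟩
  have hv₀B : ∀ t, v₀ t ∈ B₀ := by
    intro t
    rw [hv₀]
    by_cases h : t / 2 < ell
    · simp only [h, dif_pos]
      exact hfB _
    · simp only [h, dif_neg, not_false_eq_true]
      exact hb₀
  have hv₀f : ∀ j : Fin ell, v₀ (2 * (j : ℕ)) = f j := by
    intro j
    have h1 : 2 * (j : ℕ) / 2 = j := by omega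
    rw [hv₀]
    simp only [h1, j.2, dif_pos]
  -- the formula θ
  obtain ⟨θ, hθfv, hθ⟩ := fml_of_dfn (σ := σ) (S := S) (X := Q) v₀ ∅ (fun j : Fin ell => 2 * (j : ℕ))
    (by rw [Set.image_empty]; exact hQ)
  have hθ' : ∀ w : ℕ → M, Sat σ S w θ ↔ (fun j : Fin ell => w (2 * (j : ℕ))) ∈ Q := fun w =>
    hθ w (fun t ht => absurd ht (Set.notMem_empty t))
  -- the formula D
  obtain ⟨D, hDfv, hD⟩ := fml_of_df1 (σ := σ) (S := S) (X := Y) v₀ {t | ∃ j < ell, t = 2 * j} 1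
    (by rintro ⟨j, -, hj⟩; omega)
    (hYA.mono (by
      intro m hm
      rw [← hf] at hm
      obtain ⟨j, rfl⟩ := hm
      exact ⟨2 * (j : ℕ), ⟨j, j.2, rfl⟩, hv₀f j⟩))
  have hDfv' : ∀ i ∈ D.fv, i = 1 ∨ ∃ j < ell, i = 2 * j := fun i hi => (hDfv i hi).symm
  have hDY : Dset σ S D v₀ = Y := by
    ext y
    exact (hD y).symm
  have hθv₀ : Sat σ S v₀ θ := by
    rw [hθ']
    have h1 : (fun j : Fin ell => v₀ (2 * (j : ℕ))) = f := funext hv₀f
    rw [h1]
    exact haQ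
  -- isolation
  have hiso : ∀ φ : Fml, (∀ i ∈ φ.fv, ∃ j < ell, i = 2 * j) → ∀ v : ℕ → M, Sat σ S v θ →
      (Sat σ S v φ ↔ Sat σ S v₀ φ) := by
    intro φ hφ v hv
    obtain ⟨ρ, hρ⟩ : ∃ ρ : ℕ → Fin ell ⊕ M,
        ρ = fun t => if h : t / 2 < ell then Sum.inl ⟨t / 2, h⟩ else Sum.inr b₀ := ⟨_, rfl⟩
    have hρ' : ∀ t ∈ φ.fv, ∃ j : Fin ell, ρ t = Sum.inl j ∧ t = 2 * (j : ℕ) := by
      intro t ht
      obtain ⟨j, hj, rfl⟩ := hφ t ht
      refine ⟨⟨j, hj⟩, ?_, rfl⟩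
      have h1 : 2 * j / 2 = j := by omega
      rw [hρ]
      simp only [h1, hj, dif_pos]
    have hZ : Dfn σ S ∅ {x : Fin ell → M | Sat σ S (fun t => Sum.elim x id (ρ t)) φ} := by
      refine ⟨φ, ρ, fun t ht a ha => ?_, fun x => Iff.rfl⟩
      obtain ⟨j, hj, -⟩ := hρ' t ht
      rw [hj] at ha
      cases ha
    have hw : ∀ w : ℕ → M, Sat σ S w φ ↔
        (fun j : Fin ell => w (2 * (j : ℕ))) ∈ {x : Fin ell → M | Sat σ S (fun t => Sum.elim x id (ρ t)) φ} := by
      intro w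
      refine sat_congr φ fun t ht => ?_
      obtain ⟨j, hj, hj'⟩ := hρ' t ht
      rw [hj, Sum.elim_inl, ← hj']
    have hvQ := (hθ' v).1 hv
    have hfv₀ : (fun j : Fin ell => v₀ (2 * (j : ℕ))) = f := funext hv₀f
    rw [hw v, hw v₀, hfv₀]
    constructor
    · intro h1
      by_contra h2
      exact hQmin _ hZ.compl h2 hvQ h1
    · intro h1
      exact hQmin _ hZ h1 hvQ
  refine ⟨ell, θ, D, ⟨?_, hDfv', ⟨v₀, hθv₀⟩, ?_, ?_, ?_⟩⟩
  · intro i hi
    rcases hθfv i hi with h | ⟨j, hj⟩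
    · exact absurd h (Set.notMem_empty i)
    · exact ⟨j, j.2, hj.symm⟩
  · intro φ hφ v w hv hw h
    exact (hiso φ hφ w hw).2 ((hiso φ hφ v hv).1 h)
  · intro v hv
    refine infinite_of_all fun L => ?_
    have h1 : Sat σ S v (Fml.atLeast L 1 D) := by
      refine (hiso _ (fun i hi => ?_) v hv).2 ?_
      · have h2 := fv_atLeast L 1 D hi
        rw [Finset.mem_erase] at h2
        rcases hDfv' i h2.2 with h3 | h3
        · exact absurd h3 h2.1
        · exact h3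
      · rw [sat_atLeast]
        have h2 : {a | Sat σ S (update v₀ 1 a) D} = Y := hDY
        rw [h2, (hYinf.mono Set.inter_subset_left).encard_eq]
        exact le_top
    rw [sat_atLeast] at h1
    exact h1
  · intro φ x hx
    obtain ⟨k₁, hk₁⟩ := helim (.and (Dvar D x) φ) x
    obtain ⟨k₂, hk₂⟩ := helim (.and (Dvar D x) φ.neg) x
    refine ⟨max k₁ k₂, fun v hv => ?_⟩
    have e1 : ∀ w : ℕ → M, {y | Sat σ S (update w x y) (.and (Dvar D x) φ)} =
        {y | y ∈ Dset σ S D w ∧ Sat σ S (update w x y) φ} := by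
      intro w
      ext y
      show Sat σ S (update w x y) (.and (Dvar D x) φ) ↔ _
      rw [sat_and, sat_Dvar hDfv' hx]
      exact Iff.rfl
    have e2 : ∀ w : ℕ → M, {y | Sat σ S (update w x y) (.and (Dvar D x) φ.neg)} =
        {y | y ∈ Dset σ S D w ∧ ¬ Sat σ S (update w x y) φ} := by
      intro w
      ext y
      show Sat σ S (update w x y) (.and (Dvar D x) φ.neg) ↔ _
      rw [sat_and, sat_Dvar hDfv' hx, sat_neg]
      exact Iff.rfl
    by_contra hcon
    push Not at hcon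
    obtain ⟨c1, c2⟩ := hcon
    obtain ⟨ψ, hψ⟩ : ∃ ψ : Fml, ψ = Fml.and (.atLeast (max k₁ k₂ + 1) x (.and (Dvar D x) φ))
        (.atLeast (max k₁ k₂ + 1) x (.and (Dvar D x) φ.neg)) := ⟨_, rfl⟩
    have hge : ∀ {X : Set M}, ((max k₁ k₂ : ℕ) : ℕ∞) < X.encard → ((max k₁ k₂ + 1 : ℕ) : ℕ∞) ≤ X.encard := by
      intro X h
      have := Order.add_one_le_of_lt h
      exact_mod_cast this
    have hvψ : Sat σ S v ψ := by
      rw [hψ, sat_and, sat_atLeast, sat_atLeast, e1, e2]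
      exact ⟨hge c1, hge c2⟩
    obtain ⟨s, hs⟩ : ∃ s : ℕ → Bool, ∀ i, s i = true ↔ ∃ j < ell, i = 2 * j :=
      ⟨fun i => decide (∃ j < ell, i = 2 * j), fun i => by simp⟩
    have hvψ' : Sat σ S v (.exOut s ψ) := (sat_exOut s ψ v).2 ⟨v, fun _ _ => rfl, hvψ⟩
    have hv₀ψ' : Sat σ S v₀ (.exOut s ψ) :=
      (hiso _ (fun i hi => (hs i).1 (fv_exOut s ψ i hi).2) v hv).1 hvψ'
    have h1 := (sat_sub hTV ⟨b₀, hb₀⟩ (.exOut s ψ) (fun t => ⟨v₀ t, hv₀B t⟩)).2 hv₀ψ'
    rw [sat_exOut] at h1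
    obtain ⟨w', hw', hsw'⟩ := h1
    rw [sat_sub hTV] at hsw'
    obtain ⟨w, hw⟩ : ∃ w : ℕ → M, w = fun t => (w' t : M) := ⟨_, rfl⟩
    rw [← hw] at hsw'
    have hwv₀ : ∀ j < ell, w (2 * j) = v₀ (2 * j) := by
      intro j hj
      have h2 := hw' (2 * j) ((hs _).2 ⟨j, hj, rfl⟩)
      rw [hw]
      show (w' (2 * j) : M) = v₀ (2 * j)
      rw [h2]
    have hwY : Dset σ S D w = Y := by
      rw [← hDY]
      ext y
      refine sat_congr D fun i hi => ?_
      rcases hDfv' i hi with rfl | ⟨j, hj, rfl⟩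
      · rw [update_self, update_self]
      · rw [update_of_ne (by omega), update_of_ne (by omega), hwv₀ j hj]
    rw [hψ, sat_and, sat_atLeast, sat_atLeast] at hsw'
    have hnot : ∀ {X : Set M} {k : ℕ}, k ≤ max k₁ k₂ → ((max k₁ k₂ + 1 : ℕ) : ℕ∞) ≤ X.encard →
        ¬ X.encard ≤ (k : ℕ∞) := by
      intro X k hk h2 h3
      have h4 := h2.trans h3
      have h5 : max k₁ k₂ + 1 ≤ k := by exact_mod_cast h4
      omega
    have i1 := (hk₁ w).resolve_left (hnot (le_max_left _ _) hsw'.1)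
    have i2 := (hk₂ w).resolve_left (hnot (le_max_right _ _) hsw'.2)
    rw [e1, hwY] at i1
    rw [e2, hwY] at i2
    have hZ : Df1 σ S B₀ {y | Sat σ S (update w x y) φ} := by
      refine (df1_of_fml φ w x).mono ?_
      rintro _ ⟨t, -, rfl⟩
      rw [hw]
      exact (w' t).2
    have j1 : (Y ∩ {y | Sat σ S (update w x y) φ} ∩ B₀).Infinite :=
      (TV.infinite_iff hTV (hY.inter hZ)).2 i1
    have j2 : ((Y \ {y | Sat σ S (update w x y) φ}) ∩ B₀).Infinite :=
      (TV.infinite_iff hTV (hY.diff hZ)).2 i2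
    rcases hmin _ hZ with h2 | h2
    · exact j1 h2
    · exact j2 h2

end Pool.Agent.BLE
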