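import Pool.Agent.BLE.GP
import Pool.Agent.BLE.GA
import Pool.Agent.BLE.DF
import Pool.Agent.BLE.SD
import Pool.Agent.BLE.SC

/-!
# BLE / GI: the strongly minimal set `Dset v`, types of generic tuples
-/

set_option autoImplicit false

namespace Pool.Agent.BLE

open Function

variable {σ : Sig} {M : Type} {S : Str M} {ell : ℕ} {θ D : Fml}

theorem GoodPre.df1 (h : GoodPre σ S ell θ D) (v : ℕ → M) :
    Df1 σ S (par ell v) (Dset σ S D v) := by
  refine (df1_of_fml D v 1).mono ?_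
  rintro _ ⟨t, ⟨ht, ht1⟩, rfl⟩
  rcases h.fvD t ht with h1 | ⟨j, hj, rfl⟩
  · exact absurd h1 ht1
  · exact ⟨j, hj, rfl⟩

private theorem gi_Dset_congr (h : GoodPre σ S ell θ D) {v w : ℕ → M}
    (hvw : ∀ j < ell, v (2 * j) = w (2 * j)) : Dset σ S D v = Dset σ S D w := by
  ext y
  refine sat_congr D fun i hi => ?_
  rcases h.fvD i hi with rfl | ⟨j, hj, rfl⟩
  · rw [update_self, update_self]
  · rw [update_of_ne (by omega), update_of_ne (by omega), hvw j hj]

private theorem gi_Dx (h : GoodPre σ S ell θ D) (x : ℕ) (hx : ∀ j < ell, x ≠ 2 * j) :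
    ∃ Dx : Fml, (∀ i ∈ Dx.fv, i = x ∨ ∃ j < ell, i = 2 * j) ∧
      ∀ (v : ℕ → M) (y : M), Sat σ S (update v x y) Dx ↔ y ∈ Dset σ S D v := by
  by_cases h1 : x = 1
  · subst h1
    exact ⟨D, h.fvD, fun v y => Iff.rfl⟩
  · refine ⟨Fml.ex 1 (Fml.and (.eq 1 x) D), fun i hi => ?_, fun v y => ?_⟩
    · rw [fv_ex, fv_and, Finset.mem_erase, Finset.mem_union] at hi
      obtain ⟨hi1, hi2 | hi2⟩ := hi
      · have hi3 : i ∈ ({1, x} : Finset ℕ) := hi2
        rw [Finset.mem_insert, Finset.mem_singleton] at hi3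
        rcases hi3 with hi3 | hi3
        · exact absurd hi3 hi1
        · exact Or.inl hi3
      · rcases h.fvD i hi2 with hi3 | hi3
        · exact absurd hi3 hi1
        · exact Or.inr hi3
    · have key : ∀ a, Sat σ S (update (update v x y) 1 a) D ↔ a ∈ Dset σ S D v := by
        intro a
        refine sat_congr D fun i hi => ?_
        rcases h.fvD i hi with rfl | ⟨j, hj, rfl⟩
        · rw [update_self, update_self]
        · rw [update_of_ne (by omega), update_of_ne (fun h' => hx j hj h'.symm),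
            update_of_ne (by omega)]
      rw [sat_ex]
      constructor
      · rintro ⟨a, ha⟩
        rw [sat_and, sat_eq, update_self, update_of_ne h1, update_self, key] at ha
        rw [← ha.1]
        exact ha.2
      · intro hy
        refine ⟨y, ?_⟩
        rw [sat_and, sat_eq, update_self, update_of_ne h1, update_self, key]
        exact ⟨rfl, hy⟩

theorem GoodPre.smin (h : GoodPre σ S ell θ D) (v : ℕ → M) (hv : Sat σ S v θ) :
    SMin σ S (Dset σ S D v) := by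
  refine ⟨h.inf v hv, fun Z hZ => ?_⟩
  obtain ⟨A₀, _, hfin, hZ'⟩ := hZ.fin_support
  obtain ⟨f, hf⟩ := (hfin.insert (v 0)).countable.exists_eq_range ⟨v 0, Set.mem_insert _ _⟩
  obtain ⟨w, hw⟩ : ∃ w : ℕ → M, w = fun i => if i < 2 * ell + 2 then v i else
    f (i - (2 * ell + 2)) := ⟨_, rfl⟩
  have hw1 : ∀ i, i < 2 * ell + 2 → w i = v i := by
    intro i hi
    rw [hw]
    exact if_pos hi
  have hw2 : ∀ i, w (2 * ell + 2 + i) = f i := by
    intro i
    rw [hw]
    show (if 2 * ell + 2 + i < 2 * ell + 2 then v (2 * ell + 2 + i) else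
      f (2 * ell + 2 + i - (2 * ell + 2))) = f i
    rw [if_neg (by omega), Nat.add_sub_cancel_left]
  have hZ2 : Df1 σ S (w '' {i | 2 * ell + 2 ≤ i}) Z := by
    refine hZ'.mono ?_
    intro a ha
    have ha' : a ∈ Set.range f := by
      rw [← hf]
      exact Set.mem_insert_of_mem _ ha
    obtain ⟨i, rfl⟩ := ha'
    exact ⟨2 * ell + 2 + i, Nat.le_add_right _ _, hw2 i⟩
  obtain ⟨φ, _, hφ⟩ := fml_of_df1 w {i | 2 * ell + 2 ≤ i} 1 (by
    intro h1
    have h2 : 2 * ell + 2 ≤ 1 := h1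
    omega) hZ2
  obtain ⟨k, hk⟩ := h.bd φ 1 (fun j _ => by omega)
  have hwθ : Sat σ S w θ := by
    refine (sat_congr θ fun i hi => ?_).1 hv
    obtain ⟨j, hj, rfl⟩ := h.fvθ i hi
    exact (hw1 _ (by omega)).symm
  have hD : Dset σ S D v = Dset σ S D w :=
    gi_Dset_congr h fun j hj => (hw1 _ (by omega)).symm
  rw [hD]
  rcases hk w hwθ with h1 | h1
  · left
    have e : {y | y ∈ Dset σ S D w ∧ Sat σ S (update w 1 y) φ} = Dset σ S D w ∩ Z := by
      ext y
      exact and_congr_right fun _ => (hφ y).symm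
    rw [e] at h1
    exact Set.finite_of_encard_le_coe h1
  · right
    have e : {y | y ∈ Dset σ S D w ∧ ¬ Sat σ S (update w 1 y) φ} = Dset σ S D w \ Z := by
      ext y
      exact and_congr_right fun _ => not_congr (hφ y).symm
    rw [e] at h1
    exact Set.finite_of_encard_le_coe h1

private theorem gi_df (h : GoodPre σ S ell θ D) (v : ℕ → M) (m x : ℕ) (φ : Fml)
    (hφ : ∀ i ∈ φ.fv, i = x ∨ (∃ j < ell, i = 2 * j) ∨ ∃ j < m, i = 2 * j + 1) :
    Df1 σ S (par ell v ∪ prev v m) {y | y ∈ Dset σ S D v ∧ Sat σ S (update v x y) φ} := by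
  refine Df1.inter ((h.df1 v).mono Set.subset_union_left) ((df1_of_fml φ v x).mono ?_)
  rintro _ ⟨t, ⟨ht, htx⟩, rfl⟩
  rcases hφ t ht with h1 | ⟨j, hj, rfl⟩ | ⟨j, hj, rfl⟩
  · exact absurd h1 htx
  · exact Or.inl ⟨j, hj, rfl⟩
  · exact Or.inr ⟨j, hj, rfl⟩

theorem GoodPre.gen_type (h : GoodPre σ S ell θ D) (m : ℕ) (v w : ℕ → M) (hv : Sat σ S v θ)
    (hw : Sat σ S w θ) (hgv : ∀ n < m, Gen σ S ell D v n) (hgw : ∀ n < m, Gen σ S ell D w n)
    (φ : Fml) (hφ : ∀ i ∈ φ.fv, (∃ j < ell, i = 2 * j) ∨ ∃ j < m, i = 2 * j + 1) :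
    Sat σ S v φ → Sat σ S w φ := by
  induction m generalizing φ with
  | zero =>
    refine h.iso φ (fun i hi => ?_) v w hv hw
    rcases hφ i hi with h1 | ⟨j, hj, _⟩
    · exact h1
    · exact absurd hj (Nat.not_lt_zero j)
  | succ m ih =>
    intro hvφ
    have hx : ∀ j < ell, 2 * m + 1 ≠ 2 * j := fun j _ => by omega
    obtain ⟨k, hk⟩ := h.bd φ (2 * m + 1) hx
    obtain ⟨Dx, hDx1, hDx2⟩ := gi_Dx h (2 * m + 1) hx
    have hφ' : ∀ i ∈ φ.fv, i = 2 * m + 1 ∨ (∃ j < ell, i = 2 * j) ∨ ∃ j < m, i = 2 * j + 1 := by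
      intro i hi
      rcases hφ i hi with h1 | ⟨j, hj, rfl⟩
      · exact Or.inr (Or.inl h1)
      · rcases Nat.lt_succ_iff_lt_or_eq.1 hj with hj' | rfl
        · exact Or.inr (Or.inr ⟨j, hj', rfl⟩)
        · exact Or.inl rfl
    obtain ⟨gv1, gv2⟩ := hgv m (Nat.lt_succ_self m)
    obtain ⟨gw1, gw2⟩ := hgw m (Nat.lt_succ_self m)
    have hU : ¬ {y | y ∈ Dset σ S D v ∧ Sat σ S (update v (2 * m + 1) y) φ}.encard ≤ (k : ℕ∞) := by
      intro hle
      refine gv2 ⟨_, gi_df h v m (2 * m + 1) φ hφ', Set.finite_of_encard_le_coe hle, gv1, ?_⟩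
      rw [update_eq_self]
      exact hvφ
    have h1 := (hk v hv).resolve_left hU
    have e : ∀ u : ℕ → M, {a | Sat σ S (update u (2 * m + 1) a) (Dx.and φ.neg)} =
        {y | y ∈ Dset σ S D u ∧ ¬ Sat σ S (update u (2 * m + 1) y) φ} := by
      intro u
      ext a
      show Sat σ S (update u (2 * m + 1) a) (Dx.and φ.neg) ↔ _
      rw [sat_and, hDx2, sat_neg]
      exact Iff.rfl
    have h2 : Sat σ S v (Fml.atMost k (2 * m + 1) (Dx.and φ.neg)) := by
      rw [sat_atMost, e]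
      exact h1
    have h3 := ih (fun n hn => hgv n (hn.trans (Nat.lt_succ_self m)))
      (fun n hn => hgw n (hn.trans (Nat.lt_succ_self m))) _ (fun i hi => by
        have hi' := fv_atMost k (2 * m + 1) (Dx.and φ.neg) hi
        rw [Finset.mem_erase, fv_and, fv_neg, Finset.mem_union] at hi'
        obtain ⟨hi1, hi2 | hi2⟩ := hi'
        · exact Or.inl ((hDx1 i hi2).resolve_left hi1)
        · exact (hφ' i hi2).resolve_left hi1) h2
    rw [sat_atMost, e] at h3
    by_contra hcon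
    refine gw2 ⟨_, gi_df h w m (2 * m + 1) φ.neg (fun i hi => hφ' i (by rwa [fv_neg] at hi)),
      Set.finite_of_encard_le_coe h3, gw1, ?_⟩
    rw [update_eq_self]
    exact hcon

private theorem gi_acl_fin {A F : Set M} (hF : F.Finite) (hFA : F ⊆ acl σ S A) :
    ∃ X, Df1 σ S A X ∧ X.Finite ∧ F ⊆ X := by
  induction F, hF using Set.Finite.induction_on with
  | empty => exact ⟨∅, Df1.empty, Set.finite_empty, Set.Subset.rfl⟩
  | @insert a F ha _ ih =>
    obtain ⟨X, h1, h2, h3⟩ := ih fun x hx => hFA (Set.mem_insert_of_mem _ hx)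
    obtain ⟨Y, h4, h5, h6⟩ := hFA (Set.mem_insert a F)
    exact ⟨Y ∪ X, h4.union h1, h5.union h2, Set.insert_subset (Or.inl h6)
      (h3.trans Set.subset_union_right)⟩

theorem GoodPre.alg_transfer (h : GoodPre σ S ell θ D) (k : ℕ) (v w : ℕ → M)
    (hv : Sat σ S v θ) (hw : Sat σ S w θ) (hgv : ∀ n < k, Gen σ S ell D v n)
    (hgw : ∀ n < k, Gen σ S ell D w n)
    (hi : (acl σ S (par ell v ∪ prev v k) ∩ Dset σ S D v).Infinite) :
    (acl σ S (par ell w ∪ prev w k) ∩ Dset σ S D w).Infinite := by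
  by_contra hcon
  have hfin := Set.not_infinite.1 hcon
  obtain ⟨F, hF1, hF2⟩ := hi.exists_subset_card_eq
    ((acl σ S (par ell w ∪ prev w k) ∩ Dset σ S D w).ncard + 1)
  obtain ⟨X₀, hX1, hX2, hX3⟩ := gi_acl_fin F.finite_toSet (hF1.trans Set.inter_subset_left)
  obtain ⟨X, hXe⟩ : ∃ X, X = X₀ ∩ Dset σ S D v := ⟨_, rfl⟩
  have hXd : Df1 σ S (par ell v ∪ prev v k) X := by
    rw [hXe]
    exact hX1.inter ((h.df1 v).mono Set.subset_union_left)
  have hXf : X.Finite := by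
    rw [hXe]
    exact hX2.subset Set.inter_subset_left
  have hFX : (F : Set M) ⊆ X := by
    rw [hXe]
    exact Set.subset_inter hX3 (hF1.trans Set.inter_subset_right)
  obtain ⟨V, hV⟩ : ∃ V : Set ℕ, V = {i | (∃ j < ell, i = 2 * j) ∨ ∃ j < k, i = 2 * j + 1} :=
    ⟨_, rfl⟩
  have hvV : par ell v ∪ prev v k ⊆ v '' V := by
    rw [hV]
    rintro _ (⟨j, hj, rfl⟩ | ⟨j, hj, rfl⟩)
    · exact ⟨2 * j, Or.inl ⟨j, hj, rfl⟩, rfl⟩
    · exact ⟨2 * j + 1, Or.inr ⟨j, hj, rfl⟩, rfl⟩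
  have hxV : 2 * (ell + k) + 2 ∉ V := by
    rw [hV]
    rintro (⟨j, hj, hj2⟩ | ⟨j, hj, hj2⟩) <;> omega
  obtain ⟨χ, hχ1, hχ2⟩ := fml_of_df1 v V (2 * (ell + k) + 2) hxV (hXd.mono hvV)
  have hx : ∀ j < ell, 2 * (ell + k) + 2 ≠ 2 * j := fun j hj => by omega
  obtain ⟨Dx, hDx1, hDx2⟩ := gi_Dx h (2 * (ell + k) + 2) hx
  have e : ∀ u : ℕ → M, {a | Sat σ S (update u (2 * (ell + k) + 2) a) (Dx.and χ)} =
      {y | y ∈ Dset σ S D u ∧ Sat σ S (update u (2 * (ell + k) + 2) y) χ} := by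
    intro u
    ext a
    show Sat σ S (update u (2 * (ell + k) + 2) a) (Dx.and χ) ↔ _
    rw [sat_and, hDx2]
    exact Iff.rfl
  have eX : {y | y ∈ Dset σ S D v ∧ Sat σ S (update v (2 * (ell + k) + 2) y) χ} = X := by
    ext y
    constructor
    · rintro ⟨_, h2⟩
      exact (hχ2 y).2 h2
    · intro h2
      refine ⟨?_, (hχ2 y).1 h2⟩
      rw [hXe] at h2
      exact h2.2
  have hfv : ∀ i ∈ (Dx.and χ).fv, i ≠ 2 * (ell + k) + 2 →
      (∃ j < ell, i = 2 * j) ∨ ∃ j < k, i = 2 * j + 1 := by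
    intro i hi hix
    rw [fv_and, Finset.mem_union] at hi
    rcases hi with hi | hi
    · exact Or.inl ((hDx1 i hi).resolve_left hix)
    · have h2 := (hχ1 i hi).resolve_right hix
      rw [hV] at h2
      exact h2
  have s1 : Sat σ S v (Fml.atLeast ((acl σ S (par ell w ∪ prev w k) ∩ Dset σ S D w).ncard + 1)
      (2 * (ell + k) + 2) (Dx.and χ)) := by
    rw [sat_atLeast, e, eX, ← hF2, ← Set.encard_coe_eq_coe_finsetCard]
    exact Set.encard_le_encard hFX
  have s2 : Sat σ S v (Fml.atMost X.ncard (2 * (ell + k) + 2) (Dx.and χ)) := by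
    rw [sat_atMost, e, eX, hXf.cast_ncard_eq]
  have t1 := h.gen_type k v w hv hw hgv hgw _ (fun i hi => by
    have hi' := fv_atLeast _ _ _ hi
    rw [Finset.mem_erase] at hi'
    exact hfv i hi'.2 hi'.1) s1
  have t2 := h.gen_type k v w hv hw hgv hgw _ (fun i hi => by
    have hi' := fv_atMost _ _ _ hi
    rw [Finset.mem_erase] at hi'
    exact hfv i hi'.2 hi'.1) s2
  rw [sat_atLeast, e] at t1
  rw [sat_atMost, e] at t2
  have hdf := gi_df h w k (2 * (ell + k) + 2) χ (fun i hi => by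
    by_cases hix : i = 2 * (ell + k) + 2
    · exact Or.inl hix
    · refine Or.inr ?_
      have h2 := (hχ1 i hi).resolve_right hix
      rw [hV] at h2
      exact h2)
  have hsub : {y | y ∈ Dset σ S D w ∧ Sat σ S (update w (2 * (ell + k) + 2) y) χ} ⊆
      acl σ S (par ell w ∪ prev w k) ∩ Dset σ S D w :=
    fun y hy => ⟨⟨_, hdf, Set.finite_of_encard_le_coe t2, hy⟩, hy.1⟩
  have h9 := t1.trans (Set.encard_le_encard hsub)
  rw [← hfin.cast_ncard_eq] at h9
  have h10 : (acl σ S (par ell w ∪ prev w k) ∩ Dset σ S D w).ncard + 1 ≤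
      (acl σ S (par ell w ∪ prev w k) ∩ Dset σ S D w).ncard := by exact_mod_cast h9
  omega

end Pool.Agent.BLE
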