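import Pool.Agent.BLE.VF
import Pool.Agent.BLE.SD
import Pool.Agent.BLE.LC

/-!
# BLE / VG: elimination of the quantifier `there are infinitely many`

If there were arbitrarily large finite sets defined by the formula `φ`, then an ultrapower would
contain a Vaughtian pair.
-/

set_option autoImplicit false

namespace Pool.Agent.BLE

open Function

variable {σ : Sig} {T : Set Fml} {M : Type}

/-- a formula which is satisfiable in `M` is satisfiable by an assignment with values in `B` -/
private theorem sat_in_tv {S : Str M} {B : Set M} (hB : TV σ S B) {b : M} (hb : b ∈ B) (ψ : Fml)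
    {v : ℕ → M} (hv : Sat σ S v ψ) : ∃ w : ℕ → M, (∀ i, w i ∈ B) ∧ Sat σ S w ψ := by
  classical
  have : Nonempty M := ⟨b⟩
  have hZ : Dfn σ S B {z : {t // t ∈ ψ.fv} → M |
      Sat σ S (fun t => if h : t ∈ ψ.fv then z ⟨t, h⟩ else b) ψ} := by
    refine ⟨ψ, fun t => if h : t ∈ ψ.fv then Sum.inl ⟨t, h⟩ else Sum.inr b, ?_, ?_⟩
    · intro t ht a ha
      simp [ht] at ha
    · intro z
      have : (fun t => Sum.elim z id (if h : t ∈ ψ.fv then Sum.inl ⟨t, h⟩ else Sum.inr b)) =
          fun t => if h : t ∈ ψ.fv then z ⟨t, h⟩ else b := by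
        funext t
        by_cases h : t ∈ ψ.fv <;> simp [h]
      rw [this]
      exact Iff.rfl
  obtain ⟨z, hz, hzB⟩ := hB.dfn hZ ⟨fun t => v t.1, by
    refine (sat_congr ψ fun t ht => ?_).2 hv
    simp [ht]⟩
  refine ⟨fun t => if h : t ∈ ψ.fv then z ⟨t, h⟩ else b, fun t => ?_, hz⟩
  by_cases h : t ∈ ψ.fv
  · simp only [h, dif_pos]
    exact hzB _
  · simp only [h, dif_neg, not_false_eq_true]
    exact hb

theorem elim_inf (hT : CompleteTheory σ T)
    (hc : ∀ κ : Cardinal.{0}, Cardinal.aleph0 < κ → Categorical σ T κ) (S : Str M)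
    (hS : Models σ S T) (hM : Monster σ S) (φ : Fml) (x : ℕ) :
    ∃ k : ℕ, ∀ v : ℕ → M, {y | Sat σ S (update v x y) φ}.encard ≤ (k : ℕ∞) ∨
      {y | Sat σ S (update v x y) φ}.Infinite := by
  have hinf := hM.inf
  have : Nonempty M := inferInstance
  by_contra hneg
  push Not at hneg
  choose v hv1 hv2 using hneg
  obtain ⟨B, hB, -, hBc, -⟩ := exists_tv (σ := σ) (S := S) Cardinal.aleph0 le_rfl
    (fun _ => ∅) (fun _ => by simp) ∅ (by simp)
  have hBc' : B.Countable := Cardinal.le_aleph0_iff_set_countable.1 hBc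
  have hBne : B ≠ Set.univ := by
    intro h
    have h1 := not_countable_inter hM.satG (X := Set.univ) Df1.univ
      (by rw [Set.inter_univ]; exact Set.infinite_univ)
    rw [Set.inter_univ] at h1
    exact h1 (h ▸ hBc')
  obtain ⟨b, hb⟩ := hB.nonempty
  have step : ∀ k : ℕ, ∃ w : ℕ → M, (∀ i, w i ∈ B) ∧
      (k : ℕ∞) < {y | Sat σ S (update w x y) φ}.encard ∧
      {y | Sat σ S (update w x y) φ}.Finite := by
    intro k
    have hfin : {y | Sat σ S (update (v k) x y) φ}.Finite := hv2 k
    obtain ⟨m, hm⟩ : ∃ m : ℕ, {y | Sat σ S (update (v k) x y) φ}.encard = (m : ℕ∞) :=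
      ⟨_, hfin.encard_eq_coe_toFinset_card⟩
    obtain ⟨w, hwB, hw⟩ := sat_in_tv hB hb
      (Fml.and (Fml.atLeast m x φ) (Fml.atMost m x φ)) (v := v k) (by
        rw [sat_and, sat_atLeast, sat_atMost, hm]
        exact ⟨le_rfl, le_rfl⟩)
    rw [sat_and, sat_atLeast, sat_atMost] at hw
    have hwm : {y | Sat σ S (update w x y) φ}.encard = (m : ℕ∞) := le_antisymm hw.2 hw.1
    refine ⟨w, hwB, ?_, ?_⟩
    · rw [hwm, ← hm]
      exact hv1 k
    · exact Set.finite_of_encard_eq_coe hwm
  choose w hwB hwk hwf using step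
  have hXB : ∀ k, {y | Sat σ S (update (w k) x y) φ} ⊆ B := by
    intro k
    refine hB.subset_of_finite ((df1_of_fml φ (w k) x).mono ?_) ((hwf k).subset
      Set.inter_subset_left)
    rintro _ ⟨t, -, rfl⟩
    exact hwB k t
  have hMon := monster_ultra hT hc S hS
  have hinf' := hMon.inf
  set U : Ultrafilter ℕ := Filter.hyperfilter ℕ with hU
  have hnv := noVP hT hc (UStr U S) (los_models U S hS)
  let vs : ℕ → Filter.Germ (U : Filter ℕ) M := fun i => ((fun k => w k i : ℕ → M) :
    Filter.Germ (U : Filter ℕ) M)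
  have hvs : ∀ i, vs i ∈ UN U B := fun i =>
    (mem_UN U B _).2 (Filter.Eventually.of_forall fun k => hwB k i)
  have hsub : {y | Sat σ (UStr U S) (update vs x y) φ} ⊆ UN U B := by
    intro y hy
    induction y using Filter.Germ.inductionOn with
    | h f =>
      have e : update vs x (f : Filter.Germ (U : Filter ℕ) M) =
          fun i => ((update (fun i => (fun k => w k i : ℕ → M)) x f i : ℕ → M) :
            Filter.Germ (U : Filter ℕ) M) := by
        funext i
        by_cases hi : i = x
        · rw [hi, update_self, update_self]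
        · rw [update_of_ne hi, update_of_ne hi]
      rw [Set.mem_setOf_eq, e, los] at hy
      refine (mem_UN U B f).2 (hy.mono fun j hj => ?_)
      apply hXB j
      rw [Set.mem_setOf_eq]
      convert hj using 1
      funext i
      by_cases hi : i = x
      · rw [hi, update_self, update_self]
      · rw [update_of_ne hi, update_of_ne hi]
  have hXinf : {y | Sat σ (UStr U S) (update vs x y) φ}.Infinite := by
    rw [← Set.encard_eq_top_iff]
    refine ENat.eq_top_iff_forall_ge.2 fun m => ?_
    rw [← sat_atLeast]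
    refine (los U S (fun i k => w k i) _).2 ?_
    have h1 : ∀ᶠ j in (U : Filter ℕ), m ≤ j :=
      (Filter.eventually_ge_atTop m).filter_mono (by
        rw [hU]
        exact Nat.hyperfilter_le_atTop)
    filter_upwards [h1] with j hj
    have h2 : Sat σ S (w j) (Fml.atLeast m x φ) := by
      rw [sat_atLeast]
      refine le_trans ?_ (hwk j).le
      exact_mod_cast hj
    exact h2
  have hd : Df1 σ (UStr U S) (UN U B) {y | Sat σ (UStr U S) (update vs x y) φ} := by
    refine (df1_of_fml φ vs x).mono ?_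
    rintro _ ⟨t, -, rfl⟩
    exact hvs t
  have h3 := hnv (UN U B) Set.univ (tv_UN U S hB) TV.univ (Set.subset_univ _) _ hd hXinf
    (Set.inter_subset_left.trans hsub)
  exact UN_ne U hBne (h3.trans (UN_univ U).symm)

end Pool.Agent.BLE
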