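import Pool.Agent.BLE.GI
import Pool.Agent.BLE.GF
import Pool.Agent.BLE.VB
import Pool.Agent.BLE.VA
import Pool.Agent.BLE.VF
import Pool.Agent.BLE.VG
import Pool.Agent.BLE.GH
import Pool.Agent.BLE.TA

/-!
# BLE / GJ: `GoodData` exists for uncountably categorical theories which are not `ℵ₀`-categorical
-/

set_option autoImplicit false

namespace Pool.Agent.BLE

open Function

variable {σ : Sig} {M : Type} {S : Str M} {T : Set Fml}

theorem omegaSat_of_univ (h : SatW σ S Set.univ) : OmegaSat σ S := by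
  classical
  intro n g Γ hΓ hfin
  have : Nonempty Fml := ⟨.bot⟩
  let 𝒳 : Set (Set M) := {X | ∃ φ ∈ Γ, X = {y | Sat σ S (update g n y) φ}}
  let A : Set M := g '' {t | t < n}
  have hA : A.Finite := (Set.finite_lt_nat n).image _
  have hD : ∀ X ∈ 𝒳, Df1 σ S A X := by
    rintro X ⟨φ, hφ, rfl⟩
    refine (df1_of_fml (σ := σ) (S := S) φ g n).mono ?_
    rintro _ ⟨t, ⟨ht, htn⟩, rfl⟩
    refine ⟨t, ?_, rfl⟩
    have h1 := Finset.mem_range.1 (hΓ φ hφ ht)
    show t < n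
    omega
  have hF : ∀ F : Finset (Set M), (F : Set (Set M)) ⊆ 𝒳 →
      (⋂₀ (F : Set (Set M)) ∩ Set.univ).Nonempty := by
    intro F hF𝒳
    have h1 : ∀ X ∈ 𝒳, ∃ φ, φ ∈ Γ ∧ X = {y | Sat σ S (update g n y) φ} := by
      rintro X ⟨φ, hφ, hX⟩
      exact ⟨φ, hφ, hX⟩
    choose! q hq1 hq2 using h1
    obtain ⟨a, ha⟩ := hfin (F.image q) (by
      intro φ hφ
      obtain ⟨X, hX, rfl⟩ := Finset.mem_image.1 (Finset.mem_coe.1 hφ)
      exact hq1 X (hF𝒳 hX))
    refine ⟨a, ?_, Set.mem_univ a⟩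
    intro X hX
    rw [hq2 X (hF𝒳 hX)]
    exact ha (q X) (Finset.mem_image_of_mem q hX)
  obtain ⟨y, hy, _⟩ := h A hA (Set.subset_univ A) 𝒳 hD hF
  exact ⟨y, fun φ hφ => hy _ ⟨φ, hφ, rfl⟩⟩

private theorem gj_conj (Δ : Finset Fml) : ∃ ψ : Fml, ∀ (N : Type) (S' : Str N) (v : ℕ → N),
    Sat σ S' v ψ ↔ ∀ φ ∈ Δ, Sat σ S' v φ := by
  classical
  induction Δ using Finset.induction_on with
  | empty =>
    exact ⟨Fml.top, fun N S' v => ⟨fun _ φ hφ => absurd hφ (Finset.notMem_empty φ),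
      fun _ => sat_top⟩⟩
  | insert a Δ _ ih =>
    obtain ⟨ψ, hψ⟩ := ih
    refine ⟨a.and ψ, fun N S' v => ?_⟩
    rw [sat_and, hψ, Finset.forall_mem_insert]

private theorem gj_sentence (hT : CompleteTheory σ T) {M₁ M₂ : Type} {S₁ : Str M₁}
    {S₂ : Str M₂} (h₁ : Models σ S₁ T) (h₂ : Models σ S₂ T) (φ : Fml) (hφ : φ.fv = ∅)
    (v : ℕ → M₁) (v' : ℕ → M₂) (h : Sat σ S₁ v φ) : Sat σ S₂ v' φ := by
  rcases hT.complete φ hφ with h3 | h3
  · exact h₂ φ h3 v'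
  · exact absurd h (h₁ _ h3 v)

private theorem gj_type (hT : CompleteTheory σ T) (hS : Models σ S T) (hM : Monster σ S)
    {M₁ : Type} {S₁ : Str M₁} (h₁ : Models σ S₁ T) (a : ℕ → M₁) :
    ∃ v : ℕ → M, ∀ φ : Fml, Sat σ S₁ a φ ↔ Sat σ S v φ := by
  have : Nonempty M := @Infinite.nonempty _ hM.inf
  obtain ⟨v, _, _, hv⟩ := hM.satG {φ | Sat σ S₁ a φ} ∅ (fun _ => Classical.arbitrary M)
    (fun _ => Set.mem_univ _) (fun Δ hΔ => by
      obtain ⟨ψ, hψ⟩ := gj_conj (σ := σ) Δ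
      have hψa : Sat σ S₁ a ψ := (hψ M₁ S₁ a).2 fun φ hφ => hΔ hφ
      have hfv : (Fml.exs ψ.code id ψ).fv = ∅ := by
        rw [fv_exs, Finset.sdiff_eq_empty_iff_subset]
        intro i hi
        exact Finset.mem_image.2 ⟨i, Finset.mem_range.2 (fv_lt_code ψ i hi), rfl⟩
      have h2 : Sat σ S₁ a (Fml.exs ψ.code id ψ) := (sat_exs _ _ _ _).2 ⟨a, fun _ _ => rfl, hψa⟩
      have h3 := gj_sentence hT h₁ hS _ hfv a (fun _ => Classical.arbitrary M) h2
      obtain ⟨w, _, hw⟩ := (sat_exs _ _ _ _).1 h3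
      exact ⟨w, fun _ => Set.mem_univ _, fun i hi => absurd hi (Set.notMem_empty i),
        (hψ M S w).1 hw⟩)
  refine ⟨v, fun φ => ⟨fun h => hv φ h, fun h => ?_⟩⟩
  by_contra hcon
  exact hv φ.neg hcon h

private theorem gj_main (hT : CompleteTheory σ T) (hS : Models σ S T) (hM : Monster σ S)
    {M₁ : Type} [Countable M₁] [Nonempty M₁] (S₁ : Str M₁) (h₁ : Models σ S₁ T)
    (hno : ¬ OmegaSat σ S₁) : ∃ N : Set M, TV σ S N ∧ N.Countable ∧ ¬ SatW σ S N := by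
  obtain ⟨a, ha⟩ := exists_surjective_nat M₁
  obtain ⟨v, hv⟩ := gj_type hT hS hM h₁ a
  refine ⟨Set.range v, tv_of_type hv ?_, Set.countable_range v, fun hW => hno ?_⟩
  · rw [ha.range_eq]
    exact TV.univ
  · have h2 := satW_of_type (fun φ => (hv φ).symm) hW
    rw [ha.range_eq] at h2
    exact omegaSat_of_univ h2

theorem exists_not_satW (hT : CompleteTheory σ T) (hn : ¬ Categorical σ T Cardinal.aleph0)
    (hS : Models σ S T) (hM : Monster σ S) :
    ∃ N : Set M, TV σ S N ∧ N.Countable ∧ ¬ SatW σ S N := by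
  simp only [Categorical, not_forall] at hn
  obtain ⟨M₁, M₂, S₁, S₂, h₁, h₂, c₁, c₂, hiso⟩ := hn
  have i1 : Countable M₁ := Cardinal.mk_le_aleph0_iff.1 c₁.le
  have i2 : Countable M₂ := Cardinal.mk_le_aleph0_iff.1 c₂.le
  have n1 : Nonempty M₁ := Cardinal.mk_ne_zero_iff.1 (by rw [c₁]; exact Cardinal.aleph0_ne_zero)
  have n2 : Nonempty M₂ := Cardinal.mk_ne_zero_iff.1 (by rw [c₂]; exact Cardinal.aleph0_ne_zero)
  by_cases o1 : OmegaSat σ S₁
  · by_cases o2 : OmegaSat σ S₂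
    · exact absurd (isom_of_omegaSat o1 o2 fun φ hφ v v' =>
        ⟨gj_sentence hT h₁ h₂ φ hφ v v', gj_sentence hT h₂ h₁ φ hφ v' v⟩) hiso
    · exact gj_main hT hS hM S₂ h₂ o2
  · exact gj_main hT hS hM S₁ h₁ o1

private theorem gj_snoc {A Y : Set M} {k : ℕ} {e : Fin k → M} (he : ∀ i, e i ∈ Y)
    (hi : Ind σ S A e) {y : M} (hy : y ∈ Y) (hya : y ∉ acl σ S (A ∪ Set.range e)) :
    ∃ e' : Fin (k + 1) → M, (∀ i, e' i ∈ Y) ∧ Ind σ S A e' := by
  obtain ⟨e', he'⟩ : ∃ e' : Fin (k + 1) → M, e' = Fin.snoc e y := ⟨_, rfl⟩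
  have s1 : ∀ i : Fin k, e' i.castSucc = e i := by
    intro i
    rw [he', Fin.snoc_castSucc]
  have s2 : e' (Fin.last k) = y := by rw [he', Fin.snoc_last]
  refine ⟨e', fun i => ?_, fun i => ?_⟩
  · refine Fin.lastCases ?_ (fun i => ?_) i
    · rw [s2]
      exact hy
    · rw [s1]
      exact he i
  · refine Fin.lastCases ?_ (fun i => ?_) i
    · have h1 : e' '' {j | j < Fin.last k} = Set.range e := by
        ext z
        constructor
        · rintro ⟨j, hj, rfl⟩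
          have hj' : j < Fin.last k := hj
          obtain ⟨j', rfl⟩ : ∃ j' : Fin k, j = j'.castSucc :=
            ⟨j.castPred hj'.ne, (Fin.castSucc_castPred j hj'.ne).symm⟩
          exact ⟨j', (s1 j').symm⟩
        · rintro ⟨j, rfl⟩
          exact ⟨j.castSucc, Fin.castSucc_lt_last j, s1 j⟩
      rw [h1, s2]
      exact hya
    · have h1 : e' '' {j | j < i.castSucc} = e '' {j | j < i} := by
        ext z
        constructor
        · rintro ⟨j, hj, rfl⟩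
          have hj' : j < i.castSucc := hj
          have hjl : j ≠ Fin.last k := (hj'.trans (Fin.castSucc_lt_last i)).ne
          obtain ⟨j', rfl⟩ : ∃ j' : Fin k, j = j'.castSucc :=
            ⟨j.castPred hjl, (Fin.castSucc_castPred j hjl).symm⟩
          exact ⟨j', Fin.castSucc_lt_castSucc_iff.1 hj', (s1 j').symm⟩
        · rintro ⟨j, hj, rfl⟩
          exact ⟨j.castSucc, Fin.castSucc_lt_castSucc_iff.2 hj, s1 j⟩
      rw [h1, s1]
      exact hi i

private theorem gj_theta {θ : Fml} [Nonempty M] {N : Set M} (hN : TV σ S N) {v : ℕ → M}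
    (hv : Sat σ S v θ) : ∃ w : ℕ → M, Sat σ S w θ ∧ ∀ i, w i ∈ N := by
  obtain ⟨r, hr⟩ : ∃ r : ℕ → Fin (θ.code + 1), ∀ t, t < θ.code → ((r t : Fin (θ.code + 1)) : ℕ) = t := by
    refine ⟨fun t => if h : t < θ.code + 1 then ⟨t, h⟩ else ⟨0, Nat.succ_pos _⟩, fun t ht => ?_⟩
    have h1 : t < θ.code + 1 := by omega
    show ((if h : t < θ.code + 1 then (⟨t, h⟩ : Fin (θ.code + 1)) else ⟨0, Nat.succ_pos _⟩ :
      Fin (θ.code + 1)) : ℕ) = t
    rw [dif_pos h1]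
  obtain ⟨x, hx, hxN⟩ := TV.dfn (I := Fin (θ.code + 1)) hN
    (X := {x | Sat σ S (fun t => x (r t)) θ})
    ⟨θ, fun t => Sum.inl (r t), fun t _ a ha => (by cases ha), fun x => Iff.rfl⟩
    ⟨fun i => v i, by
      refine (sat_congr θ fun i hi => ?_).1 hv
      exact congrArg v (hr i (fv_lt_code θ i hi)).symm⟩
  exact ⟨fun t => x (r t), hx, fun i => hxN _⟩

theorem exists_goodData (hT : CompleteTheory σ T) (hu : UncountablyCategorical σ T)
    (hS : Models σ S T) (hM : Monster σ S) :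
    ∃ (ell : ℕ) (θ D : Fml) (k₀ : ℕ), GoodData σ S ell θ D k₀ := by
  classical
  have inf : Infinite M := hM.inf
  have ne : Nonempty M := @Infinite.nonempty _ hM.inf
  have hvp : NoVP σ S := noVP hT hu.1 S hS
  obtain ⟨ell, θ, D, h⟩ := exists_goodPre hM fun φ x => elim_inf hT hu.1 S hS hM φ x
  obtain ⟨N, hN, _, hNs⟩ := exists_not_satW hT hu.2 hS hM
  obtain ⟨v₀, hv₀⟩ := h.ex
  obtain ⟨w₀, hw₀, hw₀N⟩ := gj_theta hN hv₀
  have hAN : par ell w₀ ⊆ N := by
    rintro _ ⟨j, _, rfl⟩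
    exact hw₀N _
  have hAf : (par ell w₀).Finite := by
    refine ((Set.finite_lt_nat ell).image fun j => w₀ (2 * j)).subset ?_
    rintro _ ⟨j, hj, rfl⟩
    exact ⟨j, hj, rfl⟩
  have hD := h.df1 w₀
  have hs := h.smin w₀ hw₀
  have hex : ∃ n, ¬ ∃ e : Fin n → M, (∀ i, e i ∈ Dset σ S D w₀ ∩ N) ∧ Ind σ S (par ell w₀) e := by
    by_contra hcon
    rw [not_exists] at hcon
    exact hNs (satW_of_dim hM hvp hN hAN hAf hD hs fun n => not_not.1 (hcon n))
  obtain ⟨k, hk1, e, he, hei⟩ : ∃ k,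
      (¬ ∃ e : Fin (k + 1) → M, (∀ i, e i ∈ Dset σ S D w₀ ∩ N) ∧ Ind σ S (par ell w₀) e) ∧
      ∃ e : Fin k → M, (∀ i, e i ∈ Dset σ S D w₀ ∩ N) ∧ Ind σ S (par ell w₀) e := by
    have h1 := Nat.find_spec hex
    have h2 := fun m => Nat.find_min hex (m := m)
    rcases hn : Nat.find hex with _ | k
    · rw [hn] at h1
      exact absurd ⟨fun i => i.elim0, fun i => i.elim0, fun i => i.elim0⟩ h1
    · rw [hn] at h1 h2
      exact ⟨k, h1, not_not.1 (h2 k (Nat.lt_succ_self k))⟩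
  have hsub : Dset σ S D w₀ ∩ N ⊆ acl σ S (par ell w₀ ∪ Set.range e) := by
    intro y hy
    by_contra hya
    exact hk1 (gj_snoc he hei hy hya)
  have hinf : (Dset σ S D w₀ ∩ N).Infinite :=
    (TV.infinite_iff hN (hD.mono hAN)).2 (h.inf w₀ hw₀)
  obtain ⟨w, hw⟩ : ∃ w : ℕ → M, w = fun t => if t % 2 = 0 then w₀ t else
    if h : t / 2 < k then e ⟨t / 2, h⟩ else w₀ t := ⟨_, rfl⟩
  have we : ∀ j, w (2 * j) = w₀ (2 * j) := by
    intro j
    rw [hw]
    exact if_pos (by omega)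
  have wo : ∀ (j : ℕ) (hj : j < k), w (2 * j + 1) = e ⟨j, hj⟩ := by
    intro j hj
    rw [hw]
    show (if (2 * j + 1) % 2 = 0 then w₀ (2 * j + 1) else
      if h : (2 * j + 1) / 2 < k then e ⟨(2 * j + 1) / 2, h⟩ else w₀ (2 * j + 1)) = _
    have h2 : (2 * j + 1) / 2 = j := by omega
    rw [if_neg (by omega), dif_pos (by omega)]
    congr 1
    exact Fin.ext h2
  have hpar : par ell w = par ell w₀ := by
    ext a
    constructor
    · rintro ⟨j, hj, rfl⟩
      exact ⟨j, hj, we j⟩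
    · rintro ⟨j, hj, rfl⟩
      exact ⟨j, hj, (we j).symm⟩
  have hDs : Dset σ S D w = Dset σ S D w₀ := by
    ext y
    refine sat_congr D fun i hi => ?_
    rcases h.fvD i hi with rfl | ⟨j, hj, rfl⟩
    · rw [update_self, update_self]
    · rw [update_of_ne (by omega), update_of_ne (by omega), we j]
  have hwθ : Sat σ S w θ := by
    refine (sat_congr θ fun i hi => ?_).1 hw₀
    obtain ⟨j, hj, rfl⟩ := h.fvθ i hi
    exact (we j).symm
  have hgen : ∀ n < k, Gen σ S ell D w n := by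
    intro n hn
    constructor
    · rw [hDs, wo n hn]
      exact (he _).1
    · rw [hpar, wo n hn]
      intro h3
      refine hei ⟨n, hn⟩ (acl_mono (Set.union_subset_union_right _ ?_) h3)
      rintro _ ⟨j, hj, rfl⟩
      exact ⟨⟨j, hj.trans hn⟩, hj, (wo j (hj.trans hn)).symm⟩
  have halg : (acl σ S (par ell w ∪ prev w k) ∩ Dset σ S D w).Infinite := by
    refine hinf.mono fun y hy => ⟨?_, ?_⟩
    · rw [hpar]
      refine acl_mono (Set.union_subset_union_right _ ?_) (hsub hy)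
      rintro _ ⟨j, rfl⟩
      exact ⟨j, j.2, (wo j j.2).symm⟩
    · rw [hDs]
      exact hy.1
  exact ⟨ell, θ, D, k, h.toGoodData k fun v hv hg => h.alg_transfer k w v hwθ hv hgen hg halg⟩

end Pool.Agent.BLE
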