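import Pool.Agent.BLE.Int

/-!
# BLE / GP: `GoodPre` = `GoodData` without the last condition (definition)
-/

set_option autoImplicit false

namespace Pool.Agent.BLE

open Function

variable (σ : Sig) {M : Type} (S : Str M)

/-- `θ` isolates the type of the parameters and `D` is strongly minimal (uniformly) -/
structure GoodPre (ell : ℕ) (θ D : Fml) : Prop where
  fvθ : ∀ i ∈ θ.fv, ∃ j < ell, i = 2 * j
  fvD : ∀ i ∈ D.fv, i = 1 ∨ ∃ j < ell, i = 2 * j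
  ex : ∃ v : ℕ → M, Sat σ S v θ
  iso : ∀ φ : Fml, (∀ i ∈ φ.fv, ∃ j < ell, i = 2 * j) → ∀ v w : ℕ → M, Sat σ S v θ → Sat σ S w θ →
    Sat σ S v φ → Sat σ S w φ
  inf : ∀ v : ℕ → M, Sat σ S v θ → (Dset σ S D v).Infinite
  bd : ∀ (φ : Fml) (x : ℕ), (∀ j < ell, x ≠ 2 * j) → ∃ k : ℕ, ∀ v : ℕ → M, Sat σ S v θ →
    {y | y ∈ Dset σ S D v ∧ Sat σ S (update v x y) φ}.encard ≤ (k : ℕ∞) ∨
    {y | y ∈ Dset σ S D v ∧ ¬ Sat σ S (update v x y) φ}.encard ≤ (k : ℕ∞)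

variable {σ} {S}

theorem GoodPre.toGoodData {ell : ℕ} {θ D : Fml} (h : GoodPre σ S ell θ D) (k₀ : ℕ)
    (halg : ∀ v : ℕ → M, Sat σ S v θ → (∀ n < k₀, Gen σ S ell D v n) →
      (acl σ S (par ell v ∪ prev v k₀) ∩ Dset σ S D v).Infinite) :
    GoodData σ S ell θ D k₀ :=
  ⟨h.fvθ, h.fvD, h.ex, h.iso, h.inf, h.bd, halg⟩

theorem GoodData.toGoodPre {ell : ℕ} {θ D : Fml} {k₀ : ℕ} (h : GoodData σ S ell θ D k₀) :
    GoodPre σ S ell θ D :=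
  ⟨h.fvθ, h.fvD, h.ex, h.iso, h.inf, h.bd⟩

end Pool.Agent.BLE
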