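import Pool.Agent.BLE.Dfn
import Pool.Agent.BLE.SF

/-!
# BLE / Int: interface between the model theory and the effective construction (definitions)

Variables: the parameters of the strongly minimal set are the values of the variables `2 j`, `j < ell`;
the variable of the formula `D` is `1`; the elements `d_n` of the strongly minimal set are the values of
the variables `2 n + 1`.
-/

set_option autoImplicit false

namespace Pool.Agent.BLE

open Function

variable (σ : Sig) {M : Type} (S : Str M)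

/-- the parameters -/
def par (ell : ℕ) (v : ℕ → M) : Set M := {a | ∃ j < ell, a = v (2 * j)}

/-- the elements `d_0, ..., d_(n-1)` -/
def prev (v : ℕ → M) (n : ℕ) : Set M := {a | ∃ j < n, a = v (2 * j + 1)}

/-- the strongly minimal set (with the parameters given by `v`) -/
def Dset (D : Fml) (v : ℕ → M) : Set M := {y | Sat σ S (update v 1 y) D}

/-- `d_n` is generic over the parameters and `d_0, ..., d_(n-1)` -/
def Gen (ell : ℕ) (D : Fml) (v : ℕ → M) (n : ℕ) : Prop :=
  v (2 * n + 1) ∈ Dset σ S D v ∧ v (2 * n + 1) ∉ acl σ S (par ell v ∪ prev v n)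

/-- `θ` isolates the type of the parameters, `D` is strongly minimal (uniformly), and `k₀` generic
elements of `D` have together with the parameters infinitely many algebraic elements in `D` -/
structure GoodData (ell : ℕ) (θ D : Fml) (k₀ : ℕ) : Prop where
  fvθ : ∀ i ∈ θ.fv, ∃ j < ell, i = 2 * j
  fvD : ∀ i ∈ D.fv, i = 1 ∨ ∃ j < ell, i = 2 * j
  ex : ∃ v : ℕ → M, Sat σ S v θ
  iso : ∀ φ : Fml, (∀ i ∈ φ.fv, ∃ j < ell, i = 2 * j) → ∀ v w : ℕ → M, Sat σ S v θ → Sat σ S w θ →
    Sat σ S v φ → Sat σ S w φ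
  inf : ∀ v : ℕ → M, Sat σ S v θ → (Dset σ S D v).Infinite
  bd : ∀ (φ : Fml) (x : ℕ), (∀ j < ell, x ≠ 2 * j) → ∃ k : ℕ, ∀ v : ℕ → M, Sat σ S v θ →
    {y | y ∈ Dset σ S D v ∧ Sat σ S (update v x y) φ}.encard ≤ (k : ℕ∞) ∨
    {y | y ∈ Dset σ S D v ∧ ¬ Sat σ S (update v x y) φ}.encard ≤ (k : ℕ∞)
  alg : ∀ v : ℕ → M, Sat σ S v θ → (∀ n < k₀, Gen σ S ell D v n) →
    (acl σ S (par ell v ∪ prev v k₀) ∩ Dset σ S D v).Infinite

open Classical in
/-- the characteristic function of the halting set -/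
noncomputable def haltFn (n : ℕ) : ℕ :=
  if (Nat.Partrec.Code.eval (Denumerable.ofNat Nat.Partrec.Code n) n).Dom then 1 else 0

/-- the total function `h` computes the halting set -/
def ComputesHalt (h : ℕ → ℕ) : Prop :=
  TuringReducible ((haltFn : ℕ → ℕ) : ℕ →. ℕ) ((h : ℕ → ℕ) : ℕ →. ℕ)

end Pool.Agent.BLE
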