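import Pool.Agent.BLE.Int

/-!
# BLE / JA: total functions recursive in a total function (toolkit over Mathlib's `Nat.RecursiveIn`)
-/

set_option autoImplicit false

namespace Pool.Agent.BLE

open Function

/-- the total function `f` is recursive in the total function `g` -/
def Rc (g f : ℕ → ℕ) : Prop :=
  TuringReducible ((f : ℕ → ℕ) : ℕ →. ℕ) ((g : ℕ → ℕ) : ℕ →. ℕ)

private theorem rc_iff {g f : ℕ → ℕ} :
    Rc g f ↔ Nat.RecursiveIn {((g : ℕ → ℕ) : ℕ →. ℕ)} ((f : ℕ → ℕ) : ℕ →. ℕ) :=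
  RecursiveIn.iff_nat

theorem Rc.refl (g : ℕ → ℕ) : Rc g g := TuringReducible.refl _

theorem Rc.trans {f g h : ℕ → ℕ} (h1 : Rc g f) (h2 : Rc h g) : Rc h f :=
  TuringReducible.trans h1 h2

theorem Rc.of_computable {g f : ℕ → ℕ} (hf : Computable f) : Rc g f := by
  exact (hf.computableIn (O := {((g : ℕ → ℕ) : ℕ →. ℕ)})).recursiveIn

theorem Rc.comp {g f h : ℕ → ℕ} (hf : Rc g f) (hh : Rc g h) : Rc g (fun n => f (h n)) := by
  rw [rc_iff] at *
  refine (Nat.RecursiveIn.comp hf hh).of_eq fun n => ?_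
  change Part.bind (Part.some (h n)) (fun m => Part.some (f m)) = Part.some (f (h n))
  rw [Part.bind_some]

theorem Rc.pair {g f h : ℕ → ℕ} (hf : Rc g f) (hh : Rc g h) :
    Rc g (fun n => Nat.pair (f n) (h n)) := by
  rw [rc_iff] at *
  refine (Nat.RecursiveIn.pair hf hh).of_eq fun n => ?_
  simp [PFun.coe_val, Seq.seq]

theorem Rc.iter {g f : ℕ → ℕ} (hf : Rc g f) (c : ℕ) :
    Rc g (fun n => Nat.rec c (fun i r => f (Nat.pair i r)) n) := by
  have hc : Rc g (fun _ => c) := Rc.of_computable (Computable.const c)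
  have hs : Rc g (fun m : ℕ => m.unpair.2) :=
    Rc.of_computable (Primrec.snd.comp Primrec.unpair).to_comp
  have hfs : Rc g (fun m => f m.unpair.2) := hf.comp hs
  have hp : Rc g (fun p : ℕ => (Nat.rec c (fun y r => f (Nat.pair y r)) p.unpair.2 : ℕ)) := by
    rw [rc_iff] at *
    refine (Nat.RecursiveIn.prec hc hfs).of_eq fun p => ?_
    obtain ⟨a, n, hp⟩ : ∃ a n, p = Nat.pair a n := ⟨p.unpair.1, p.unpair.2, by simp⟩
    subst hp
    simp only [Nat.unpair_pair, PFun.coe_val]
    induction n with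
    | zero => rfl
    | succ n ih =>
      simp only [ih]
      simp
  have hq : Rc g (fun n : ℕ => Nat.pair 0 n) :=
    Rc.of_computable (Primrec₂.natPair.comp (Primrec.const 0) Primrec.id).to_comp
  have := hp.comp hq
  simpa only [Nat.unpair_pair] using this

theorem Rc.find {g p : ℕ → ℕ} (hp : Rc g p) (h : ∀ a, ∃ n, p (Nat.pair a n) = 0) :
    Rc g (fun a => Nat.find (h a)) := by
  rw [rc_iff] at *
  refine (Nat.RecursiveIn.rfind hp).of_eq fun a => ?_
  have h1 : Nat.find (h a) ∈ Nat.rfind (fun n : ℕ => Part.some (decide (p (Nat.pair a n) = 0))) := by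
    refine Nat.mem_rfind.2 ⟨?_, fun {m} hm => ?_⟩
    · rw [Part.mem_some_iff]
      exact (decide_eq_true (Nat.find_spec (h a))).symm
    · rw [Part.mem_some_iff]
      exact (decide_eq_false (Nat.find_min (h a) hm)).symm
  have h2 : Nat.rfind (fun n : ℕ => (fun m => decide (m = 0)) <$>
      (((p : ℕ → ℕ) : ℕ →. ℕ) (Nat.pair a n) : Part ℕ)) =
      Nat.rfind (fun n : ℕ => Part.some (decide (p (Nat.pair a n) = 0))) := by
    refine congrArg Nat.rfind (funext fun n => ?_)
    change Part.map (fun m => decide (m = 0)) (Part.some (p (Nat.pair a n))) = _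
    rw [Part.map_some]
  exact h2.trans (Part.eq_some_iff.2 h1)

end Pool.Agent.BLE
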