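import Pool.Agent.BLE.JA

/-!
# BLE / JB: `Σ₁` and `Π₁` predicates are recursive in the halting set
-/

set_option autoImplicit false

namespace Pool.Agent.BLE

open Function Nat.Partrec

open Classical in
theorem sigma_halt {P : ℕ → ℕ → Prop} (hP : ComputablePred fun p : ℕ × ℕ => P p.1 p.2) :
    Rc haltFn (fun a => if ∃ n, P a n then 1 else 0) := by
  obtain ⟨f, hf, hfP⟩ := ComputablePred.computable_iff.1 hP
  have hfP' : ∀ a n, P a n ↔ f (a, n) = true := fun a n => by
    have := congrFun hfP (a, n)
    simp only [eq_iff_iff] at this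
    exact this
  have h1 : Partrec fun a : ℕ => Nat.rfind fun n => Part.some (f (a, n)) :=
    Partrec.rfind (p := fun a n => Part.some (f (a, n))) hf.partrec
  obtain ⟨c, hc⟩ := Code.exists_code.1 (Partrec.nat_iff.1 h1)
  have hdom : ∀ a, (Code.eval c a).Dom ↔ ∃ n, P a n := by
    intro a
    rw [hc]
    refine (Nat.rfind_dom (p := fun n : ℕ => Part.some (f (a, n)))).trans ?_
    constructor
    · rintro ⟨n, hn, -⟩
      refine ⟨n, (hfP' a n).2 ?_⟩
      exact (Part.mem_some_iff.1 hn).symm
    · rintro ⟨n, hn⟩
      exact ⟨n, Part.mem_some_iff.2 ((hfP' a n).1 hn).symm, fun _ => trivial⟩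
  have hg : Computable fun a : ℕ => Encodable.encode (Code.comp c (Code.const a)) := by
    refine Computable.encode.comp ?_
    exact (Code.primrec₂_comp.comp (Primrec.const c) Code.primrec_const).to_comp
  have hr : Rc haltFn (fun a => haltFn (Encodable.encode (Code.comp c (Code.const a)))) :=
    (Rc.refl haltFn).comp (Rc.of_computable hg)
  have he : (fun a => if ∃ n, P a n then 1 else 0) =
      fun a => haltFn (Encodable.encode (Code.comp c (Code.const a))) := by
    funext a
    unfold haltFn
    rw [Denumerable.ofNat_encode]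
    have : (Code.eval (Code.comp c (Code.const a))
        (Encodable.encode (Code.comp c (Code.const a)))).Dom ↔ ∃ n, P a n := by
      rw [← hdom a]
      simp only [Code.eval, Code.eval_const]
      rw [show (Part.some a >>= c.eval) = c.eval a from Part.bind_some _ _]
    by_cases h : ∃ n, P a n
    · rw [if_pos h, if_pos (this.2 h)]
    · rw [if_neg h, if_neg fun h' => h (this.1 h')]
  rw [he]
  exact hr

open Classical in
theorem pi_halt {P : ℕ → ℕ → Prop} (hP : ComputablePred fun p : ℕ × ℕ => P p.1 p.2) :
    Rc haltFn (fun a => if ∀ n, P a n then 0 else 1) := by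
  have h := sigma_halt (P := fun a n => ¬ P a n) hP.not
  have he : (fun a => if ∀ n, P a n then 0 else 1) =
      (fun a => if ∃ n, ¬ P a n then 1 else 0) := by
    funext a
    by_cases h : ∀ n, P a n
    · rw [if_pos h, if_neg (by simpa using h)]
    · rw [if_neg h, if_pos (by simpa using h)]
  rw [he]
  exact h

end Pool.Agent.BLE
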