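import Pool.Agent.BLE.JB
import Pool.Agent.BLE.VB
import Pool.Agent.BLE.SE
import Pool.Agent.BLE.SC

/-!
# BLE / JC: same types of finite tuples in two decidable structures

`STy R R' l l'`: the tuples `l`, `l'` have the same type (the variables beyond the length get the value of
the first element, so no bookkeeping on the free variables is needed). `sty_pi`: this is a `Π₁` predicate.
`sty_start`, `sty_extend`: one element, one more element, in a saturated structure; formulas with many free
variables are reduced by `subst` to formulas with few free variables (`sty_reduce`).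
-/

set_option autoImplicit false

namespace Pool.Agent.BLE

open Function

variable {σ : Sig}

/-- the tuples `l`, `l'` have the same type -/
def STy (σ : Sig) (R R' : Str ℕ) (l l' : List ℕ) : Prop :=
  ∀ φ : Fml, Sat σ R (fun i => l.getD i (l.headD 0)) φ ↔
    Sat σ R' (fun i => l'.getD i (l'.headD 0)) φ

/-- finite conjunctions -/
private theorem jc_conj (Δ : Finset Fml) : ∃ ψ : Fml, (∀ n, (∀ φ ∈ Δ, φ.fv ⊆ Finset.range n) → ψ.fv ⊆ Finset.range n) ∧
    ∀ (M : Type) (S : Str M) (v : ℕ → M), Sat σ S v ψ ↔ ∀ φ ∈ Δ, Sat σ S v φ := by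
  classical
  induction Δ using Finset.induction_on with
  | empty =>
    refine ⟨.top, fun n _ => ?_, fun M S v => ?_⟩
    · rw [fv_top]
      exact Finset.empty_subset _
    · simp
  | insert φ Δ _ ih =>
    obtain ⟨ψ, h1, h2⟩ := ih
    refine ⟨φ.and ψ, fun n hn => ?_, fun M S v => ?_⟩
    · rw [fv_and]
      exact Finset.union_subset (hn φ (Finset.mem_insert_self _ _))
        (h1 n fun χ hχ => hn χ (Finset.mem_insert_of_mem hχ))
    · rw [sat_and, h2, Finset.forall_mem_insert]

/-- reduction to formulas with few free variables -/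
private theorem jc_reduce {R R' : Str ℕ} {n : ℕ} {v v' : ℕ → ℕ} (ρ : ℕ → ℕ) (hρ : ∀ i, ρ i ≤ n)
    (hv : ∀ i, v (ρ i) = v i) (hv' : ∀ i, v' (ρ i) = v' i)
    (h : ∀ φ : Fml, φ.fv ⊆ Finset.range (n + 1) → Sat σ R v φ → Sat σ R' v' φ) (φ : Fml) :
    Sat σ R v φ ↔ Sat σ R' v' φ := by
  have key : ∀ φ : Fml, Sat σ R v φ → Sat σ R' v' φ := by
    intro φ hφ
    have h1 : ∀ (S : Str ℕ) (w : ℕ → ℕ), Sat σ S w (Fml.subst ρ φ.code (φ.code + n + 1) φ) ↔
        Sat σ S (fun t => w (ρ t)) φ := fun S w =>
      sat_subst ρ φ.code (φ.code + n + 1) φ (fv_lt_code φ) (by omega) (fun t _ => by have := hρ t; omega) w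
    have h2 : (Fml.subst ρ φ.code (φ.code + n + 1) φ).fv ⊆ Finset.range (n + 1) := by
      refine (fv_subst ρ φ.code (φ.code + n + 1) φ (fv_lt_code φ) (by omega)).trans ?_
      intro i hi
      obtain ⟨t, _, rfl⟩ := Finset.mem_image.1 hi
      have := hρ t
      exact Finset.mem_range.2 (by omega)
    have h3 := h _ h2
    rw [h1, h1] at h3
    have e1 : (fun t => v (ρ t)) = v := funext hv
    have e2 : (fun t => v' (ρ t)) = v' := funext hv'
    rw [e1, e2] at h3
    exact h3 hφ
  refine ⟨key φ, fun h1 => ?_⟩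
  by_contra h2
  exact key φ.neg ((sat_neg φ).2 h2) h1

/-- the value of an assignment given by a padded list -/
private theorem jc_pad (l : List ℕ) (c i : ℕ) (hi : i < c) :
    (l ++ (List.range c).map fun _ => l.headD 0).getD i 0 = l.getD i (l.headD 0) := by
  by_cases h : i < l.length
  · rw [List.getD_append _ _ _ _ h, List.getD_eq_getElem _ _ h, List.getD_eq_getElem _ _ h]
  · rw [List.getD_append_right _ _ _ _ (by omega), List.getD_eq_getElem _ _ (by simp; omega),
      List.getD_eq_default _ _ (by omega)]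
    simp

private theorem jc_comp {S : Str ℕ} (hS : DecidableStr σ S) {f : ℕ × ℕ → List ℕ} (hf : Computable f) :
    ComputablePred fun p : ℕ × ℕ => ∃ φ : Fml, φ.code = p.2 ∧
      Sat σ S (fun i => (f p ++ (List.range p.2).map fun _ => (f p).headD 0).getD i 0) φ := by
  have h1 : Computable fun p : ℕ × ℕ => (f p ++ (List.range p.2).map fun _ => (f p).headD 0) := by
    have h2 : Primrec₂ fun (l : List ℕ) (c : ℕ) => (l ++ (List.range c).map fun _ => l.headD 0) := by
      have h3 : Primrec fun q : List ℕ × ℕ => (List.range q.2).map fun _ => q.1.headD 0 := by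
        refine Primrec.list_map (Primrec.list_range.comp Primrec.snd) ?_
        have h4 : Primrec fun l : List ℕ => l.headD 0 := by
          refine (Primrec.option_getD.comp Primrec.list_head? (Primrec.const 0)).of_eq fun l => ?_
          cases l <;> rfl
        exact (h4.comp (Primrec.fst.comp Primrec.fst)).to₂
      exact (Primrec.list_append.comp Primrec.fst h3).to₂
    exact h2.to_comp.comp hf Computable.snd
  have h5 : Computable fun p : ℕ × ℕ => (p.2, (f p ++ (List.range p.2).map fun _ => (f p).headD 0)) :=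
    Computable.snd.pair h1
  obtain ⟨hd, hc⟩ := hS
  exact ⟨fun p => hd (p.2, (f p ++ (List.range p.2).map fun _ => (f p).headD 0)), hc.comp h5⟩

private theorem jc_iff {p q : ℕ × ℕ → Prop} (hp : ComputablePred p) (hq : ComputablePred q) :
    ComputablePred fun x => p x ↔ q x := by
  obtain ⟨hd, hc⟩ := hp
  obtain ⟨hd', hc'⟩ := hq
  refine ⟨fun x => inferInstance, ?_⟩
  have h1 : Computable fun x => (decide (p x) == decide (q x)) :=
    (Primrec.beq (α := Bool)).to_comp.comp hc hc'
  refine h1.of_eq fun x => ?_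
  by_cases h2 : p x <;> by_cases h3 : q x <;> simp [h2, h3]

theorem sty_pi {R R' : Str ℕ} (hR : DecidableStr σ R) (hR' : DecidableStr σ R') :
    ∃ P : ℕ → ℕ → Prop, (ComputablePred fun p : ℕ × ℕ => P p.1 p.2) ∧
      ∀ l l' : List ℕ, STy σ R R' l l' ↔ ∀ c, P (Encodable.encode (l, l')) c := by
  let dc : ℕ → List ℕ × List ℕ := fun s => (Encodable.decode (α := List ℕ × List ℕ) s).getD ([], [])
  have hdc : Primrec dc := Primrec.option_getD.comp Primrec.decode (Primrec.const _)
  have hdc' : ∀ l l' : List ℕ, dc (Encodable.encode (l, l')) = (l, l') := by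
    intro l l'
    show (Encodable.decode (α := List ℕ × List ℕ) (Encodable.encode (l, l'))).getD ([], []) = (l, l')
    rw [Encodable.encodek]
    rfl
  let P : ℕ → ℕ → Prop := fun s c =>
    (∃ φ : Fml, φ.code = c ∧
      Sat σ R (fun i => ((dc s).1 ++ (List.range c).map fun _ => (dc s).1.headD 0).getD i 0) φ) ↔
    (∃ φ : Fml, φ.code = c ∧
      Sat σ R' (fun i => ((dc s).2 ++ (List.range c).map fun _ => (dc s).2.headD 0).getD i 0) φ)
  have val : ∀ (S : Str ℕ) (l : List ℕ) (φ : Fml), (∃ φ' : Fml, φ'.code = φ.code ∧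
      Sat σ S (fun i => (l ++ (List.range φ.code).map fun _ => l.headD 0).getD i 0) φ') ↔
      Sat σ S (fun i => l.getD i (l.headD 0)) φ := by
    intro S l φ
    have h1 : Sat σ S (fun i => (l ++ (List.range φ.code).map fun _ => l.headD 0).getD i 0) φ ↔
        Sat σ S (fun i => l.getD i (l.headD 0)) φ :=
      sat_congr φ fun i hi => jc_pad l φ.code i (fv_lt_code φ i hi)
    constructor
    · rintro ⟨φ', h2, h3⟩
      rw [code_injective h2] at h3
      exact h1.1 h3
    · intro h2
      exact ⟨φ, rfl, h1.2 h2⟩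
  refine ⟨P, ?_, fun l l' => ⟨fun h c => ?_, fun h φ => ?_⟩⟩
  · have h1 : Computable fun p : ℕ × ℕ => (dc p.1).1 :=
      (Primrec.fst.comp (hdc.comp Primrec.fst)).to_comp
    have h2 : Computable fun p : ℕ × ℕ => (dc p.1).2 :=
      (Primrec.snd.comp (hdc.comp Primrec.fst)).to_comp
    exact jc_iff (jc_comp hR h1) (jc_comp hR' h2)
  · obtain ⟨φ, rfl⟩ := code_surjective c
    show (_ ↔ _)
    rw [hdc', val, val]
    exact h φ
  · have h1 := h φ.code
    change (_ ↔ _) at h1
    rw [hdc', val, val] at h1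
    exact h1

theorem STy.symm {R R' : Str ℕ} {l l' : List ℕ} (h : STy σ R R' l l') : STy σ R' R l' l :=
  fun φ => (h φ).symm

theorem sty_start {R R' : Str ℕ} (h' : OmegaSat σ R')
    (h₀ : ∀ φ : Fml, φ.fv = ∅ → ∀ v v' : ℕ → ℕ, Sat σ R v φ ↔ Sat σ R' v' φ) (a : ℕ) :
    ∃ b, STy σ R R' [a] [b] := by
  obtain ⟨b, hb⟩ := h' 0 (fun _ => 0) {φ | φ.fv ⊆ Finset.range (0 + 1) ∧ Sat σ R (fun _ => a) φ}
    (fun φ hφ => hφ.1) (by
      intro Δ hΔ
      obtain ⟨ψ, h1, h2⟩ := jc_conj (σ := σ) Δ
      have h3 : Sat σ R (fun _ => a) (Fml.ex 0 ψ) := by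
        rw [sat_ex]
        refine ⟨a, ?_⟩
        have h4 : update (fun _ : ℕ => a) 0 a = fun _ => a := update_eq_self 0 _
        rw [h4, h2]
        exact fun φ hφ => (hΔ hφ).2
      have h5 : (Fml.ex 0 ψ).fv = ∅ := by
        rw [fv_ex]
        have h6 := h1 (0 + 1) fun φ hφ => (hΔ hφ).1
        rw [Finset.eq_empty_iff_forall_notMem]
        intro i hi
        obtain ⟨h7, h8⟩ := Finset.mem_erase.1 hi
        have := Finset.mem_range.1 (h6 h8)
        omega
      have h6 := (h₀ _ h5 (fun _ => a) (fun _ => 0)).1 h3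
      rw [sat_ex] at h6
      obtain ⟨b, hb⟩ := h6
      exact ⟨b, (h2 ℕ R' _).1 hb⟩)
  refine ⟨b, ?_⟩
  have e1 : (fun i => ([a] : List ℕ).getD i (([a] : List ℕ).headD 0)) = fun _ => a := by
    funext i
    cases i <;> rfl
  have e2 : (fun i => ([b] : List ℕ).getD i (([b] : List ℕ).headD 0)) = fun _ => b := by
    funext i
    cases i <;> rfl
  intro φ
  rw [e1, e2]
  refine jc_reduce (n := 0) (fun _ => 0) (fun _ => le_rfl) (fun _ => rfl) (fun _ => rfl) (fun χ h1 h2 => ?_) φ
  refine (sat_congr χ fun i hi => ?_).1 (hb χ ⟨h1, h2⟩)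
  have h3 := Finset.mem_range.1 (h1 hi)
  have h4 : i = 0 := by omega
  rw [h4, update_self]

theorem sty_extend {R R' : Str ℕ} (h' : OmegaSat σ R') {l l' : List ℕ} (hl : l ≠ [])
    (hll : l.length = l'.length) (h : STy σ R R' l l') (a : ℕ) :
    ∃ b, STy σ R R' (l ++ [a]) (l' ++ [b]) := by
  have hn : 0 < l.length := List.length_pos_iff.2 hl
  have hv : ∀ (k : List ℕ) (c : ℕ), 0 < k.length → (fun i => (k ++ [c]).getD i ((k ++ [c]).headD 0)) =
      update (fun i => k.getD i (k.headD 0)) k.length c := by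
    intro k c hk
    have hh : (k ++ [c]).headD 0 = k.headD 0 := by
      cases k with
      | nil => simp at hk
      | cons x k => rfl
    funext i
    rw [hh]
    rcases lt_trichotomy i k.length with h1 | h1 | h1
    · rw [update_of_ne h1.ne, List.getD_append _ _ _ _ h1]
    · rw [h1, update_self, List.getD_append_right _ _ _ _ le_rfl]
      simp
    · rw [update_of_ne h1.ne', List.getD_eq_default _ _ (by simp; omega), List.getD_eq_default _ _ (by omega)]
  have hρ : ∀ (k : List ℕ) (c i : ℕ), 0 < k.length →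
      update (fun i => k.getD i (k.headD 0)) k.length c (if i ≤ k.length then i else 0) =
        update (fun i => k.getD i (k.headD 0)) k.length c i := by
    intro k c i hk
    by_cases h1 : i ≤ k.length
    · rw [if_pos h1]
    · rw [if_neg h1, update_of_ne (by omega), update_of_ne (by omega), List.getD_eq_default _ _ (by omega : k.length ≤ i)]
      cases k with
      | nil => simp at hk
      | cons x k => rfl
  obtain ⟨b, hb⟩ := h' l.length (fun i => l'.getD i (l'.headD 0))
    {φ | φ.fv ⊆ Finset.range (l.length + 1) ∧ Sat σ R (update (fun i => l.getD i (l.headD 0)) l.length a) φ}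
    (fun φ hφ => hφ.1) (by
      intro Δ hΔ
      obtain ⟨ψ, h1, h2⟩ := jc_conj (σ := σ) Δ
      have h3 : Sat σ R (fun i => l.getD i (l.headD 0)) (Fml.ex l.length ψ) := by
        rw [sat_ex]
        refine ⟨a, ?_⟩
        rw [h2]
        exact fun φ hφ => (hΔ hφ).2
      have h6 := (h _).1 h3
      rw [sat_ex] at h6
      obtain ⟨b, hb⟩ := h6
      exact ⟨b, (h2 ℕ R' _).1 hb⟩)
  refine ⟨b, fun φ => ?_⟩
  rw [hv l a hn, hv l' b (hll ▸ hn)]
  refine jc_reduce (n := l.length) (fun i => if i ≤ l.length then i else 0) (fun i => ?_) (fun i => hρ l a i hn)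
    (fun i => ?_) (fun χ h1 h2 => ?_) φ
  · show (if i ≤ l.length then i else 0) ≤ l.length
    split_ifs with h1
    · exact h1
    · exact Nat.zero_le _
  · have h3 := hρ l' b i (hll ▸ hn)
    rw [← hll] at h3 ⊢
    exact h3
  · have h3 := hb χ ⟨h1, h2⟩
    rw [← hll]
    exact h3

end Pool.Agent.BLE
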