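import Pool.Agent.BLE.Dfn

/-!
# BLE / LB: closing off (pure set theory)

Let `A₀ = A`, `A_{n+1} = A_n ∪ ⋃ {E l | l a list of elements of A_n}`, `N = ⋃ A_n`. The set of lists of
elements of `A_n` has cardinality `≤ κ` (`Cardinal.mk_list_le_max`; write it as the range of
`List.map Subtype.val : List A_n → List M`), and a union of `≤ κ` sets of cardinality `≤ κ` has
cardinality `≤ κ` (`Cardinal.mk_iUnion_le`, `Cardinal.mul_eq_self`, `Cardinal.iSup_le`...). A list with
elements in `N` has its elements in some `A_n` (increasing).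
-/

set_option autoImplicit false

namespace Pool.Agent.BLE

open Function

private def lbS {M : Type} (E : List M → Set M) (A : Set M) : ℕ → Set M
  | 0 => A
  | n + 1 => lbS E A n ∪ ⋃ l : List (lbS E A n), E (l.map Subtype.val)

private theorem lb_mono {M : Type} (E : List M → Set M) (A : Set M) : Monotone (lbS E A) :=
  monotone_nat_of_le_succ fun n => by
    rw [lbS]
    exact Set.subset_union_left

private theorem lb_card {M : Type} (κ : Cardinal.{0}) (hκ : Cardinal.aleph0 ≤ κ)
    (E : List M → Set M) (hE : ∀ l, Cardinal.mk (E l) ≤ κ) (A : Set M)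
    (hA : Cardinal.mk A ≤ κ) (n : ℕ) : Cardinal.mk (lbS E A n) ≤ κ := by
  induction n with
  | zero => exact hA
  | succ n ih =>
    rw [lbS]
    refine (Cardinal.mk_union_le _ _).trans ?_
    have h1 : Cardinal.mk (⋃ l : List (lbS E A n), E (l.map Subtype.val) : Set M) ≤ κ := by
      refine (Cardinal.mk_iUnion_le _).trans ?_
      have h2 : Cardinal.mk (List (lbS E A n)) ≤ κ :=
        (Cardinal.mk_list_le_max _).trans (max_le hκ ih)
      exact (mul_le_mul' h2 (ciSup_le' fun l => hE _)).trans (Cardinal.mul_eq_self hκ).le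
    exact (add_le_add ih h1).trans (Cardinal.add_eq_self hκ).le

private theorem lb_list {M : Type} (E : List M → Set M) (A : Set M) (l : List M)
    (h : ∀ x ∈ l, x ∈ ⋃ n, lbS E A n) : ∃ n, ∀ x ∈ l, x ∈ lbS E A n := by
  induction l with
  | nil => exact ⟨0, fun x hx => absurd hx List.not_mem_nil⟩
  | cons a l ih =>
    obtain ⟨n, hn⟩ := ih fun x hx => h x (List.mem_cons_of_mem a hx)
    obtain ⟨m, hm⟩ := Set.mem_iUnion.1 (h a List.mem_cons_self)
    refine ⟨max n m, fun x hx => ?_⟩
    rcases List.mem_cons.1 hx with rfl | hx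
    · exact lb_mono E A (le_max_right n m) hm
    · exact lb_mono E A (le_max_left n m) (hn x hx)

theorem closing_off {M : Type} (κ : Cardinal.{0}) (hκ : Cardinal.aleph0 ≤ κ)
    (E : List M → Set M) (hE : ∀ l, Cardinal.mk (E l) ≤ κ) (A : Set M)
    (hA : Cardinal.mk A ≤ κ) :
    ∃ N : Set M, A ⊆ N ∧ Cardinal.mk N ≤ κ ∧ ∀ l : List M, (∀ x ∈ l, x ∈ N) → E l ⊆ N := by
  refine ⟨⋃ n, lbS E A n, Set.subset_iUnion (lbS E A) 0, ?_, fun l hl => ?_⟩
  · refine (Cardinal.mk_iUnion_le _).trans ?_
    have h1 : Cardinal.mk ℕ ≤ κ := by rw [Cardinal.mk_nat]; exact hκ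
    exact (mul_le_mul' h1 (ciSup_le' fun n => lb_card κ hκ E hE A hA n)).trans
      (Cardinal.mul_eq_self hκ).le
  · obtain ⟨n, hn⟩ := lb_list E A l hl
    refine fun y hy => Set.mem_iUnion.2 ⟨n + 1, ?_⟩
    rw [lbS]
    refine Or.inr (Set.mem_iUnion.2 ⟨l.attach.map fun x => ⟨x.1, hn x.1 x.2⟩, ?_⟩)
    have h2 : (l.attach.map fun x => (⟨x.1, hn x.1 x.2⟩ : lbS E A n)).map Subtype.val = l := by
      rw [List.map_map]
      exact List.attach_map_subtype_val l
    rw [h2]
    exact hy

end Pool.Agent.BLE
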