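import Pool.Agent.BLE.SA

/-!
# BLE / SB: free variables of the derived connectives; semantics of `exs` and `alls`
-/

set_option autoImplicit false

namespace Pool.Agent.BLE

open Function

variable {σ : Sig} {M : Type} {S : Str M}

@[simp] theorem fv_neg (φ : Fml) : φ.neg.fv = φ.fv := by
  change φ.fv ∪ ∅ = φ.fv
  exact Finset.union_empty _

@[simp] theorem fv_top : Fml.top.fv = ∅ := by
  change (∅ : Finset ℕ) ∪ ∅ = ∅
  exact Finset.union_empty _

@[simp] theorem fv_and (φ ψ : Fml) : (φ.and ψ).fv = φ.fv ∪ ψ.fv := by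
  unfold Fml.and
  rw [fv_neg]
  change φ.fv ∪ ψ.neg.fv = _
  rw [fv_neg]

@[simp] theorem fv_or (φ ψ : Fml) : (φ.or ψ).fv = φ.fv ∪ ψ.fv := by
  change φ.neg.fv ∪ ψ.fv = _
  rw [fv_neg]

@[simp] theorem fv_ex (i : ℕ) (φ : Fml) : (Fml.ex i φ).fv = φ.fv.erase i := by
  unfold Fml.ex
  rw [fv_neg]
  change φ.neg.fv.erase i = _
  rw [fv_neg]

theorem fv_cj (m : ℕ) (g : ℕ → Fml) : (Fml.cj m g).fv = (Finset.range m).biUnion fun j => (g j).fv := by
  induction m with
  | zero => exact fv_top
  | succ m ih =>
    change ((Fml.cj m g).and (g m)).fv = _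
    rw [fv_and, ih, Finset.range_add_one, Finset.biUnion_insert, Finset.union_comm]

theorem fv_exs (m : ℕ) (f : ℕ → ℕ) (φ : Fml) :
    (Fml.exs m f φ).fv = φ.fv \ (Finset.range m).image f := by
  induction m with
  | zero =>
    change φ.fv = _
    simp
  | succ m ih =>
    change (Fml.ex (f m) (Fml.exs m f φ)).fv = _
    rw [fv_ex, ih]
    ext i
    simp only [Finset.mem_erase, Finset.mem_sdiff, Finset.range_add_one, Finset.image_insert,
      Finset.mem_insert, not_or]
    tauto

theorem fv_alls (m : ℕ) (f : ℕ → ℕ) (φ : Fml) :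
    (Fml.alls m f φ).fv = φ.fv \ (Finset.range m).image f := by
  induction m with
  | zero =>
    change φ.fv = _
    simp
  | succ m ih =>
    change (Fml.alls m f φ).fv.erase (f m) = _
    rw [ih]
    ext i
    simp only [Finset.mem_erase, Finset.mem_sdiff, Finset.range_add_one, Finset.image_insert,
      Finset.mem_insert, not_or]
    tauto

theorem sat_exs (m : ℕ) (f : ℕ → ℕ) (φ : Fml) (v : ℕ → M) :
    Sat σ S v (Fml.exs m f φ) ↔
      ∃ w : ℕ → M, (∀ i, (∀ t < m, f t ≠ i) → w i = v i) ∧ Sat σ S w φ := by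
  induction m generalizing v with
  | zero =>
    constructor
    · intro h
      exact ⟨v, fun i _ => rfl, h⟩
    · rintro ⟨w, hw, h⟩
      have h1 : w = v := funext fun i => hw i fun t ht => absurd ht (Nat.not_lt_zero t)
      rw [← h1]
      exact h
  | succ m ih =>
    change Sat σ S v (Fml.ex (f m) (Fml.exs m f φ)) ↔ _
    rw [sat_ex]
    constructor
    · rintro ⟨a, h⟩
      obtain ⟨w, hw, h1⟩ := (ih _).1 h
      refine ⟨w, fun i hi => ?_, h1⟩
      rw [hw i fun t ht => hi t (by omega)]
      exact update_of_ne (hi m (Nat.lt_succ_self m)).symm a v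
    · rintro ⟨w, hw, h⟩
      refine ⟨w (f m), (ih _).2 ⟨w, fun i hi => ?_, h⟩⟩
      by_cases h1 : i = f m
      · rw [h1, update_self]
      · rw [update_of_ne h1]
        refine hw i fun t ht => ?_
        rcases Nat.lt_succ_iff_lt_or_eq.1 ht with h2 | h2
        · exact hi t h2
        · rw [h2]
          exact fun h3 => h1 h3.symm

theorem sat_alls (m : ℕ) (f : ℕ → ℕ) (φ : Fml) (v : ℕ → M) :
    Sat σ S v (Fml.alls m f φ) ↔
      ∀ w : ℕ → M, (∀ i, (∀ t < m, f t ≠ i) → w i = v i) → Sat σ S w φ := by
  induction m generalizing v with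
  | zero =>
    constructor
    · intro h w hw
      have h1 : w = v := funext fun i => hw i fun t ht => absurd ht (Nat.not_lt_zero t)
      rw [h1]
      exact h
    · intro h
      exact h v fun i _ => rfl
  | succ m ih =>
    change (∀ a, Sat σ S (update v (f m) a) (Fml.alls m f φ)) ↔ _
    constructor
    · intro h w hw
      refine (ih _).1 (h (w (f m))) w fun i hi => ?_
      by_cases h1 : i = f m
      · rw [h1, update_self]
      · rw [update_of_ne h1]
        refine hw i fun t ht => ?_
        rcases Nat.lt_succ_iff_lt_or_eq.1 ht with h2 | h2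
        · exact hi t h2
        · rw [h2]
          exact fun h3 => h1 h3.symm
    · intro h a
      refine (ih _).2 fun w hw => h w fun i hi => ?_
      rw [hw i fun t ht => hi t (by omega)]
      exact update_of_ne (hi m (Nat.lt_succ_self m)).symm a v

end Pool.Agent.BLE
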