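import Pool.Agent.BLE.Defs

/-!
# Project BLE: derived connectives (definitions and immediate lemmas)
-/

set_option autoImplicit false

namespace Pool.Agent.BLE

open Function

namespace Fml

/-- negation -/
def neg (φ : Fml) : Fml := φ.imp .bot
/-- truth -/
def top : Fml := Fml.bot.imp .bot
/-- conjunction -/
def and (φ ψ : Fml) : Fml := neg (φ.imp ψ.neg)
/-- disjunction -/
def or (φ ψ : Fml) : Fml := φ.neg.imp ψ
/-- existential quantifier -/
def ex (i : ℕ) (φ : Fml) : Fml := neg (.all i φ.neg)
/-- iterated existential quantifiers: `ex (f (m-1)) (... ex (f 0) φ)` -/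
def exs : ℕ → (ℕ → ℕ) → Fml → Fml
  | 0, _, φ => φ
  | m + 1, f, φ => ex (f m) (exs m f φ)
/-- iterated universal quantifiers: `all (f (m-1)) (... all (f 0) φ)` -/
def alls : ℕ → (ℕ → ℕ) → Fml → Fml
  | 0, _, φ => φ
  | m + 1, f, φ => .all (f m) (alls m f φ)
/-- finite conjunctions `g 0 ∧ ... ∧ g (m-1)` -/
def cj : ℕ → (ℕ → Fml) → Fml
  | 0, _ => top
  | m + 1, g => and (cj m g) (g m)
/-- universal closure (all variables are smaller than the Goedel number, see `fv_lt_code`) -/
def close (φ : Fml) : Fml := alls φ.code id φ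
/-- at least `k` elements `x_i` satisfy `φ` -/
def atLeast (k i : ℕ) (φ : Fml) : Fml :=
  exs k (fun t => φ.code + i + 1 + t)
    (cj k fun j => and (ex i (and (.eq i (φ.code + i + 1 + j)) φ))
      (cj j fun j' => neg (.eq (φ.code + i + 1 + j') (φ.code + i + 1 + j))))
/-- at most `k` elements `x_i` satisfy `φ` -/
def atMost (k i : ℕ) (φ : Fml) : Fml := neg (atLeast (k + 1) i φ)
/-- simultaneous substitution of `x_(ρ t)` for `x_t`, `t < m`, by means of the auxiliary variables
`x_(B + t)`, `t < m` -/
def subst (ρ : ℕ → ℕ) (m B : ℕ) (φ : Fml) : Fml :=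
  exs m (fun t => B + t) (and (cj m fun t => .eq (B + t) (ρ t))
    (exs m id (and (cj m fun t => .eq t (B + t)) φ)))
/-- all variables outside the set `s` are quantified out existentially -/
def exOut (s : ℕ → Bool) (φ : Fml) : Fml :=
  exs φ.code (fun t => if s t then φ.code else t) φ

end Fml

section
variable {σ : Sig} {M : Type} {S : Str M} {v : ℕ → M}

@[simp] theorem sat_bot : ¬ Sat σ S v .bot := id
@[simp] theorem sat_eq (i j : ℕ) : Sat σ S v (.eq i j) ↔ v i = v j := Iff.rfl
@[simp] theorem sat_rel (r : ℕ) (l : List ℕ) :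
    Sat σ S v (.rel r l) ↔ σ.rel r = some l.length ∧ S.rel r (l.map v) := Iff.rfl
@[simp] theorem sat_fn (f : ℕ) (l : List ℕ) (j : ℕ) :
    Sat σ S v (.fn f l j) ↔ σ.fn f = some l.length ∧ S.fn f (l.map v) = v j := Iff.rfl
@[simp] theorem sat_imp (φ ψ : Fml) :
    Sat σ S v (.imp φ ψ) ↔ (Sat σ S v φ → Sat σ S v ψ) := Iff.rfl
@[simp] theorem sat_all (i : ℕ) (φ : Fml) :
    Sat σ S v (.all i φ) ↔ ∀ a, Sat σ S (update v i a) φ := Iff.rfl
@[simp] theorem sat_neg (φ : Fml) : Sat σ S v φ.neg ↔ ¬ Sat σ S v φ := Iff.rfl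
@[simp] theorem sat_top : Sat σ S v .top := id
@[simp] theorem sat_and (φ ψ : Fml) : Sat σ S v (φ.and ψ) ↔ Sat σ S v φ ∧ Sat σ S v ψ := by
  simp [Fml.and]
@[simp] theorem sat_or (φ ψ : Fml) : Sat σ S v (φ.or ψ) ↔ Sat σ S v φ ∨ Sat σ S v ψ := by
  simp [Fml.or]; tauto
@[simp] theorem sat_ex (i : ℕ) (φ : Fml) :
    Sat σ S v (.ex i φ) ↔ ∃ a, Sat σ S (update v i a) φ := by
  simp [Fml.ex]
@[simp] theorem sat_cj (m : ℕ) (g : ℕ → Fml) :
    Sat σ S v (.cj m g) ↔ ∀ j < m, Sat σ S v (g j) := by
  induction m with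
  | zero => simp [Fml.cj]
  | succ m ih =>
    simp only [Fml.cj, sat_and, ih, Nat.lt_succ_iff_lt_or_eq]
    constructor
    · rintro ⟨h1, h2⟩ j (hj | rfl)
      · exact h1 j hj
      · exact h2
    · exact fun h => ⟨fun j hj => h j (Or.inl hj), h m (Or.inr rfl)⟩

end

/-- every variable of a formula is smaller than its Goedel number -/
theorem fv_lt_code (φ : Fml) : ∀ i ∈ φ.fv, i < φ.code := by
  have key : ∀ (l : List ℕ), ∀ i ∈ l, i ≤ Encodable.encode l := by
    intro l
    induction l with
    | nil => simp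
    | cons a l ih =>
      intro i hi
      rw [Encodable.encode_list_cons]
      rcases List.mem_cons.1 hi with rfl | hi
      · exact (Nat.left_le_pair _ _).trans (Nat.le_succ _)
      · exact ((ih i hi).trans (Nat.right_le_pair _ _)).trans (Nat.le_succ _)
  induction φ with
  | bot => simp [Fml.fv]
  | eq i j =>
    intro k hk
    simp only [Fml.fv, Finset.mem_insert, Finset.mem_singleton] at hk
    have h1 := Nat.left_le_pair i j
    have h2 := Nat.right_le_pair i j
    simp only [Fml.code]
    rcases hk with rfl | rfl <;> omega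
  | rel r l =>
    intro k hk
    simp only [Fml.fv, List.mem_toFinset] at hk
    have h1 := key l k hk
    have h2 := Nat.right_le_pair r (Encodable.encode l)
    simp only [Fml.code]; omega
  | fn f l j =>
    intro k hk
    simp only [Fml.fv, Finset.mem_insert, List.mem_toFinset] at hk
    have h2 := Nat.right_le_pair f (Nat.pair (Encodable.encode l) j)
    have h3 := Nat.left_le_pair (Encodable.encode l) j
    have h4 := Nat.right_le_pair (Encodable.encode l) j
    simp only [Fml.code]
    rcases hk with rfl | hk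
    · omega
    · have h1 := key l k hk
      omega
  | imp φ ψ ih1 ih2 =>
    intro k hk
    simp only [Fml.fv, Finset.mem_union] at hk
    have h1 := Nat.left_le_pair φ.code ψ.code
    have h2 := Nat.right_le_pair φ.code ψ.code
    simp only [Fml.code]
    rcases hk with hk | hk
    · have := ih1 k hk; omega
    · have := ih2 k hk; omega
  | all i φ ih =>
    intro k hk
    simp only [Fml.fv, Finset.mem_erase] at hk
    have h2 := Nat.right_le_pair i φ.code
    have := ih k hk.2
    simp only [Fml.code]; omega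

/-- the inverse of the Goedel numbering -/
noncomputable def F (n : ℕ) : Fml := by
  classical exact if h : ∃ φ : Fml, φ.code = n then h.choose else .bot

end Pool.Agent.BLE
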