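import Pool.Agent.BLE.DE
import Pool.Agent.BLE.DC
import Pool.Agent.BLE.DD

/-!
# BLE / TC: calculus of isolated types

* `comp`: `x` isolated by `X`; `{y : J → M | ∃ x' ∈ X, x' ∘ f = y}` is definable (`Dfn.exTuple` over the
  finite type `I`) and isolates `x ∘ f`: if `Z ∋ x ∘ f` then `{x' | x' ∘ f ∈ Z} ∋ x` is definable
  (`Dfn.reindex`), so it contains `X`.
* `trans`: `Isol A x` by `X`, `Isol (A ∪ range x) y` by `Y = {y | (y, x) ∈ Y₂}` with `Y₂` definable over `A`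
  (`Dfn.pull`); `{(x,y) | x ∈ X, (y,x) ∈ Y₂}` isolates `Sum.elim x y`: let `Z ∋ (x,y)` be definable over `A`;
  `{y' | (x,y') ∈ Z} ⊇ Y`, so `x ∈ {x' | ∀ y', (y',x') ∈ Y₂ → (x',y') ∈ Z}`, definable over `A`
  (complement of `Dfn.exTuple`), hence containing `X`.
* `split`: `Isol A (Sum.elim x y)` by `W`; `{y' | (x,y') ∈ W}` isolates `y` over `A ∪ range x`: if `Z ∋ y` is
  definable over `A ∪ range x` then `Z = {y' | (y',x) ∈ Z₂}`; `(x,y) ∈ {(x',y') | (y',x') ∈ Z₂}` definable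
  over `A`, so it contains `W`.
* `isol_acl`: `b` in a finite set definable over `A`: choose one of minimal cardinality; it isolates.
* `fin_support`: the isolating set is definable over a finite subset of `A`.
* `congr`: for `A ⊆ A' ⊆ dcl/...` not needed.
-/

set_option autoImplicit false

namespace Pool.Agent.BLE

open Function

variable {σ : Sig} {M : Type} {S : Str M} {A : Set M} {I J : Type} [Nonempty M]

private theorem finForall {K : Type} [Finite K] {P : K → (I → M) → Prop}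
    (h : ∀ k, Dfn σ S A {x | P k x}) : Dfn σ S A {x | ∀ k, P k x} := by
  classical
  have := Fintype.ofFinite K
  have key : ∀ s : Finset K, Dfn σ S A {x | ∀ k ∈ s, P k x} := by
    intro s
    induction s using Finset.induction_on with
    | empty =>
      have h1 : {x : I → M | ∀ k ∈ (∅ : Finset K), P k x} = Set.univ := by
        ext x; simp
      rw [h1]
      exact Dfn.univ
    | insert a s ha ih =>
      have h1 : {x : I → M | ∀ k ∈ insert a s, P k x} = {x | P a x} ∩ {x | ∀ k ∈ s, P k x} := by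
        ext x
        simp only [Set.mem_setOf_eq, Set.mem_inter_iff, Finset.mem_insert, forall_eq_or_imp]
      rw [h1]
      exact Dfn.inter (h a) ih
  have h2 := key Finset.univ
  have h3 : {x : I → M | ∀ k ∈ (Finset.univ : Finset K), P k x} = {x | ∀ k, P k x} := by
    ext x; simp
  rw [h3] at h2
  exact h2

theorem Isol.comp [Finite I] [Finite J] {x : I → M} (h : Isol σ S A x) (f : J → I) :
    Isol σ S A (x ∘ f) := by
  obtain ⟨X, hX, hx, hmin⟩ := h
  have h1 : Dfn σ S A {z : J ⊕ I → M | (fun i => z (Sum.inr i)) ∈ X} :=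
    Dfn.reindex hX Sum.inr
  have h2 : Dfn σ S A {z : J ⊕ I → M | ∀ j, z (Sum.inr (f j)) = z (Sum.inl j)} := by
    refine finForall (P := fun j (z : J ⊕ I → M) => z (Sum.inr (f j)) = z (Sum.inl j)) fun j => ?_
    exact Dfn.eq (I := J ⊕ I) (Sum.inl (Sum.inr (f j))) (Sum.inl (Sum.inl j)) (by simp) (by simp)
  have h3 := Dfn.exTuple (I := J) (J := I)
    (P := fun (x' : I → M) (y : J → M) => x' ∈ X ∧ ∀ j, x' (f j) = y j) (Dfn.inter h1 h2)
  refine ⟨_, h3, ⟨x, hx, fun j => rfl⟩, ?_⟩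
  intro Z hZ hxZ
  have h4 := hmin _ (Dfn.reindex hZ f) hxZ
  rintro y ⟨x', hx', hy⟩
  have h5 := h4 hx'
  have h6 : (fun j => x' (f j)) = y := funext hy
  simp only [Set.mem_setOf_eq, h6] at h5
  exact h5

private theorem swap_elim (x : I → M) (y : J → M) :
    (fun k => Sum.elim x y (Sum.swap k)) = Sum.elim y x := by
  funext k
  cases k <;> rfl

private theorem elim_comp (z : I ⊕ J → M) :
    Sum.elim (fun i => z (Sum.inl i)) (fun j => z (Sum.inr j)) = z := by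
  funext k
  cases k <;> rfl

private theorem elim_comp' (z : I ⊕ J → M) :
    Sum.elim (fun j => z (Sum.inr j)) (fun i => z (Sum.inl i)) = fun k => z (Sum.swap k) := by
  funext k
  cases k <;> rfl

private theorem slice {W : Set (I ⊕ J → M)} (hW : Dfn σ S A W) (x : I → M) :
    Dfn σ S (A ∪ Set.range x) {y : J → M | Sum.elim x y ∈ W} := by
  have h1 := Dfn.push (Dfn.reindex hW (Sum.swap : I ⊕ J → J ⊕ I)) x
    (Set.subset_union_left : A ⊆ A ∪ Set.range x) (fun i => Or.inr ⟨i, rfl⟩)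
  have h2 : {y : J → M | Sum.elim y x ∈
      {z : J ⊕ I → M | (fun i => z (Sum.swap i)) ∈ W}} = {y : J → M | Sum.elim x y ∈ W} := by
    ext y
    simp only [Set.mem_setOf_eq, swap_elim]
  rw [h2] at h1
  exact h1

theorem Isol.trans [Finite I] [Finite J] {x : I → M} {y : J → M} (h : Isol σ S A x)
    (h' : Isol σ S (A ∪ Set.range x) y) : Isol σ S A (Sum.elim x y) := by
  obtain ⟨X, hX, hx, hmin⟩ := h
  obtain ⟨Y, hY, hy, hmin'⟩ := h'
  obtain ⟨Y₂, hY₂, hYY⟩ := Dfn.pull x hY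
  have h1 : Dfn σ S A {z : I ⊕ J → M | (fun i => z (Sum.inl i)) ∈ X} :=
    Dfn.reindex hX Sum.inl
  have h2 : Dfn σ S A {z : I ⊕ J → M | (fun k => z (Sum.swap k)) ∈ Y₂} :=
    Dfn.reindex hY₂ Sum.swap
  refine ⟨_, Dfn.inter h1 h2, ⟨hx, ?_⟩, ?_⟩
  · simp only [Set.mem_setOf_eq, swap_elim]
    exact (hYY y).1 hy
  intro Z hZ hxyZ
  have h3 := hmin' _ (slice hZ x) hxyZ
  have h4 : Dfn σ S A {x' : I → M | ∃ y' : J → M,
      Sum.elim y' x' ∈ Y₂ ∧ Sum.elim x' y' ∉ Z} := by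
    refine Dfn.exTuple (I := I) (J := J)
      (P := fun (y' : J → M) (x' : I → M) => Sum.elim y' x' ∈ Y₂ ∧ Sum.elim x' y' ∉ Z) ?_
    have h5 := Dfn.inter h2 (Dfn.compl hZ)
    have h6 : {z : I ⊕ J → M | (fun k => z (Sum.swap k)) ∈ Y₂} ∩ Zᶜ =
        {z : I ⊕ J → M | (fun (y' : J → M) (x' : I → M) => Sum.elim y' x' ∈ Y₂ ∧
          Sum.elim x' y' ∉ Z) (fun j => z (Sum.inr j)) (fun i => z (Sum.inl i))} := by
      ext z
      simp only [Set.mem_setOf_eq, Set.mem_inter_iff, Set.mem_compl_iff, elim_comp, elim_comp']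
    rw [h6] at h5
    exact h5
  have h7 := hmin _ (Dfn.compl h4) (by
    rintro ⟨y', hy', hn⟩
    exact hn (h3 ((hYY y').2 hy')))
  rintro z ⟨hz1, hz2⟩
  have h8 := h7 hz1
  by_contra hzZ
  apply h8
  refine ⟨fun j => z (Sum.inr j), ?_, ?_⟩
  · rw [elim_comp']
    exact hz2
  · rw [elim_comp]
    exact hzZ

theorem Isol.split [Finite I] [Finite J] {x : I → M} {y : J → M}
    (h : Isol σ S A (Sum.elim x y)) : Isol σ S (A ∪ Set.range x) y := by
  obtain ⟨W, hW, hxy, hmin⟩ := h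
  refine ⟨_, slice hW x, hxy, ?_⟩
  intro Z hZ hyZ
  obtain ⟨Z₂, hZ₂, hZZ⟩ := Dfn.pull x hZ
  have h2 : Dfn σ S A {z : I ⊕ J → M | (fun k => z (Sum.swap k)) ∈ Z₂} :=
    Dfn.reindex hZ₂ Sum.swap
  have h3 := hmin _ h2 (by
    simp only [Set.mem_setOf_eq, swap_elim]
    exact (hZZ y).1 hyZ)
  intro y' hy'
  have h4 := h3 hy'
  simp only [Set.mem_setOf_eq, swap_elim] at h4
  exact (hZZ y').2 h4

/-- the atom version for one element, auxiliary form -/
private theorem one_aux {b : M} {Y : Set M} (hY : Df1 σ S A Y) (hb : b ∈ Y)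
    (h : ∀ Z, Df1 σ S A Z → b ∈ Z → Y ⊆ Z) : Isol σ S A (fun _ : Unit => b) := by
  refine ⟨_, hY, hb, ?_⟩
  intro Z hZ hbZ
  have h1 : ∀ x : Unit → M, (fun _ : Unit => x ()) = x := fun x => rfl
  have h2 : Df1 σ S A {m | (fun _ : Unit => m) ∈ Z} := by
    unfold Df1
    exact hZ
  intro x hx
  have h3 := h _ h2 hbZ hx
  exact h3

theorem Isol.of_acl {b : M} (h : b ∈ acl σ S A) : Isol σ S A (fun _ : Unit => b) := by
  classical
  obtain ⟨X, hX, hfin, hb⟩ := h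
  have hex : ∃ n : ℕ, ∃ X, Df1 σ S A X ∧ X.Finite ∧ b ∈ X ∧ X.ncard = n :=
    ⟨X.ncard, X, hX, hfin, hb, rfl⟩
  obtain ⟨Y, hY, hYfin, hbY, hn⟩ := Nat.find_spec hex
  refine one_aux hY hbY fun Z hZ hbZ => ?_
  have h1 : Nat.find hex ≤ (Y ∩ Z).ncard :=
    Nat.find_min' hex ⟨Y ∩ Z, Df1.inter hY hZ, hYfin.subset Set.inter_subset_left, ⟨hbY, hbZ⟩, rfl⟩
  rw [← hn] at h1
  have h2 : Y ∩ Z = Y := Set.eq_of_subset_of_ncard_le Set.inter_subset_left h1 hYfin
  exact Set.inter_eq_left.1 h2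

theorem Isol.fin_support {x : I → M} (h : Isol σ S A x) :
    ∃ A₀ ⊆ A, A₀.Finite ∧ ∃ X, Dfn σ S A₀ X ∧ x ∈ X ∧ ∀ Z, Dfn σ S A Z → x ∈ Z → X ⊆ Z := by
  obtain ⟨X, hX, hx, hmin⟩ := h
  obtain ⟨A₀, hA, hfin, hX'⟩ := Dfn.fin_support hX
  exact ⟨A₀, hA, hfin, X, hX', hx, hmin⟩

theorem Isol.of_mem [Finite I] {x : I → M} (h : ∀ i, x i ∈ A) : Isol σ S A x := by
  have h1 : Dfn σ S A {z : I → M | ∀ i, z i = x i} := by
    refine finForall (P := fun i (z : I → M) => z i = x i) fun i => ?_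
    exact Dfn.eq (I := I) (Sum.inl i) (Sum.inr (x i)) (by simp) (by
      intro a ha
      rw [Sum.inr.injEq] at ha
      exact ha ▸ h i)
  refine ⟨_, h1, fun i => rfl, ?_⟩
  intro Z _ hxZ z hz
  have h2 : z = x := funext hz
  rw [h2]
  exact hxZ

/-- the atom version for one element -/
theorem Isol.one {b : M} {Y : Set M} (hY : Df1 σ S A Y) (hb : b ∈ Y)
    (h : ∀ Z, Df1 σ S A Z → Y ⊆ Z ∨ Disjoint Y Z) : Isol σ S A (fun _ : Unit => b) := by
  refine one_aux hY hb fun Z hZ hbZ => ?_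
  rcases h Z hZ with h1 | h1
  · exact h1
  · exact absurd hbZ (Set.disjoint_left.1 h1 hb)

end Pool.Agent.BLE
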