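import Pool.Agent.BLE.LB
import Pool.Agent.BLE.DE
import Pool.Agent.BLE.DD
import Pool.Agent.BLE.UE

/-!
# BLE / VC: countable saturated pairs

Relative downward Loewenheim-Skolem theorem, and countable `ω`-saturated Vaughtian pairs inside a given
Vaughtian pair of `ω`-saturated sets.
-/

set_option autoImplicit false

namespace Pool.Agent.BLE

open Function

variable {σ : Sig} {M : Type} {S : Str M}

private theorem list_of_finite {A : Set M} (hA : A.Finite) : ∃ l : List M, {x | x ∈ l} = A := by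
  refine ⟨hA.toFinset.toList, ?_⟩
  ext x
  show x ∈ hA.toFinset.toList ↔ _
  rw [Finset.mem_toList, Set.Finite.mem_toFinset]

theorem exists_tv_rel [Nonempty M] {N : Set M} (hN : TV σ S N) (κ : Cardinal.{0})
    (hκ : Cardinal.aleph0 ≤ κ) (E : List M → Set M) (hE : ∀ l, Cardinal.mk (E l) ≤ κ)
    (hEN : ∀ l : List M, (∀ x ∈ l, x ∈ N) → E l ⊆ N) (A : Set M) (hAN : A ⊆ N)
    (hA : Cardinal.mk A ≤ κ) :
    ∃ N₁ ⊆ N, TV σ S N₁ ∧ A ⊆ N₁ ∧ Cardinal.mk N₁ ≤ κ ∧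
      ∀ l : List M, (∀ x ∈ l, x ∈ N₁) → E l ⊆ N₁ := by
  classical
  obtain ⟨p, hp⟩ : ∃ p : Set M → M, ∀ X : Set M, (X ∩ N).Nonempty → p X ∈ X ∩ N := by
    refine ⟨fun X => if h : (X ∩ N).Nonempty then h.some else Classical.arbitrary M, fun X h => ?_⟩
    simp only [dif_pos h]
    exact h.some_mem
  obtain ⟨N', hAN', hcard, hcl⟩ := closing_off κ hκ
    (fun l => E l ∪ p '' {X | Df1 σ S {x | x ∈ l} X}) (fun l => by
      refine (Cardinal.mk_union_le _ _).trans ?_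
      have h1 : ({X : Set M | Df1 σ S {x | x ∈ l} X}).Countable :=
        countable_df1 (List.finite_toSet l).countable
      have h2 : Cardinal.mk (p '' {X | Df1 σ S {x | x ∈ l} X}) ≤ κ :=
        (Cardinal.le_aleph0_iff_set_countable.2 (h1.image p)).trans hκ
      exact (add_le_add (hE l) h2).trans (Cardinal.add_eq_self hκ).le) A hA
  refine ⟨N' ∩ N, Set.inter_subset_right, ?_, fun x hx => ⟨hAN' hx, hAN hx⟩,
    (Cardinal.mk_le_mk_of_subset Set.inter_subset_left).trans hcard, ?_⟩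
  · intro X hX hne
    obtain ⟨A₀, hA₀, hfin, hXA⟩ := hX.fin_support
    obtain ⟨l, hl⟩ := list_of_finite hfin
    have h1 : (X ∩ N).Nonempty := hN X (hX.mono Set.inter_subset_right) hne
    have h2 := hp X h1
    have hlN' : ∀ x ∈ l, x ∈ N' := by
      intro x hx
      have h3 : x ∈ A₀ := by
        rw [← hl]
        exact hx
      exact (hA₀ h3).1
    have h3 : p X ∈ N' := by
      refine hcl l hlN' (Or.inr ⟨X, ?_, rfl⟩)
      show Df1 σ S {x | x ∈ l} X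
      rw [hl]
      exact hXA
    exact ⟨p X, h2.1, h3, h2.2⟩
  · intro l hl x hx
    exact ⟨hcl l (fun y hy => (hl y hy).1) (Or.inl hx), hEN l (fun y hy => (hl y hy).2) hx⟩

private theorem pick (C : List M → Set M)
    (hC : ∀ l, ∀ b : M, ∃ c ∈ C l, ∀ X, Df1 σ S {x | x ∈ l} X → (b ∈ X ↔ c ∈ X)) {G : Set M}
    (hG : G.Nonempty) :
    ∃ R : List M → M → M, (∀ l c, R l c ∈ G) ∧
      ∀ l, ∀ b ∈ G, ∃ c ∈ C l, ∀ X, Df1 σ S {x | x ∈ l} X → (b ∈ X ↔ R l c ∈ X) := by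
  classical
  obtain ⟨g, hg⟩ := hG
  refine ⟨fun l c => if h : ∃ r ∈ G, ∀ X, Df1 σ S {x | x ∈ l} X → (r ∈ X ↔ c ∈ X) then h.choose else g,
    fun l c => ?_, fun l b hb => ?_⟩
  · by_cases h : ∃ r ∈ G, ∀ X, Df1 σ S {x | x ∈ l} X → (r ∈ X ↔ c ∈ X)
    · simp only [dif_pos h]
      exact h.choose_spec.1
    · simp only [dif_neg h]
      exact hg
  · obtain ⟨c, hc, hbc⟩ := hC l b
    refine ⟨c, hc, fun X hX => ?_⟩
    have h : ∃ r ∈ G, ∀ X, Df1 σ S {x | x ∈ l} X → (r ∈ X ↔ c ∈ X) := ⟨b, hb, hbc⟩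
    simp only [dif_pos h]
    exact (hbc X hX).trans (h.choose_spec.2 X hX).symm

private theorem satW_sub {G G₁ : Set M} {C : List M → Set M} {R : List M → M → M} (hG : G₁ ⊆ G)
    (hR : ∀ l, ∀ b ∈ G, ∃ c ∈ C l, ∀ X, Df1 σ S {x | x ∈ l} X → (b ∈ X ↔ R l c ∈ X))
    (hcl : ∀ l : List M, (∀ x ∈ l, x ∈ G₁) → ∀ c ∈ C l, R l c ∈ G₁) (hs : SatW σ S G) :
    SatW σ S G₁ := by
  intro A hA hAG 𝒳 hd hf
  obtain ⟨b, hb, hbG⟩ := hs A hA (hAG.trans hG) 𝒳 hd fun F hF =>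
    (hf F hF).mono (Set.inter_subset_inter_right _ hG)
  obtain ⟨l, hl⟩ := list_of_finite hA
  obtain ⟨c, hc, hbc⟩ := hR l b hbG
  refine ⟨R l c, ?_, hcl l (fun x hx => ?_) c hc⟩
  · intro X hX
    refine (hbc X ?_).1 (hb X hX)
    rw [hl]
    exact hd X hX
  · have h1 : x ∈ A := by
      rw [← hl]
      exact hx
    exact hAG h1

private theorem tv_sub {G G₁ : Set M} {C : List M → Set M} {R : List M → M → M} (hG : G₁ ⊆ G)
    (hR : ∀ l, ∀ b ∈ G, ∃ c ∈ C l, ∀ X, Df1 σ S {x | x ∈ l} X → (b ∈ X ↔ R l c ∈ X))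
    (hcl : ∀ l : List M, (∀ x ∈ l, x ∈ G₁) → ∀ c ∈ C l, R l c ∈ G₁) (hs : TV σ S G) :
    TV σ S G₁ := by
  intro X hX hne
  obtain ⟨A, hAG, hA, hXA⟩ := hX.fin_support
  obtain ⟨b, hb, hbG⟩ := hs X (hX.mono hG) hne
  obtain ⟨l, hl⟩ := list_of_finite hA
  obtain ⟨c, hc, hbc⟩ := hR l b hbG
  refine ⟨R l c, (hbc X ?_).1 hb, hcl l (fun x hx => ?_) c hc⟩
  · rw [hl]
    exact hXA
  · have h1 : x ∈ A := by
      rw [← hl]
      exact hx
    exact hAG h1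

theorem countable_pair (h : Monster σ S) {B N X : Set M} (hB : TV σ S B) (hN : TV σ S N)
    (hsB : SatW σ S B) (hsN : SatW σ S N) (hBN : B ⊆ N) (hne : B ≠ N) (hX : Df1 σ S B X)
    (hXN : X ∩ N ⊆ B) :
    ∃ B₁ N₁ : Set M, TV σ S B₁ ∧ TV σ S N₁ ∧ SatW σ S B₁ ∧ SatW σ S N₁ ∧ B₁ ⊆ N₁ ∧
      B₁ ≠ N₁ ∧ N₁.Countable ∧ Df1 σ S B₁ X ∧ X ∩ N₁ ⊆ B₁ := by
  classical
  have hinf : Infinite M := h.inf
  have hfew : ∀ l : List M, ∃ C : Set M, C.Countable ∧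
      ∀ b, ∃ c ∈ C, ∀ X, Df1 σ S {x | x ∈ l} X → (b ∈ X ↔ c ∈ X) := fun l =>
    h.few {x | x ∈ l} (List.finite_toSet l).countable
  choose C hCc hC using hfew
  obtain ⟨R, hRN, hR⟩ := pick C hC hN.nonempty
  obtain ⟨R', hRB, hR'⟩ := pick C hC hB.nonempty
  obtain ⟨A₀, hA₀, hA₀f, hXA⟩ := hX.fin_support
  obtain ⟨p, hpN, hpB⟩ : ∃ p ∈ N, p ∉ B := by
    by_contra hcon
    push Not at hcon
    exact hne (Set.Subset.antisymm hBN hcon)
  obtain ⟨N₁, hN₁N, hN₁, hAN₁, hcard, hcl⟩ := exists_tv_rel hN Cardinal.aleph0 le_rfl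
    (fun l => R l '' C l ∪ R' l '' C l)
    (fun l => Cardinal.le_aleph0_iff_set_countable.2 (((hCc l).image _).union ((hCc l).image _)))
    (fun l _ => by
      rintro _ (⟨c, -, rfl⟩ | ⟨c, -, rfl⟩)
      · exact hRN l c
      · exact hBN (hRB l c))
    (insert p A₀)
    (Set.insert_subset hpN (hA₀.trans hBN))
    (Cardinal.le_aleph0_iff_set_countable.2 (hA₀f.insert p).countable)
  have hclN : ∀ l : List M, (∀ x ∈ l, x ∈ N₁) → ∀ c ∈ C l, R l c ∈ N₁ := fun l hl c hc =>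
    hcl l hl (Or.inl ⟨c, hc, rfl⟩)
  have hclB : ∀ l : List M, (∀ x ∈ l, x ∈ N₁ ∩ B) → ∀ c ∈ C l, R' l c ∈ N₁ ∩ B := fun l hl c hc =>
    ⟨hcl l (fun x hx => (hl x hx).1) (Or.inr ⟨c, hc, rfl⟩), hRB l c⟩
  refine ⟨N₁ ∩ B, N₁, tv_sub Set.inter_subset_right hR' hclB hB, hN₁,
    satW_sub Set.inter_subset_right hR' hclB hsB, satW_sub hN₁N hR hclN hsN,
    Set.inter_subset_left, ?_, Cardinal.le_aleph0_iff_set_countable.1 hcard, ?_, ?_⟩
  · intro heq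
    have h1 : p ∈ N₁ := hAN₁ (Set.mem_insert _ _)
    rw [← heq] at h1
    exact hpB h1.2
  · exact hXA.mono fun a ha => ⟨hAN₁ (Set.mem_insert_of_mem _ ha), hA₀ ha⟩
  · rintro x ⟨hx, hxN₁⟩
    exact ⟨hxN₁, hXN ⟨hx, hN₁N hxN₁⟩⟩

end Pool.Agent.BLE
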