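import Pool.Agent.BLE.XMem
import Pool.Agent.BLE.GA
import Pool.Agent.BLE.DF
import Pool.Agent.BLE.DD
import Pool.Agent.BLE.SD

/-!
# BLE / XBad: only finitely many algebraic elements have a given type

If the set is empty there is nothing to prove; let `x₀` be in it.  `x₀ ∈ acl (par ∪ prev k₀)`: there is a
finite set `X ∋ x₀` definable over `par ell v ∪ prev v k₀`.  By `fml_of_df1` with
`V = {2j | j < ell} ∪ {2m+1 | m < k₀}` and the variable `x = 2n+1 ∉ V` (`n ≥ k₀`) there is `ρ` with free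
variables in `V ∪ {2n+1}` and `y ∈ X ↔ Sat (update v (2n+1) y) ρ`.  Then
`Sat R g ρ` (hypothesis for `x₀`), so every `x` in the set satisfies `ρ` (otherwise it satisfies `ρ.neg`,
so `Sat R g ρ.neg`, contradiction): the set is contained in `X`.
-/

set_option autoImplicit false

namespace Pool.Agent.BLE

open Function

variable {σ : Sig} {M : Type} {S : Str M} {ell : ℕ} {θ D : Fml} {L : ℕ → Bool}

theorem bad_finite {k₀ n : ℕ} (hn : k₀ ≤ n) (R : Str ℕ) (g : ℕ → ℕ) (v : ℕ → M) :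
    {x | x ∈ acl σ S (par ell v ∪ prev v k₀) ∧
      ∀ ρ : Fml, (∀ i ∈ ρ.fv, (∃ j < ell, i = 2 * j) ∨ (∃ m < k₀, i = 2 * m + 1) ∨
        i = 2 * n + 1) → Sat σ S (update v (2 * n + 1) x) ρ → Sat σ R g ρ}.Finite := by
  set B := {x | x ∈ acl σ S (par ell v ∪ prev v k₀) ∧
      ∀ ρ : Fml, (∀ i ∈ ρ.fv, (∃ j < ell, i = 2 * j) ∨ (∃ m < k₀, i = 2 * m + 1) ∨
        i = 2 * n + 1) → Sat σ S (update v (2 * n + 1) x) ρ → Sat σ R g ρ} with hB
  rcases B.eq_empty_or_nonempty with h | ⟨x₀, hx₀⟩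
  · rw [h]; exact Set.finite_empty
  obtain ⟨⟨X, hX, hXf, hxX⟩, hρ⟩ := hx₀
  set V : Set ℕ := {i | (∃ j < ell, i = 2 * j) ∨ ∃ m < k₀, i = 2 * m + 1} with hV
  have hVimg : v '' V = par ell v ∪ prev v k₀ := by
    ext a
    constructor
    · rintro ⟨i, (⟨j, hj, rfl⟩ | ⟨m, hm, rfl⟩), rfl⟩
      · exact Or.inl ⟨j, hj, rfl⟩
      · exact Or.inr ⟨m, hm, rfl⟩
    · rintro (⟨j, hj, rfl⟩ | ⟨m, hm, rfl⟩)
      · exact ⟨2 * j, Or.inl ⟨j, hj, rfl⟩, rfl⟩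
      · exact ⟨2 * m + 1, Or.inr ⟨m, hm, rfl⟩, rfl⟩
  have hxV : 2 * n + 1 ∉ V := by
    rintro (⟨j, hj, h⟩ | ⟨m, hm, h⟩) <;> omega
  rw [← hVimg] at hX
  obtain ⟨ρ, hfv, hρX⟩ := fml_of_df1 v V (2 * n + 1) hxV hX
  have hfv' : ∀ i ∈ ρ.fv, (∃ j < ell, i = 2 * j) ∨ (∃ m < k₀, i = 2 * m + 1) ∨
      i = 2 * n + 1 := by
    intro i hi
    rcases hfv i hi with (h | h) | h
    · exact Or.inl h
    · exact Or.inr (Or.inl h)
    · exact Or.inr (Or.inr h)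
  have hR : Sat σ R g ρ := hρ ρ hfv' ((hρX x₀).1 hxX)
  refine hXf.subset ?_
  rintro x ⟨_, hx⟩
  rw [hρX x]
  by_contra hcon
  have h1 : Sat σ R g ρ.neg := by
    refine hx ρ.neg ?_ hcon
    intro i hi
    refine hfv' i ?_
    simpa [Fml.neg, Fml.fv] using hi
  exact h1 hR

end Pool.Agent.BLE
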