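import Pool.Agent.BLE.XMem
import Pool.Agent.BLE.SG

/-!
# BLE / XDec: existence at deciding and Henkin stages
-/

set_option autoImplicit false

namespace Pool.Agent.BLE

open Function

variable {σ : Sig} {M : Type} {S : Str M} {ell : ℕ} {θ D : Fml} {L : ℕ → Bool}

theorem decide_exists {δ : Fml} (h : Hp σ S ell θ D L δ) (φ : Fml) :
    Hp σ S ell θ D L (δ.and φ) ∨ Hp σ S ell θ D L (δ.and φ.neg) := by
  obtain ⟨v, hv, hδ⟩ := h
  by_cases hφ : Sat σ S v φ
  · exact Or.inl ⟨v, hv, (sat_and _ _).2 ⟨hδ, hφ⟩⟩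
  · exact Or.inr ⟨v, hv, (sat_and _ _).2 ⟨hδ, (sat_neg _).2 hφ⟩⟩

theorem henk_exists (hθ : ∀ i ∈ θ.fv, ∃ j < ell, i = 2 * j)
    (hD : ∀ i ∈ D.fv, i = 1 ∨ ∃ j < ell, i = 2 * j) {δ : Fml} (h : Hp σ S ell θ D L δ) (t : ℕ) :
    Hp σ S ell θ D L (δ.and (henk ell δ t)) := by
  obtain ⟨v, hv, hδ⟩ := h
  set ψ := F t.unpair.1 with hψ
  set i := t.unpair.2 with hi
  set z := 2 * (δ.code + ψ.code + i + ell + 1) with hz
  have hk : henk ell δ t = (Fml.ex i ψ).imp (Fml.ex i ((Fml.eq i z).and ψ)) := rfl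
  by_cases hex : Sat σ S v (Fml.ex i ψ)
  · obtain ⟨a, ha⟩ := (sat_ex _ _).1 hex
    refine ⟨update v z a, ?_, ?_⟩
    · refine hv.congr hθ hD (fun j hj => ?_) fun n => ?_
      · rw [update_of_ne (by omega)]
      · rw [update_of_ne (by omega)]
    · rw [sat_and]
      constructor
      · refine (sat_congr δ fun k hk => ?_).1 hδ
        have := fv_lt_code δ k hk
        rw [update_of_ne (by omega)]
      · rw [hk, sat_imp]
        intro _
        rw [sat_ex]
        refine ⟨a, ?_⟩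
        rw [sat_and, sat_eq, update_self, update_of_ne (by omega), update_self]
        refine ⟨rfl, (sat_congr ψ fun k hk => ?_).1 ha⟩
        have := fv_lt_code ψ k hk
        by_cases hki : k = i
        · rw [hki, update_self, update_self]
        · rw [update_of_ne hki, update_of_ne hki, update_of_ne (by omega)]
  · refine ⟨v, hv, (sat_and _ _).2 ⟨hδ, ?_⟩⟩
    rw [hk, sat_imp]
    exact fun h => absurd h hex

end Pool.Agent.BLE
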