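import Pool.Agent.BLE.Int
import Pool.Agent.BLE.UE

/-!
# BLE / XDefs: definitions

Definitions for the construction of a numbered model `v : ℕ → M` with computable diagram.  `D` is the
strongly minimal formula (variable `1`), the parameters are the variables `2 j`, `j < ell`, the elements
`d_n` the variables `2 n + 1`; an index `n` with `L n = true` has left the set of the generic ones.
-/

set_option autoImplicit false

namespace Pool.Agent.BLE

open Function

/-- the structures `A j`, `J j`, with universe `ℕ` are uniformly decidable -/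
def UDecidable (σ : Sig) (J : ℕ → Prop) (A : ℕ → Str ℕ) : Prop :=
  ComputablePred fun p : ℕ × ℕ × List ℕ =>
    J p.1 ∧ ∃ φ : Fml, φ.code = p.2.1 ∧ Sat σ (A p.1) (fun i => p.2.2.getD i 0) φ

/-- the formula `x_x ∈ D` -/
def Fml.mem (D : Fml) (x : ℕ) : Fml := if x = 1 then D else .ex 1 (.and (.eq 1 x) D)

/-- the quantifier for the variable `2 n + 1`: `∃ d_n ∈ D` if `n` has left, `Q n` otherwise -/
def Kq (Q : ℕ → Fml → Fml) (D : Fml) (L : ℕ → Bool) (n : ℕ) (φ : Fml) : Fml :=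
  if L n = true then .ex (2 * n + 1) (.and (D.mem (2 * n + 1)) φ) else Q n φ

/-- `K_k (K_(k+1) (... (K_(k+j-1) φ)))` -/
def preF (Q : ℕ → Fml → Fml) (D : Fml) (L : ℕ → Bool) : ℕ → ℕ → Fml → Fml
  | _, 0, φ => φ
  | k, j + 1, φ => Kq Q D L k (preF Q D L (k + 1) j φ)

/-- the variables which are parameters or elements `d_n` -/
def pin (ell i : ℕ) : Bool := decide (i % 2 = 1) || decide (i < 2 * ell)

/-- the sentence expressing that `φ` is satisfied by some good assignment -/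
def hsen (Q : ℕ → Fml → Fml) (D θ : Fml) (L : ℕ → Bool) (ell : ℕ) (φ : Fml) : Fml :=
  Fml.exs ell (fun j => 2 * j) (.and θ (preF Q D L 0 φ.code (Fml.exOut (pin ell) φ)))

section
variable (σ : Sig) {M : Type} (S : Str M) (ell : ℕ) (θ D : Fml)

/-- the generic quantifiers -/
structure QSpec (Q : ℕ → Fml → Fml) : Prop where
  fv : ∀ n φ, ∀ i ∈ (Q n φ).fv, (i ∈ φ.fv ∧ i ≠ 2 * n + 1) ∨ ∃ j < ell, i = 2 * j
  inf : ∀ n φ (v : ℕ → M), Sat σ S v θ → (Sat σ S v (Q n φ) ↔
    {y | y ∈ Dset σ S D v ∧ Sat σ S (update v (2 * n + 1) y) φ}.Infinite)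
  fin : ∀ n φ (v : ℕ → M), Sat σ S v θ → Sat σ S v (Q n φ) →
    {y | y ∈ Dset σ S D v ∧ ¬ Sat σ S (update v (2 * n + 1) y) φ}.Finite

/-- good assignments: the parameters satisfy `θ`, all `d_n` are in `D`, and those which have not left
are generic over the previous ones -/
structure Good (L : ℕ → Bool) (v : ℕ → M) : Prop where
  th : Sat σ S v θ
  mem : ∀ n, v (2 * n + 1) ∈ Dset σ S D v
  gen : ∀ n, L n = false → v (2 * n + 1) ∉ acl σ S (par ell v ∪ prev v n)

/-- good up to `k` -/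
structure GoodTo (L : ℕ → Bool) (k : ℕ) (v : ℕ → M) : Prop where
  th : Sat σ S v θ
  mem : ∀ n < k, v (2 * n + 1) ∈ Dset σ S D v
  gen : ∀ n < k, L n = false → v (2 * n + 1) ∉ acl σ S (par ell v ∪ prev v n)

/-- `φ` is satisfied by a good assignment -/
def Hp (L : ℕ → Bool) (φ : Fml) : Prop := ∃ v : ℕ → M, Good σ S ell θ D L v ∧ Sat σ S v φ

end

/-- the `b` digits of `q` in base `t + 1`: for `q < (t+1)^b` all functions from `{0, ..., b-1}` to
`{0, ..., t}` -/
def dig (t b q : ℕ) : List ℕ := (List.range b).map fun i => q / (t + 1) ^ i % (t + 1)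

/-- the variables `≥ 2 n + 2` are quantified out -/
def hat (n : ℕ) (χ : Fml) : Fml := Fml.exOut (fun i => decide (i < 2 * n + 2)) χ

/-- no tuple of numbers `≤ t` satisfies `hat n χ` in `A_0, ..., A_t` -/
def Av (σ : Sig) (J : ℕ → Prop) (A : ℕ → Str ℕ) (t n : ℕ) (χ : Fml) : Prop :=
  ∀ j < t + 1, ∀ q < (t + 1) ^ (2 * n + 2),
    ¬ (J j ∧ Sat σ (A j) (fun i => (dig t (2 * n + 2) q).getD i 0) (hat n χ))

/-- the Henkin axiom for the formula `ψ = F t.unpair.1` and the variable `i = t.unpair.2`, with a fresh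
even variable as the witness -/
noncomputable def henk (ell : ℕ) (δ : Fml) (t : ℕ) : Fml :=
  (Fml.ex t.unpair.2 (F t.unpair.1)).imp
    (Fml.ex t.unpair.2 ((Fml.eq t.unpair.2
      (2 * (δ.code + (F t.unpair.1).code + t.unpair.2 + ell + 1))).and (F t.unpair.1)))

/-- The schedule: `o t = n + 1` means that `n` leaves at stage `3 t`; `L s n`: `n` has left before
stage `s`. -/
structure Sched (k₀ : ℕ) (o : ℕ → ℕ) (L : ℕ → ℕ → Bool) : Prop where
  hL : ∀ s n, L s n = true ↔ ∃ t, 3 * t < s ∧ o t = n + 1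
  ge : ∀ t, o t ≠ 0 → k₀ < o t
  inj : ∀ t t', o t = o t' → o t ≠ 0 → t = t'
  compO : Computable o
  compL : Computable₂ L

/-- One step of the construction.  The state `c` codes the committed formula `F c.unpair.1` (and a
formula `F c.unpair.2`, used only at leaving stages). -/
def StepR (σ : Sig) {M : Type} (S : Str M) (ell : ℕ) (θ D : Fml) (J : ℕ → Prop) (A : ℕ → Str ℕ)
    (o : ℕ → ℕ) (L : ℕ → ℕ → Bool) (s c c' : ℕ) : Prop :=
  (s % 3 = 0 → o (s / 3) = 0 → F c'.unpair.1 = F c.unpair.1) ∧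
  (s % 3 = 0 → o (s / 3) ≠ 0 →
    F c'.unpair.1 = (F c.unpair.1).and (hat (o (s / 3) - 1) (F c'.unpair.2)) ∧
      Hp σ S ell θ D (L (s + 1)) (F c'.unpair.1) ∧
      Av σ J A (s / 3) (o (s / 3) - 1) (F c'.unpair.2)) ∧
  (s % 3 = 1 → Hp σ S ell θ D (L s) ((F c.unpair.1).and (F (s / 3))) →
    F c'.unpair.1 = (F c.unpair.1).and (F (s / 3))) ∧
  (s % 3 = 1 → ¬ Hp σ S ell θ D (L s) ((F c.unpair.1).and (F (s / 3))) →
    F c'.unpair.1 = (F c.unpair.1).and (F (s / 3)).neg) ∧
  (s % 3 = 2 → F c'.unpair.1 = (F c.unpair.1).and (henk ell (F c.unpair.1) (s / 3)))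

end Pool.Agent.BLE
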