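import Pool.Agent.BLE.XMem
import Pool.Agent.BLE.UE
import Pool.Agent.BLE.GA

/-!
# BLE / XExt: extension of partially good assignments

Partially good assignments are extended by one element (satisfying a formula whose quantified form `Kq`
holds), and by recursion to good assignments.
-/

set_option autoImplicit false

namespace Pool.Agent.BLE

open Function

variable {σ : Sig} {M : Type} {S : Str M} {ell : ℕ} {θ D : Fml} {L : ℕ → Bool}

private theorem xext_gen {k₀ : ℕ} (hg : GoodData σ S ell θ D k₀) (hs : SatG σ S Set.univ)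
    {k : ℕ} {v : ℕ → M} (h : GoodTo σ S ell θ D L k v) {Z : Set M} (hZd : Df1 σ S Set.univ Z)
    (hZ : Z.Infinite) (hZD : Z ⊆ Dset σ S D v) :
    ∃ y ∈ Z, GoodTo σ S ell θ D L (k + 1) (update v (2 * k + 1) y) := by
  haveI : Nonempty M := ⟨v 0⟩
  have h1 : (par ell v).Countable :=
    ((Set.to_countable (Set.univ : Set ℕ)).image (fun j => v (2 * j))).mono (by
      rintro a ⟨j, _, rfl⟩
      exact ⟨j, Set.mem_univ _, rfl⟩)
  have h2 : (prev v k).Countable :=
    ((Set.to_countable (Set.univ : Set ℕ)).image (fun j => v (2 * j + 1))).mono (by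
      rintro a ⟨j, _, rfl⟩
      exact ⟨j, Set.mem_univ _, rfl⟩)
  obtain ⟨y, hy, hya⟩ := exists_not_mem hs hZd hZ (acl_countable (h1.union h2))
  exact ⟨y, hy, GoodTo.succ hg.fvθ hg.fvD h (hZD hy) fun _ => hya⟩

theorem goodTo_extend {k₀ : ℕ} (hg : GoodData σ S ell θ D k₀) (hs : SatG σ S Set.univ)
    {Q : ℕ → Fml → Fml} (hQ : QSpec σ S ell θ D Q) {k : ℕ} {v : ℕ → M}
    (h : GoodTo σ S ell θ D L k v) (φ : Fml) (hφ : Sat σ S v (Kq Q D L k φ)) :
    ∃ y, GoodTo σ S ell θ D L (k + 1) (update v (2 * k + 1) y) ∧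
      Sat σ S (update v (2 * k + 1) y) φ := by
  by_cases hL : L k = true
  · unfold Kq at hφ
    rw [if_pos hL, sat_ex] at hφ
    obtain ⟨y, hy⟩ := hφ
    rw [sat_and] at hy
    have hx : 2 * k + 1 = 1 ∨ 2 * k + 1 ∉ D.fv := by
      by_cases h1 : 2 * k + 1 ∈ D.fv
      · rcases hg.fvD _ h1 with h2 | ⟨j, _, h2⟩
        · exact Or.inl h2
        · omega
      · exact Or.inr h1
    have hyD : y ∈ Dset σ S D v := (sat_mem_update hx y).1 hy.1
    refine ⟨y, GoodTo.succ hg.fvθ hg.fvD h hyD fun h2 => ?_, hy.2⟩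
    rw [hL] at h2
    exact Bool.noConfusion h2
  · unfold Kq at hφ
    rw [if_neg hL] at hφ
    have h1 := (hQ.inf k φ v h.th).1 hφ
    have h2 : Df1 σ S Set.univ
        {y | y ∈ Dset σ S D v ∧ Sat σ S (update v (2 * k + 1) y) φ} :=
      ((df1_dset hg.fvD v).mono (Set.subset_univ _)).inter
        ((df1_of_fml φ v (2 * k + 1)).mono (Set.subset_univ _))
    obtain ⟨y, hy, hy'⟩ := xext_gen hg hs h h2 h1 fun y hy => hy.1
    exact ⟨y, hy', hy.2⟩

theorem goodTo_extend' {k₀ : ℕ} (hg : GoodData σ S ell θ D k₀) (hs : SatG σ S Set.univ)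
    {k : ℕ} {v : ℕ → M} (h : GoodTo σ S ell θ D L k v) :
    ∃ y, GoodTo σ S ell θ D L (k + 1) (update v (2 * k + 1) y) := by
  obtain ⟨y, -, hy⟩ := xext_gen hg hs h
    ((df1_dset hg.fvD v).mono (Set.subset_univ _)) (hg.inf v h.th) (Set.Subset.refl _)
  exact ⟨y, hy⟩

theorem good_extend {k₀ : ℕ} (hg : GoodData σ S ell θ D k₀) (hs : SatG σ S Set.univ)
    {k : ℕ} {v : ℕ → M} (h : GoodTo σ S ell θ D L k v) :
    ∃ w, (∀ i, (∀ n ≥ k, i ≠ 2 * n + 1) → w i = v i) ∧ Good σ S ell θ D L w := by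
  classical
  obtain ⟨f, hf⟩ : ∃ f : ∀ (m : ℕ), {w : ℕ → M // GoodTo σ S ell θ D L (k + m) w} → M,
      ∀ m (w : {w : ℕ → M // GoodTo σ S ell θ D L (k + m) w}),
        GoodTo σ S ell θ D L (k + m + 1) (update w.1 (2 * (k + m) + 1) (f m w)) :=
    ⟨fun m w => (goodTo_extend' hg hs w.2).choose,
      fun m w => (goodTo_extend' hg hs w.2).choose_spec⟩
  let W : ∀ m : ℕ, {w : ℕ → M // GoodTo σ S ell θ D L (k + m) w} := fun m =>
    Nat.rec (motive := fun m => {w : ℕ → M // GoodTo σ S ell θ D L (k + m) w}) ⟨v, h⟩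
      (fun m w => ⟨update w.1 (2 * (k + m) + 1) (f m w), hf m w⟩) m
  have hW0 : (W 0).1 = v := rfl
  have hWs : ∀ m, (W (m + 1)).1 = update (W m).1 (2 * (k + m) + 1) (f m (W m)) := fun m => rfl
  let w : ℕ → M := fun i =>
    if ∃ n, k ≤ n ∧ i = 2 * n + 1 then (W (i / 2 - k + 1)).1 i else v i
  have hw1 : ∀ i, (∀ n ≥ k, i ≠ 2 * n + 1) → w i = v i := by
    intro i hi
    refine if_neg ?_
    rintro ⟨n, hn, h1⟩
    exact hi n hn h1
  have hw2 : ∀ m, w (2 * (k + m) + 1) = (W (m + 1)).1 (2 * (k + m) + 1) := by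
    intro m
    have h1 : w (2 * (k + m) + 1) =
        (W ((2 * (k + m) + 1) / 2 - k + 1)).1 (2 * (k + m) + 1) :=
      if_pos ⟨k + m, Nat.le_add_right _ _, rfl⟩
    have h2 : (2 * (k + m) + 1) / 2 - k + 1 = m + 1 := by omega
    rw [h1, h2]
  have hW : ∀ m i, (∀ n ≥ k + m, i ≠ 2 * n + 1) → (W m).1 i = w i := by
    intro m
    induction m with
    | zero =>
      intro i hi
      rw [hW0, hw1 i hi]
    | succ m ih =>
      intro i hi
      by_cases h1 : i = 2 * (k + m) + 1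
      · rw [h1, hw2]
      · rw [hWs, update_of_ne h1]
        apply ih
        intro n hn
        rcases Nat.eq_or_lt_of_le hn with h2 | h2
        · rw [← h2]
          exact h1
        · exact hi n (by omega)
  refine ⟨w, hw1, GoodTo.good fun m => ?_⟩
  have h1 : GoodTo σ S ell θ D L (k + m) w := by
    refine GoodTo.congr hg.fvθ hg.fvD (W m).2 ?_ ?_
    · intro j _
      exact hW m _ fun n _ => by omega
    · intro n hn
      exact hW m _ fun n' hn' => by omega
  exact ⟨h1.th, fun n hn => h1.mem n (by omega), fun n hn => h1.gen n (by omega)⟩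

end Pool.Agent.BLE
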