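import Pool.Agent.BLE.XMem

/-!
# BLE / XFv: free variables of the prefix formulas
-/

set_option autoImplicit false

namespace Pool.Agent.BLE

open Function

variable {σ : Sig} {M : Type} {S : Str M} {ell : ℕ} {θ D : Fml} {L : ℕ → Bool}

theorem fv_Kq {Q : ℕ → Fml → Fml} (hD : ∀ i ∈ D.fv, i = 1 ∨ ∃ j < ell, i = 2 * j)
    (hQ : QSpec σ S ell θ D Q) (n : ℕ) (φ : Fml) :
    ∀ i ∈ (Kq Q D L n φ).fv, (i ∈ φ.fv ∧ i ≠ 2 * n + 1) ∨ ∃ j < ell, i = 2 * j := by
  intro i hi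
  unfold Kq at hi
  split_ifs at hi with hL
  · rw [fv_ex, fv_and, Finset.mem_erase, Finset.mem_union] at hi
    obtain ⟨h1, h2 | h2⟩ := hi
    · rcases fv_mem _ i h2 with h3 | ⟨h3, h4⟩
      · exact absurd h3 h1
      · rcases hD i h3 with h5 | h5
        · exact absurd h5 h4
        · exact Or.inr h5
    · exact Or.inl ⟨h2, h1⟩
  · exact hQ.fv n φ i hi

theorem fv_preF {Q : ℕ → Fml → Fml} (hD : ∀ i ∈ D.fv, i = 1 ∨ ∃ j < ell, i = 2 * j)
    (hQ : QSpec σ S ell θ D Q) (k j : ℕ) (φ : Fml) :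
    ∀ i ∈ (preF Q D L k j φ).fv,
      (i ∈ φ.fv ∧ ∀ n, k ≤ n → n < k + j → i ≠ 2 * n + 1) ∨ ∃ j' < ell, i = 2 * j' := by
  induction j generalizing k with
  | zero =>
    intro i hi
    exact Or.inl ⟨hi, fun n h1 h2 => by omega⟩
  | succ j ih =>
    intro i hi
    simp only [preF] at hi
    rcases fv_Kq hD hQ k _ i hi with ⟨h1, h2⟩ | h
    · rcases ih (k + 1) i h1 with ⟨h3, h4⟩ | h
      · refine Or.inl ⟨h3, fun n h5 h6 => ?_⟩
        rcases Nat.eq_or_lt_of_le h5 with h7 | h7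
        · subst h7
          exact h2
        · exact h4 n (by omega) (by omega)
      · exact Or.inr h
    · exact Or.inr h

end Pool.Agent.BLE
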