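import Pool.Agent.BLE.XFv
import Pool.Agent.BLE.XCode
import Pool.Agent.DP.Comp

/-!
# BLE / XHC: computability of the prefix sentence

`preF Q D L 0 m φ` is computed from the inside: put `G 0 = φ`, `G (i+1) = Kq Q D L (m-1-i) (G i)`; then
`preF Q D L 0 m φ = G m` (prove `preF Q D L (m - i) i φ = G i` for `i ≤ m` by induction on `i`, using
`preF Q D L k (j+1) φ = Kq Q D L k (preF Q D L (k+1) j φ)`).  So its code is a primitive recursion
(`Computable.nat_rec`) in the codes; `Kq` on codes: `Computable.cond` on `L s n`, the two cases by XCode and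
`hQ` (`Q n ψ = Q n (F ψ.code)`).  The code of `D.mem x`: cases `x = 1` (`Computable.ite`/`cond`).
-/

set_option autoImplicit false

namespace Pool.Agent.BLE

open Function

variable {ell : ℕ} {θ D : Fml}

theorem CF.condB {α : Type} [Primcodable α] {b : α → Bool} {φ ψ : α → Fml} (hb : Computable b)
    (hφ : CF φ) (hψ : CF ψ) : CF fun a => if b a = true then φ a else ψ a := by
  have h : Computable fun a => if b a = true then (φ a).code else (ψ a).code := Cp.ite hb hφ hψ
  refine h.of_eq fun a => ?_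
  show (if b a = true then (φ a).code else (ψ a).code) = (if b a = true then φ a else ψ a).code
  by_cases hc : b a = true
  · rw [if_pos hc, if_pos hc]
  · rw [if_neg hc, if_neg hc]

theorem CF.ifP {α : Type} [Primcodable α] {p : α → Prop} [DecidablePred p] {φ ψ : α → Fml}
    (hp : ComputablePred p) (hφ : CF φ) (hψ : CF ψ) : CF fun a => if p a then φ a else ψ a := by
  obtain ⟨b, hb, hb'⟩ := Pool.Agent.DP.cp_iff.1 hp
  have h := CF.condB hb hφ hψ
  refine Computable.of_eq h fun a => ?_
  show (if b a = true then φ a else ψ a).code = (if p a then φ a else ψ a).code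
  by_cases hc : p a
  · rw [if_pos hc, if_pos ((hb' a).1 hc)]
  · rw [if_neg hc, if_neg fun h => hc ((hb' a).2 h)]

theorem cf_mem {α : Type} [Primcodable α] {x : α → ℕ} (hx : Computable x) :
    CF fun a => D.mem (x a) := by
  have h1 : ComputablePred fun a => x a = 1 := Pool.Agent.DP.CP.eq hx (Computable.const 1)
  have h2 : CF fun a => Fml.ex 1 (.and (.eq 1 (x a)) D) := by fun_prop
  exact CF.ifP (φ := fun _ => D) (ψ := fun a => Fml.ex 1 (.and (.eq 1 (x a)) D)) h1
    (CF.const D) h2

theorem cf_Kq {Q : ℕ → Fml → Fml} (hQ : CF (fun p : ℕ × ℕ => Q p.1 (F p.2)))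
    {L : ℕ → ℕ → Bool} (hL : Computable₂ L) {α : Type} [Primcodable α] {s n : α → ℕ}
    {φ : α → Fml} (hs : Computable s) (hn : Computable n) (hφ : CF φ) :
    CF fun a => Kq Q D (L (s a)) (n a) (φ a) := by
  have h1 : CF fun a => Q (n a) (φ a) := by
    have h2 : CF fun a => Q (n a, (φ a).code).1 (F (n a, (φ a).code).2) :=
      CF.comp (φ := fun p : ℕ × ℕ => Q p.1 (F p.2)) (g := fun a => (n a, (φ a).code)) hQ
        (Computable.pair hn hφ)
    refine Computable.of_eq h2 fun a => ?_
    show (Q (n a) (F (φ a).code)).code = _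
    rw [F_code]
  have h3 : Computable fun a => 2 * n a + 1 := by fun_prop
  have h4 : CF fun a => D.mem (2 * n a + 1) := cf_mem h3
  have h5 : CF fun a => Fml.ex (2 * n a + 1) (.and (D.mem (2 * n a + 1)) (φ a)) :=
    CF.ex h3 (CF.and h4 hφ)
  exact CF.condB (b := fun a => L (s a) (n a)) (hL.comp hs hn) h5 h1

private theorem preF_rec (Q : ℕ → Fml → Fml) (L : ℕ → Bool) (m : ℕ) (ψ : Fml) (i : ℕ)
    (hi : i ≤ m) : Nat.rec (motive := fun _ => ℕ) ψ.code
      (fun i c => (Kq Q D L (m - 1 - i) (F c)).code) i = (preF Q D L (m - i) i ψ).code := by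
  induction i with
  | zero => rfl
  | succ i ih =>
    show (Kq Q D L (m - 1 - i) (F (Nat.rec (motive := fun _ => ℕ) ψ.code
      (fun i c => (Kq Q D L (m - 1 - i) (F c)).code) i))).code =
      (Kq Q D L (m - (i + 1)) (preF Q D L (m - (i + 1) + 1) i ψ)).code
    rw [ih (by omega), F_code, show m - (i + 1) + 1 = m - i by omega,
      show m - (i + 1) = m - 1 - i by omega]

theorem cf_preF {Q : ℕ → Fml → Fml} (hQ : CF (fun p : ℕ × ℕ => Q p.1 (F p.2)))
    {L : ℕ → ℕ → Bool} (hL : Computable₂ L) {α : Type} [Primcodable α] {s m : α → ℕ}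
    {φ : α → Fml} (hs : Computable s) (hm : Computable m) (hφ : CF φ) :
    CF fun a => preF Q D (L (s a)) 0 (m a) (φ a) := by
  have h : Computable fun a => Nat.rec (motive := fun _ => ℕ) (φ a).code
      (fun i c => (Kq Q D (L (s a)) (m a - 1 - i) (F c)).code) (m a) := by
    refine Computable.nat_rec (f := m) (g := fun a => (φ a).code)
      (h := fun a (p : ℕ × ℕ) => (Kq Q D (L (s a)) (m a - 1 - p.1) (F p.2)).code) hm hφ ?_
    show Computable fun y : α × (ℕ × ℕ) =>
      (Kq Q D (L (s y.1)) (m y.1 - 1 - y.2.1) (F y.2.2)).code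
    have h1 : Computable fun y : α × (ℕ × ℕ) => s y.1 := hs.comp Computable.fst
    have h2 : Computable fun y : α × (ℕ × ℕ) => m y.1 - 1 - y.2.1 := by
      have h3 : Computable fun y : α × (ℕ × ℕ) => m y.1 := hm.comp Computable.fst
      fun_prop
    have h3 : CF fun y : α × (ℕ × ℕ) => F y.2.2 := by fun_prop
    exact cf_Kq hQ hL h1 h2 h3
  refine h.of_eq fun a => ?_
  have h4 := preF_rec (D := D) Q (L (s a)) (m a) (φ a) (m a) le_rfl
  rw [Nat.sub_self] at h4
  exact h4

theorem cf_hsen {Q : ℕ → Fml → Fml} (hQ : CF (fun p : ℕ × ℕ => Q p.1 (F p.2)))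
    {L : ℕ → ℕ → Bool} (hL : Computable₂ L) {α : Type} [Primcodable α] {s : α → ℕ}
    {φ : α → Fml} (hs : Computable s) (hφ : CF φ) :
    CF fun a => hsen Q D θ (L (s a)) ell (φ a) := by
  have h0 : Computable fun i : ℕ => pin ell i := by
    have h1 : ComputablePred fun i : ℕ => i % 2 = 1 := by
      have : Computable fun i : ℕ => i % 2 :=
        (Primrec.nat_mod.comp Primrec.id (Primrec.const 2)).to_comp
      exact Pool.Agent.DP.CP.eq this (Computable.const 1)
    have h2 : ComputablePred fun i : ℕ => i < 2 * ell :=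
      Pool.Agent.DP.CP.lt Computable.id (Computable.const _)
    obtain ⟨b, hb, hb'⟩ := Pool.Agent.DP.cp_iff.1 (Pool.Agent.DP.CP.or h1 h2)
    refine hb.of_eq fun i => ?_
    rw [Bool.eq_iff_iff, ← hb' i]
    simp [pin]
  have h1 : CF fun a => Fml.exOut (pin ell) (φ a) :=
    CF.exOut (s := fun _ => pin ell) (h0.comp Computable.snd) hφ
  have h2 : CF fun a => preF Q D (L (s a)) 0 (φ a).code (Fml.exOut (pin ell) (φ a)) :=
    cf_preF hQ hL hs hφ h1
  have h3 : Computable fun _ : α => ell := Computable.const ell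
  have h4 : Computable fun p : α × ℕ => 2 * p.2 := by fun_prop
  exact CF.exs (m := fun _ => ell) (f := fun _ j => 2 * j) h3 h4 (CF.and (CF.const θ) h2)

end Pool.Agent.BLE
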