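import Pool.Agent.BLE.XSen
import Pool.Agent.BLE.XQ
import Pool.Agent.BLE.XHC

/-!
# BLE / XHdec: the invariant is decidable

`exists_Q`; `hp_iff`: `Hp (L s) φ ↔ hsen Q D θ (L s) ell φ ∈ T`; `cf_hsen`; `DecidableTheory T`:
`n ↦ ∃ φ ∈ T, φ.code = n` is computable, and `ψ ∈ T ↔ ∃ φ ∈ T, φ.code = ψ.code` (`code_injective`);
`CP.comp`.
-/

set_option autoImplicit false

namespace Pool.Agent.BLE

open Function

variable {σ : Sig} {M : Type} {S : Str M} {T : Set Fml} {ell : ℕ} {θ D : Fml}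

theorem mem_dec (hd : DecidableTheory T) {α : Type} [Primcodable α] {φ : α → Fml} (hφ : CF φ) :
    ComputablePred fun a => φ a ∈ T := by
  refine Pool.Agent.DP.CP.of_eq (Pool.Agent.DP.CP.comp hd hφ) fun a => ?_
  constructor
  · intro h
    exact ⟨φ a, h, rfl⟩
  · rintro ⟨ψ, h, h'⟩
    rwa [← code_injective h']

theorem hp_dec (hσ : σ.Effective) (hT : CompleteTheory σ T) (hd : DecidableTheory T)
    [Nonempty M] (hS : Models σ S T) (hs : SatG σ S Set.univ) {k₀ : ℕ}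
    (hg : GoodData σ S ell θ D k₀) {L : ℕ → ℕ → Bool} (hL : Computable₂ L)
    {α : Type} [Primcodable α] {s : α → ℕ} {φ : α → Fml} (hs' : Computable s) (hφ : CF φ) :
    ComputablePred fun a => Hp σ S ell θ D (L (s a)) (φ a) := by
  obtain ⟨Q, hQ, hQc⟩ := exists_Q hσ hT hd hS hg
  have h1 : CF fun a => hsen Q D θ (L (s a)) ell (φ a) := cf_hsen hQc hL hs' hφ
  refine Pool.Agent.DP.CP.of_eq (mem_dec hd h1) fun a => ?_
  exact hp_iff hT hS hg hs hQ (φ a)

end Pool.Agent.BLE
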