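import Pool.Agent.BLE.XRel
import Pool.Agent.BLE.XBad
import Pool.Agent.BLE.SG

/-!
# BLE / XLeave: existence of the formula at a leaving stage

Let `v` be good for `L` with `Sat v δ`, `φ = Fml.exOut (pin ell) δ`, `χ₁` the prefix formula of `φ` above
`n`.  The set `X` of the `x ∈ Dset v` with `Sat (update v (2n+1) x) χ₁` is infinite (otherwise
`v (2n+1)` would be algebraic), so it is cofinite in `Dset v`; it contains an element `x` which is
algebraic over the parameters and the `d_i`, `i < k₀`, and avoids the finitely many finite sets of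
`bad_finite`.  The conjunction of the formulas which witness this is the formula required.
-/

set_option autoImplicit false

namespace Pool.Agent.BLE

open Function

variable {σ : Sig} {M : Type} {S : Str M} {ell : ℕ} {θ D : Fml} {L : ℕ → Bool}

private theorem XLeave_preF {L' : ℕ → Bool} {Q : ℕ → Fml → Fml} {n : ℕ}
    (h : ∀ i, n < i → L i = L' i) (j k : ℕ) (hk : n < k) (φ : Fml) :
    preF Q D L k j φ = preF Q D L' k j φ := by
  induction j generalizing k with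
  | zero => rfl
  | succ j ih =>
    show Kq Q D L k (preF Q D L (k + 1) j φ) = Kq Q D L' k (preF Q D L' (k + 1) j φ)
    rw [ih (k + 1) (by omega)]
    unfold Kq
    rw [h k hk]

theorem leave_exists {L' : ℕ → Bool} {k₀ : ℕ} (hg : GoodData σ S ell θ D k₀)
    (hs : SatG σ S Set.univ) {Q : ℕ → Fml → Fml} (hQ : QSpec σ S ell θ D Q)
    (J : ℕ → Prop) (A : ℕ → Str ℕ) (t n : ℕ) (hn : k₀ ≤ n) (hell : ell ≤ n + 1)
    (hL0 : ∀ i < k₀, L i = false) (hLn : L n = false)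
    (hL' : ∀ i, L' i = true ↔ (L i = true ∨ i = n)) (δ : Fml)
    (hδ : Hp σ S ell θ D L δ) :
    ∃ χ : Fml, Hp σ S ell θ D L' (δ.and (hat n χ)) ∧ Av σ J A t n χ := by
  classical
  obtain ⟨v, hv, hvδ⟩ := hδ
  have : Nonempty M := ⟨v 0⟩
  have hLL : ∀ i, n < i → L i = L' i := by
    intro i hi
    have h1 := hL' i
    have h2 : i ≠ n := by omega
    cases h3 : L i <;> cases h4 : L' i <;> simp_all
  have hL'n : L' n = true := (hL' n).2 (Or.inr rfl)
  have hfalse : ∀ i, L' i = false → L i = false := by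
    intro i hi
    by_contra h1
    have h2 : L i = true := by
      cases h3 : L i
      · exact absurd h3 h1
      · rfl
    rw [(hL' i).2 (Or.inl h2)] at hi
    exact absurd hi (by decide)
  obtain ⟨φ, hφ⟩ : ∃ φ, φ = Fml.exOut (pin ell) δ := ⟨_, rfl⟩
  obtain ⟨m, hm⟩ : ∃ m, m = δ.code + n + 1 := ⟨_, rfl⟩
  obtain ⟨χ₁, hχ₁⟩ : ∃ χ₁, χ₁ = preF Q D L (n + 1) m φ := ⟨_, rfl⟩
  have hχ₁' : χ₁ = preF Q D L' (n + 1) m φ := by
    rw [hχ₁]
    exact XLeave_preF hLL m (n + 1) (Nat.lt_succ_self n) φ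
  have hφm : ∀ i, 2 * i + 1 ∈ φ.fv → i < n + 1 + m := by
    intro i hi
    rw [hφ] at hi
    have h1 := fv_lt_code δ _ (fv_exOut _ _ _ hi).1
    omega
  have hφp : ∀ i ∈ φ.fv, pin ell i = true := by
    intro i hi
    rw [hφ] at hi
    exact (fv_exOut _ _ _ hi).2
  have hvφ : Sat σ S v φ := by
    rw [hφ, sat_exOut]
    exact ⟨v, fun _ _ => rfl, hvδ⟩
  have hvχ : Sat σ S v χ₁ := by
    rw [hχ₁, sat_preF hg hs hQ (n + 1) m φ v (hv.goodTo (n + 1)) hφm hφp]
    exact ⟨v, fun _ _ => rfl, hv, hvφ⟩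
  have hχfv : ∀ i ∈ χ₁.fv, (∃ j < ell, i = 2 * j) ∨ ∃ n' ≤ n, i = 2 * n' + 1 := by
    intro i hi
    rw [hχ₁] at hi
    rcases fv_preF hg.fvD hQ (n + 1) m φ i hi with ⟨h1, h2⟩ | h1
    · have h3 := hφp i h1
      unfold pin at h3
      rw [Bool.or_eq_true, decide_eq_true_iff, decide_eq_true_iff] at h3
      rcases Nat.even_or_odd' i with ⟨j, hj | hj⟩
      · left
        exact ⟨j, by omega, hj⟩
      · right
        refine ⟨j, ?_, hj⟩
        by_contra h4
        have h5 := hφm j (by rw [← hj]; exact h1)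
        exact h2 j (by omega) h5 hj
    · exact Or.inl h1
  -- the set `X` is infinite
  have hX : {y | y ∈ Dset σ S D v ∧ Sat σ S (update v (2 * n + 1) y) χ₁}.Infinite := by
    intro hfin
    refine hv.gen n hLn ⟨_, ?_, hfin, hv.mem n, ?_⟩
    · exact ((df1_dset hg.fvD v).mono Set.subset_union_left).inter (df1_of_fv v χ₁ hχfv)
    · rw [update_eq_self]
      exact hvχ
  have hQn : Sat σ S v (Q n χ₁) := (hQ.inf n χ₁ v hv.th).2 hX
  have hF := hQ.fin n χ₁ v hv.th hQn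
  have hC := hg.alg v hv.th fun i hi => ⟨hv.mem i, hv.gen i (hL0 i hi)⟩
  obtain ⟨K, hK⟩ : ∃ K, K = (t + 1) ^ (2 * n + 2) := ⟨_, rfl⟩
  obtain ⟨g, hgd⟩ : ∃ g : ℕ → ℕ → ℕ, g = fun q i => (dig t (2 * n + 2) q).getD i 0 := ⟨_, rfl⟩
  obtain ⟨Bad, hBad⟩ : ∃ Bad : ℕ → ℕ → Set M, Bad = fun j q =>
      {x | x ∈ acl σ S (par ell v ∪ prev v k₀) ∧
      ∀ ρ : Fml, (∀ i ∈ ρ.fv, (∃ j < ell, i = 2 * j) ∨ (∃ m < k₀, i = 2 * m + 1) ∨
        i = 2 * n + 1) → Sat σ S (update v (2 * n + 1) x) ρ → Sat σ (A j) (g q) ρ} := ⟨_, rfl⟩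
  have hBadfin : ∀ j q, (Bad j q).Finite := by
    intro j q
    rw [hBad]
    exact bad_finite hn (A j) (g q) v
  have hU : (⋃ j ∈ Finset.range (t + 1), ⋃ q ∈ Finset.range K, Bad j q).Finite :=
    Set.Finite.biUnion (Finset.finite_toSet _) fun j _ =>
      Set.Finite.biUnion (Finset.finite_toSet _) fun q _ => hBadfin j q
  obtain ⟨x, ⟨hxacl, hxD⟩, hxn⟩ := (hC.sdiff (hF.union hU)).nonempty
  have hxχ : Sat σ S (update v (2 * n + 1) x) χ₁ := by
    by_contra h1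
    exact hxn (Or.inl ⟨hxD, h1⟩)
  have hρ : ∀ j q, ∃ ρ : Fml, j < t + 1 → q < K →
      (∀ i ∈ ρ.fv, (∃ j < ell, i = 2 * j) ∨ (∃ m < k₀, i = 2 * m + 1) ∨ i = 2 * n + 1) ∧
        Sat σ S (update v (2 * n + 1) x) ρ ∧ ¬ Sat σ (A j) (g q) ρ := by
    intro j q
    by_cases hj : j < t + 1
    · by_cases hq : q < K
      · have h1 : x ∉ Bad j q := by
          intro h2
          refine hxn (Or.inr ?_)
          exact Set.mem_biUnion (Finset.mem_coe.2 (Finset.mem_range.2 hj))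
            (Set.mem_biUnion (Finset.mem_coe.2 (Finset.mem_range.2 hq)) h2)
        rw [hBad] at h1
        have h3 : ¬ ∀ ρ : Fml, (∀ i ∈ ρ.fv, (∃ j < ell, i = 2 * j) ∨
            (∃ m < k₀, i = 2 * m + 1) ∨ i = 2 * n + 1) →
            Sat σ S (update v (2 * n + 1) x) ρ → Sat σ (A j) (g q) ρ := fun h4 => h1 ⟨hxacl, h4⟩
        push Not at h3
        obtain ⟨ρ, h4, h5, h6⟩ := h3
        exact ⟨ρ, fun _ _ => ⟨h4, h5, h6⟩⟩
      · exact ⟨.bot, fun _ h => absurd h hq⟩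
    · exact ⟨.bot, fun h => absurd h hj⟩
  choose ρ hρ' using hρ
  obtain ⟨χ, hχ⟩ : ∃ χ, χ = Fml.cj (t + 1) fun j => Fml.cj K fun q => ρ j q := ⟨_, rfl⟩
  refine ⟨χ, ?_, ?_⟩
  · -- the good assignment
    have hv'G : GoodTo σ S ell θ D L' (n + 1) (update v (2 * n + 1) x) := by
      have h1 : GoodTo σ S ell θ D L' n v :=
        ⟨hv.th, fun i _ => hv.mem i, fun i _ hi => hv.gen i (hfalse i hi)⟩
      refine h1.succ hg.fvθ hg.fvD hxD fun h2 => ?_
      rw [hL'n] at h2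
      exact absurd h2 (by decide)
    rw [hχ₁', sat_preF hg hs hQ (n + 1) m φ _ hv'G hφm hφp] at hxχ
    obtain ⟨w, hw, hwG, hwφ⟩ := hxχ
    rw [hφ, sat_exOut] at hwφ
    obtain ⟨w', hw', hw'δ⟩ := hwφ
    have hpe : ∀ j < ell, pin ell (2 * j) = true := by
      intro j hj
      unfold pin
      rw [Bool.or_eq_true, decide_eq_true_iff, decide_eq_true_iff]
      right
      omega
    have hpo : ∀ j, pin ell (2 * j + 1) = true := by
      intro j
      unfold pin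
      rw [Bool.or_eq_true, decide_eq_true_iff, decide_eq_true_iff]
      left
      omega
    refine ⟨w', hwG.congr hg.fvθ hg.fvD (fun j hj => (hw' _ (hpe j hj)).symm)
      (fun j => (hw' _ (hpo j)).symm), ?_⟩
    rw [sat_and]
    refine ⟨hw'δ, ?_⟩
    unfold hat
    rw [sat_exOut]
    refine ⟨w', fun _ _ => rfl, ?_⟩
    rw [hχ, sat_cj]
    intro j hj
    rw [sat_cj]
    intro q hq
    obtain ⟨h4, h5, _⟩ := hρ' j q hj hq
    refine (sat_congr (ρ j q) fun i hi => ?_).2 h5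
    rcases h4 i hi with ⟨a, ha, rfl⟩ | ⟨a, ha, rfl⟩ | rfl
    · rw [hw' _ (hpe a ha)]
      exact hw _ fun b _ => by omega
    · rw [hw' _ (hpo a)]
      exact hw _ fun b hb => by omega
    · rw [hw' _ (hpo n)]
      exact hw _ fun b hb => by omega
  · intro j hj q hq
    rw [← hK] at hq
    rintro ⟨_, hsat⟩
    unfold hat at hsat
    rw [sat_exOut] at hsat
    obtain ⟨w, hw, hwχ⟩ := hsat
    rw [hχ, sat_cj] at hwχ
    have h1 := (sat_cj _ _).1 (hwχ j hj) q hq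
    obtain ⟨h4, _, h6⟩ := hρ' j q hj hq
    refine h6 ((sat_congr (ρ j q) fun i hi => ?_).1 h1)
    rw [hgd]
    refine hw i ?_
    rw [decide_eq_true_iff]
    rcases h4 i hi with ⟨a, ha, rfl⟩ | ⟨a, ha, rfl⟩ | rfl <;> omega

end Pool.Agent.BLE
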