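import Pool.Agent.BLE.XStep
import Pool.Agent.BLE.XExt

/-!
# BLE / XLim: the limit assignment

* `lim_exists`: `Sat w (F (c s').unpair.1) → Sat w (F (c s).unpair.1)` for `s ≤ s'` (induction, `step_imp`).
  `hs : SatG σ S Set.univ` for `Γ = {F (c s).unpair.1 | s}`, the empty set of fixed variables and any `v₀`: a
  finite `Δ ⊆ Γ` is implied by one `F (c s).unpair.1`, which is satisfiable (`Hp`).
* `lim_decide`: step `s = 3 t + 1`: the committed formula becomes `.and (F t)` or `.and (F t).neg`; which one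
  is determined by equality of codes.
* `lim_hold`: if `¬ Sat v χ` then at the stage `3 χ.code + 1` the formula `χ.neg` was added (`F_code`,
  otherwise `χ` was added and `Sat v χ`).  Let `s ≥ s₀`, `s > 3 χ.code + 1`: there is `w` good for `L s` with
  `Sat w (F (c s).unpair.1)`, so `Sat w χ.neg` by monotonicity; contradiction to `h`.
-/

set_option autoImplicit false

namespace Pool.Agent.BLE

open Function

variable {σ : Sig} {M : Type} {S : Str M} {ell : ℕ} {θ D : Fml} {J : ℕ → Prop} {A : ℕ → Str ℕ}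
  {o : ℕ → ℕ} {L : ℕ → ℕ → Bool} {c : ℕ → ℕ}

theorem run_mono (hc : ∀ s, StepR σ S ell θ D J A o L s (c s) (c (s + 1))) {s s' : ℕ}
    (h : s ≤ s') (v : ℕ → M) (hv : Sat σ S v (F (c s').unpair.1)) :
    Sat σ S v (F (c s).unpair.1) := by
  induction s', h using Nat.le_induction with
  | base => exact hv
  | succ n hn ih => exact ih (step_imp n (c n) (c (n + 1)) (hc n) v hv)

theorem lim_exists [Nonempty M] (hs : SatG σ S Set.univ)
    (hi : ∀ s, Hp σ S ell θ D (L s) (F (c s).unpair.1))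
    (hc : ∀ s, StepR σ S ell θ D J A o L s (c s) (c (s + 1))) :
    ∃ v : ℕ → M, ∀ s, Sat σ S v (F (c s).unpair.1) := by
  classical
  obtain ⟨v, -, -, hv⟩ := hs (Set.range fun s => F (c s).unpair.1) ∅
    (fun _ => Classical.arbitrary M) (fun _ => Set.mem_univ _) (by
      intro Δ hΔ
      have h1 : ∀ φ : Fml, ∃ s, φ ∈ Δ → F (c s).unpair.1 = φ := by
        intro φ
        by_cases hφ : φ ∈ Δ
        · obtain ⟨s, hs⟩ := hΔ hφ
          exact ⟨s, fun _ => hs⟩
        · exact ⟨0, fun h => absurd h hφ⟩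
      choose g hg using h1
      obtain ⟨v, -, hv⟩ := hi (Δ.sup g)
      refine ⟨v, fun _ => Set.mem_univ _, Set.eqOn_empty _ _, ?_⟩
      intro φ hφ
      have h2 := run_mono hc (Finset.le_sup (f := g) hφ) v hv
      rw [hg φ hφ] at h2
      exact h2)
  exact ⟨v, fun s => hv _ ⟨s, rfl⟩⟩

theorem lim_decide (hc : ∀ s, StepR σ S ell θ D J A o L s (c s) (c (s + 1)))
    {v : ℕ → M} (hv : ∀ s, Sat σ S v (F (c s).unpair.1)) (t : ℕ) :
    (Sat σ S v (F t) ↔ F (c (3 * t + 2)).unpair.1 = (F (c (3 * t + 1)).unpair.1).and (F t)) ∧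
    (¬ Sat σ S v (F t) →
      F (c (3 * t + 2)).unpair.1 = (F (c (3 * t + 1)).unpair.1).and (F t).neg) := by
  have h1 : (3 * t + 1) % 3 = 1 := by omega
  have h2 : (3 * t + 1) / 3 = t := by omega
  have h3 := hc (3 * t + 1)
  unfold StepR at h3
  rw [h2] at h3
  have h4 := h3.2.2.1 h1
  have h5 := h3.2.2.2.1 h1
  have h6 := hv (3 * t + 2)
  by_cases hH : Hp σ S ell θ D (L (3 * t + 1)) ((F (c (3 * t + 1)).unpair.1).and (F t))
  · have h7 := h4 hH
    have h8 : Sat σ S v (F t) := by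
      rw [h7, sat_and] at h6
      exact h6.2
    exact ⟨⟨fun _ => h7, fun _ => h8⟩, fun h => absurd h8 h⟩
  · have h7 := h5 hH
    refine ⟨⟨fun h => ?_, fun h => ?_⟩, fun _ => h7⟩
    · rw [h7, sat_and] at h6
      exact absurd h h6.2
    · rw [h, sat_and] at h6
      exact h6.2

theorem lim_hold (hi : ∀ s, Hp σ S ell θ D (L s) (F (c s).unpair.1))
    (hc : ∀ s, StepR σ S ell θ D J A o L s (c s) (c (s + 1)))
    {v : ℕ → M} (hv : ∀ s, Sat σ S v (F (c s).unpair.1)) (χ : Fml) (s₀ : ℕ)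
    (h : ∀ s ≥ s₀, ∀ w : ℕ → M, Good σ S ell θ D (L s) w → Sat σ S w χ) : Sat σ S v χ := by
  by_contra hn
  have h1 := (lim_decide hc hv χ.code).2
  rw [F_code] at h1
  have h2 := h1 hn
  obtain ⟨w, hw, hw2⟩ := hi (max s₀ (3 * χ.code + 2))
  have h3 := h _ (le_max_left _ _) w hw
  have h4 := run_mono hc (le_max_right s₀ (3 * χ.code + 2)) w hw2
  rw [h2, sat_and] at h4
  exact h4.2 h3

end Pool.Agent.BLE
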