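import Pool.Agent.BLE.XDefs

/-!
# BLE / XMem: immediate facts on good assignments
-/

set_option autoImplicit false

namespace Pool.Agent.BLE

open Function

variable {σ : Sig} {M : Type} {S : Str M} {ell : ℕ} {θ D : Fml} {L : ℕ → Bool}

theorem dset_congr {v w : ℕ → M} (h : ∀ i ∈ D.fv, i ≠ 1 → v i = w i) :
    Dset σ S D v = Dset σ S D w := by
  ext y
  refine sat_congr D fun i hi => ?_
  by_cases h1 : i = 1
  · subst h1
    rw [update_self, update_self]
  · rw [update_of_ne h1, update_of_ne h1]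
    exact h i hi h1

theorem dset_update {v : ℕ → M} {x : ℕ} (hx : x = 1 ∨ x ∉ D.fv) (y : M) :
    Dset σ S D (update v x y) = Dset σ S D v := by
  refine dset_congr fun i hi h1 => ?_
  rcases hx with hx | hx
  · subst hx
    rw [update_of_ne h1]
  · have hne : i ≠ x := by
      rintro rfl
      exact hx hi
    rw [update_of_ne hne]

theorem sat_mem (x : ℕ) (v : ℕ → M) : Sat σ S v (D.mem x) ↔ v x ∈ Dset σ S D v := by
  unfold Fml.mem
  split_ifs with hx
  · subst hx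
    change _ ↔ Sat σ S (update v 1 (v 1)) D
    rw [update_eq_self]
  · rw [sat_ex]
    constructor
    · rintro ⟨a, ha⟩
      rw [sat_and, sat_eq, update_self, update_of_ne hx] at ha
      obtain ⟨h1, h2⟩ := ha
      rw [h1] at h2
      exact h2
    · intro h
      refine ⟨v x, ?_⟩
      rw [sat_and, sat_eq, update_self, update_of_ne hx]
      exact ⟨rfl, h⟩

theorem sat_mem_update {v : ℕ → M} {x : ℕ} (hx : x = 1 ∨ x ∉ D.fv) (y : M) :
    Sat σ S (update v x y) (D.mem x) ↔ y ∈ Dset σ S D v := by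
  rw [sat_mem, update_self, dset_update hx]

theorem fv_mem (x : ℕ) : ∀ i ∈ (D.mem x).fv, i = x ∨ (i ∈ D.fv ∧ i ≠ 1) := by
  intro i hi
  unfold Fml.mem at hi
  split_ifs at hi with hx
  · subst hx
    by_cases h : i = 1
    · exact Or.inl h
    · exact Or.inr ⟨hi, h⟩
  · rw [fv_ex, fv_and, Finset.mem_erase, Finset.mem_union] at hi
    obtain ⟨h1, h2 | h2⟩ := hi
    · simp only [Fml.fv, Finset.mem_insert, Finset.mem_singleton] at h2
      rcases h2 with h2 | h2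
      · exact absurd h2 h1
      · exact Or.inl h2
    · exact Or.inr ⟨h2, h1⟩

theorem par_congr {v w : ℕ → M} (h : ∀ j < ell, v (2 * j) = w (2 * j)) :
    par ell v = par ell w := by
  ext a
  constructor
  · rintro ⟨j, hj, rfl⟩
    exact ⟨j, hj, h j hj⟩
  · rintro ⟨j, hj, rfl⟩
    exact ⟨j, hj, (h j hj).symm⟩

theorem prev_congr {v w : ℕ → M} {n : ℕ} (h : ∀ j < n, v (2 * j + 1) = w (2 * j + 1)) :
    prev v n = prev w n := by
  ext a
  constructor
  · rintro ⟨j, hj, rfl⟩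
    exact ⟨j, hj, h j hj⟩
  · rintro ⟨j, hj, rfl⟩
    exact ⟨j, hj, (h j hj).symm⟩

private theorem dset_par (hD : ∀ i ∈ D.fv, i = 1 ∨ ∃ j < ell, i = 2 * j) {v w : ℕ → M}
    (hp : ∀ j < ell, v (2 * j) = w (2 * j)) : Dset σ S D v = Dset σ S D w := by
  refine dset_congr fun i hi h1 => ?_
  rcases hD i hi with h | ⟨j, hj, rfl⟩
  · exact absurd h h1
  · exact hp j hj

private theorem th_par (hθ : ∀ i ∈ θ.fv, ∃ j < ell, i = 2 * j) {v w : ℕ → M}
    (hp : ∀ j < ell, v (2 * j) = w (2 * j)) : Sat σ S v θ ↔ Sat σ S w θ := by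
  refine sat_congr θ fun i hi => ?_
  obtain ⟨j, hj, rfl⟩ := hθ i hi
  exact hp j hj

/-- `Good` only depends on the parameters and the `d_n` -/
theorem Good.congr (hθ : ∀ i ∈ θ.fv, ∃ j < ell, i = 2 * j)
    (hD : ∀ i ∈ D.fv, i = 1 ∨ ∃ j < ell, i = 2 * j) {v w : ℕ → M}
    (h : Good σ S ell θ D L v) (hp : ∀ j < ell, v (2 * j) = w (2 * j))
    (hd : ∀ n, v (2 * n + 1) = w (2 * n + 1)) : Good σ S ell θ D L w := by
  refine ⟨(th_par hθ hp).1 h.th, fun n => ?_, fun n hn => ?_⟩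
  · rw [← hd n, ← dset_par hD hp]
    exact h.mem n
  · rw [← hd n, ← par_congr hp, ← prev_congr fun j _ => hd j]
    exact h.gen n hn

theorem GoodTo.congr (hθ : ∀ i ∈ θ.fv, ∃ j < ell, i = 2 * j)
    (hD : ∀ i ∈ D.fv, i = 1 ∨ ∃ j < ell, i = 2 * j) {k : ℕ} {v w : ℕ → M}
    (h : GoodTo σ S ell θ D L k v) (hp : ∀ j < ell, v (2 * j) = w (2 * j))
    (hd : ∀ n < k, v (2 * n + 1) = w (2 * n + 1)) : GoodTo σ S ell θ D L k w := by
  refine ⟨(th_par hθ hp).1 h.th, fun n hn => ?_, fun n hn hL => ?_⟩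
  · rw [← hd n hn, ← dset_par hD hp]
    exact h.mem n hn
  · rw [← hd n hn, ← par_congr hp, ← prev_congr fun j hj => hd j (by omega)]
    exact h.gen n hn hL

theorem Good.goodTo {v : ℕ → M} (h : Good σ S ell θ D L v) (k : ℕ) :
    GoodTo σ S ell θ D L k v :=
  ⟨h.th, fun n _ => h.mem n, fun n _ hL => h.gen n hL⟩

theorem GoodTo.good {v : ℕ → M} (h : ∀ k, GoodTo σ S ell θ D L k v) :
    Good σ S ell θ D L v :=
  ⟨(h 0).th, fun n => (h (n + 1)).mem n (by omega), fun n hL => (h (n + 1)).gen n (by omega) hL⟩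

/-- extension by one more element -/
theorem GoodTo.succ (hθ : ∀ i ∈ θ.fv, ∃ j < ell, i = 2 * j)
    (hD : ∀ i ∈ D.fv, i = 1 ∨ ∃ j < ell, i = 2 * j) {k : ℕ} {v : ℕ → M}
    (h : GoodTo σ S ell θ D L k v) {y : M} (hy : y ∈ Dset σ S D v)
    (hg : L k = false → y ∉ acl σ S (par ell v ∪ prev v k)) :
    GoodTo σ S ell θ D L (k + 1) (update v (2 * k + 1) y) := by
  have hp : ∀ j < ell, v (2 * j) = update v (2 * k + 1) y (2 * j) := fun j _ => by
    rw [update_of_ne (by omega)]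
  have hd : ∀ n < k, v (2 * n + 1) = update v (2 * k + 1) y (2 * n + 1) := fun n hn => by
    rw [update_of_ne (by omega)]
  have h' := h.congr hθ hD hp hd
  refine ⟨h'.th, fun n hn => ?_, fun n hn hL => ?_⟩
  · rcases Nat.lt_succ_iff_lt_or_eq.1 hn with h1 | h1
    · exact h'.mem n h1
    · subst h1
      rw [update_self, ← dset_par hD hp]
      exact hy
  · rcases Nat.lt_succ_iff_lt_or_eq.1 hn with h1 | h1
    · exact h'.gen n h1 hL
    · subst h1
      rw [update_self, ← par_congr hp, ← prev_congr hd]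
      exact hg hL

/-- a set defined by a formula in the parameters and `d_0, ..., d_k` (as a set of values of `d_k`) -/
theorem df1_of_fv {k : ℕ} (v : ℕ → M) (χ : Fml)
    (h : ∀ i ∈ χ.fv, (∃ j < ell, i = 2 * j) ∨ ∃ n ≤ k, i = 2 * n + 1) :
    Df1 σ S (par ell v ∪ prev v k) {y | Sat σ S (update v (2 * k + 1) y) χ} := by
  refine (df1_of_fml χ v (2 * k + 1)).mono ?_
  rintro a ⟨i, ⟨hi, hik⟩, rfl⟩
  rcases h i hi with ⟨j, hj, rfl⟩ | ⟨n, hn, rfl⟩
  · exact Or.inl ⟨j, hj, rfl⟩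
  · refine Or.inr ⟨n, ?_, rfl⟩
    rcases Nat.lt_or_eq_of_le hn with h1 | h1
    · exact h1
    · exact absurd (by rw [h1]) hik

theorem df1_dset (hD : ∀ i ∈ D.fv, i = 1 ∨ ∃ j < ell, i = 2 * j) (v : ℕ → M) :
    Df1 σ S (par ell v) (Dset σ S D v) := by
  refine (df1_of_fml D v 1).mono ?_
  rintro a ⟨i, ⟨hi, hi1⟩, rfl⟩
  rcases hD i hi with h | ⟨j, hj, rfl⟩
  · exact absurd h hi1
  · exact ⟨j, hj, rfl⟩

end Pool.Agent.BLE
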