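import Pool.Agent.BLE.XExt
import Pool.Agent.BLE.XFv

/-!
# BLE / XRel: the prefix formula and good assignments (relative version)

Induction on `j` generalizing `k`, `v`.
`j = 0`: (→) `good_extend`; `Sat w φ` since `w` and `v` agree on `φ.fv` (`2n+1 ∈ φ.fv → n < k`),
`sat_congr`.  (←) the same.
`j + 1`: put `χ = preF (k+1) j φ`.
(→) `goodTo_extend` gives `y` with `GoodTo (k+1) (update v (2k+1) y)` and `Sat (update ..) χ`; the
induction hypothesis gives `w`, which agrees with `update v (2k+1) y` outside the `2n+1`, `n ≥ k+1`.
(←) let `w` be good, `Sat w φ`, `y = w (2k+1)`, `v' = update v (2k+1) y`.  `v'` is `GoodTo (k+1)`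
(`(hw.goodTo (k+1)).congr`), so `Sat v' χ` by the induction hypothesis (with the same `w`).  If
`L k = true`: `Sat v (Kq ..)` with the witness `y` (`sat_mem_update`).  If `L k = false`: by `hQ.inf` we
need that `X = {y' ∈ Dset v | Sat (update v (2k+1) y') χ}` is infinite; it contains `y`, it is definable
over `par ell v ∪ prev v k` (`df1_of_fv`: `fv_preF` shows that the free variables of `χ` are parameters or
free variables of `φ` which are not `2n+1` with `n > k`; those of `φ` are `pin`, so odd or `< 2 ell`;
`df1_dset`, `Df1.inter`, `Df1.mono`), and if it were finite then `y ∈ acl (par ell v ∪ prev v k)`, against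
`hw.gen k` (`par`, `prev` of `w` and of `v` agree).
-/

set_option autoImplicit false

namespace Pool.Agent.BLE

open Function

variable {σ : Sig} {M : Type} {S : Str M} {ell : ℕ} {θ D : Fml} {L : ℕ → Bool}

theorem sat_preF {k₀ : ℕ} (hg : GoodData σ S ell θ D k₀) (hs : SatG σ S Set.univ)
    {Q : ℕ → Fml → Fml} (hQ : QSpec σ S ell θ D Q) (k j : ℕ) (φ : Fml) (v : ℕ → M)
    (hv : GoodTo σ S ell θ D L k v) (hφ : ∀ n, 2 * n + 1 ∈ φ.fv → n < k + j)
    (hpin : ∀ i ∈ φ.fv, pin ell i = true) :
    Sat σ S v (preF Q D L k j φ) ↔
      ∃ w, (∀ i, (∀ n ≥ k, i ≠ 2 * n + 1) → w i = v i) ∧ Good σ S ell θ D L w ∧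
        Sat σ S w φ := by
  induction j generalizing k v with
  | zero =>
    simp only [preF]
    constructor
    · intro h
      obtain ⟨w, hw1, hw2⟩ := good_extend hg hs hv
      refine ⟨w, hw1, hw2, (sat_congr φ fun i hi => ?_).1 h⟩
      refine (hw1 i fun n hn hin => ?_).symm
      subst hin
      have := hφ n hi
      omega
    · rintro ⟨w, hw1, hw2, hw3⟩
      refine (sat_congr φ fun i hi => ?_).1 hw3
      refine hw1 i fun n hn hin => ?_
      subst hin
      have := hφ n hi
      omega
  | succ j ih =>
    simp only [preF]
    constructor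
    · intro h
      obtain ⟨y, hy1, hy2⟩ := goodTo_extend hg hs hQ hv _ h
      obtain ⟨w, hw1, hw2, hw3⟩ := (ih (k + 1) _ hy1 (fun n hn => by
        have := hφ n hn
        omega)).1 hy2
      refine ⟨w, fun i hi => ?_, hw2, hw3⟩
      rw [hw1 i fun n hn => hi n (by omega)]
      rw [update_of_ne (hi k le_rfl)]
    · rintro ⟨w, hw1, hw2, hw3⟩
      have hpar : ∀ j' < ell, w (2 * j') = v (2 * j') := fun j' _ =>
        hw1 _ fun n _ => by omega
      have hprev : ∀ n < k, w (2 * n + 1) = v (2 * n + 1) := fun n hn =>
        hw1 _ fun m hm => by omega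
      have hv' : GoodTo σ S ell θ D L (k + 1) (update v (2 * k + 1) (w (2 * k + 1))) := by
        refine GoodTo.congr hg.fvθ hg.fvD (hw2.goodTo (k + 1)) (fun j' hj' => ?_)
          fun n hn => ?_
        · rw [update_of_ne (by omega)]
          exact hpar j' hj'
        · rcases Nat.lt_succ_iff_lt_or_eq.1 hn with h | h
          · rw [update_of_ne (by omega)]
            exact hprev n h
          · subst h
            rw [update_self]
      have hχ : Sat σ S (update v (2 * k + 1) (w (2 * k + 1))) (preF Q D L (k + 1) j φ) := by
        refine (ih (k + 1) _ hv' (fun n hn => by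
          have := hφ n hn
          omega)).2 ⟨w, fun i hi => ?_, hw2, hw3⟩
        by_cases hik : i = 2 * k + 1
        · subst hik
          rw [update_self]
        · rw [update_of_ne hik]
          refine hw1 i fun n hn hin => ?_
          rcases Nat.eq_or_lt_of_le hn with h | h
          · subst h
            exact hik hin
          · exact hi n (by omega) hin
      have hxD : 2 * k + 1 = 1 ∨ 2 * k + 1 ∉ D.fv := by
        by_cases h1 : 2 * k + 1 = 1
        · exact Or.inl h1
        · right
          intro hm
          rcases hg.fvD _ hm with h | ⟨j', _, h⟩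
          · exact h1 h
          · omega
      have hyD : w (2 * k + 1) ∈ Dset σ S D v := by
        have h1 := hw2.mem k
        rwa [dset_congr (v := w) (w := v) fun i hi hi1 => ?_] at h1
        rcases hg.fvD i hi with h | ⟨j', hj', h⟩
        · exact absurd h hi1
        · rw [h]
          exact hpar j' hj'
      unfold Kq
      split_ifs with hL
      · rw [sat_ex]
        refine ⟨w (2 * k + 1), ?_⟩
        rw [sat_and]
        exact ⟨(sat_mem_update hxD _).2 hyD, hχ⟩
      · rw [hQ.inf k _ v hv.th]
        intro hfin
        refine hw2.gen k (by simpa using hL) ?_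
        rw [par_congr hpar, prev_congr hprev]
        refine ⟨{y | y ∈ Dset σ S D v ∧
          Sat σ S (update v (2 * k + 1) y) (preF Q D L (k + 1) j φ)}, ?_, hfin, hyD, hχ⟩
        refine Df1.inter ((df1_dset hg.fvD v).mono Set.subset_union_left) (df1_of_fv v _ ?_)
        intro i hi
        rcases fv_preF hg.fvD hQ (k + 1) j φ i hi with ⟨h1, h2⟩ | h
        · have h3 := hpin i h1
          simp only [pin, Bool.or_eq_true, decide_eq_true_eq] at h3
          rcases Nat.even_or_odd' i with ⟨c, hc | hc⟩
          · left
            exact ⟨c, by omega, hc⟩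
          · right
            refine ⟨c, ?_, hc⟩
            by_contra hck
            have h4 := hφ c (hc ▸ h1)
            exact h2 c (by omega) (by omega) hc
        · exact Or.inl h

end Pool.Agent.BLE
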