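import Pool.Agent.BLE.XStep
import Pool.Agent.BLE.XHdec
import Pool.Agent.BLE.XStepC
import Pool.Agent.DP.Iter

/-!
# BLE / XRun: the run of the construction

`Pool.Agent.DP.exists_iteration` with `P = StepR ..` (decidable by `stepR_dec`) and the invariant
`Hp σ S ell θ D (L s) (F c.unpair.1)`.
-/

set_option autoImplicit false

namespace Pool.Agent.BLE

open Function

variable {σ : Sig} {M : Type} {S : Str M} {T : Set Fml} {ell : ℕ} {θ D : Fml}

theorem exists_run (hσ : σ.Effective) (hT : CompleteTheory σ T) (hd : DecidableTheory T)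
    [Nonempty M] (hS : Models σ S T) (hs : SatG σ S Set.univ) {k₀ : ℕ}
    (hg : GoodData σ S ell θ D k₀) (hell : ell ≤ k₀ + 1) (J : ℕ → Prop) (A : ℕ → Str ℕ)
    (hA : UDecidable σ J A) {o : ℕ → ℕ} {L : ℕ → ℕ → Bool} (hsch : Sched k₀ o L) :
    ∃ c : ℕ → ℕ, Computable c ∧ ∀ s, Hp σ S ell θ D (L s) (F (c s).unpair.1) ∧
      StepR σ S ell θ D J A o L s (c s) (c (s + 1)) := by
  obtain ⟨Q, hQ, -⟩ := exists_Q hσ hT hd hS hg
  obtain ⟨v, hv⟩ := hg.ex
  have h0 : GoodTo σ S ell θ D (L 0) 0 v :=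
    ⟨hv, fun n hn => absurd hn (Nat.not_lt_zero n), fun n hn => absurd hn (Nat.not_lt_zero n)⟩
  obtain ⟨w, -, hw⟩ := good_extend hg hs h0
  have hc0 : Hp σ S ell θ D (L 0) (F (Nat.pair Fml.top.code 0).unpair.1) := by
    rw [Nat.unpair_pair, F_code]
    exact ⟨w, hw, sat_top⟩
  obtain ⟨c, hc, -, hcs⟩ := Pool.Agent.DP.exists_iteration (StepR σ S ell θ D J A o L)
    (stepR_dec hσ hT hd hS hs hg J A hA hsch)
    (fun s c => Hp σ S ell θ D (L s) (F c.unpair.1)) _ hc0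
    (fun s c h => step_exists hg hell hs hQ J A hsch s c h)
    (fun s c c' h hst => step_inv hg hsch s c c' h hst)
  exact ⟨c, hc, hcs⟩

end Pool.Agent.BLE
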