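import Pool.Agent.BLE.XRel
import Pool.Agent.BLE.SG

/-!
# BLE / XSen: the sentence hsen

`hsen` expresses that some good assignment satisfies `φ` (`sat_preF` with `k = 0`, `sat_exOut`); it is a sentence, so
by the completeness of `T` it holds iff it belongs to `T`.
-/

set_option autoImplicit false

namespace Pool.Agent.BLE

open Function

variable {σ : Sig} {M : Type} {S : Str M} {ell : ℕ} {θ D : Fml} {L : ℕ → Bool}

private theorem pin_odd (n : ℕ) : pin ell (2 * n + 1) = true := by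
  unfold pin
  rw [Bool.or_eq_true]
  left
  rw [decide_eq_true_eq]
  omega

private theorem pin_par {j : ℕ} (hj : j < ell) : pin ell (2 * j) = true := by
  unfold pin
  rw [Bool.or_eq_true]
  right
  rw [decide_eq_true_eq]
  omega

private theorem pin_cases {i : ℕ} (h : pin ell i = true) :
    (∃ n, i = 2 * n + 1) ∨ ∃ j < ell, i = 2 * j := by
  unfold pin at h
  rw [Bool.or_eq_true, decide_eq_true_eq, decide_eq_true_eq] at h
  by_cases h1 : i % 2 = 1
  · exact Or.inl ⟨i / 2, by omega⟩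
  · exact Or.inr ⟨i / 2, by omega, by omega⟩

private theorem exOut_lt (φ : Fml) (n : ℕ) (h : 2 * n + 1 ∈ (Fml.exOut (pin ell) φ).fv) :
    n < 0 + φ.code := by
  have h1 := fv_lt_code φ _ (fv_exOut _ _ _ h).1
  omega

theorem sat_hsen {k₀ : ℕ} (hg : GoodData σ S ell θ D k₀) (hs : SatG σ S Set.univ)
    {Q : ℕ → Fml → Fml} (hQ : QSpec σ S ell θ D Q) (φ : Fml) (u : ℕ → M) :
    Sat σ S u (hsen Q D θ L ell φ) ↔ Hp σ S ell θ D L φ := by
  unfold hsen
  rw [sat_exs]
  constructor
  · rintro ⟨v, -, hv⟩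
    rw [sat_and] at hv
    have hto : GoodTo σ S ell θ D L 0 v :=
      ⟨hv.1, fun n hn => absurd hn (Nat.not_lt_zero n), fun n hn => absurd hn (Nat.not_lt_zero n)⟩
    obtain ⟨w, -, hw, hwφ⟩ := (sat_preF hg hs hQ 0 φ.code (Fml.exOut (pin ell) φ) v hto
      (fun n hn => exOut_lt φ n hn) (fun i hi => (fv_exOut _ _ _ hi).2)).1 hv.2
    obtain ⟨w', hw', hw'φ⟩ := (sat_exOut _ _ _).1 hwφ
    refine ⟨w', hw.congr hg.fvθ hg.fvD (fun j hj => ?_) (fun n => ?_), hw'φ⟩
    · exact (hw' _ (pin_par hj)).symm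
    · exact (hw' _ (pin_odd n)).symm
  · rintro ⟨v, hv, hvφ⟩
    classical
    set v' : ℕ → M := fun i => if ∃ t < ell, 2 * t = i then v i else u i with hv'
    have hpar : ∀ j < ell, v' (2 * j) = v (2 * j) := by
      intro j hj
      rw [hv']
      simp only
      rw [if_pos ⟨j, hj, rfl⟩]
    refine ⟨v', fun i hi => ?_, ?_⟩
    · rw [hv']
      simp only
      rw [if_neg]
      rintro ⟨t, ht, hti⟩
      exact hi t ht hti
    · rw [sat_and]
      have hθ : Sat σ S v' θ := by
        refine (sat_congr θ fun i hi => ?_).1 hv.th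
        obtain ⟨j, hj, rfl⟩ := hg.fvθ i hi
        exact (hpar j hj).symm
      refine ⟨hθ, ?_⟩
      have hto : GoodTo σ S ell θ D L 0 v' :=
        ⟨hθ, fun n hn => absurd hn (Nat.not_lt_zero n), fun n hn => absurd hn (Nat.not_lt_zero n)⟩
      refine (sat_preF hg hs hQ 0 φ.code (Fml.exOut (pin ell) φ) v' hto
        (fun n hn => exOut_lt φ n hn) (fun i hi => (fv_exOut _ _ _ hi).2)).2 ?_
      set w : ℕ → M := fun i => if i % 2 = 1 then v i else v' i with hw
      have hwodd : ∀ n, w (2 * n + 1) = v (2 * n + 1) := by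
        intro n
        rw [hw]
        simp only
        rw [if_pos (by omega)]
      have hwev : ∀ j, w (2 * j) = v' (2 * j) := by
        intro j
        rw [hw]
        simp only
        rw [if_neg (by omega)]
      refine ⟨w, fun i hi => ?_, ?_, ?_⟩
      · rw [hw]
        simp only
        rw [if_neg]
        intro h1
        exact hi (i / 2) (Nat.zero_le _) (by omega)
      · refine hv.congr hg.fvθ hg.fvD (fun j hj => ?_) (fun n => (hwodd n).symm)
        rw [hwev, hpar j hj]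
      · rw [sat_exOut]
        refine ⟨v, fun i hi => ?_, hvφ⟩
        rcases pin_cases hi with ⟨n, rfl⟩ | ⟨j, hj, rfl⟩
        · exact (hwodd n).symm
        · rw [hwev, hpar j hj]

theorem fv_hsen {k₀ : ℕ} (hg : GoodData σ S ell θ D k₀)
    {Q : ℕ → Fml → Fml} (hQ : QSpec σ S ell θ D Q) (φ : Fml) :
    (hsen Q D θ L ell φ).fv = ∅ := by
  unfold hsen
  rw [fv_exs, Finset.sdiff_eq_empty_iff_subset]
  intro i hi
  have key : ∃ j < ell, i = 2 * j := by
    rw [fv_and, Finset.mem_union] at hi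
    rcases hi with hi | hi
    · exact hg.fvθ i hi
    · rcases fv_preF hg.fvD hQ 0 φ.code (Fml.exOut (pin ell) φ) i hi with ⟨h1, h2⟩ | h1
      · have h3 := fv_exOut _ _ _ h1
        rcases pin_cases h3.2 with ⟨n, rfl⟩ | h4
        · exact absurd rfl (h2 n (Nat.zero_le n) (exOut_lt φ n h1))
        · exact h4
      · exact h1
  obtain ⟨j, hj, rfl⟩ := key
  exact Finset.mem_image.2 ⟨j, Finset.mem_range.2 hj, rfl⟩

theorem hp_iff {T : Set Fml} (hT : CompleteTheory σ T) (hS : Models σ S T) [Nonempty M]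
    {k₀ : ℕ} (hg : GoodData σ S ell θ D k₀) (hs : SatG σ S Set.univ)
    {Q : ℕ → Fml → Fml} (hQ : QSpec σ S ell θ D Q) (φ : Fml) :
    Hp σ S ell θ D L φ ↔ hsen Q D θ L ell φ ∈ T := by
  obtain ⟨a⟩ := ‹Nonempty M›
  constructor
  · intro h
    by_contra hn
    rcases hT.complete (hsen Q D θ L ell φ) (fv_hsen hg hQ φ) with h1 | h1
    · exact hn h1
    · exact hS _ h1 (fun _ => a) ((sat_hsen hg hs hQ φ fun _ => a).2 h)
  · intro h
    exact (sat_hsen hg hs hQ φ fun _ => a).1 (hS _ h fun _ => a)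

end Pool.Agent.BLE
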