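import Pool.Agent.BLE.XLeave
import Pool.Agent.BLE.XDec
import Pool.Agent.BLE.SE

/-!
# BLE / XStep: a step is always possible
-/

set_option autoImplicit false

namespace Pool.Agent.BLE

open Function

variable {σ : Sig} {M : Type} {S : Str M} {ell : ℕ} {θ D : Fml}

private theorem L_eq {k₀ : ℕ} {o : ℕ → ℕ} {L : ℕ → ℕ → Bool} (hsch : Sched k₀ o L) (s : ℕ)
    (h : s % 3 ≠ 0 ∨ o (s / 3) = 0) : L (s + 1) = L s := by
  funext n
  have h1 := hsch.hL (s + 1) n
  have h2 := hsch.hL s n
  have h3 : (∃ t, 3 * t < s + 1 ∧ o t = n + 1) ↔ ∃ t, 3 * t < s ∧ o t = n + 1 := by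
    constructor
    · rintro ⟨t, ht, hot⟩
      refine ⟨t, ?_, hot⟩
      by_contra hlt
      have h4 : s = 3 * t := by omega
      rcases h with h | h
      · exact h (by omega)
      · have h5 : s / 3 = t := by omega
        rw [h5, hot] at h
        omega
    · rintro ⟨t, ht, hot⟩
      exact ⟨t, by omega, hot⟩
  have h6 : L (s + 1) n = true ↔ L s n = true := h1.trans (h3.trans h2.symm)
  cases h7 : L (s + 1) n <;> cases h8 : L s n <;> simp_all

theorem step_exists {k₀ : ℕ} (hg : GoodData σ S ell θ D k₀) (hell : ell ≤ k₀ + 1)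
    (hs : SatG σ S Set.univ) {Q : ℕ → Fml → Fml} (hQ : QSpec σ S ell θ D Q)
    (J : ℕ → Prop) (A : ℕ → Str ℕ) {o : ℕ → ℕ} {L : ℕ → ℕ → Bool} (hsch : Sched k₀ o L)
    (s c : ℕ) (h : Hp σ S ell θ D (L s) (F c.unpair.1)) :
    ∃ c', StepR σ S ell θ D J A o L s c c' := by
  have h3 : s % 3 = 0 ∨ s % 3 = 1 ∨ s % 3 = 2 := by omega
  rcases h3 with h3 | h3 | h3
  · by_cases ho : o (s / 3) = 0
    · refine ⟨Nat.pair c.unpair.1 0, ?_, fun _ h => absurd ho h, fun h => by omega,
        fun h => by omega, fun h => by omega⟩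
      intro _ _
      rw [Nat.unpair_pair]
    · obtain ⟨n, hn⟩ : ∃ n, o (s / 3) = n + 1 := ⟨o (s / 3) - 1, by omega⟩
      have hk : k₀ ≤ n := by
        have := hsch.ge _ ho
        omega
      have hL0 : ∀ i < k₀, L s i = false := by
        intro i hi
        rw [← Bool.not_eq_true]
        intro h1
        obtain ⟨t, -, ht⟩ := (hsch.hL s i).1 h1
        have := hsch.ge t (by omega)
        omega
      have hLn : L s n = false := by
        rw [← Bool.not_eq_true]
        intro h1
        obtain ⟨t, ht1, ht⟩ := (hsch.hL s n).1 h1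
        have h5 := hsch.inj t (s / 3) (by rw [ht, hn]) (by omega)
        omega
      have hL' : ∀ i, L (s + 1) i = true ↔ (L s i = true ∨ i = n) := by
        intro i
        rw [hsch.hL, hsch.hL]
        constructor
        · rintro ⟨t, ht, hot⟩
          by_cases hts : 3 * t < s
          · exact Or.inl ⟨t, hts, hot⟩
          · have h5 : s / 3 = t := by omega
            rw [← h5, hn] at hot
            exact Or.inr (by omega)
        · rintro (⟨t, ht, hot⟩ | rfl)
          · exact ⟨t, by omega, hot⟩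
          · exact ⟨s / 3, by omega, hn⟩
      obtain ⟨χ, hχ1, hχ2⟩ := leave_exists hg hs hQ J A (s / 3) n hk (by omega) hL0 hLn hL' _ h
      refine ⟨Nat.pair ((F c.unpair.1).and (hat n χ)).code χ.code, fun _ h => absurd h ho, ?_,
        fun h => by omega, fun h => by omega, fun h => by omega⟩
      intro _ _
      rw [Nat.unpair_pair]
      simp only [F_code]
      rw [hn, Nat.add_sub_cancel]
      exact ⟨rfl, hχ1, hχ2⟩
  · by_cases hd : Hp σ S ell θ D (L s) ((F c.unpair.1).and (F (s / 3)))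
    · refine ⟨Nat.pair ((F c.unpair.1).and (F (s / 3))).code 0, fun h => by omega,
        fun h => by omega, fun _ _ => ?_, fun _ h => absurd hd h, fun h => by omega⟩
      rw [Nat.unpair_pair]
      simp only [F_code]
    · refine ⟨Nat.pair ((F c.unpair.1).and (F (s / 3)).neg).code 0, fun h => by omega,
        fun h => by omega, fun _ h => absurd h hd, fun _ _ => ?_, fun h => by omega⟩
      rw [Nat.unpair_pair]
      simp only [F_code]
  · refine ⟨Nat.pair ((F c.unpair.1).and (henk ell (F c.unpair.1) (s / 3))).code 0,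
      fun h => by omega, fun h => by omega, fun h => by omega, fun h => by omega, fun _ => ?_⟩
    rw [Nat.unpair_pair]
    simp only [F_code]

/-- every step preserves the invariant -/
theorem step_inv {k₀ : ℕ} (hg : GoodData σ S ell θ D k₀) {J : ℕ → Prop} {A : ℕ → Str ℕ}
    {o : ℕ → ℕ} {L : ℕ → ℕ → Bool} (hsch : Sched k₀ o L)
    (s c c' : ℕ) (h : Hp σ S ell θ D (L s) (F c.unpair.1))
    (hst : StepR σ S ell θ D J A o L s c c') :
    Hp σ S ell θ D (L (s + 1)) (F c'.unpair.1) := by
  obtain ⟨h0, h1, h2, h2', h3⟩ := hst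
  have hm : s % 3 = 0 ∨ s % 3 = 1 ∨ s % 3 = 2 := by omega
  rcases hm with hm | hm | hm
  · by_cases ho : o (s / 3) = 0
    · rw [h0 hm ho, L_eq hsch s (Or.inr ho)]
      exact h
    · exact (h1 hm ho).2.1
  · rw [L_eq hsch s (Or.inl (by omega))]
    by_cases hd : Hp σ S ell θ D (L s) ((F c.unpair.1).and (F (s / 3)))
    · rw [h2 hm hd]
      exact hd
    · rw [h2' hm hd]
      exact (decide_exists h _).resolve_left hd
  · rw [L_eq hsch s (Or.inl (by omega)), h3 hm]
    exact henk_exists hg.fvθ hg.fvD h _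

/-- the committed formulas get stronger -/
theorem step_imp {J : ℕ → Prop} {A : ℕ → Str ℕ} {o : ℕ → ℕ} {L : ℕ → ℕ → Bool} (s c c' : ℕ)
    (hst : StepR σ S ell θ D J A o L s c c') (v : ℕ → M) (hv : Sat σ S v (F c'.unpair.1)) :
    Sat σ S v (F c.unpair.1) := by
  obtain ⟨h0, h1, h2, h2', h3⟩ := hst
  have hm : s % 3 = 0 ∨ s % 3 = 1 ∨ s % 3 = 2 := by omega
  rcases hm with hm | hm | hm
  · by_cases ho : o (s / 3) = 0
    · rw [h0 hm ho] at hv
      exact hv
    · rw [(h1 hm ho).1, sat_and] at hv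
      exact hv.1
  · by_cases hd : Hp σ S ell θ D (L s) ((F c.unpair.1).and (F (s / 3)))
    · rw [h2 hm hd, sat_and] at hv
      exact hv.1
    · rw [h2' hm hd, sat_and] at hv
      exact hv.1
  · rw [h3 hm, sat_and] at hv
    exact hv.1

end Pool.Agent.BLE
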